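import Pool.Agent.H10.GM.Targets2

/-!
# (MSH) the recursion for graphs without a mesh
-/

set_option autoImplicit false

namespace Pool.Agent.H34.GM

open Pool.Agent.H55.GW Pool.Agent.H10.GM

theorem pf_MSH (hMSA : T_MSA) (hMSB : T_MSB) (hNLS : T_NLS) : T_MSH := by
  intro V _ E hE k h hno C
  induction hn : C.ncard using Nat.strong_induction_on generalizing C with
  | _ n ih =>
    intro hC
    obtain ⟨⟨U, T, hP⟩, hh⟩ := hC
    -- the step for a set `S` which meets `C`
    have step : ∀ S : Set V, (S ∩ C).Nonempty → (Nb E C ∪ (S ∩ C)).ncard ≤ h + k →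
        (∀ C', Cmp E C S C' → PreH E h C') → HN E (h + k) C := by
      intro S hS hcard hcmp
      refine hNLS V E hE (h + k) C S hP.cnC.1 hcard fun C' hC' => ?_
      refine ih C'.ncard ?_ C' rfl (hcmp C' hC')
      rw [← hn]
      refine Set.ncard_lt_ncard ?_ (Set.toFinite _)
      refine ⟨fun x hx => (hC'.sub hx).1, fun h1 => ?_⟩
      obtain ⟨x, hx, hx'⟩ := hS
      exact (hC'.sub (h1 hx')).2 hx
    rcases Nat.lt_or_ge (Nb E C).ncard h with hlt | hge
    · obtain ⟨v, hv, hv'⟩ := hMSA V E hE h C ⟨U, T, hP⟩ hlt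
      refine step {v} ⟨v, rfl, hv⟩ ?_ hv'
      have h1 := Set.ncard_union_le (Nb E C) ({v} ∩ C)
      have h2 : ({v} ∩ C).ncard ≤ ({v} : Set V).ncard :=
        Set.ncard_le_ncard Set.inter_subset_left (Set.toFinite _)
      rw [Set.ncard_singleton] at h2
      omega
    · have he : (Nb E C).ncard = h := le_antisymm hh hge
      obtain ⟨S, hS, hSC, hS'⟩ := hMSB V E hE k h C U T hP he (hno C U T)
      refine step S hSC ?_ hS'
      have h1 := Set.ncard_union_le (Nb E C) (S ∩ C)
      have h2 : (S ∩ C).ncard ≤ S.ncard :=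
        Set.ncard_le_ncard Set.inter_subset_left (Set.toFinite _)
      omega

end Pool.Agent.H34.GM
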