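import Pool.Agent.H10.GM.Targets1

/-!
# (SPL) many pieces of a subcubic connected graph
-/

set_option autoImplicit false

namespace Pool.Agent.H34.GM

open Pool.Agent.H55.GW Pool.Agent.H10.GM

theorem pf_SPL (hSPA : T_SPA) : T_SPL := by
  intro k m V _ E hE U X hk
  induction m generalizing U with
  | zero =>
    intro _ _ _
    exact ⟨fun _ => ∅, fun i hi => absurd hi (Nat.not_lt_zero i),
      fun i hi => absurd hi (Nat.not_lt_zero i)⟩
  | succ m ih =>
    intro hU hd hc
    have h3 : 3 * k * (m + 1) = 3 * k * m + 3 * k := by ring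
    rw [h3] at hc
    obtain ⟨A₀, hA, hAU, hAk, hA3, hor⟩ :=
      hSPA k V E hE U X hk hU hd (le_trans (Nat.le_add_left _ _) hc)
    have hsub : U ∩ X ⊆ (A₀ ∩ X) ∪ ((U \ A₀) ∩ X) := by
      rintro x ⟨hx, hx'⟩
      by_cases h : x ∈ A₀
      · exact Or.inl ⟨h, hx'⟩
      · exact Or.inr ⟨⟨hx, h⟩, hx'⟩
    have hle : (U ∩ X).ncard ≤ (A₀ ∩ X).ncard + ((U \ A₀) ∩ X).ncard :=
      (Set.ncard_le_ncard hsub (Set.toFinite _)).trans (Set.ncard_union_le _ _)
    have hU' : 3 * k * m ≤ ((U \ A₀) ∩ X).ncard := by omega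
    rcases Nat.eq_zero_or_pos m with hm | hm
    · subst hm
      refine ⟨fun _ => A₀, fun i _ => ⟨hA, hAU, hAk⟩, fun i hi j hj hij => ?_⟩
      omega
    · have hpos : 0 < 3 * k * m := by positivity
      have hne : ((U \ A₀) ∩ X).Nonempty := by
        rw [← Set.ncard_pos (Set.toFinite _)]
        exact lt_of_lt_of_le hpos hU'
      have hcn : Cn E (U \ A₀) := by
        refine hor.resolve_left fun h0 => ?_
        obtain ⟨x, hx, _⟩ := hne
        rw [h0] at hx
        exact hx
      have hd' : ∀ u ∈ U \ A₀, dg E (U \ A₀) u ≤ 3 := by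
        intro u hu
        refine le_trans ?_ (hd u hu.1)
        unfold dg
        exact Set.ncard_le_ncard (fun v hv => ⟨hv.1.1, hv.2⟩) (Set.toFinite _)
      obtain ⟨A, hAA, hdj⟩ := ih (U \ A₀) hcn hd' hU'
      have hdis : ∀ i < m, Disjoint A₀ (A i) := fun i hi =>
        Set.disjoint_left.2 fun x hx hx' => ((hAA i hi).2.1 hx').2 hx
      refine ⟨fun i => Nat.casesOn i A₀ A, ?_, ?_⟩
      · rintro (_ | i) hi
        · exact ⟨hA, hAU, hAk⟩
        · have h1 := hAA i (by omega)
          exact ⟨h1.1, h1.2.1.trans Set.sdiff_subset, h1.2.2⟩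
      · rintro (_ | i) hi (_ | j) hj hij
        · exact absurd rfl hij
        · exact hdis j (by omega)
        · exact (hdis i (by omega)).symm
        · exact hdj i (by omega) j (by omega) (by omega)

end Pool.Agent.H34.GM
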