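import Pool.Agent.H34.GM.Targets2

/-!
Row MSR: measurability and countability.
-/

namespace Pool.Agent.H34.GM

open MeasureTheory

lemma msr_entry {m : ℕ} (i j : Fin m) : Measurable (fun z : V m => z i j) :=
  (measurable_pi_apply j).comp (measurable_pi_apply i)

lemma msr_cmt {m : ℕ} : Continuous (fun z : V m => mt z) := by
  exact continuous_id

lemma msr_det {m : ℕ} : Measurable (fun z : V m => (mt z).det) := by
  have : Continuous (fun z : V m => (mt z).det) := (msr_cmt (m := m)).matrix_det
  exact this.measurable

lemma msr_adj {m : ℕ} (i j : Fin m) : Measurable (fun z : V m => (mt z).adjugate i j) := by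
  have h : Continuous (fun z : V m => (mt z).adjugate) := (msr_cmt (m := m)).matrix_adjugate
  exact (h.matrix_elem i j).measurable

lemma msr_inv_entry {m : ℕ} (i j : Fin m) : Measurable (fun z : V m => (mt z)⁻¹ i j) := by
  have h : (fun z : V m => (mt z)⁻¹ i j) =
      fun z : V m => ((mt z).det)⁻¹ * (mt z).adjugate i j := by
    funext z
    rw [Matrix.inv_def, Matrix.smul_apply, smul_eq_mul, Ring.inverse_eq_inv']
  rw [h]
  exact (msr_det.inv).mul (msr_adj i j)

lemma msr_pi {m : ℕ} {X : Type*} [MeasurableSpace X] (f : X → Fin m → Fin m → ℝ)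
    (h : ∀ i j, Measurable (fun x => f x i j)) : Measurable (fun x => (f x : V m)) := by
  refine measurable_pi_lambda _ (fun i => measurable_pi_lambda _ (fun j => h i j))

lemma msr_aN {m : ℕ} : Measurable (fun z : V m => aN (mt z)) := by
  unfold aN
  have h : Measurable (fun z : V m => |(mt z).det|) := by
    have h1 : Continuous (fun z : V m => |(mt z).det|) :=
      ((msr_cmt (m := m)).matrix_det).abs
    exact h1.measurable
  exact h.pow_const _

lemma msr_sz {m : ℕ} : Measurable (fun z : V m => sz (mt z)) := by
  have : (fun z : V m => sz (mt z)) = fun z : V m => ‖z‖ := by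
    funext z
    rfl
  rw [this]
  exact measurable_norm

lemma msr_sf {m : ℕ} : SigmaFinite (hm m) := by
  unfold hm
  have h1 : Measurable (fun z : V m => |(mt z).det|) := by
    have h1 : Continuous (fun z : V m => |(mt z).det|) :=
      ((msr_cmt (m := m)).matrix_det).abs
    exact h1.measurable
  have h2 : Measurable (fun z : V m => ENNReal.ofReal ((|(mt z).det| ^ m)⁻¹)) :=
    ((h1.pow_const m).inv).ennreal_ofReal
  exact SigmaFinite.withDensity_of_ne_top (Filter.Eventually.of_forall (fun z =>
    ENNReal.ofReal_ne_top))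

lemma msr_kk {m : ℕ} (r : ℝ) (α : Mat m) : Measurable (fun p : V m × V m =>
    ((fun i j => kk r (mt p.1) α (mt p.2) i j) : V m)) := by
  refine msr_pi _ (fun i j => ?_)
  have h : (fun p : V m × V m => kk r (mt p.1) α (mt p.2) i j) =
      fun p : V m × V m => (r⁻¹ * aN (mt p.1) / aN (mt p.2)) *
        ∑ k, (∑ l, (mt p.1)⁻¹ i l * α l k) * p.2 k j := by
    funext p
    unfold kk
    rw [Matrix.smul_apply, smul_eq_mul, Matrix.mul_apply]
    simp only [Matrix.mul_apply, Matrix.of_apply]
  rw [h]
  have h1 : Measurable (fun p : V m × V m => aN (mt p.1)) := msr_aN.comp measurable_fst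
  have h2 : Measurable (fun p : V m × V m => aN (mt p.2)) := msr_aN.comp measurable_snd
  refine ((h1.const_mul _).div h2).mul ?_
  refine Finset.measurable_sum _ (fun k _ => ?_)
  refine Measurable.mul ?_ ((msr_entry k j).comp measurable_snd)
  refine Finset.measurable_sum _ (fun l _ => ?_)
  exact ((msr_inv_entry i l).comp measurable_fst).mul_const _

lemma msr_shell {m : ℕ} : MeasurableSet (Shell m) := by
  unfold Shell
  exact (measurableSet_le measurable_const msr_aN).inter
    (measurableSet_lt msr_aN measurable_const)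

lemma msr_countO (m : ℕ) (O : Subring (Mat m)) (b : Module.Basis (Fin m × Fin m) ℝ (Mat m))
    (h : DivOrder m O b) : Countable O := by
  classical
  have hc : ∀ x : O, ∃ f : Fin m × Fin m → ℤ, ∀ i, b.repr (x : Mat m) i = f i := by
    intro x
    have := (h.lat (x : Mat m)).1 x.2
    choose f hf using this
    exact ⟨f, hf⟩
  choose f hf using hc
  have hinj : Function.Injective f := by
    intro x y hxy
    apply Subtype.ext
    apply b.repr.injective
    ext i
    rw [hf x i, hf y i, hxy]
  exact hinj.countable

lemma msr_countD (m : ℕ) (O : Subring (Mat m)) (b : Module.Basis (Fin m × Fin m) ℝ (Mat m))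
    (h : DivOrder m O b) : Countable (Dual O) := by
  classical
  have hb : ∀ i, b i ∈ O := by
    intro i
    rw [h.lat]
    intro j
    rw [Module.Basis.repr_self]
    by_cases hij : i = j
    · exact ⟨1, by simp [hij]⟩
    · exact ⟨0, by simp [hij]⟩
  have hc : ∀ x : Dual O, ∃ f : Fin m × Fin m → ℤ, ∀ i, ((x : Mat m) * b i).trace = f i := by
    intro x
    have hx := x.2
    choose f hf using fun i => hx (b i) (hb i)
    exact ⟨f, hf⟩
  choose f hf using hc
  have hinj : Function.Injective f := by
    intro x y hxy
    apply Subtype.ext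
    have h0 : ∀ i, (((x : Mat m) - (y : Mat m)) * b i).trace = 0 := by
      intro i
      rw [Matrix.sub_mul, Matrix.trace_sub, hf x i, hf y i, hxy, sub_self]
    have h1 : ∀ w : Mat m, (((x : Mat m) - (y : Mat m)) * w).trace = 0 := by
      intro w
      rw [← b.sum_repr w, Matrix.mul_sum, Matrix.trace_sum]
      refine Finset.sum_eq_zero (fun i _ => ?_)
      rw [Matrix.mul_smul, Matrix.trace_smul, h0 i, smul_zero]
    have h2 := h1 ((x : Mat m) - (y : Mat m)).transpose
    have h3 : ((x : Mat m) - (y : Mat m)) = 0 := by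
      ext i j
      rw [Matrix.trace] at h2
      simp only [Matrix.diag_apply, Matrix.mul_apply, Matrix.transpose_apply] at h2
      have h4 : ∀ i ∈ Finset.univ, (0 : ℝ) ≤ ∑ j, ((x : Mat m) - (y : Mat m)) i j *
          ((x : Mat m) - (y : Mat m)) i j := by
        intro i _
        exact Finset.sum_nonneg (fun j _ => mul_self_nonneg _)
      have h5 := (Finset.sum_eq_zero_iff_of_nonneg h4).1 h2 i (Finset.mem_univ i)
      have h6 := (Finset.sum_eq_zero_iff_of_nonneg
        (fun j _ => mul_self_nonneg (((x : Mat m) - (y : Mat m)) i j))).1 h5 j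
        (Finset.mem_univ j)
      exact mul_self_eq_zero.1 h6
    exact sub_eq_zero.1 h3
  exact hinj.countable

theorem pf_MSR : T_MSR := by
  refine ⟨fun m => ⟨msr_pi _ (fun i j => msr_inv_entry i j), msr_det, msr_aN, msr_sz, msr_sf,
    msr_shell, msr_kk, fun Φ h => (h.comp msr_cmt).measurable⟩, ?_, msr_countD⟩
  intro m O b h
  have h1 := msr_countO m O b h
  refine ⟨h1, ?_⟩
  have : UnitsOf O ⊆ (O : Set (Mat m)) := fun x hx => hx.1
  have h2 : (O : Set (Mat m)).Countable := h1
  exact (h2.mono this).to_subtype

end Pool.Agent.H34.GM
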