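import Pool.Agent.H34.GM.Targets2

/-!
Row MEL of the board gm4: the Mellin transform of the eigenvalue.
-/

set_option autoImplicit false

namespace Pool.Agent.H34.GM

open MeasureTheory

namespace MEL

/-- a power of `n ^ (-1/m)` -/
theorem pow_b {m n : ℕ} (hm : 1 ≤ m) (hn : 1 ≤ n) (w : ℂ) :
    (((n : ℝ) ^ (-(1 / (m : ℝ))) : ℝ) : ℂ) ^ ((m : ℂ) * w) = (n : ℂ) ^ (-w) := by
  have hn0 : (0 : ℝ) < n := by exact_mod_cast hn
  have hb : 0 < (n : ℝ) ^ (-(1 / (m : ℝ))) := Real.rpow_pos_of_pos hn0 _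
  have hnC : (n : ℂ) ≠ 0 := by exact_mod_cast hn0.ne'
  have hmC : (m : ℂ) ≠ 0 := by exact_mod_cast (by omega : m ≠ 0)
  rw [Complex.cpow_def_of_ne_zero (by exact_mod_cast hb.ne'), Complex.cpow_def_of_ne_zero hnC,
    ← Complex.ofReal_log hb.le, Real.log_rpow hn0, Complex.ofReal_mul, Complex.natCast_log]
  congr 1
  push_cast
  field_simp

theorem main {m : ℕ} (hm : 1 ≤ m) (g : ℝ → ℂ) (w : ℂ)
    (hg : IntegrableOn (fun r : ℝ => g r * (r : ℂ) ^ (-((m : ℂ) * w) - 1)) (Set.Ioi 0))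
    (n : ℕ) (hn : 1 ≤ n) (c : ℂ) :
    IntegrableOn (fun r : ℝ => c * g (r * (n : ℝ) ^ (-(1 / (m : ℝ)))) *
      (r : ℂ) ^ (-((m : ℂ) * w) - 1)) (Set.Ioi 0) ∧
    ∫ r in Set.Ioi (0 : ℝ), c * g (r * (n : ℝ) ^ (-(1 / (m : ℝ)))) *
      (r : ℂ) ^ (-((m : ℂ) * w) - 1) =
      c * (n : ℂ) ^ (-w) * ∫ r in Set.Ioi (0 : ℝ), g r * (r : ℂ) ^ (-((m : ℂ) * w) - 1) ∧
    ∫ r in Set.Ioi (0 : ℝ), ‖c * g (r * (n : ℝ) ^ (-(1 / (m : ℝ)))) *
      (r : ℂ) ^ (-((m : ℂ) * w) - 1)‖ =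
      ‖c * (n : ℂ) ^ (-w)‖ * ∫ r in Set.Ioi (0 : ℝ), ‖g r * (r : ℂ) ^ (-((m : ℂ) * w) - 1)‖ := by
  have hn0 : (0 : ℝ) < n := by exact_mod_cast hn
  set b : ℝ := (n : ℝ) ^ (-(1 / (m : ℝ))) with hb'
  have hb : 0 < b := Real.rpow_pos_of_pos hn0 _
  have hbC : (b : ℂ) ≠ 0 := by exact_mod_cast hb.ne'
  set e : ℂ := -((m : ℂ) * w) - 1 with he
  set G : ℝ → ℂ := fun r => g r * (r : ℂ) ^ e with hG
  have hρ : (b : ℂ) ^ (-e) * (b : ℂ)⁻¹ = (n : ℂ) ^ (-w) := by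
    rw [← pow_b hm hn w, ← Complex.cpow_neg_one, ← Complex.cpow_add _ _ hbC]
    congr 1
    rw [he]
    ring
  have hpt : ∀ r ∈ Set.Ioi (0 : ℝ), c * g (r * b) * (r : ℂ) ^ e =
      c * (b : ℂ) ^ (-e) * G (r * b) := by
    intro r hr
    have hr0 : (0 : ℝ) < r := hr
    simp only [hG]
    rw [Complex.ofReal_mul, Complex.mul_cpow_ofReal_nonneg hr0.le hb.le]
    have h1 : (b : ℂ) ^ (-e) * (b : ℂ) ^ e = 1 := by
      rw [← Complex.cpow_add _ _ hbC, neg_add_cancel, Complex.cpow_zero]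
    calc c * g (r * b) * (r : ℂ) ^ e =
        c * g (r * b) * (r : ℂ) ^ e * ((b : ℂ) ^ (-e) * (b : ℂ) ^ e) := by
          rw [h1, mul_one]
      _ = _ := by ring
  have hint : IntegrableOn (fun r => G (r * b)) (Set.Ioi 0) := by
    rw [integrableOn_Ioi_comp_mul_right_iff G 0 hb, zero_mul]
    exact hg
  refine ⟨?_, ?_, ?_⟩
  · refine IntegrableOn.congr_fun (hint.const_mul (c * (b : ℂ) ^ (-e))) (fun r hr => ?_)
      measurableSet_Ioi
    exact (hpt r hr).symm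
  · rw [setIntegral_congr_fun measurableSet_Ioi hpt, integral_const_mul,
      integral_comp_mul_right_Ioi G 0 hb, zero_mul, ← hρ, Complex.real_smul]
    push_cast
    ring
  · have h2 : ∀ r ∈ Set.Ioi (0 : ℝ), ‖c * g (r * b) * (r : ℂ) ^ e‖ =
        ‖c * (b : ℂ) ^ (-e)‖ * (fun t => ‖G t‖) (r * b) := by
      intro r hr
      rw [hpt r hr, norm_mul]
    rw [setIntegral_congr_fun measurableSet_Ioi h2, integral_const_mul,
      integral_comp_mul_right_Ioi (fun t => ‖G t‖) 0 hb, zero_mul, ← hρ, smul_eq_mul, norm_mul,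
      norm_mul, norm_mul, norm_inv, Complex.norm_real, Real.norm_eq_abs, abs_of_pos hb]
    ring

end MEL

open MEL in
open Classical in
theorem pf_MEL : T_TH1 → T_ZMT → T_MEL := by
  intro _ hZ m q Φ mu lam hm hΦ hmu C hC s hs
  obtain ⟨-, hZ2⟩ := hZ m Φ mu hm hΦ hmu
  obtain ⟨hI, hE⟩ := hZ2 s
  set w : ℂ := s + ((m : ℂ) - 1) / 2 with hw
  have hm1 : (1 : ℝ) ≤ m := by exact_mod_cast hm
  have hwre : w.re = s.re + ((m : ℝ) - 1) / 2 := by
    rw [hw, Complex.add_re]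
    congr 1
    have : ((m : ℂ) - 1) / 2 = ((((m : ℝ) - 1) / 2 : ℝ) : ℂ) := by push_cast; ring
    rw [this, Complex.ofReal_re]
  -- the coefficients
  set c : ℕ → ℂ := fun n =>
    if 1 ≤ n ∧ n.Coprime q then (n : ℂ) ^ (((m : ℂ) - 1) / 2) * lam n else 0
    with hc
  have hcn : ∀ n, ‖c n * (n : ℂ) ^ (-w)‖ ≤ |C| * (n : ℝ) ^ ((m : ℝ) - w.re) := by
    intro n
    simp only [hc]
    split_ifs with h
    · have hn0 : (0 : ℝ) < n := by exact_mod_cast h.1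
      rw [norm_mul, Complex.norm_natCast_cpow_of_pos (by omega), Complex.neg_re,
        show (m : ℝ) - w.re = (m : ℝ) + (-w.re) by ring,
        Real.rpow_add hn0, Real.rpow_natCast, ← mul_assoc]
      refine mul_le_mul_of_nonneg_right ?_ (Real.rpow_nonneg hn0.le _)
      refine (hC n h.1 h.2).trans ?_
      gcongr
      exact le_abs_self C
    · rw [zero_mul, norm_zero]
      positivity
  have hsum : Summable fun n : ℕ => |C| * (n : ℝ) ^ ((m : ℝ) - w.re) := by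
    refine Summable.mul_left _ ?_
    rw [Real.summable_nat_rpow, hwre]
    linarith
  have hterm : ∀ n : ℕ, c n * (n : ℂ) ^ (-w) =
      if 1 ≤ n ∧ n.Coprime q then lam n * (n : ℂ) ^ (-s) else 0 := by
    intro n
    simp only [hc]
    split_ifs with h
    · have hnC : (n : ℂ) ≠ 0 := by exact_mod_cast (by omega : n ≠ 0)
      have h1 : (n : ℂ) ^ (-s) = (n : ℂ) ^ (((m : ℂ) - 1) / 2) * (n : ℂ) ^ (-w) := by
        rw [← Complex.cpow_add _ _ hnC]
        congr 1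
        rw [hw]
        ring
      rw [h1]
      ring
    · rw [zero_mul]
  have hS : Summable fun n : ℕ => c n * (n : ℂ) ^ (-w) :=
    Summable.of_norm_bounded hsum hcn
  refine ⟨by simpa only [hterm] using hS, ?_⟩
  -- the integral
  set e : ℂ := -((m : ℂ) * w) - 1 with he
  set K : ℝ := ∫ r in Set.Ioi (0 : ℝ), ‖th1 Φ mu r * (r : ℂ) ^ e‖ with hK
  set F : ℕ → ℝ → ℂ := fun n r => c n * th1 Φ mu (r * (n : ℝ) ^ (-(1 / (m : ℝ)))) * (r : ℂ) ^ e
    with hF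
  have hF1 : ∀ n, IntegrableOn (F n) (Set.Ioi 0) ∧
      ∫ r in Set.Ioi (0 : ℝ), F n r = c n * (n : ℂ) ^ (-w) * Zf Φ mu s ∧
      ∫ r in Set.Ioi (0 : ℝ), ‖F n r‖ = ‖c n * (n : ℂ) ^ (-w)‖ * K := by
    intro n
    by_cases hn : 1 ≤ n
    · obtain ⟨h1, h2, h3⟩ := main hm (th1 Φ mu) w hI n hn (c n)
      exact ⟨h1, by rw [← hE]; exact h2, h3⟩
    · have h0 : c n = 0 := by
        simp only [hc]
        rw [if_neg (fun h => hn h.1)]
      have h1 : F n = fun _ => 0 := by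
        funext r
        simp only [hF, h0, zero_mul]
      rw [h1, h0]
      simp
  have hlm : Lm q Φ mu lam s = ∫ r in Set.Ioi (0 : ℝ), ∑' n, F n r := by
    unfold Lm
    refine integral_congr_ae (Filter.Eventually.of_forall fun r => ?_)
    simp only [thF, hF, hc, ite_mul, zero_mul]
    rw [← tsum_mul_right]
    refine tsum_congr fun n => ?_
    split_ifs <;> simp [he, hw]
  have hsn : Summable fun n => ∫ r in Set.Ioi (0 : ℝ), ‖F n r‖ := by
    simp only [fun n => (hF1 n).2.2]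
    exact (hS.norm).mul_right K
  have hfin := hasSum_integral_of_summable_integral_norm (fun n => (hF1 n).1) hsn
  rw [hlm, ← hfin.tsum_eq]
  simp only [fun n => (hF1 n).2.1]
  rw [tsum_mul_right]
  simp only [hterm]

end Pool.Agent.H34.GM
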