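import Pool.Agent.H34.GM.Targets

/-!
Row HAC of gmf_modules (MP_52e316_nt): invariance of the Haar measure for complex integrals.
-/

set_option autoImplicit false

namespace Pool.Agent.H34.GM

open MeasureTheory

/-- left multiplication -/
def hac_lm {m : ℕ} (a : Mat m) (z : V m) : V m := fun i j => (a * mt z) i j

/-- right multiplication -/
def hac_rm {m : ℕ} (a : Mat m) (z : V m) : V m := fun i j => (mt z * a) i j

theorem hac_meas_lm {m : ℕ} (a : Mat m) : Measurable (hac_lm a) := by
  have h : Continuous (hac_lm a) := by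
    unfold hac_lm
    refine continuous_pi fun i => continuous_pi fun j => ?_
    simp only [Matrix.mul_apply, Pool.Agent.H34.GM.mt, Matrix.of_apply]
    fun_prop
  exact h.measurable

theorem hac_meas_rm {m : ℕ} (a : Mat m) : Measurable (hac_rm a) := by
  have h : Continuous (hac_rm a) := by
    unfold hac_rm
    refine continuous_pi fun i => continuous_pi fun j => ?_
    simp only [Matrix.mul_apply, Pool.Agent.H34.GM.mt, Matrix.of_apply]
    fun_prop
  exact h.measurable


/-- left multiplication as a measurable equivalence -/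
noncomputable def hac_le {m : ℕ} (a : Mat m) (ha : a.det ≠ 0) : V m ≃ᵐ V m where
  toFun := hac_lm a
  invFun := hac_lm a⁻¹
  left_inv := by
    intro z
    have : a⁻¹ * (a * mt z) = mt z := by
      rw [← Matrix.mul_assoc, Matrix.nonsing_inv_mul _ (isUnit_iff_ne_zero.2 ha), Matrix.one_mul]
    funext i j
    show (a⁻¹ * (a * mt z)) i j = z i j
    rw [this]; rfl
  right_inv := by
    intro z
    have : a * (a⁻¹ * mt z) = mt z := by
      rw [← Matrix.mul_assoc, Matrix.mul_nonsing_inv _ (isUnit_iff_ne_zero.2 ha), Matrix.one_mul]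
    funext i j
    show (a * (a⁻¹ * mt z)) i j = z i j
    rw [this]; rfl
  measurable_toFun := hac_meas_lm a
  measurable_invFun := hac_meas_lm a⁻¹

/-- right multiplication as a measurable equivalence -/
noncomputable def hac_re {m : ℕ} (a : Mat m) (ha : a.det ≠ 0) : V m ≃ᵐ V m where
  toFun := hac_rm a
  invFun := hac_rm a⁻¹
  left_inv := by
    intro z
    have : (mt z * a) * a⁻¹ = mt z := by
      rw [Matrix.mul_assoc, Matrix.mul_nonsing_inv _ (isUnit_iff_ne_zero.2 ha), Matrix.mul_one]
    funext i j
    show ((mt z * a) * a⁻¹) i j = z i j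
    rw [this]; rfl
  right_inv := by
    intro z
    have : (mt z * a⁻¹) * a = mt z := by
      rw [Matrix.mul_assoc, Matrix.nonsing_inv_mul _ (isUnit_iff_ne_zero.2 ha), Matrix.mul_one]
    funext i j
    show ((mt z * a⁻¹) * a) i j = z i j
    rw [this]; rfl
  measurable_toFun := hac_meas_rm a
  measurable_invFun := hac_meas_rm a⁻¹

theorem hac_cont_det {m : ℕ} : Continuous (fun z : V m => (mt z).det) :=
  Continuous.matrix_det (continuous_id : Continuous (fun z : V m => (mt z : Mat m)))

theorem hac_meas_inv {m : ℕ} : Measurable (fun z : V m => ((fun i j => ((mt z)⁻¹) i j) : V m)) := by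
  refine measurable_pi_iff.2 fun i => measurable_pi_iff.2 fun j => ?_
  have h : (fun z : V m => ((mt z)⁻¹) i j) = fun z : V m => ((mt z).det)⁻¹ * (mt z).adjugate i j := by
    funext z
    rw [Matrix.inv_def]
    simp [Ring.inverse_eq_inv']
  have hc : Continuous (fun z : V m => (mt z).adjugate) :=
    Continuous.matrix_adjugate (continuous_id : Continuous (fun z : V m => (mt z : Mat m)))
  have hc' : Continuous (fun z : V m => (mt z).adjugate i j) :=
    (continuous_apply j).comp ((continuous_apply i).comp hc)
  show Measurable (fun z : V m => ((mt z)⁻¹) i j)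
  rw [h]
  exact (hac_cont_det.measurable.inv).mul hc'.measurable

open Classical in
/-- the inversion, the identity on singular matrices -/
noncomputable def hac_iv {m : ℕ} (z : V m) : V m :=
  if (mt z).det = 0 then z else fun i j => ((mt z)⁻¹) i j

theorem hac_meas_iv {m : ℕ} : Measurable (hac_iv (m := m)) := by
  unfold hac_iv
  refine Measurable.ite ?_ measurable_id hac_meas_inv
  exact hac_cont_det.measurable (measurableSet_singleton 0)

theorem hac_iv_iv {m : ℕ} (z : V m) : hac_iv (hac_iv z) = z := by
  by_cases h : (mt z).det = 0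
  · have : hac_iv z = z := by unfold hac_iv; rw [if_pos h]
    rw [this, this]
  · have h1 : hac_iv z = fun i j => ((mt z)⁻¹) i j := by unfold hac_iv; rw [if_neg h]
    have h2 : mt (hac_iv z) = (mt z)⁻¹ := by rw [h1]; rfl
    have h3 : (mt (hac_iv z)).det ≠ 0 := by
      rw [h2, Matrix.det_nonsing_inv]
      simpa [Ring.inverse_eq_inv'] using h
    have h4 : hac_iv (hac_iv z) = fun i j => ((mt (hac_iv z))⁻¹) i j := by
      conv_lhs => unfold hac_iv
      rw [if_neg]
      · rfl
      · exact h3
    rw [h4, h2, Matrix.nonsing_inv_nonsing_inv _ (isUnit_iff_ne_zero.2 h)]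
    rfl

/-- the inversion as a measurable equivalence -/
noncomputable def hac_ie {m : ℕ} : V m ≃ᵐ V m where
  toFun := hac_iv
  invFun := hac_iv
  left_inv := hac_iv_iv
  right_inv := hac_iv_iv
  measurable_toFun := hac_meas_iv
  measurable_invFun := hac_meas_iv

theorem hac_mp_of {m : ℕ} (e : V m ≃ᵐ V m)
    (h : ∀ f : V m → ENNReal, Measurable f → ∫⁻ z, f (e z) ∂(hm m) = ∫⁻ z, f z ∂(hm m)) :
    MeasurePreserving e (hm m) (hm m) := by
  refine ⟨e.measurable, ?_⟩
  refine Measure.ext fun s hs => ?_
  rw [Measure.map_apply e.measurable hs]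
  have h1 := h (s.indicator 1) (measurable_one.indicator hs)
  rw [lintegral_indicator_one hs] at h1
  rw [← h1]
  have h2 : (fun z => (s.indicator (1 : V m → ENNReal)) (e z)) = (e ⁻¹' s).indicator 1 := by
    funext z
    by_cases hz : e z ∈ s
    · simp [Set.indicator, hz]
    · simp [Set.indicator, hz]
  rw [h2, lintegral_indicator_one (e.measurable hs)]

theorem pf_HAC : T_HAR → T_HAC := by
  intro hHAR m hm1
  obtain ⟨hA, hI, h0, -⟩ := hHAR m hm1
  refine ⟨?_, ?_⟩
  · intro a ha f
    refine ⟨?_, ?_⟩
    · have hmp : MeasurePreserving (hac_le a ha) (hm m) (hm m) :=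
        hac_mp_of (hac_le a ha) fun g hg => (hA a ha g hg).1
      exact hmp.integral_comp' f
    · have hmp : MeasurePreserving (hac_re a ha) (hm m) (hm m) :=
        hac_mp_of (hac_re a ha) fun g hg => (hA a ha g hg).2
      exact hmp.integral_comp' f
  · intro f
    have hae : ∀ᵐ z ∂(hm m), ((fun i j => ((mt z)⁻¹) i j) : V m) = hac_iv z := by
      have : ∀ᵐ z ∂(hm m), ¬ ((mt z).det = 0) := by
        rw [ae_iff]
        simpa using h0
      filter_upwards [this] with z hz
      unfold hac_iv
      rw [if_neg hz]
    have hmp : MeasurePreserving (hac_ie (m := m)) (hm m) (hm m) := by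
      refine hac_mp_of hac_ie fun g hg => ?_
      rw [← hI g hg]
      refine lintegral_congr_ae ?_
      filter_upwards [hae] with z hz
      rw [hz]
      rfl
    have h1 : ∫ z, f (fun i j => ((mt z)⁻¹) i j) ∂(hm m) = ∫ z, f (hac_ie z) ∂(hm m) := by
      refine integral_congr_ae ?_
      filter_upwards [hae] with z hz
      rw [hz]
      rfl
    rw [h1]
    exact hmp.integral_comp' f

end Pool.Agent.H34.GM
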