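import Pool.Agent.H34.GM.Targets

/-!
Targets of the board gmf, second part (page H34_GM.md).
-/

namespace Pool.Agent.H34.GM

open MeasureTheory

/-- all the data -/
structure Sys (m q : ℕ) (O : Subring (Mat m)) (b : Module.Basis (Fin m × Fin m) ℝ (Mat m))
    (d : ℤ) {R : Type} [Ring R] [Fintype R] (π : Mat m → R) (σ : R → Mat m)
    (T : ℕ → Finset (Mat m)) (D : Set (V m)) : Prop where
  ord : Ord m O b d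
  lev : Lev m q O d π σ
  reps : Reps m O T
  dom : Dom m O D

/-- not identically zero -/
def NZ {m : ℕ} {R : Type} (F : Mat m → R → ℂ) : Prop := ∃ g x, g.det ≠ 0 ∧ F g x ≠ 0

/-- measurability and countability -/
def T_MSR : Prop :=
  (∀ m : ℕ, Measurable (fun z : V m => ((fun i j => ((mt z)⁻¹) i j) : V m)) ∧
    Measurable (fun z : V m => (mt z).det) ∧ Measurable (fun z : V m => aN (mt z)) ∧
    Measurable (fun z : V m => sz (mt z)) ∧ SigmaFinite (hm m) ∧ MeasurableSet (Shell m) ∧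
    (∀ (r : ℝ) (α : Mat m), Measurable (fun p : V m × V m =>
      ((fun i j => kk r (mt p.1) α (mt p.2) i j) : V m))) ∧
    (∀ Φ : Mat m → ℂ, Continuous Φ → Measurable (fun z : V m => Φ (mt z)))) ∧
  (∀ (m : ℕ) (O : Subring (Mat m)) (b : Module.Basis (Fin m × Fin m) ℝ (Mat m)),
    DivOrder m O b → Countable O ∧ Countable (UnitsOf O)) ∧
  (∀ (m : ℕ) (O : Subring (Mat m)) (b : Module.Basis (Fin m × Fin m) ℝ (Mat m)),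
    DivOrder m O b → Countable (Dual O))

/-! ### the power function and the bump functions -/

def T_PWC : Prop := ∀ (m : ℕ), 1 ≤ m → ∀ mu : Fin m → ℂ,
    ContinuousOn (fun z : Mat m => pw mu z) {z | z.det ≠ 0} ∧
    (∑ j, mu j = 0 → ∀ c : ℝ, 0 < c → ∀ z : Mat m, z.det ≠ 0 → pw mu (c • z) = pw mu z)

def T_PWN : Prop := ∀ (m : ℕ), 1 ≤ m → ∃ C c : ℝ, 0 < C ∧ 0 < c ∧
  ∀ (mu : Fin m → ℂ) (w : ℂ) (δ : ℝ) (z : Mat m), 0 < δ →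
    ∑ i, ∑ j, ((z.transpose * z - 1) i j) ^ 2 ≤ δ ^ 2 → δ * (1 + ‖w‖ + ∑ j, ‖mu j‖) ≤ c →
    z.det ≠ 0 ∧ ‖((|z.det| : ℝ) : ℂ) ^ w * pw mu z - 1‖ ≤ C * δ * (1 + ‖w‖ + ∑ j, ‖mu j‖)

def T_PRF : Prop := ∃ χ : ℝ → ℝ, Prof χ

def T_BMP : Prop := ∀ (m : ℕ) (χ : ℝ → ℝ), 1 ≤ m → Prof χ →
    (∀ δ : ℝ, 0 < δ → δ ≤ 1 / 2 → Tst m (bump m χ δ) ∧
      ContDiff ℝ ((⊤ : ℕ∞) : WithTop ℕ∞) (fun z : V m => bump m χ δ (mt z)) ∧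
      HasCompactSupport (fun z : V m => bump m χ δ (mt z)) ∧
      (∀ z, ‖bump m χ δ z‖ ≤ 1) ∧
      ∀ z, bump m χ δ z ≠ 0 → ∑ i, ∑ j, ((z.transpose * z - 1) i j) ^ 2 ≤ δ ^ 2) ∧
    ∀ N : ℝ, 0 ≤ N → ∃ C : ℝ, 0 < C ∧ ∀ δ : ℝ, 0 < δ → δ ≤ 1 / 2 → ∀ z,
      ‖bump m χ δ z‖ ≤ C * (1 + sz z) ^ (-N)

/-- decay of the Fourier transform of the bump functions -/
def T_FTD : Prop := ∀ (m : ℕ) (χ : ℝ → ℝ), 1 ≤ m → Prof χ → ∀ N : ℕ, ∃ (C : ℝ) (A : ℕ), 0 < C ∧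
    ∀ δ : ℝ, 0 < δ → δ ≤ 1 / 2 → Continuous (ft (bump m χ δ)) ∧
      ∀ w : Mat m, ‖ft (bump m χ δ) w‖ ≤ C * δ⁻¹ ^ A * (1 + sz w) ^ (-(N : ℝ))

/-- lower bound for the local zeta integral -/
def T_ZLB : Prop := ∀ (m : ℕ) (χ : ℝ → ℝ), 1 ≤ m → Prof χ → ∃ c c1 : ℝ, 0 < c ∧ 0 < c1 ∧
    ∀ (mu : Fin m → ℂ) (s : ℂ) (δ : ℝ), 0 < δ → δ ≤ 1 / 2 → δ * (1 + ‖s‖ + ∑ j, ‖mu j‖) ≤ c →
      c1 * δ ^ (m ^ 2) ≤ ‖Zf (bump m χ δ) mu s‖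

/-! ### the local transform -/

def T_TH1 : Prop := ∀ (m : ℕ) (Φ : Mat m → ℂ) (mu : Fin m → ℂ), 1 ≤ m → Tst m Φ →
    ∑ j, mu j = 0 → ∃ c : ℝ, 0 < c ∧ (∀ r : ℝ, 0 < r → th1 Φ mu r ≠ 0 → c⁻¹ ≤ r ∧ r ≤ c) ∧
      ContinuousOn (th1 Φ mu) (Set.Ioi 0)

def T_ZMT : Prop := ∀ (m : ℕ) (Φ : Mat m → ℂ) (mu : Fin m → ℂ), 1 ≤ m → Tst m Φ →
    ∑ j, mu j = 0 → Differentiable ℂ (Zf Φ mu) ∧ ∀ s : ℂ,
      IntegrableOn (fun r : ℝ => th1 Φ mu r *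
        (r : ℂ) ^ (-((m : ℂ) * (s + ((m : ℂ) - 1) / 2)) - 1)) (Set.Ioi 0) ∧
      ∫ r in Set.Ioi (0 : ℝ), th1 Φ mu r *
        (r : ℂ) ^ (-((m : ℂ) * (s + ((m : ℂ) - 1) / 2)) - 1) = Zf Φ mu s

def T_THC : Prop := ∀ (m q : ℕ) (Φ : Mat m → ℂ) (mu : Fin m → ℂ) (lam : ℕ → ℂ), 1 ≤ m →
    Tst m Φ → ∑ j, mu j = 0 → ContinuousOn (thF q Φ mu lam) (Set.Ioi 0) ∧
      ∃ r0 : ℝ, 0 < r0 ∧ ∀ r : ℝ, 0 < r → r < r0 → thF q Φ mu lam r = 0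

/-! ### forms -/

def T_BDD : Prop := ∀ (m q : ℕ) (O : Subring (Mat m)) (b : Module.Basis (Fin m × Fin m) ℝ (Mat m))
  (d : ℤ) (R : Type) [Ring R] [Fintype R] (π : Mat m → R) (σ : R → Mat m)
  (T : ℕ → Finset (Mat m)) (D : Set (V m)), Sys m q O b d π σ T D →
  ∀ (F : Mat m → R → ℂ) (lam : ℕ → ℂ) (mu : Fin m → ℂ), Form m q O π σ T F lam mu →
    ∃ M : ℝ, 0 ≤ M ∧ ∀ g x, g.det ≠ 0 → ‖F g x‖ ≤ M

def T_LMB : Prop := ∀ (m q : ℕ) (O : Subring (Mat m)) (b : Module.Basis (Fin m × Fin m) ℝ (Mat m))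
  (d : ℤ) (R : Type) [Ring R] [Fintype R] (π : Mat m → R) (σ : R → Mat m)
  (T : ℕ → Finset (Mat m)) (D : Set (V m)), Sys m q O b d π σ T D →
  ∀ (F : Mat m → R → ℂ) (lam : ℕ → ℂ) (mu : Fin m → ℂ), Form m q O π σ T F lam mu → NZ F →
    ∃ C : ℝ, ∀ n : ℕ, 1 ≤ n → n.Coprime q →
      ‖(n : ℂ) ^ (((m : ℂ) - 1) / 2) * lam n‖ ≤ C * (n : ℝ) ^ m

/-- one double coset -/
def T_EG1 : Prop := ∀ (m q : ℕ) (O : Subring (Mat m)) (b : Module.Basis (Fin m × Fin m) ℝ (Mat m))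
  (d : ℤ) (R : Type) [Ring R] [Fintype R] (π : Mat m → R) (σ : R → Mat m)
  (T : ℕ → Finset (Mat m)) (D : Set (V m)), Sys m q O b d π σ T D →
  ∀ (F : Mat m → R → ℂ) (lam : ℕ → ℂ) (mu : Fin m → ℂ), Form m q O π σ T F lam mu →
  ∀ Φ : Mat m → ℂ, Tst m Φ → ∀ (ρ g : Mat m) (r : ℝ) (y : R), ρ.det ≠ 0 → g.det ≠ 0 → 0 < r →
    IntegrableOn (fun z : V m => Φ (kk r (mt z) ρ g) * F (mt z) y) (Shell m) (hm m) ∧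
    ∫ z in Shell m, Φ (kk r (mt z) ρ g) * F (mt z) y ∂(hm m) =
      th1 Φ mu (r * (aN ρ)⁻¹) * F (ρ * g) y

/-- forms are eigenfunctions of `A_r` -/
def T_EIG : Prop := ∀ (m q : ℕ) (O : Subring (Mat m)) (b : Module.Basis (Fin m × Fin m) ℝ (Mat m))
  (d : ℤ) (R : Type) [Ring R] [Fintype R] (π : Mat m → R) (σ : R → Mat m)
  (T : ℕ → Finset (Mat m)) (D : Set (V m)), Sys m q O b d π σ T D →
  ∀ (F : Mat m → R → ℂ) (lam : ℕ → ℂ) (mu : Fin m → ℂ), Form m q O π σ T F lam mu →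
  ∀ Φ : Mat m → ℂ, Tst m Φ → ∀ (g : Mat m) (r : ℝ) (x : R), g.det ≠ 0 → 0 < r →
    opA O π Φ r D F g x = thF q Φ mu lam r * F g x

/-! ### Poisson summation and the dual operator -/

open Classical in
def T_POI : Prop := ∀ (m q : ℕ) (O : Subring (Mat m)) (b : Module.Basis (Fin m × Fin m) ℝ (Mat m))
  (d : ℤ) (R : Type) [Ring R] [Fintype R] (π : Mat m → R) (σ : R → Mat m),
  Ord m O b d → Lev m q O d π σ → ∀ Φ : Mat m → ℂ,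
    ContDiff ℝ ((⊤ : ℕ∞) : WithTop ℕ∞) (fun z : V m => Φ (mt z)) →
    HasCompactSupport (fun z : V m => Φ (mt z)) →
    ∀ (g h : Mat m) (r : ℝ) (c : R), g.det ≠ 0 → h.det ≠ 0 → 0 < r →
    (Summable fun β : Dual O => ‖ft Φ (kk ((q : ℝ) / r) g (β : Mat m) h)‖) ∧
    ∑' α : O, (if π (α : Mat m) = c then Φ (kk r h (α : Mat m) g) else 0) =
      ((r ^ (m ^ 2) / (covol b * (q : ℝ) ^ (m ^ 2)) : ℝ) : ℂ) *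
        ∑' β : Dual O, psi q σ (bt d π (β : Mat m) * c) *
          ft Φ (kk ((q : ℝ) / r) g (β : Mat m) h)

/-- forms are eigenfunctions of `W A'_r` -/
def T_DID : Prop := ∀ (m q : ℕ) (O : Subring (Mat m)) (b : Module.Basis (Fin m × Fin m) ℝ (Mat m))
  (d : ℤ) (R : Type) [Ring R] [Fintype R] (π : Mat m → R) (σ : R → Mat m)
  (T : ℕ → Finset (Mat m)) (D : Set (V m)), Sys m q O b d π σ T D →
  ∀ (F : Mat m → R → ℂ) (lam : ℕ → ℂ) (mu : Fin m → ℂ), Form m q O π σ T F lam mu →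
  ∀ (χ : ℝ → ℝ) (δ : ℝ), Prof χ → 0 < δ → δ ≤ 1 / 2 →
  ∀ (g : Mat m) (r : ℝ) (x : R), g.det ≠ 0 → 0 < r →
    opW (m := m) q σ (fun y => opB O d π (ft (bump m χ δ)) r D F g y) x =
      thD b q (bump m χ δ) mu lam r * F g x

/-- properties of the Gauss sum operator -/
def T_WCT : Prop := ∀ (m q : ℕ) (O : Subring (Mat m)) (b : Module.Basis (Fin m × Fin m) ℝ (Mat m))
  (d : ℤ) (R : Type) [Ring R] [Fintype R] (π : Mat m → R) (σ : R → Mat m),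
  Ord m O b d → Lev m q O d π σ → ∀ f : R → ℂ, (∀ x, ¬ IsUnit x → f x = 0) →
    (∀ x, ¬ IsUnit x → opW (m := m) q σ f x = 0) ∧
    (∀ (v : Rˣ) (x : R), opW (m := m) q σ (fun y => f ((v : R) * y)) x =
      opW (m := m) q σ f ((v : R) * x)) ∧
    ∑ x, ‖opW (m := m) q σ f x‖ ^ 2 ≤ ∑ x, ‖f x‖ ^ 2

/-- bounds for `A'_r F` -/
def T_BBD : Prop := ∀ (m q : ℕ) (O : Subring (Mat m)) (b : Module.Basis (Fin m × Fin m) ℝ (Mat m))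
  (d : ℤ) (R : Type) [Ring R] [Fintype R] (π : Mat m → R) (σ : R → Mat m)
  (T : ℕ → Finset (Mat m)) (D : Set (V m)), Sys m q O b d π σ T D →
  ∀ (Φ : Mat m → ℂ) (M s : ℝ), 0 ≤ M → (m : ℝ) ^ 2 < s → Continuous Φ →
  (∀ z, ‖Φ z‖ ≤ M * (1 + sz z) ^ (-s)) → ∃ C : ℝ, ∀ (F : Mat m → R → ℂ) (M1 : ℝ), 0 ≤ M1 →
    (∀ z ∈ D, ∀ x, ‖F (mt z) x‖ ≤ M1) →
    (∀ x, AEStronglyMeasurable (fun z : V m => F (mt z) x) ((hm m).restrict D)) →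
    (∀ x, ¬ IsUnit x → ∀ z ∈ D, F (mt z) x = 0) → ∀ r : ℝ, 0 < r →
    (∀ (g : Mat m) (x : R), g.det ≠ 0 → ‖opB O d π Φ r D F g x‖ ≤ C * M1 * r ^ s) ∧
    (∀ x : R, AEStronglyMeasurable (fun z : V m => opB O d π Φ r D F (mt z) x)
      ((hm m).restrict D)) ∧
    ∀ (g : Mat m) (x : R), ¬ IsUnit x → opB O d π Φ r D F g x = 0

/-- `W` commutes with `A'_r` -/
def T_WCM : Prop := ∀ (m q : ℕ) (O : Subring (Mat m)) (b : Module.Basis (Fin m × Fin m) ℝ (Mat m))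
  (d : ℤ) (R : Type) [Ring R] [Fintype R] (π : Mat m → R) (σ : R → Mat m)
  (T : ℕ → Finset (Mat m)) (D : Set (V m)), Sys m q O b d π σ T D →
  ∀ (Φ : Mat m → ℂ) (M s : ℝ), 0 ≤ M → (m : ℝ) ^ 2 < s → Continuous Φ →
  (∀ z, ‖Φ z‖ ≤ M * (1 + sz z) ^ (-s)) → ∀ (F : Mat m → R → ℂ) (M1 : ℝ), 0 ≤ M1 →
    (∀ z ∈ D, ∀ x, ‖F (mt z) x‖ ≤ M1) →
    (∀ x, AEStronglyMeasurable (fun z : V m => F (mt z) x) ((hm m).restrict D)) →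
    (∀ x, ¬ IsUnit x → ∀ z ∈ D, F (mt z) x = 0) → ∀ r : ℝ, 0 < r →
    ∀ (g : Mat m) (x : R), g.det ≠ 0 →
      opB O d π Φ r D (fun h y => opW (m := m) q σ (F h) y) g x =
        opW (m := m) q σ (fun y => opB O d π Φ r D F g y) x

/-! ### size of the eigenvalues for one form -/

def T_SMA : Prop := ∀ (m q : ℕ) (O : Subring (Mat m)) (b : Module.Basis (Fin m × Fin m) ℝ (Mat m))
  (d : ℤ) (R : Type) [Ring R] [Fintype R] (π : Mat m → R) (σ : R → Mat m)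
  (T : ℕ → Finset (Mat m)) (D : Set (V m)), Sys m q O b d π σ T D →
  ∀ (F : Mat m → R → ℂ) (lam : ℕ → ℂ) (mu : Fin m → ℂ), Form m q O π σ T F lam mu → NZ F →
  ∀ (χ : ℝ → ℝ) (δ : ℝ), Prof χ → 0 < δ → δ ≤ 1 / 2 → ∀ N : ℕ, ∃ C : ℝ,
    (∀ r : ℝ, 0 < r → r ≤ 1 → ‖thD b q (bump m χ δ) mu lam r‖ ≤ C * r ^ N) ∧
    (∀ r : ℝ, 1 ≤ r → ‖thF q (bump m χ δ) mu lam r‖ ≤ C * r ^ (-(N : ℝ)))

/-- Mellin transforms are entire -/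
def T_CON : Prop := ∀ (m : ℕ) (th : ℝ → ℂ), 1 ≤ m → ContinuousOn th (Set.Ioi 0) →
  (∃ r0 : ℝ, 0 < r0 ∧ ∀ r : ℝ, 0 < r → r < r0 → th r = 0) →
  (∀ N : ℕ, ∃ C : ℝ, ∀ r : ℝ, 1 ≤ r → ‖th r‖ ≤ C * r ^ (-(N : ℝ))) →
    Differentiable ℂ (fun s : ℂ => ∫ r in Set.Ioi (0 : ℝ), th r *
      ((r : ℝ) : ℂ) ^ (-((m : ℂ) * (s + ((m : ℂ) - 1) / 2)) - 1)) ∧
    ∀ s : ℂ, IntegrableOn (fun r : ℝ => th r *
      ((r : ℝ) : ℂ) ^ (-((m : ℂ) * (s + ((m : ℂ) - 1) / 2)) - 1)) (Set.Ioi 0)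

/-- the Mellin transform of the eigenvalue, region of absolute convergence -/
def T_MEL : Prop := ∀ (m q : ℕ) (Φ : Mat m → ℂ) (mu : Fin m → ℂ) (lam : ℕ → ℂ), 1 ≤ m →
  Tst m Φ → ∑ j, mu j = 0 → ∀ C : ℝ, (∀ n : ℕ, 1 ≤ n → n.Coprime q →
      ‖(n : ℂ) ^ (((m : ℂ) - 1) / 2) * lam n‖ ≤ C * (n : ℝ) ^ m) →
  ∀ s : ℂ, (m : ℝ) + 2 < s.re →
    (Summable fun n : ℕ => if 1 ≤ n ∧ n.Coprime q then lam n * (n : ℂ) ^ (-s) else 0) ∧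
    Lm q Φ mu lam s =
      (∑' n : ℕ, if 1 ≤ n ∧ n.Coprime q then lam n * (n : ℂ) ^ (-s) else 0) * Zf Φ mu s

/-- the L-function is entire -/
def T_GLU : Prop := ∀ (m q : ℕ) (O : Subring (Mat m)) (b : Module.Basis (Fin m × Fin m) ℝ (Mat m))
  (d : ℤ) (R : Type) [Ring R] [Fintype R] (π : Mat m → R) (σ : R → Mat m)
  (T : ℕ → Finset (Mat m)) (D : Set (V m)), Sys m q O b d π σ T D →
  ∀ (F : Mat m → R → ℂ) (lam : ℕ → ℂ) (mu : Fin m → ℂ), Form m q O π σ T F lam mu → NZ F →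
  ∀ χ : ℝ → ℝ, Prof χ → ∃ L : ℂ → ℂ, IsL m q lam L ∧ ∀ δ : ℝ, 0 < δ → δ ≤ 1 / 2 → ∀ s : ℂ,
    Lm q (bump m χ δ) mu lam s = L s * Zf (bump m χ δ) mu s

/-- the two halves of the Mellin integral on the critical line -/
def T_SPL : Prop := ∀ (m q : ℕ) (O : Subring (Mat m)) (b : Module.Basis (Fin m × Fin m) ℝ (Mat m))
  (d : ℤ) (R : Type) [Ring R] [Fintype R] (π : Mat m → R) (σ : R → Mat m)
  (T : ℕ → Finset (Mat m)) (D : Set (V m)), Sys m q O b d π σ T D →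
  ∀ (F : Mat m → R → ℂ) (lam : ℕ → ℂ) (mu : Fin m → ℂ), Form m q O π σ T F lam mu → NZ F →
  ∀ (χ : ℝ → ℝ) (δ : ℝ), Prof χ → 0 < δ → δ ≤ 1 / 2 → ∀ t : ℝ,
    ‖Lm q (bump m χ δ) mu lam (1 / 2 + t * Complex.I)‖ ≤
      (∫ r in Set.Ioc (0 : ℝ) (Real.sqrt q), ‖thF q (bump m χ δ) mu lam r‖ *
        r ^ (-((m : ℝ) ^ 2 / 2) - 1)) +
      (covol b)⁻¹ * ∫ r in Set.Ioc (0 : ℝ) (Real.sqrt q), ‖thD b q (bump m χ δ) mu lam r‖ *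
        r ^ (-((m : ℝ) ^ 2 / 2) - 1)

/-! ### moments -/

/-- Bessel's inequality for composed kernels -/
def T_BES : Prop := ∀ (X : Type) [MeasurableSpace X] (ν : Measure X) [SFinite ν] (ι : Type)
  [Fintype ι] [DecidableEq ι] (f : ι → X → ℂ) (K : X → X → ℂ) (P : X → X → ENNReal),
  (∀ i, Measurable (f i)) →
  (∀ i j, Integrable (fun x => f i x * (starRingEnd ℂ) (f j x)) ν) →
  (∀ i j, ∫ x, f i x * (starRingEnd ℂ) (f j x) ∂ν = if i = j then 1 else 0) →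
  Measurable (Function.uncurry K) → Measurable (Function.uncurry P) →
  (∀ x y, ENNReal.ofReal ‖K x y‖ ≤ P x y) →
    ∑ i, ∫⁻ x, ENNReal.ofReal (‖∫ y, K x y * (∫ z, K y z * f i z ∂ν) ∂ν‖ ^ 2) ∂ν ≤
      ∫⁻ x, ∫⁻ z, (∫⁻ y, P x y * P y z ∂ν) ^ 2 ∂ν ∂ν

def T_HSA : Prop := ∀ (m : ℕ) (O : Subring (Mat m)) (b : Module.Basis (Fin m × Fin m) ℝ (Mat m))
  (d : ℤ), Ord m O b d → ∀ s : ℝ, (m : ℝ) ^ 2 < s → ∃ C : ℝ, 0 < C ∧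
  ∀ (q : ℕ) (R : Type) [Ring R] [Fintype R] (π : Mat m → R) (σ : R → Mat m)
    (T : ℕ → Finset (Mat m)) (D : Set (V m)), Sys m q O b d π σ T D →
  ∀ (ι : Type) [Fintype ι] [DecidableEq ι] (F : ι → Mat m → R → ℂ) (lam : ι → ℕ → ℂ)
    (mu : ι → Fin m → ℂ), (∀ i, Form m q O π σ T (F i) (lam i) (mu i)) → Orthn D F →
  ∀ (Φ : Mat m → ℂ) (M : ℝ), 0 ≤ M → Continuous Φ →
    (∀ z, ‖Φ z‖ ≤ M * (1 + sz z) ^ (-(2 * s))) → ∀ r : ℝ, 0 < r → r ≤ Real.sqrt q →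
    ∑ i, ∑ x, ∫⁻ z in D, ENNReal.ofReal
      (‖opA O π Φ r D (opA O π Φ r D (F i)) (mt z) x‖ ^ 2) ∂(hm m) ≤
      ENNReal.ofReal (M ^ 4 * C * (q : ℝ) ^ (m ^ 2) * r ^ (2 * s))

def T_HSB : Prop := ∀ (m : ℕ) (O : Subring (Mat m)) (b : Module.Basis (Fin m × Fin m) ℝ (Mat m))
  (d : ℤ), Ord m O b d → ∀ s : ℝ, (m : ℝ) ^ 2 < s → ∃ C : ℝ, 0 < C ∧
  ∀ (q : ℕ) (R : Type) [Ring R] [Fintype R] (π : Mat m → R) (σ : R → Mat m)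
    (T : ℕ → Finset (Mat m)) (D : Set (V m)), Sys m q O b d π σ T D →
  ∀ (ι : Type) [Fintype ι] [DecidableEq ι] (F : ι → Mat m → R → ℂ) (lam : ι → ℕ → ℂ)
    (mu : ι → Fin m → ℂ), (∀ i, Form m q O π σ T (F i) (lam i) (mu i)) → Orthn D F →
  ∀ (Φ : Mat m → ℂ) (M : ℝ), 0 ≤ M → Continuous Φ →
    (∀ z, ‖Φ z‖ ≤ M * (1 + sz z) ^ (-(2 * s))) → ∀ r : ℝ, 0 < r → r ≤ Real.sqrt q →
    ∑ i, ∑ x, ∫⁻ z in D, ENNReal.ofReal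
      (‖opB O d π Φ r D (opB O d π Φ r D (F i)) (mt z) x‖ ^ 2) ∂(hm m) ≤
      ENNReal.ofReal (M ^ 4 * C * (q : ℝ) ^ (m ^ 2) * r ^ (2 * s))

/-- fourth moment of the eigenvalues of `A_r` -/
def T_TA4 : Prop := ∀ (m : ℕ) (O : Subring (Mat m)) (b : Module.Basis (Fin m × Fin m) ℝ (Mat m))
  (d : ℤ), Ord m O b d → ∀ (χ : ℝ → ℝ), Prof χ → ∀ s : ℝ, (m : ℝ) ^ 2 < s →
  ∃ C : ℝ, 0 < C ∧
  ∀ (q : ℕ) (R : Type) [Ring R] [Fintype R] (π : Mat m → R) (σ : R → Mat m)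
    (T : ℕ → Finset (Mat m)) (D : Set (V m)), Sys m q O b d π σ T D →
  ∀ (ι : Type) [Fintype ι] [DecidableEq ι] (F : ι → Mat m → R → ℂ) (lam : ι → ℕ → ℂ)
    (mu : ι → Fin m → ℂ), (∀ i, Form m q O π σ T (F i) (lam i) (mu i)) → Orthn D F →
  ∀ δ : ℝ, 0 < δ → δ ≤ 1 / 2 → ∀ r : ℝ, 0 < r → r ≤ Real.sqrt q →
    ∑ i, ‖thF q (bump m χ δ) (mu i) (lam i) r‖ ^ 4 ≤ C * (q : ℝ) ^ (m ^ 2) * r ^ (2 * s)

/-- fourth moment of the eigenvalues of `W A'_r` -/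
def T_TD4 : Prop := ∀ (m : ℕ) (O : Subring (Mat m)) (b : Module.Basis (Fin m × Fin m) ℝ (Mat m))
  (d : ℤ), Ord m O b d → ∀ (χ : ℝ → ℝ), Prof χ → ∀ s : ℝ, (m : ℝ) ^ 2 < s →
  ∃ (C : ℝ) (A : ℕ), 0 < C ∧
  ∀ (q : ℕ) (R : Type) [Ring R] [Fintype R] (π : Mat m → R) (σ : R → Mat m)
    (T : ℕ → Finset (Mat m)) (D : Set (V m)), Sys m q O b d π σ T D →
  ∀ (ι : Type) [Fintype ι] [DecidableEq ι] (F : ι → Mat m → R → ℂ) (lam : ι → ℕ → ℂ)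
    (mu : ι → Fin m → ℂ), (∀ i, Form m q O π σ T (F i) (lam i) (mu i)) → Orthn D F →
  ∀ δ : ℝ, 0 < δ → δ ≤ 1 / 2 → ∀ r : ℝ, 0 < r → r ≤ Real.sqrt q →
    ∑ i, ‖thD b q (bump m χ δ) (mu i) (lam i) r‖ ^ 4 ≤
      C * δ⁻¹ ^ A * (q : ℝ) ^ (m ^ 2) * r ^ (2 * s)

/-- Hölder -/
def T_HOL : Prop := ∀ κ : ℝ, 0 < κ → ∃ C : ℝ, 0 < C ∧ ∀ (m : ℕ) (ι : Type) [Fintype ι]
  (th : ι → ℝ → ℂ) (M Q : ℝ), 0 ≤ M → 1 ≤ Q → (∀ i, ContinuousOn (th i) (Set.Ioi 0)) →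
  (∀ r : ℝ, 0 < r → r ≤ Q → ∑ i, ‖th i r‖ ^ 4 ≤ M * r ^ (2 * ((m : ℝ) ^ 2 + κ))) →
    ∑ i, (∫ r in Set.Ioc (0 : ℝ) Q, ‖th i r‖ * r ^ (-((m : ℝ) ^ 2 / 2) - 1)) ^ 4 ≤
      C * M * Q ^ (2 * κ)

/-- the bound for one `δ` -/
def T_LVL : Prop := ∀ (m : ℕ) (O : Subring (Mat m)) (b : Module.Basis (Fin m × Fin m) ℝ (Mat m))
  (d : ℤ), Ord m O b d → ∀ (χ : ℝ → ℝ), Prof χ → ∀ κ : ℝ, 0 < κ →
  ∃ (C : ℝ) (A : ℕ), 0 < C ∧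
  ∀ (q : ℕ) (R : Type) [Ring R] [Fintype R] (π : Mat m → R) (σ : R → Mat m)
    (T : ℕ → Finset (Mat m)) (D : Set (V m)), Sys m q O b d π σ T D →
  ∀ (ι : Type) [Fintype ι] [DecidableEq ι] (F : ι → Mat m → R → ℂ) (lam : ι → ℕ → ℂ)
    (mu : ι → Fin m → ℂ), (∀ i, Form m q O π σ T (F i) (lam i) (mu i)) → Orthn D F →
  ∀ δ : ℝ, 0 < δ → δ ≤ 1 / 2 → ∀ t : ι → ℝ,
    ∑ i, ‖Lm q (bump m χ δ) (mu i) (lam i) (1 / 2 + t i * Complex.I)‖ ^ 4 ≤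
      C * δ⁻¹ ^ A * (q : ℝ) ^ ((m : ℝ) ^ 2 + κ)

/-- the fourth moment -/
def T_MOM : Prop := ∀ (m : ℕ) (O : Subring (Mat m)) (b : Module.Basis (Fin m × Fin m) ℝ (Mat m))
  (d : ℤ), Ord m O b d → ∀ ε : ℝ, 0 < ε → ∃ C A : ℝ, 0 < C ∧ 0 < A ∧
  ∀ (q : ℕ) (R : Type) [Ring R] [Fintype R] (π : Mat m → R) (σ : R → Mat m)
    (T : ℕ → Finset (Mat m)) (D : Set (V m)), Sys m q O b d π σ T D →
  ∀ (ι : Type) [Fintype ι] [DecidableEq ι] (F : ι → Mat m → R → ℂ) (lam : ι → ℕ → ℂ)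
    (mu : ι → Fin m → ℂ), (∀ i, Form m q O π σ T (F i) (lam i) (mu i)) → Orthn D F →
    ∃ L : ι → ℂ → ℂ, (∀ i, IsL m q (lam i) (L i)) ∧ ∀ t : ι → ℝ,
      ∑ i, (‖L i (1 / 2 + t i * Complex.I)‖ * psz (t i) (mu i) ^ (-A)) ^ 4 ≤
        C * (q : ℝ) ^ ((m : ℝ) ^ 2 + ε)

end Pool.Agent.H34.GM
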