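import Pool.Agent.H34.GM.Targets2
import Pool.Agent.H16.HK.PS
import Pool.Agent.H16.HK.GS
import Pool.Agent.H3.HK.GA

/-!
# Row POI of the board gmf: Poisson summation over the order
-/

set_option autoImplicit false

namespace Pool.Agent.H34.GM

open MeasureTheory Set

open scoped FourierTransform SchwartzMap ContDiff

/-! ### smooth functions with compact support on the real vector space -/

theorem poi_fourier {ι : Type} [Fintype ι] (f : (ι → ℝ) → ℂ) (k : ι → ℝ) :
    ∫ x : ι → ℝ, Complex.exp (-(2 * Real.pi * (∑ i, k i * x i) : ℝ) * Complex.I) * f x =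
      𝓕 (fun v : EuclideanSpace ℝ ι => f v.ofLp) (WithLp.toLp 2 k) := by
  rw [Real.fourier_eq']
  rw [← (PiLp.volume_preserving_ofLp ι).integral_comp
    (MeasurableEquiv.toLp 2 (ι → ℝ)).symm.measurableEmbedding]
  refine integral_congr_ae (Filter.Eventually.of_forall fun v => ?_)
  simp only [smul_eq_mul]
  congr 2
  simp only [PiLp.inner_apply, RCLike.inner_apply, conj_trivial]
  push_cast
  ring

theorem poi_decay {ι : Type} [Fintype ι] (f : (ι → ℝ) → ℂ) (hf : ContDiff ℝ ∞ f)
    (hc : HasCompactSupport f) :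
    Summable fun k : ι → ℤ =>
      ‖∫ x : ι → ℝ, Complex.exp (-(2 * Real.pi * (∑ i, (k i : ℝ) * x i) : ℝ) * Complex.I) *
        f x‖ := by
  let e : EuclideanSpace ℝ ι ≃L[ℝ] (ι → ℝ) := EuclideanSpace.equiv ι ℝ
  have h1 : ContDiff ℝ ∞ (fun v : EuclideanSpace ℝ ι => f v.ofLp) := hf.comp e.contDiff
  have h2 : HasCompactSupport (fun v : EuclideanSpace ℝ ι => f v.ofLp) :=
    hc.comp_homeomorph e.toHomeomorph
  let S : 𝓢(EuclideanSpace ℝ ι, ℂ) := h2.toSchwartzMap h1
  have h3 : ∀ w, (𝓕 S : 𝓢(EuclideanSpace ℝ ι, ℂ)) w =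
      𝓕 (fun v : EuclideanSpace ℝ ι => f v.ofLp) w := fun w => rfl
  set N : ℕ := 2 * Fintype.card ι with hN
  have h4 := fun x => SchwartzMap.one_add_le_sup_seminorm_apply (𝕜 := ℝ) (m := (N, 0)) (k := N)
    (n := 0) le_rfl le_rfl (𝓕 S : 𝓢(EuclideanSpace ℝ ι, ℂ)) x
  set C : ℝ := 2 ^ (N, 0).1 * (Finset.Iic (N, 0)).sup
    (fun m => SchwartzMap.seminorm ℝ m.1 m.2) (𝓕 S : 𝓢(EuclideanSpace ℝ ι, ℂ)) with hC
  have h5 : Summable fun n : ℤ => (1 + (n : ℝ) ^ 2)⁻¹ := by
    have h51 := (Real.summable_one_div_int_pow (p := 2)).2 one_lt_two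
    have h52 : Summable fun n : ℤ => if n = 0 then (1 : ℝ) else 0 :=
      (hasSum_ite_eq (0 : ℤ) (1 : ℝ)).summable
    refine Summable.of_nonneg_of_le (fun n => by positivity) (fun n => ?_) (h51.add h52)
    by_cases hn : n = 0
    · subst hn
      simp
    · rw [if_neg hn, add_zero, one_div]
      have hn' : (n : ℝ) ≠ 0 := by exact_mod_cast hn
      have h53 : (0 : ℝ) < (n : ℝ) ^ 2 := by positivity
      exact inv_anti₀ h53 (by linarith)
  have h6 := (Pool.Agent.H16.HK.summable_pi (ι := ι) (fun n : ℤ => (1 + (n : ℝ) ^ 2)⁻¹)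
    (fun n => by positivity) h5).mul_left C
  refine Summable.of_nonneg_of_le (fun k => norm_nonneg _) (fun k => ?_) h6
  rw [poi_fourier f (fun i => (k i : ℝ)), ← h3]
  have h7 := h4 (WithLp.toLp 2 (fun i => (k i : ℝ)))
  rw [norm_iteratedFDeriv_zero] at h7
  set x : EuclideanSpace ℝ ι := WithLp.toLp 2 (fun i => (k i : ℝ)) with hx
  have h8 : ∏ i, (1 + (k i : ℝ) ^ 2) ≤ (1 + ‖x‖) ^ N := by
    have h9 : ∀ i ∈ Finset.univ, (1 + (k i : ℝ) ^ 2) ≤ (1 + ‖x‖) ^ 2 := by
      intro i _
      have h10 : |(k i : ℝ)| ≤ ‖x‖ := PiLp.norm_apply_le x i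
      have h11 : (k i : ℝ) ^ 2 ≤ ‖x‖ ^ 2 := by
        rw [← sq_abs]
        gcongr
      nlinarith [norm_nonneg x]
    calc ∏ i, (1 + (k i : ℝ) ^ 2) ≤ ∏ _i : ι, (1 + ‖x‖) ^ 2 :=
          Finset.prod_le_prod (fun i _ => by positivity) h9
      _ = (1 + ‖x‖) ^ N := by
          rw [Finset.prod_const, ← pow_mul, hN, Finset.card_univ]
  have h12 : 0 < ∏ i, (1 + (k i : ℝ) ^ 2) := Finset.prod_pos fun i _ => by positivity
  rw [Finset.prod_inv_distrib, ← div_eq_mul_inv, le_div_iff₀ h12, mul_comm]
  calc _ ≤ (1 + ‖x‖) ^ N * ‖(𝓕 S : 𝓢(EuclideanSpace ℝ ι, ℂ)) x‖ := by gcongr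
    _ ≤ C := h7

/-- Poisson summation for smooth functions with compact support -/
theorem poi_gen {ι : Type} [Fintype ι] (f : (ι → ℝ) → ℂ) (hf : ContDiff ℝ ∞ f)
    (hc : HasCompactSupport f) :
    ∑' m : ι → ℤ, f (fun i => (m i : ℝ)) = ∑' k : ι → ℤ,
      ∫ x : ι → ℝ, Complex.exp (-(2 * Real.pi * (∑ i, (k i : ℝ) * x i) : ℝ) * Complex.I) *
        f x := by
  classical
  obtain ⟨C, hC⟩ := hc.exists_bound_of_continuous hf.continuous
  obtain ⟨R, hR⟩ := hc.isCompact.isBounded.exists_norm_le
  obtain ⟨M, hM⟩ := exists_nat_gt (R + 1)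
  have h1 : ∀ (m : ι → ℤ) (x : ι → ℝ), (∀ i, x i ∈ Icc (0 : ℝ) 1) →
      ‖f (fun i => x i + m i)‖ ≤
        if m ∈ Icc (fun _ => -(M : ℤ)) (fun _ => (M : ℤ)) then C else 0 := by
    intro m x hx
    split_ifs with hm
    · exact hC _
    · rw [norm_le_zero_iff]
      by_contra hne
      apply hm
      have h2 := hR _ (subset_tsupport f hne)
      rw [pi_norm_le_iff_of_nonneg ((norm_nonneg _).trans h2)] at h2
      have h3 : ∀ i, |(m i : ℝ)| ≤ M := by
        intro i
        have h4 := h2 i
        rw [Real.norm_eq_abs] at h4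
        have h5 := abs_le.1 h4
        have h6 := hx i
        rw [abs_le]
        constructor
        · linarith [h6.2]
        · linarith [h6.1]
      rw [mem_Icc, Pi.le_def, Pi.le_def]
      constructor
      · intro i
        have := (abs_le.1 (h3 i)).1
        exact_mod_cast this
      · intro i
        have := (abs_le.1 (h3 i)).2
        exact_mod_cast this
  refine Pool.Agent.H16.HK.ps ι f _ hf.continuous (hf.continuous.integrable_of_hasCompactSupport hc)
    h1 ?_ (poi_decay f hf hc).of_norm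
  refine summable_of_hasFiniteSupport ((Set.finite_Icc (fun _ : ι => -(M : ℤ))
    (fun _ => (M : ℤ))).subset fun m hm => ?_)
  by_contra hcon
  exact hm (if_neg hcon)

/-! ### coordinates -/

/-- currying preserves the volume -/
theorem poi_curry (m : ℕ) : MeasurePreserving
    (fun (x : Fin m × Fin m → ℝ) => ((fun i j => x (i, j)) : V m)) volume volume := by
  let T : (Fin m × Fin m → ℝ) ≃ₗ[ℝ] V m :=
    { toFun := fun x i j => x (i, j)
      invFun := fun z p => z p.1 p.2
      left_inv := fun x => rfl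
      right_inv := fun z => rfl
      map_add' := fun x y => rfl
      map_smul' := fun c x => rfl }
  let T' : (Fin m × Fin m → ℝ) ≃L[ℝ] V m := T.toContinuousLinearEquiv
  refine ⟨T'.continuous.measurable, ?_⟩
  change Measure.map T' volume = volume
  have h1 : (Measure.map T' (volume : Measure (Fin m × Fin m → ℝ))).IsAddHaarMeasure :=
    T'.isAddHaarMeasure_map volume
  have h0 : ∀ _ : Fin m, (volume : Measure (Fin m → ℝ)).IsAddHaarMeasure :=
    fun _ => inferInstance
  have h00 : (volume : Measure (V m)).IsAddHaarMeasure :=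
    Measure.pi.isAddHaarMeasure (μ := fun _ : Fin m => (volume : Measure (Fin m → ℝ)))
  have hc := Measure.isAddLeftInvariant_eq_smul
    (Measure.map T' (volume : Measure (Fin m × Fin m → ℝ))) (volume : Measure (V m))
  set c := Measure.addHaarScalarFactor
    (Measure.map T' (volume : Measure (Fin m × Fin m → ℝ))) (volume : Measure (V m))
  let K : Set (V m) := Set.univ.pi fun _ => Set.univ.pi fun _ => Icc (0 : ℝ) 1
  have hK1 : (volume : Measure (V m)) K = 1 := by
    rw [volume_pi_pi]
    simp only [volume_pi_pi, Real.volume_Icc, sub_zero, ENNReal.ofReal_one, Finset.prod_const_one]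
  have hK2 : Measure.map T' (volume : Measure (Fin m × Fin m → ℝ)) K = 1 := by
    have h2 : MeasurableSet K := MeasurableSet.univ_pi fun _ => MeasurableSet.univ_pi fun _ =>
      measurableSet_Icc
    rw [Measure.map_apply T'.continuous.measurable h2]
    have h3 : T' ⁻¹' K = Set.univ.pi fun _ => Icc (0 : ℝ) 1 := by
      ext x
      constructor
      · intro hx p _
        exact hx p.1 (mem_univ _) p.2 (mem_univ _)
      · intro hx i _ j _
        exact hx (i, j) (mem_univ _)
    rw [h3, volume_pi_pi]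
    simp only [Real.volume_Icc, sub_zero, ENNReal.ofReal_one, Finset.prod_const_one]
  have hc1 : c = 1 := by
    rw [hc, Measure.smul_apply, hK1, ENNReal.smul_def, smul_eq_mul, mul_one] at hK2
    exact_mod_cast hK2
  rw [hc, hc1, one_smul]

/-- the matrix of the change of coordinates -/
noncomputable def poi_M {m : ℕ} (b : Module.Basis (Fin m × Fin m) ℝ (Mat m)) (c : ℝ)
    (h g : Mat m) : Matrix (Fin m × Fin m) (Fin m × Fin m) ℝ :=
  Matrix.of fun p k => (c • (h * b k * g)) p.1 p.2

open scoped Kronecker in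
theorem poi_M_eq {m : ℕ} (b : Module.Basis (Fin m × Fin m) ℝ (Mat m)) (c : ℝ) (h g : Mat m) :
    poi_M b c h g = c • ((h ⊗ₖ g.transpose) *
      (Matrix.of fun (i j : Fin m × Fin m) => (b i) j.1 j.2).transpose) := by
  ext p k
  simp only [poi_M, Matrix.of_apply, Matrix.smul_apply, smul_eq_mul, Matrix.mul_apply,
    Matrix.kroneckerMap_apply, Matrix.transpose_apply, Fintype.sum_prod_type, Finset.sum_mul]
  rw [Finset.sum_comm]
  congr 1
  exact Finset.sum_congr rfl fun i _ => Finset.sum_congr rfl fun j _ => by ring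

theorem poi_M_det {m : ℕ} (b : Module.Basis (Fin m × Fin m) ℝ (Mat m)) (c : ℝ) (h g : Mat m) :
    |(poi_M b c h g).det| = |c| ^ (m ^ 2) * (|h.det| ^ m * |g.det| ^ m) * covol b := by
  rw [poi_M_eq, Matrix.det_smul, Matrix.det_mul, Matrix.det_kronecker, Matrix.det_transpose,
    Matrix.det_transpose, covol]
  simp only [Fintype.card_prod, Fintype.card_fin, abs_mul, abs_pow, sq]
  ring

theorem poi_covol {m : ℕ} (b : Module.Basis (Fin m × Fin m) ℝ (Mat m)) : 0 < covol b := by
  rw [covol, abs_pos]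
  have h1 : LinearIndependent ℝ
      (Matrix.of fun (i j : Fin m × Fin m) => (b i) j.1 j.2).row := by
    let T : Mat m ≃ₗ[ℝ] (Fin m × Fin m → ℝ) :=
      { toFun := fun z p => z p.1 p.2
        invFun := fun x => Matrix.of fun i j => x (i, j)
        left_inv := fun x => rfl
        right_inv := fun z => rfl
        map_add' := fun x y => rfl
        map_smul' := fun c x => rfl }
    exact b.linearIndependent.map' T.toLinearMap T.ker
  have h2 := Matrix.linearIndependent_rows_iff_isUnit.1 h1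
  exact ((Matrix.isUnit_iff_isUnit_det _).1 h2).ne_zero

theorem poi_M_apply {m : ℕ} (b : Module.Basis (Fin m × Fin m) ℝ (Mat m)) (κ q : ℝ)
    (h g α0 : Mat m) (x : Fin m × Fin m → ℝ) (i j : Fin m) :
    (κ • (h * (α0 + q • ∑ k, x k • b k) * g)) i j =
      (κ • (h * α0 * g)) i j + (poi_M b (κ * q) h g).mulVec x (i, j) := by
  have h1 : κ • (h * (α0 + q • ∑ k, x k • b k) * g) =
      κ • (h * α0 * g) + ∑ k, x k • ((κ * q) • (h * b k * g)) := by
    rw [mul_add, add_mul, smul_add, mul_smul_comm, smul_mul_assoc, Finset.mul_sum, Finset.sum_mul,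
      smul_smul, Finset.smul_sum]
    congr 1
    refine Finset.sum_congr rfl fun k _ => ?_
    rw [mul_smul_comm, smul_mul_assoc, smul_comm]
  rw [h1, Matrix.add_apply, Matrix.sum_apply]
  congr 1
  simp only [Matrix.mulVec, dotProduct, poi_M, Matrix.of_apply]
  refine Finset.sum_congr rfl fun k _ => ?_
  rw [Matrix.smul_apply, smul_eq_mul, mul_comm]

theorem poi_trace {m : ℕ} (β : Mat m) (h : ∀ y : Mat m, (β * y).trace = 0) : β = 0 := by
  have h1 := h β.conjTranspose
  exact Matrix.trace_mul_conjTranspose_self_eq_zero_iff.1 h1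

/-- coordinates of the dual lattice -/
noncomputable def poi_T {m : ℕ} (b : Module.Basis (Fin m × Fin m) ℝ (Mat m)) :
    Mat m →ₗ[ℝ] (Fin m × Fin m → ℝ) where
  toFun β k := (β * b k).trace
  map_add' x y := by
    funext k
    simp [add_mul]
  map_smul' c x := by
    funext k
    simp

theorem poi_T_bij {m : ℕ} (b : Module.Basis (Fin m × Fin m) ℝ (Mat m)) :
    Function.Bijective (poi_T b) := by
  have h1 : Function.Injective (poi_T b) := by
    rw [injective_iff_map_eq_zero]
    intro β hβ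
    apply poi_trace
    intro y
    rw [← b.sum_repr y, Finset.mul_sum, Matrix.trace_sum]
    refine Finset.sum_eq_zero fun k _ => ?_
    rw [mul_smul_comm, Matrix.trace_smul]
    have h2 : (β * b k).trace = 0 := congrFun hβ k
    rw [h2, smul_zero]
  refine ⟨h1, ?_⟩
  refine (LinearMap.injective_iff_surjective_of_finrank_eq_finrank ?_).1 h1
  rw [Module.finrank_eq_card_basis b, Module.finrank_fintype_fun_eq_card]

/-- the argument is an affine function of the coordinates -/
theorem poi_det {m : ℕ} (b : Module.Basis (Fin m × Fin m) ℝ (Mat m)) (q : ℕ) (g h : Mat m)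
    (r : ℝ) (hm : 1 ≤ m) (hg : g.det ≠ 0) (hh : h.det ≠ 0) (hr : 0 < r) :
    |(poi_M b (r⁻¹ * aN h / aN g * q) h⁻¹ g).det| =
      covol b * (q : ℝ) ^ (m ^ 2) / r ^ (m ^ 2) := by
  have h1 : ∀ z : Mat m, 0 ≤ aN z := fun z => by unfold aN; positivity
  have h2 : ∀ z : Mat m, aN z ^ (m ^ 2) = |z.det| ^ m := by
    intro z
    have h3 : aN z ^ m = |z.det| := by
      rw [aN, ← Real.rpow_natCast, ← Real.rpow_mul (abs_nonneg _)]
      rw [one_div, inv_mul_cancel₀ (by exact_mod_cast (by omega : m ≠ 0)), Real.rpow_one]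
    rw [sq, pow_mul, h3]
  have hg' : 0 < |g.det| := abs_pos.2 hg
  have hh' : 0 < |h.det| := abs_pos.2 hh
  rw [poi_M_det, abs_of_nonneg (by have := h1 h; have := h1 g; positivity), mul_pow, div_pow,
    mul_pow, h2, h2, Matrix.det_nonsing_inv, Ring.inverse_eq_inv', abs_inv, inv_pow, inv_pow]
  field_simp

open Classical in
theorem pf_POI : T_DUA → T_POI := by
  intro hD m q O b d R _ _ π σ hO hL Φ hΦ hΦc g h r c hg hh hr
  obtain ⟨-, -, -, hDU, -, -⟩ := hD m O b d q R π σ hO hL
  have hm := hO.one_le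
  have hq : (q : ℝ) ≠ 0 := by
    have := hL.two_le
    exact_mod_cast (by omega : q ≠ 0)
  have hq0 : (0 : ℝ) < q := lt_of_le_of_ne (Nat.cast_nonneg _) (Ne.symm hq)
  set α0 : Mat m := σ c with hα0
  have hα0O : α0 ∈ O := (hL.red.sec c).1
  have hα0c : π α0 = c := (hL.red.sec c).2
  set κ : ℝ := r⁻¹ * aN h / aN g with hκ
  have haN : ∀ z : Mat m, z.det ≠ 0 → 0 < aN z := by
    intro z hz
    have := abs_pos.2 hz
    unfold aN
    positivity
  have hκ0 : 0 < κ := by
    have := haN h hh
    have := haN g hg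
    positivity
  set M := poi_M b (κ * q) h⁻¹ g with hM
  have hdet : |M.det| = covol b * (q : ℝ) ^ (m ^ 2) / r ^ (m ^ 2) :=
    poi_det b q g h r hm hg hh hr
  have hcv := poi_covol b
  have hdet0 : 0 < |M.det| := by
    rw [hdet]
    positivity
  have hdet1 : M.det ≠ 0 := abs_pos.1 hdet0
  let cur : (Fin m × Fin m → ℝ) → V m := fun x i j => x (i, j)
  let y0 : Fin m × Fin m → ℝ := fun p => (κ • (h⁻¹ * α0 * g)) p.1 p.2
  let L : (Fin m × Fin m → ℝ) → Mat m := fun x => ∑ k, x k • b k
  let Z : (Fin m × Fin m → ℝ) → Mat m := fun x => κ • (h⁻¹ * (α0 + (q : ℝ) • L x) * g)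
  have hZ : ∀ x, Z x = mt (cur (y0 + M.mulVec x)) := by
    intro x
    ext i j
    exact poi_M_apply b κ q h⁻¹ g α0 x i j
  -- the curried function
  let F1 : (Fin m × Fin m → ℝ) → ℂ := fun y => Φ (mt (cur y))
  let curL : (Fin m × Fin m → ℝ) ≃L[ℝ] V m := LinearEquiv.toContinuousLinearEquiv
    { toFun := fun x i j => x (i, j)
      invFun := fun z p => z p.1 p.2
      left_inv := fun x => rfl
      right_inv := fun z => rfl
      map_add' := fun x y => rfl
      map_smul' := fun c x => rfl }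
  have hF1s : ContDiff ℝ ∞ F1 := hΦ.comp curL.contDiff
  have hF1c : HasCompactSupport F1 := hΦc.comp_homeomorph curL.toHomeomorph
  -- the function for Poisson summation
  let f : (Fin m × Fin m → ℝ) → ℂ := fun x => F1 (y0 + M.mulVec x)
  let ML : (Fin m × Fin m → ℝ) ≃L[ℝ] (Fin m × Fin m → ℝ) :=
    (M.toLinearEquiv' (M.invertibleOfIsUnitDet hdet1.isUnit)).toContinuousLinearEquiv
  have hfs : ContDiff ℝ ∞ f := hF1s.comp (contDiff_const.add ML.contDiff)
  have hfc : HasCompactSupport f :=
    hF1c.comp_homeomorph (ML.toHomeomorph.trans (Homeomorph.addLeft y0))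
  have hft : ∀ x, f x = Φ (Z x) := fun x => by
    change Φ (mt (cur (y0 + M.mulVec x))) = _
    rw [hZ]
  -- the Fourier coefficients
  let w : Mat m → Mat m := fun β => kk ((q : ℝ) / r) g β h
  have hphase : ∀ (β : Mat m) (x : Fin m × Fin m → ℝ), (w β * Z x).trace =
      (β * α0).trace / q + (β * L x).trace := by
    intro β x
    have hgu : g * g⁻¹ = 1 := Matrix.mul_nonsing_inv _ hg.isUnit
    have hhu : h * h⁻¹ = 1 := Matrix.mul_nonsing_inv _ hh.isUnit
    have e1 : w β = (κ⁻¹ / q) • (g⁻¹ * β * h) := by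
      have := (haN h hh).ne'
      have := (haN g hg).ne'
      simp only [w, kk, hκ]
      congr 1
      field_simp
    have e2 : w β * Z x = (q : ℝ)⁻¹ • (g⁻¹ * (β * (α0 + (q : ℝ) • L x)) * g) := by
      rw [e1]
      simp only [Z]
      rw [smul_mul_smul_comm]
      congr 1
      · field_simp
      · calc g⁻¹ * β * h * (h⁻¹ * (α0 + (q : ℝ) • L x) * g) =
            g⁻¹ * β * (h * h⁻¹) * (α0 + (q : ℝ) • L x) * g := by noncomm_ring
          _ = _ := by rw [hhu, mul_one, mul_assoc g⁻¹ β]
    rw [e2, Matrix.trace_smul, Matrix.trace_mul_comm, ← mul_assoc, hgu, one_mul, mul_add,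
      Matrix.trace_add, mul_smul_comm, Matrix.trace_smul, smul_eq_mul, smul_eq_mul]
    field_simp
  have hee : ∀ x y : ℝ, ee (x + y) = ee x * ee y := by
    intro x y
    simp only [ee]
    rw [← Complex.exp_add]
    congr 1
    push_cast
    ring
  have heen : ∀ x : ℝ, ‖ee x‖ = 1 := by
    intro x
    have : ee x = Complex.exp ((2 * Real.pi * x : ℝ) * Complex.I) := by
      simp only [ee]
      congr 1
      push_cast
      ring
    rw [this, Complex.norm_exp_ofReal_mul_I]
  have hFT : ∀ β : Mat m, ft Φ (w β) = ∫ y : Fin m × Fin m → ℝ,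
      F1 y * ee (-(w β * mt (cur y)).trace) := by
    intro β
    rw [ft, ← (poi_curry m).integral_comp curL.toHomeomorph.measurableEmbedding]
  have hcoef : ∀ β : Mat m, ∫ x : Fin m × Fin m → ℝ,
      Complex.exp (-(2 * Real.pi * (∑ k, (β * b k).trace * x k) : ℝ) * Complex.I) * f x =
      ee ((β * α0).trace / q) * ((|M.det|⁻¹ : ℝ) * ft Φ (w β)) := by
    intro β
    let H : (Fin m × Fin m → ℝ) → ℂ := fun y =>
      F1 (y0 + y) * ee (-(w β * mt (cur (y0 + y))).trace)
    have hHi : Integrable H := by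
      have h4 : Continuous (fun y : Fin m × Fin m → ℝ => F1 (y0 + y)) :=
        hF1s.continuous.comp (continuous_const.add continuous_id)
      have h5 : HasCompactSupport (fun y : Fin m × Fin m → ℝ => F1 (y0 + y)) :=
        hF1c.comp_homeomorph (Homeomorph.addLeft y0)
      have h6 : Continuous (fun y : Fin m × Fin m → ℝ =>
          ee (-(w β * mt (cur (y0 + y))).trace)) := by
        simp only [ee, Matrix.trace, Matrix.diag_apply, Matrix.mul_apply, Matrix.of_apply, cur,
          Pi.add_apply]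
        fun_prop
      exact (h4.mul h6).integrable_of_hasCompactSupport h5.mul_right
    have h1 := (Pool.Agent.H3.HK.subst M hdet1 H hHi).2
    have h2 : ∫ y, H y = ft Φ (w β) := by
      rw [hFT]
      exact integral_add_left_eq_self (μ := (volume : Measure (Fin m × Fin m → ℝ)))
        (fun y => F1 y * ee (-(w β * mt (cur y)).trace)) y0
    rw [h2] at h1
    rw [← h1, ← integral_const_mul]
    refine integral_congr_ae (Filter.Eventually.of_forall fun x => ?_)
    change _ = ee ((β * α0).trace / q) * (f x * ee (-(w β * mt (cur (y0 + M.mulVec x))).trace))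
    rw [← hZ, hphase]
    have h3 : (β * L x).trace = ∑ k, (β * b k).trace * x k := by
      simp only [L]
      rw [Finset.mul_sum, Matrix.trace_sum]
      refine Finset.sum_congr rfl fun k _ => ?_
      rw [mul_smul_comm, Matrix.trace_smul, smul_eq_mul, mul_comm]
    have h7 : ee ((β * α0).trace / q + -((β * α0).trace / q + ∑ k, (β * b k).trace * x k)) =
        Complex.exp (-(2 * Real.pi * (∑ k, (β * b k).trace * x k) : ℝ) * Complex.I) := by
      simp only [ee]
      congr 1
      push_cast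
      ring
    rw [h3, mul_left_comm, ← hee, h7, mul_comm (f x)]
  -- the two lattices
  have hdual : ∀ k : Fin m × Fin m → ℤ, ∃ β ∈ Dual O, ∀ i, (β * b i).trace = k i := by
    intro k
    obtain ⟨β, hβ⟩ := (poi_T_bij b).2 (fun i => (k i : ℝ))
    have hβ' : ∀ i, (β * b i).trace = k i := fun i => congrFun hβ i
    refine ⟨β, fun y hy => ?_, hβ'⟩
    obtain ⟨n, hn⟩ : ∃ n : Fin m × Fin m → ℤ, ∀ i, b.repr y i = n i := by
      choose n hn using (hO.ord.lat y).1 hy
      exact ⟨n, hn⟩
    refine ⟨∑ i, n i * k i, ?_⟩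
    rw [← b.sum_repr y, Finset.mul_sum, Matrix.trace_sum]
    push_cast
    refine Finset.sum_congr rfl fun i _ => ?_
    rw [mul_smul_comm, Matrix.trace_smul, smul_eq_mul, hn, hβ']
  choose bk hbk hbk2 using hdual
  have hbO : ∀ i, b i ∈ O := by
    intro i
    rw [hO.ord.lat]
    intro j
    rw [Module.Basis.repr_self]
    by_cases hij : i = j
    · exact ⟨1, by rw [hij, Finsupp.single_eq_same]; simp⟩
    · exact ⟨0, by rw [Finsupp.single_eq_of_ne (Ne.symm hij)]; simp⟩
  have hbij : Function.Bijective (fun k : Fin m × Fin m → ℤ => (⟨bk k, hbk k⟩ : Dual O)) := by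
    constructor
    · intro k k' hkk
      have h1 : bk k = bk k' := congrArg Subtype.val hkk
      funext i
      have h2 := hbk2 k i
      rw [h1, hbk2 k' i] at h2
      exact_mod_cast h2.symm
    · intro β
      choose k hk using fun i => β.2 (b i) (hbO i)
      refine ⟨k, Subtype.ext ?_⟩
      apply (poi_T_bij b).1
      funext i
      change (bk k * b i).trace = ((β : Mat m) * b i).trace
      rw [hbk2, hk]
  let eD : (Fin m × Fin m → ℤ) ≃ Dual O := Equiv.ofBijective _ hbij
  have hcoef2 : ∀ k : Fin m × Fin m → ℤ, ∫ x : Fin m × Fin m → ℝ,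
      Complex.exp (-(2 * Real.pi * (∑ i, (k i : ℝ) * x i) : ℝ) * Complex.I) * f x =
      psi q σ (bt d π (eD k : Mat m) * c) * ((|M.det|⁻¹ : ℝ) * ft Φ (w (eD k : Mat m))) := by
    intro k
    have h1 := hcoef (bk k)
    simp only [hbk2] at h1
    rw [h1, hDU _ (hbk k) _ hα0O, hα0c]
    rfl
  have hpsin : ∀ k, ‖psi q σ (bt d π (eD k : Mat m) * c)‖ = 1 := by
    intro k
    simp only [psi]
    exact heen _
  constructor
  · rw [← eD.summable_iff]
    have h1 := (poi_decay f hfs hfc).mul_left |M.det|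
    refine h1.congr fun k => ?_
    rw [hcoef2, norm_mul, hpsin, one_mul, norm_mul, Complex.norm_real, Real.norm_eq_abs,
      abs_of_pos (inv_pos.2 hdet0), mul_inv_cancel_left₀ hdet0.ne']
    rfl
  · have hLr : ∀ (x : Fin m × Fin m → ℝ) (i : Fin m × Fin m), b.repr (L x) i = x i := by
      intro x i
      exact congrFun (b.repr_sum_self x) i
    have hLO : ∀ n : Fin m × Fin m → ℤ, L (fun i => (n i : ℝ)) ∈ O := by
      intro n
      rw [hO.ord.lat]
      intro i
      exact ⟨n i, hLr _ i⟩
    have hqO : ∀ x ∈ O, (q : ℝ) • x ∈ O := by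
      intro x hx
      rw [Nat.cast_smul_eq_nsmul]
      exact nsmul_mem hx q
    let eO : (Fin m × Fin m → ℤ) → O := fun n =>
      ⟨α0 + (q : ℝ) • L (fun i => (n i : ℝ)), add_mem hα0O (hqO _ (hLO n))⟩
    have heO : Function.Injective eO := by
      intro n n' hnn
      have h1 : α0 + (q : ℝ) • L (fun i => (n i : ℝ)) = α0 + (q : ℝ) • L (fun i => (n' i : ℝ)) :=
        congrArg Subtype.val hnn
      have h2 := smul_right_injective (Mat m) hq (add_left_cancel h1)
      funext i
      have h3 := hLr (fun i => (n i : ℝ)) i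
      rw [h2, hLr] at h3
      exact_mod_cast h3.symm
    have hπ0 : ∀ α ∈ O, π ((q : ℝ) • α) = 0 := fun α hα =>
      (hL.red.ker _ (hqO α hα)).2 ⟨α, hα, rfl⟩
    have h1 : ∑' α : O, (if π (α : Mat m) = c then Φ (kk r h (α : Mat m) g) else 0) =
        ∑' n : Fin m × Fin m → ℤ, f (fun i => (n i : ℝ)) := by
      rw [← heO.tsum_eq]
      · refine tsum_congr fun n => ?_
        have h2 : π (eO n : Mat m) = c := by
          change π (α0 + (q : ℝ) • L (fun i => (n i : ℝ))) = c
          rw [hL.red.add _ hα0O _ (hqO _ (hLO n)), hπ0 _ (hLO n), add_zero, hα0c]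
        rw [if_pos h2, hft]
        rfl
      · intro α hα
        have h2 : π (α : Mat m) = c := by
          by_contra hcon
          exact hα (if_neg hcon)
        have h3 : (α : Mat m) - α0 ∈ O := sub_mem α.2 hα0O
        have h4 : π ((α : Mat m) - α0) = 0 := by
          have h5 := hL.red.add _ h3 _ hα0O
          rw [sub_add_cancel, h2, hα0c] at h5
          exact (right_eq_add.1 h5)
        obtain ⟨w', hw', hw2⟩ := (hL.red.ker _ h3).1 h4
        choose n hn using (hO.ord.lat w').1 hw'
        refine ⟨n, Subtype.ext ?_⟩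
        have h6 : L (fun i => (n i : ℝ)) = w' := by
          apply b.repr.injective
          ext i
          rw [hLr, hn]
        change α0 + (q : ℝ) • L (fun i => (n i : ℝ)) = α
        rw [h6, ← hw2, add_sub_cancel]
    rw [h1, poi_gen f hfs hfc, ← eD.tsum_eq, ← tsum_mul_left]
    refine tsum_congr fun k => ?_
    rw [hcoef2, hdet, inv_div, mul_left_comm]

end Pool.Agent.H34.GM
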