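import Pool.Agent.H34.GM.Targets2

/-!
Row CON: the Mellin transform of a function of rapid decay vanishing near zero is entire.
-/

set_option autoImplicit false

namespace Pool.Agent.H34.GM

open MeasureTheory Set Filter Asymptotics

theorem CON_top (th : ℝ → ℂ)
    (h : ∀ N : ℕ, ∃ C : ℝ, ∀ r : ℝ, 1 ≤ r → ‖th r‖ ≤ C * r ^ (-(N : ℝ))) (N : ℕ) :
    th =O[atTop] (fun r : ℝ => r ^ (-(N : ℝ))) := by
  obtain ⟨C, hC⟩ := h N
  refine IsBigO.of_bound C ?_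
  filter_upwards [eventually_ge_atTop (1 : ℝ)] with r hr
  have h0 : (0 : ℝ) ≤ r ^ (-(N : ℝ)) := Real.rpow_nonneg (by linarith) _
  rw [Real.norm_of_nonneg h0]
  exact hC r hr

theorem CON_bot (th : ℝ → ℂ) (h : ∃ r0 : ℝ, 0 < r0 ∧ ∀ r : ℝ, 0 < r → r < r0 → th r = 0)
    (b : ℝ) : th =O[nhdsWithin 0 (Ioi 0)] (fun r : ℝ => r ^ (-b)) := by
  obtain ⟨r0, h0, hr⟩ := h
  refine IsBigO.of_bound 0 ?_
  filter_upwards [Ioo_mem_nhdsGT h0] with r hr'
  rw [hr r hr'.1 hr'.2]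
  simp

theorem pf_CON : T_CON := by
  intro m th _ hc h0 hN
  have hli : LocallyIntegrableOn th (Ioi (0 : ℝ)) :=
    hc.locallyIntegrableOn measurableSet_Ioi
  have hex : ∀ u : ℂ, DifferentiableAt ℂ (mellin th) u ∧ MellinConvergent th u := by
    intro u
    obtain ⟨N, hNu⟩ := exists_nat_gt u.re
    have hb : u.re - 1 < u.re := by linarith
    exact ⟨mellin_differentiableAt_of_isBigO_rpow hli (CON_top th hN N) hNu
        (CON_bot th h0 (u.re - 1)) hb,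
      mellinConvergent_of_isBigO_rpow hli (CON_top th hN N) hNu (CON_bot th h0 (u.re - 1)) hb⟩
  have hcomm : ∀ s : ℂ, (fun r : ℝ => th r *
      ((r : ℝ) : ℂ) ^ (-((m : ℂ) * (s + ((m : ℂ) - 1) / 2)) - 1)) =
      fun r : ℝ => ((r : ℝ) : ℂ) ^ (-((m : ℂ) * (s + ((m : ℂ) - 1) / 2)) - 1) • th r := by
    intro s
    funext r
    rw [smul_eq_mul, mul_comm]
  refine ⟨?_, ?_⟩
  · have hfun : (fun s : ℂ => ∫ r in Set.Ioi (0 : ℝ), th r *
        ((r : ℝ) : ℂ) ^ (-((m : ℂ) * (s + ((m : ℂ) - 1) / 2)) - 1)) =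
        fun s : ℂ => mellin th (-((m : ℂ) * (s + ((m : ℂ) - 1) / 2))) := by
      funext s
      rw [hcomm s]
      rfl
    rw [hfun]
    intro s
    have h1 : DifferentiableAt ℂ (fun s : ℂ => -((m : ℂ) * (s + ((m : ℂ) - 1) / 2))) s := by
      fun_prop
    exact DifferentiableAt.comp (g := mellin th) s (hex _).1 h1
  · intro s
    rw [hcomm s]
    exact (hex (-((m : ℂ) * (s + ((m : ℂ) - 1) / 2)))).2

end Pool.Agent.H34.GM
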