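import Pool.Agent.H34.GM.Targets2

/-!
Row BES of gmf_modules (MP_52e316_nt): Bessel's inequality for the square of an integral operator.
-/

set_option autoImplicit false

namespace Pool.Agent.H34.GM

open MeasureTheory ENNReal

variable {X : Type} [MeasurableSpace X]

/-- square integrability -/
theorem bes_memLp {ν : Measure X} {f : X → ℂ} (hf : Measurable f)
    (h : Integrable (fun x => f x * (starRingEnd ℂ) (f x)) ν) : MemLp f 2 ν := by
  rw [memLp_two_iff_integrable_sq_norm hf.aestronglyMeasurable]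
  have h1 := h.norm
  refine h1.congr (Filter.Eventually.of_forall fun x => ?_)
  simp only [norm_mul, RCLike.norm_conj]
  ring

/-- the square of the `L²` norm -/
theorem bes_lint {ν : Measure X} {f : X → ℂ} (hf : MemLp f 2 ν) :
    ENNReal.ofReal (‖hf.toLp f‖ ^ 2) = ∫⁻ x, ENNReal.ofReal (‖f x‖ ^ 2) ∂ν := by
  have h1 : Integrable (fun x => ‖f x‖ ^ 2) ν :=
    (memLp_two_iff_integrable_sq_norm hf.1).1 hf
  rw [← ofReal_integral_eq_lintegral_ofReal h1 (Filter.Eventually.of_forall fun x => by positivity)]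
  congr 1
  have h2 : (inner ℂ (hf.toLp f) (hf.toLp f) : ℂ) = ((‖hf.toLp f‖ ^ 2 : ℝ) : ℂ) := by
    rw [inner_self_eq_norm_sq_to_K]; push_cast; rfl
  have h3 : (inner ℂ (hf.toLp f) (hf.toLp f) : ℂ) = ((∫ x, ‖f x‖ ^ 2 ∂ν : ℝ) : ℂ) := by
    rw [L2.inner_def, ← integral_complex_ofReal]
    refine integral_congr_ae ?_
    filter_upwards [hf.coeFn_toLp] with x hx
    rw [hx, inner_self_eq_norm_sq_to_K]; push_cast; rfl
  exact_mod_cast h2.symm.trans h3

/-- Bessel's inequality -/
theorem bes_bessel {ν : Measure X} {ι : Type} [Fintype ι] [DecidableEq ι] {f : ι → X → ℂ}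
    (hf : ∀ i, MemLp (f i) 2 ν)
    (ho : ∀ i j, ∫ x, f i x * (starRingEnd ℂ) (f j x) ∂ν = if i = j then 1 else 0)
    {H : X → ℂ} (hH : MemLp H 2 ν) :
    ∑ i, ENNReal.ofReal (‖∫ z, H z * f i z ∂ν‖ ^ 2) ≤ ∫⁻ z, ENNReal.ofReal (‖H z‖ ^ 2) ∂ν := by
  have hG : MemLp (fun x => (starRingEnd ℂ) (H x)) 2 ν := by
    refine hH.norm.of_le_mul (c := 1) ?_ ?_
    · exact (continuous_star.comp_aestronglyMeasurable hH.1 :)
    · exact Filter.Eventually.of_forall fun x => by simp
  set v : ι → Lp ℂ 2 ν := fun i => (hf i).toLp (f i) with hv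
  have hon : Orthonormal ℂ v := by
    rw [orthonormal_iff_ite]
    intro i j
    rw [L2.inner_def]
    have : ∫ x, (inner ℂ ((v i : X → ℂ) x) ((v j : X → ℂ) x) : ℂ) ∂ν =
        ∫ x, f j x * (starRingEnd ℂ) (f i x) ∂ν := by
      refine integral_congr_ae ?_
      filter_upwards [(hf i).coeFn_toLp, (hf j).coeFn_toLp] with x hx hy
      rw [hv]
      simp only [hx, hy, RCLike.inner_apply]
    rw [this, ho j i]
    by_cases hij : i = j
    · simp [hij]
    · rw [if_neg hij, if_neg (fun h => hij h.symm)]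
  have hb := hon.sum_inner_products_le (x := hG.toLp _) (s := Finset.univ)
  have hin : ∀ i, ‖(inner ℂ (v i) (hG.toLp _) : ℂ)‖ = ‖∫ z, H z * f i z ∂ν‖ := by
    intro i
    rw [L2.inner_def]
    have : ∫ x, (inner ℂ ((v i : X → ℂ) x) ((hG.toLp _ : X → ℂ) x) : ℂ) ∂ν =
        (starRingEnd ℂ) (∫ x, H x * f i x ∂ν) := by
      rw [← integral_conj]
      refine integral_congr_ae ?_
      filter_upwards [(hf i).coeFn_toLp, hG.coeFn_toLp] with x hx hy
      rw [hv]
      simp only [hx, hy, RCLike.inner_apply, map_mul]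
    rw [this, RCLike.norm_conj]
  have h1 : ∑ i, ENNReal.ofReal (‖∫ z, H z * f i z ∂ν‖ ^ 2) =
      ENNReal.ofReal (∑ i, ‖(inner ℂ (v i) (hG.toLp _) : ℂ)‖ ^ 2) := by
    rw [ENNReal.ofReal_sum_of_nonneg fun i _ => by positivity]
    refine Finset.sum_congr rfl fun i _ => ?_
    rw [hin]
  rw [h1]
  refine (ENNReal.ofReal_le_ofReal hb).trans ?_
  rw [bes_lint hG]
  simp

/-- Cauchy-Schwarz for non negative functions -/
theorem bes_cs {ν : Measure X} {u v : X → ENNReal} (hu : AEMeasurable u ν) (hv : AEMeasurable v ν)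
    (h1 : ∫⁻ x, u x ^ 2 ∂ν ≠ ⊤) (h2 : ∫⁻ x, v x ^ 2 ∂ν ≠ ⊤) : ∫⁻ x, u x * v x ∂ν ≠ ⊤ := by
  have h := ENNReal.lintegral_mul_le_Lp_mul_Lq ν (p := 2) (q := 2)
    (Real.HolderConjugate.two_two) hu hv
  refine ne_top_of_le_ne_top ?_ h
  refine ENNReal.mul_ne_top ?_ ?_
  · refine ENNReal.rpow_ne_top_of_nonneg (by norm_num) ?_
    simpa using h1
  · refine ENNReal.rpow_ne_top_of_nonneg (by norm_num) ?_
    simpa using h2

theorem pf_BES : T_BES := by
  intro X _ ν _ ι _ _ f K P hfm hint ho hK hP hKP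
  have hK' : ∀ x, Measurable (K x) := fun x => hK.of_uncurry_left
  have hf : ∀ i, MemLp (f i) 2 ν := fun i => bes_memLp (hfm i) (hint i i)
  -- measurability of the inner functions
  have hin : ∀ i, StronglyMeasurable (fun y => ∫ z, K y z * f i z ∂ν) := by
    intro i
    have h : StronglyMeasurable (Function.uncurry fun y z => K y z * f i z) :=
      (hK.mul ((hfm i).comp measurable_snd)).stronglyMeasurable
    exact h.integral_prod_right
  have hout : ∀ i, StronglyMeasurable (fun x => ∫ y, K x y * (∫ z, K y z * f i z ∂ν) ∂ν) := by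
    intro i
    have h : StronglyMeasurable
        (Function.uncurry fun x y => K x y * (∫ z, K y z * f i z ∂ν)) :=
      (hK.mul ((hin i).measurable.comp measurable_snd)).stronglyMeasurable
    exact h.integral_prod_right
  rw [← lintegral_finsetSum' Finset.univ fun i _ =>
    ((((hout i).measurable.norm.pow_const 2).ennreal_ofReal).aemeasurable)]
  refine lintegral_mono fun x => ?_
  -- the pointwise inequality
  set L : X → ENNReal := fun z => ∫⁻ y, P x y * P y z ∂ν with hL
  have hPx : Measurable (P x) := hP.of_uncurry_left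
  have hLm : Measurable L := by
    have h : Measurable (Function.uncurry fun z y => P x y * P y z) :=
      (hPx.comp measurable_snd).mul (hP.comp (measurable_snd.prodMk measurable_fst))
    exact h.lintegral_prod_right
  by_cases htop : ∫⁻ z, L z ^ 2 ∂ν = ⊤
  · rw [htop]; exact le_top
  -- integrability on the product
  have hnf : ∀ i, ∫⁻ z, (ENNReal.ofReal ‖f i z‖) ^ 2 ∂ν ≠ ⊤ := by
    intro i
    have h1 : Integrable (fun x => ‖f i x‖ ^ 2) ν :=
      (memLp_two_iff_integrable_sq_norm (hf i).1).1 (hf i)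
    have h2 := h1.lintegral_lt_top
    have h3 : ∫⁻ z, (ENNReal.ofReal ‖f i z‖) ^ 2 ∂ν = ∫⁻ z, ENNReal.ofReal (‖f i z‖ ^ 2) ∂ν := by
      refine lintegral_congr fun z => ?_
      rw [ENNReal.ofReal_pow (norm_nonneg _)]
    rw [h3]; exact h2.ne
  have hprod : ∀ i, Integrable (Function.uncurry fun y z => K x y * (K y z * f i z)) (ν.prod ν) := by
    intro i
    have hm : Measurable (Function.uncurry fun y z => K x y * (K y z * f i z)) :=
      ((hK' x).comp measurable_fst).mul (hK.mul ((hfm i).comp measurable_snd))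
    refine ⟨hm.aestronglyMeasurable, ?_⟩
    have hle : ∫⁻ p, ‖(Function.uncurry fun y z => K x y * (K y z * f i z)) p‖ₑ ∂(ν.prod ν) ≤
        ∫⁻ p, (P x p.1 * P p.1 p.2) * ENNReal.ofReal ‖f i p.2‖ ∂(ν.prod ν) := by
      refine lintegral_mono fun p => ?_
      simp only [Function.uncurry, enorm_mul]
      rw [← mul_assoc]
      gcongr
      · rw [← ofReal_norm]; exact hKP _ _
      · rw [← ofReal_norm]; exact hKP _ _
      · rw [← ofReal_norm]
    refine lt_of_le_of_lt hle ?_
    have hm2 : Measurable fun p : X × X => (P x p.1 * P p.1 p.2) * ENNReal.ofReal ‖f i p.2‖ :=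
      ((hPx.comp measurable_fst).mul hP).mul (((hfm i).comp measurable_snd).norm.ennreal_ofReal)
    rw [lintegral_prod_symm' _ hm2]
    have h1 : ∀ z, ∫⁻ y, (P x y * P y z) * ENNReal.ofReal ‖f i z‖ ∂ν =
        L z * ENNReal.ofReal ‖f i z‖ := by
      intro z
      rw [lintegral_mul_const]
      exact hPx.mul (hP.comp (measurable_id.prodMk measurable_const))
    simp only [h1]
    exact lt_top_iff_ne_top.2
      (bes_cs hLm.aemeasurable ((hfm i).norm.ennreal_ofReal).aemeasurable htop (hnf i))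
  -- the composed kernel
  set H : X → ℂ := fun z => ∫ y, K x y * K y z ∂ν with hH
  have hHm : Measurable H := by
    have h : StronglyMeasurable (Function.uncurry fun z y => K x y * K y z) :=
      (((hK' x).comp measurable_snd).mul
        (hK.comp (measurable_snd.prodMk measurable_fst))).stronglyMeasurable
    exact h.integral_prod_right.measurable
  have hHL : ∀ z, ENNReal.ofReal ‖H z‖ ≤ L z := by
    intro z
    rw [ofReal_norm]
    refine (enorm_integral_le_lintegral_enorm _).trans ?_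
    refine lintegral_mono fun y => ?_
    rw [enorm_mul, ← ofReal_norm, ← ofReal_norm]
    exact mul_le_mul' (hKP _ _) (hKP _ _)
  have hH2 : ∫⁻ z, ENNReal.ofReal (‖H z‖ ^ 2) ∂ν ≤ ∫⁻ z, L z ^ 2 ∂ν := by
    refine lintegral_mono fun z => ?_
    rw [ENNReal.ofReal_pow (norm_nonneg _)]
    exact pow_le_pow_left' (hHL z) 2
  have hHp : MemLp H 2 ν := by
    rw [memLp_two_iff_integrable_sq_norm hHm.aestronglyMeasurable]
    refine ⟨(hHm.norm.pow_const 2).aestronglyMeasurable, ?_⟩
    refine lt_of_le_of_lt ?_ (lt_of_le_of_lt hH2 (lt_top_iff_ne_top.2 htop))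
    refine lintegral_mono fun z => ?_
    rw [← ofReal_norm, Real.norm_of_nonneg (by positivity)]
  have hswap : ∀ i, ∫ y, K x y * (∫ z, K y z * f i z ∂ν) ∂ν = ∫ z, H z * f i z ∂ν := by
    intro i
    have h1 : ∫ y, K x y * (∫ z, K y z * f i z ∂ν) ∂ν =
        ∫ y, ∫ z, K x y * (K y z * f i z) ∂ν ∂ν := by
      refine integral_congr_ae (Filter.Eventually.of_forall fun y => ?_)
      simp only
      rw [integral_const_mul]
    rw [h1, integral_integral_swap (hprod i)]
    refine integral_congr_ae (Filter.Eventually.of_forall fun z => ?_)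
    simp only [hH]
    rw [← integral_mul_const]
    refine integral_congr_ae (Filter.Eventually.of_forall fun y => ?_)
    simp only
    ring
  simp only [hswap]
  exact (bes_bessel hf ho hHp).trans hH2

end Pool.Agent.H34.GM
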