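import Pool.Agent.H34.GM.Targets2

/-!
Row BBD of the board gmf_modules: bounds for `A'_r F`.
-/

namespace Pool.Agent.H34.GM

open MeasureTheory Finset

namespace BBDaux

/-- the unit of `O/qO` is not zero -/
theorem nontriv {m q : ℕ} {O : Subring (Mat m)} {b : Module.Basis (Fin m × Fin m) ℝ (Mat m)}
    {R : Type} [Ring R] {π : Mat m → R} {σ : R → Mat m} (hm : 1 ≤ m) (hO : DivOrder m O b)
    (hq : 2 ≤ q) (hR : Red m q O π σ) : (1 : R) ≠ 0 := by
  intro h
  have h1 : π 1 = 0 := by rw [hR.one, h]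
  obtain ⟨w, hw, hqw⟩ := (hR.ker 1 O.one_mem).mp h1
  have : Nonempty (Fin m) := ⟨⟨0, hm⟩⟩
  have hne : b.repr (1 : Mat m) ≠ 0 := by
    intro h0
    have : (1 : Mat m) = 0 := b.repr.map_eq_zero_iff.mp h0
    exact one_ne_zero this
  obtain ⟨i, hi⟩ := Finsupp.ne_iff.mp hne
  simp only [Finsupp.coe_zero, Pi.zero_apply] at hi
  have hq1 : (1 : ℝ) < q := by exact_mod_cast (by omega : 1 < q)
  have hq0 : (q : ℝ) ≠ 0 := by positivity
  have hwe : w = (q : ℝ)⁻¹ • (1 : Mat m) := by
    rw [hqw, smul_smul, inv_mul_cancel₀ hq0, one_smul]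
  obtain ⟨k, hk⟩ := pow_unbounded_of_one_lt |b.repr (1 : Mat m) i| hq1
  have hwk : w ^ k = ((q : ℝ) ^ k)⁻¹ • (1 : Mat m) := by
    rw [hwe, smul_pow, one_pow, inv_pow]
  obtain ⟨n, hn⟩ := (hO.lat (w ^ k)).mp (O.pow_mem hw k) i
  rw [hwk, map_smul, Finsupp.smul_apply, smul_eq_mul] at hn
  have hqk : (0 : ℝ) < (q : ℝ) ^ k := by positivity
  have habs : |(n : ℝ)| < 1 := by
    rw [← hn, abs_mul, abs_of_pos (inv_pos.mpr hqk), inv_mul_lt_iff₀ hqk, mul_one]
    exact hk
  have hn0 : n = 0 := by
    have : |n| < 1 := by exact_mod_cast habs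
    exact Int.abs_lt_one_iff.mp this
  rw [hn0, Int.cast_zero] at hn
  rcases mul_eq_zero.mp hn with h2 | h2
  · exact (inv_pos.mpr hqk).ne' h2
  · exact hi h2

theorem bt_zero {m q : ℕ} {O : Subring (Mat m)} {R : Type} [Ring R] {π : Mat m → R}
    {σ : R → Mat m} (hR : Red m q O π σ) (d : ℤ) : bt d π (0 : Mat m) = 0 := by
  have h0 : π 0 = 0 := by
    have := hR.add 0 O.zero_mem 0 O.zero_mem
    rw [add_zero] at this
    exact left_eq_add.mp this
  simp [bt, h0]

end BBDaux

open BBDaux in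
theorem pf_BBD : T_MSR → T_FNT → T_BBD := by
  classical
  intro hMSR hFNT m q O b d R _ _ π σ T D hS Φ M s hM hs hΦc hΦ
  have hm1 : 1 ≤ m := hS.ord.one_le
  have hnt : (1 : R) ≠ 0 := nontriv hm1 hS.ord.ord hS.lev.two_le hS.lev.red
  have hd : d ≠ 0 := by
    intro h
    have h1 := hS.lev.cop
    rw [h, isCoprime_zero_left] at h1
    have h2 := Int.isUnit_iff.mp h1
    have h3 := hS.lev.two_le
    omega
  obtain ⟨C, hC, hCD⟩ := hFNT m O b d hS.ord hd s hs
  obtain ⟨hDfin, hCr⟩ := hCD D hS.dom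
  obtain ⟨hinvm, hdetm, haNm, hszm, hsig, -, hkkm, hΦm⟩ := hMSR.1 m
  have := hsig
  have hcount : Countable (Dual O) := hMSR.2.2 m O b hS.ord.ord
  have hnb : ∀ β : Mat m, IsUnit (bt d π β) → β ≠ 0 := by
    intro β hβ h0
    rw [h0, bt_zero hS.lev.red] at hβ
    exact hnt (isUnit_zero_iff.mp hβ).symm
  have hDdet : ∀ z ∈ D, (mt z).det ≠ 0 := by
    intro z hz h0
    have h1 := (hS.dom.shell z hz).1
    unfold aN at h1
    rw [h0, abs_zero, Real.zero_rpow (by positivity)] at h1
    norm_num at h1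
  have hsz0 : ∀ z : Mat m, 0 ≤ sz z := fun z => norm_nonneg _
  refine ⟨M * C, fun F M1 hM1 hF hFm hF0 r hr => ?_⟩
  have hopB : ∀ (g : Mat m) (x : R), opB O d π Φ r D F g x =
      ∫ z in D, ∑' β : Dual O, (if IsUnit (bt d π (β : Mat m)) then
        Φ (kk r g (β : Mat m) (mt z)) * F (mt z) (Ring.inverse (bt d π (β : Mat m)) * x)
        else 0) ∂(hm m) := by
    intro g x
    unfold opB
    congr! 6
  -- the bound of a single term
  have hterm : ∀ (x : R) (g : Mat m) (β : Dual O), ∀ z ∈ D,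
      ‖(if IsUnit (bt d π (β : Mat m)) then
        Φ (kk r g (β : Mat m) (mt z)) * F (mt z) (Ring.inverse (bt d π (β : Mat m)) * x)
        else 0)‖ₑ ≤ ENNReal.ofReal (M * M1) * (if (β : Mat m) = 0 then 0 else
      ENNReal.ofReal ((1 + sz (kk r g (β : Mat m) (mt z))) ^ (-s))) := by
    intro x g β z hz
    by_cases hu : IsUnit (bt d π (β : Mat m))
    · rw [if_pos hu, if_neg (hnb _ hu)]
      rw [← ENNReal.ofReal_mul (mul_nonneg hM hM1), ← ofReal_norm]
      apply ENNReal.ofReal_le_ofReal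
      rw [norm_mul]
      have h1 := hΦ (kk r g (β : Mat m) (mt z))
      have h2 := hF z hz (Ring.inverse (bt d π (β : Mat m)) * x)
      calc _ ≤ (M * (1 + sz (kk r g (β : Mat m) (mt z))) ^ (-s)) * M1 :=
            mul_le_mul h1 h2 (norm_nonneg _) ((norm_nonneg _).trans h1)
        _ = _ := by ring
    · rw [if_neg hu, enorm_zero]
      exact zero_le
  have hsum : ∀ (x : R) (g : Mat m), ∀ z ∈ D,
      ∑' β : Dual O, ‖(if IsUnit (bt d π (β : Mat m)) then
        Φ (kk r g (β : Mat m) (mt z)) * F (mt z) (Ring.inverse (bt d π (β : Mat m)) * x)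
        else 0)‖ₑ ≤ ENNReal.ofReal (M * M1) * ∑' β : Dual O, (if (β : Mat m) = 0 then 0 else
      ENNReal.ofReal ((1 + sz (kk r g (β : Mat m) (mt z))) ^ (-s))) := by
    intro x g z hz
    rw [← ENNReal.tsum_mul_left]
    exact ENNReal.tsum_le_tsum fun β => hterm x g β z hz
  refine ⟨fun g x hg => ?_, fun x => ?_, fun g x hx => ?_⟩
  · -- the bound
    have h1 : ‖opB O d π Φ r D F g x‖ₑ ≤ ENNReal.ofReal (M * C * M1 * r ^ s) := by
      rw [hopB]
      refine (enorm_integral_le_lintegral_enorm _).trans ?_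
      calc _ ≤ ∫⁻ z in D, ENNReal.ofReal (M * M1) * ∑' β : Dual O,
              (if (β : Mat m) = 0 then 0 else
                ENNReal.ofReal ((1 + sz (kk r g (β : Mat m) (mt z))) ^ (-s))) ∂(hm m) := by
            refine setLIntegral_mono' hS.dom.meas fun z hz => ?_
            exact enorm_tsum_le_tsum_enorm.trans (hsum x g z hz)
        _ = ENNReal.ofReal (M * M1) * ∫⁻ z in D, ∑' β : Dual O,
              (if (β : Mat m) = 0 then 0 else
                ENNReal.ofReal ((1 + sz (kk r g (β : Mat m) (mt z))) ^ (-s))) ∂(hm m) := by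
            rw [lintegral_const_mul' _ _ ENNReal.ofReal_ne_top]
        _ ≤ ENNReal.ofReal (M * M1) * ENNReal.ofReal (C * r ^ s) :=
            mul_le_mul_right (hCr r hr g hg).2 _
        _ = ENNReal.ofReal (M * C * M1 * r ^ s) := by
            rw [← ENNReal.ofReal_mul (mul_nonneg hM hM1)]
            congr 1
            ring
    rw [← ofReal_norm] at h1
    exact (ENNReal.ofReal_le_ofReal_iff (by positivity)).mp h1
  · -- measurability
    rw [show (fun z : V m => opB O d π Φ r D F (mt z) x) = _ from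
      funext fun z => hopB (mt z) x]
    set μ : Measure (V m) := (hm m).restrict D with hμ
    have hP : Measurable (fun p : V m × V m => ∑' β : Dual O, (if (β : Mat m) = 0 then 0 else
        ENNReal.ofReal ((1 + sz (kk r (mt p.1) (β : Mat m) (mt p.2))) ^ (-s)))) := by
      refine Measurable.tsum fun β => ?_
      split_ifs with h
      · exact measurable_const
      · have h1 : Measurable (fun p : V m × V m => sz (kk r (mt p.1) (β : Mat m) (mt p.2))) :=
          hszm.comp (hkkm r (β : Mat m))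
        exact ((measurable_const.add h1).pow_const _).ennreal_ofReal
    have hPi : ∫⁻ p, ∑' β : Dual O, (if (β : Mat m) = 0 then 0 else
        ENNReal.ofReal ((1 + sz (kk r (mt p.1) (β : Mat m) (mt p.2))) ^ (-s))) ∂(μ.prod μ)
          ≠ ⊤ := by
      rw [lintegral_prod _ hP.aemeasurable]
      have h2 : ∫⁻ w, ∫⁻ z, ∑' β : Dual O, (if (β : Mat m) = 0 then 0 else
          ENNReal.ofReal ((1 + sz (kk r (mt w) (β : Mat m) (mt z))) ^ (-s))) ∂μ ∂μ ≤
          ∫⁻ w in D, ENNReal.ofReal (C * r ^ s) ∂(hm m) := by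
        refine setLIntegral_mono' hS.dom.meas fun w hw => ?_
        exact (hCr r hr (mt w) (hDdet w hw)).2
      refine ne_top_of_le_ne_top ?_ h2
      rw [setLIntegral_const]
      exact ENNReal.mul_ne_top ENNReal.ofReal_ne_top hDfin.ne
    have hae := ae_lt_top hP hPi
    have hD2 : ∀ᵐ p ∂(μ.prod μ), p.2 ∈ D :=
      (Measure.quasiMeasurePreserving_snd (μ := μ) (ν := μ)).ae
        (by rw [hμ]; exact ae_restrict_mem hS.dom.meas)
    have hH : AEStronglyMeasurable (fun p : V m × V m => ∑' β : Dual O,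
        (if IsUnit (bt d π (β : Mat m)) then
        Φ (kk r (mt p.1) (β : Mat m) (mt p.2)) *
          F (mt p.2) (Ring.inverse (bt d π (β : Mat m)) * x)
        else 0)) (μ.prod μ) := by
      refine aestronglyMeasurable_of_tendsto_ae (Filter.atTop : Filter (Finset (Dual O)))
        (f := fun A p => ∑ β ∈ A, (if IsUnit (bt d π (β : Mat m)) then
        Φ (kk r (mt p.1) (β : Mat m) (mt p.2)) *
          F (mt p.2) (Ring.inverse (bt d π (β : Mat m)) * x)
        else 0)) ?_ ?_
      · intro A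
        refine Finset.aestronglyMeasurable_fun_sum A fun β _ => ?_
        by_cases hu : IsUnit (bt d π (β : Mat m))
        · simp only [if_pos hu]
          refine AEStronglyMeasurable.mul ?_ ?_
          · have h1 : Measurable (fun p : V m × V m => Φ (kk r (mt p.1) (β : Mat m) (mt p.2))) :=
              (hΦm Φ hΦc).comp (hkkm r (β : Mat m))
            exact h1.aestronglyMeasurable
          · exact (hFm (Ring.inverse (bt d π (β : Mat m)) * x)).comp_snd
        · simp only [if_neg hu]
          exact aestronglyMeasurable_const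
      · filter_upwards [hae, hD2] with p hp hpD
        have h3 := hsum x (mt p.1) p.2 hpD
        have h4 : ∑' β : Dual O, ‖(if IsUnit (bt d π (β : Mat m)) then
            Φ (kk r (mt p.1) (β : Mat m) (mt p.2)) *
              F (mt p.2) (Ring.inverse (bt d π (β : Mat m)) * x)
            else 0)‖ₑ ≠ ⊤ :=
          ne_top_of_le_ne_top (ENNReal.mul_ne_top ENNReal.ofReal_ne_top hp.ne) h3
        have h5 := tsum_enorm_ne_top_iff_summable_norm.mp h4
        exact (Summable.of_norm h5).hasSum
    exact hH.integral_prod_right'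
  · -- support
    rw [hopB]
    refine setIntegral_eq_zero_of_forall_eq_zero fun z hz => ?_
    have : ∀ β : Dual O, (if IsUnit (bt d π (β : Mat m)) then
        Φ (kk r g (β : Mat m) (mt z)) * F (mt z) (Ring.inverse (bt d π (β : Mat m)) * x)
        else 0) = 0 := by
      intro β
      by_cases hu : IsUnit (bt d π (β : Mat m))
      · rw [if_pos hu, hF0 _ ?_ z hz, mul_zero]
        obtain ⟨u, hu'⟩ := hu
        rw [← hu', Ring.inverse_unit, Units.isUnit_units_mul]
        exact hx
      · rw [if_neg hu]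
    simp only [this, tsum_zero]

end Pool.Agent.H34.GM
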