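import Pool.Agent.H34.GM.Targets2

/-!
Row COV: covering; integrals of invariant non negative functions over a fundamental domain.
-/

namespace Pool.Agent.H34.GM

open MeasureTheory

/-- left multiplication as a map on `V m` -/
private def covMul {m : ℕ} (a : Mat m) (z : V m) : V m := fun i j => (a * mt z) i j

private lemma cov_measurable {m : ℕ} (a : Mat m) : Measurable (covMul a) := by
  unfold covMul
  refine measurable_pi_lambda _ (fun i => measurable_pi_lambda _ (fun j => ?_))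
  have h : (fun z : V m => (a * mt z) i j) = fun z : V m => ∑ k, a i k * z k j := by
    funext z
    simp [Matrix.mul_apply]
  rw [h]
  fun_prop

private lemma cov_mt {m : ℕ} (a : Mat m) (z : V m) : mt (covMul a z) = a * mt z := by
  ext i j
  simp [covMul, mt]

private lemma cov_comp {m : ℕ} (a c : Mat m) (z : V m) :
    covMul a (covMul c z) = covMul (a * c) z := by
  unfold covMul
  funext i j
  have h : (mt (fun i j => (c * mt z) i j) : Mat m) = c * mt z := by
    ext i j
    simp [mt]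
  rw [h, Matrix.mul_assoc]

private lemma cov_one {m : ℕ} (z : V m) : covMul (1 : Mat m) z = z := by
  unfold covMul
  funext i j
  simp [mt]

private lemma cov_det {m : ℕ} (hm1 : 1 ≤ m) (z : V m) (h : 1 ≤ aN (mt z)) : (mt z).det ≠ 0 := by
  intro h0
  unfold aN at h
  rw [h0, abs_zero, Real.zero_rpow] at h
  · linarith
  · have : (0 : ℝ) < m := by exact_mod_cast hm1
    positivity

private lemma cov_unit_inv {m : ℕ} {O : Subring (Mat m)} (γ : UnitsOf O) :
    ∃ δ : Mat m, δ ∈ UnitsOf O ∧ (γ : Mat m) * δ = 1 ∧ δ * (γ : Mat m) = 1 := by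
  obtain ⟨g, hg, δ, hδ, h1, h2⟩ := γ
  exact ⟨δ, ⟨hδ, g, hg, h2, h1⟩, h1, h2⟩

private lemma cov_mul_mem {m : ℕ} {O : Subring (Mat m)} {a c : Mat m} (ha : a ∈ UnitsOf O)
    (hc : c ∈ UnitsOf O) : a * c ∈ UnitsOf O := by
  obtain ⟨ha, a', ha', h1, h2⟩ := ha
  obtain ⟨hc, c', hc', h3, h4⟩ := hc
  refine ⟨O.mul_mem ha hc, c' * a', O.mul_mem hc' ha', ?_, ?_⟩
  · calc a * c * (c' * a') = a * (c * c') * a' := by simp only [Matrix.mul_assoc]
      _ = 1 := by rw [h3, Matrix.mul_one, h1]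
  · calc c' * a' * (a * c) = c' * (a' * a) * c := by simp only [Matrix.mul_assoc]
      _ = 1 := by rw [h2, Matrix.mul_one, h4]

private lemma cov_one_mem {m : ℕ} {O : Subring (Mat m)} : (1 : Mat m) ∈ UnitsOf O :=
  ⟨O.one_mem, 1, O.one_mem, by simp, by simp⟩

theorem pf_COV : T_MSR → T_HAR → T_COV := by
  intro hMSR hHAR m O b hm1 hO D hD Ω hΩ hcov f hf hinv
  have hcnt : Countable (UnitsOf O) := (hMSR.2.1 m O b hO).2
  -- inverses
  choose δ hδ using fun γ : UnitsOf O => cov_unit_inv γ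
  -- the sets
  set DD : UnitsOf O → Set (V m) := fun γ => D ∩ covMul (γ : Mat m) ⁻¹' Ω with hDD
  set EE : UnitsOf O → Set (V m) := fun γ => covMul (δ γ) ⁻¹' D ∩ Ω with hEE
  have hDDm : ∀ γ, MeasurableSet (DD γ) := fun γ =>
    hD.meas.inter (cov_measurable _ hΩ)
  have hEEm : ∀ γ, MeasurableSet (EE γ) := fun γ =>
    (cov_measurable _ hD.meas).inter hΩ
  have hsub : D ⊆ ⋃ γ, DD γ := by
    intro z hz
    obtain ⟨γ, hγ, hγΩ⟩ := hcov z (hD.shell z hz)
    exact Set.mem_iUnion.mpr ⟨⟨γ, hγ⟩, hz, hγΩ⟩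
  have hdisj : Pairwise (fun γ γ' => Disjoint (EE γ) (EE γ')) := by
    intro γ γ' hne
    rw [Set.disjoint_left]
    intro w hw hw'
    apply hne
    have h1 : covMul (δ γ) w ∈ D := hw.1
    have h2 : covMul (δ γ') w ∈ D := hw'.1
    have hsh := hD.shell _ h1
    obtain ⟨g0, -, huniq⟩ := hD.fund _ hsh.1 hsh.2
    have e1 : (1 : Mat m) = g0 := by
      apply huniq
      refine ⟨cov_one_mem, ?_⟩
      have h5 : covMul (1 : Mat m) (covMul (δ γ) w) ∈ D := by
        rw [cov_one]; exact h1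
      exact h5
    have e2 : δ γ' * (γ : Mat m) = g0 := by
      apply huniq
      refine ⟨cov_mul_mem (hδ γ').1 γ.2, ?_⟩
      have h3 : covMul (δ γ' * (γ : Mat m)) (covMul (δ γ) w) = covMul (δ γ') w := by
        rw [cov_comp, Matrix.mul_assoc, (hδ γ).2.1, Matrix.mul_one]
      have h4 : covMul (δ γ' * (γ : Mat m)) (covMul (δ γ) w) ∈ D := by
        rw [h3]; exact h2
      exact h4
    have e3 : δ γ' * (γ : Mat m) = 1 := by rw [e2, e1]
    apply Subtype.ext
    calc (γ : Mat m) = (γ' : Mat m) * δ γ' * (γ : Mat m) := by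
          rw [(hδ γ').2.1, Matrix.one_mul]
      _ = (γ' : Mat m) * (δ γ' * (γ : Mat m)) := by rw [Matrix.mul_assoc]
      _ = (γ' : Mat m) := by rw [e3, Matrix.mul_one]
  have hpiece : ∀ γ : UnitsOf O, ∫⁻ z in DD γ, f z ∂(hm m) = ∫⁻ z in EE γ, f z ∂(hm m) := by
    intro γ
    rw [← lintegral_indicator (hDDm γ), ← lintegral_indicator (hEEm γ)]
    have hdet : (γ : Mat m).det ≠ 0 := by
      intro h0
      have h1 := congrArg Matrix.det (hδ γ).2.1
      rw [Matrix.det_mul, h0, zero_mul, Matrix.det_one] at h1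
      exact zero_ne_one h1
    have hh := ((hHAR m hm1).1 (γ : Mat m) hdet ((EE γ).indicator f)
      (hf.indicator (hEEm γ))).1
    rw [← hh]
    refine lintegral_congr (fun z => ?_)
    change (DD γ).indicator f z = (EE γ).indicator f (covMul (γ : Mat m) z)
    have hback : covMul (δ γ) (covMul (γ : Mat m) z) = z := by
      rw [cov_comp, (hδ γ).2.2, cov_one]
    by_cases hz : z ∈ DD γ
    · have hz' : covMul (γ : Mat m) z ∈ EE γ := by
        refine ⟨?_, hz.2⟩
        change covMul (δ γ) (covMul (γ : Mat m) z) ∈ D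
        rw [hback]; exact hz.1
      rw [Set.indicator_of_mem hz, Set.indicator_of_mem hz']
      exact (hinv _ γ.2 z (cov_det hm1 z (hD.shell z hz.1).1)).symm
    · have hz' : covMul (γ : Mat m) z ∉ EE γ := by
        intro h
        apply hz
        refine ⟨?_, h.2⟩
        have h5 : covMul (δ γ) (covMul (γ : Mat m) z) ∈ D := h.1
        rw [hback] at h5; exact h5
      rw [Set.indicator_of_notMem hz, Set.indicator_of_notMem hz']
  calc ∫⁻ z in D, f z ∂(hm m) ≤ ∫⁻ z in ⋃ γ, DD γ, f z ∂(hm m) :=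
        lintegral_mono_set hsub
    _ ≤ ∑' γ, ∫⁻ z in DD γ, f z ∂(hm m) := lintegral_iUnion_le _ _
    _ = ∑' γ, ∫⁻ z in EE γ, f z ∂(hm m) := tsum_congr hpiece
    _ = ∫⁻ z in ⋃ γ, EE γ, f z ∂(hm m) := (lintegral_iUnion hEEm hdisj _).symm
    _ ≤ ∫⁻ z in Ω, f z ∂(hm m) := by
        apply lintegral_mono_set
        exact Set.iUnion_subset (fun γ => Set.inter_subset_right)

end Pool.Agent.H34.GM
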