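import Pool.Agent.H34.GM.Targets2

/-!
The Gauss sum operator commutes with the dual operators.
-/

namespace Pool.Agent.H34.GM

open MeasureTheory

theorem wcm_pi_zero {m q : ℕ} {O : Subring (Mat m)} {R : Type} [Ring R] {π : Mat m → R}
    {σ : R → Mat m} (h : Red m q O π σ) : π 0 = 0 := by
  have h1 := h.add 0 O.zero_mem 0 O.zero_mem
  rw [add_zero] at h1
  exact (add_eq_left.1 h1.symm)

theorem wcm_bt_zero {m q : ℕ} {O : Subring (Mat m)} {R : Type} [Ring R] {π : Mat m → R}
    {σ : R → Mat m} (h : Red m q O π σ) (d : ℤ) : bt d π (0 : Mat m) = 0 := by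
  unfold bt
  rw [smul_zero, wcm_pi_zero h, mul_zero]

theorem wcm_nontrivial (hUNQ : T_UNQ) {m q : ℕ} {O : Subring (Mat m)}
    {b : Module.Basis (Fin m × Fin m) ℝ (Mat m)} {d : ℤ} {R : Type} [Ring R] [Fintype R]
    {π : Mat m → R} {σ : R → Mat m} (ho : Ord m O b d) (hl : Lev m q O d π σ) :
    Nontrivial R := by
  have h1 := (hUNQ m O b q R π σ ho.one_le ho.ord hl.two_le hl.red).1
  rw [← Fintype.one_lt_card_iff_nontrivial, h1]
  exact Nat.one_lt_pow (pow_ne_zero _ (by have := ho.one_le; omega)) (by have := hl.two_le; omega)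

theorem wcm_opW_mul {m q : ℕ} {R : Type} [Ring R] [Fintype R] {σ : R → Mat m}
    (hψ : ∀ x y : R, psi q σ (x * y) = psi q σ (y * x)) (f : R → ℂ) (u v : Rˣ) :
    opW (m := m) q σ f ((u⁻¹ : Rˣ) * (v : R)) =
      (((q : ℝ) ^ (-((m : ℝ) ^ 2) / 2) : ℝ) : ℂ) *
        ∑ y, psi q σ (y * Ring.inverse (v : R)) * f ((u⁻¹ : Rˣ) * y) := by
  have h1 : IsUnit (((u⁻¹ : Rˣ) : R) * (v : R)) := (u⁻¹).isUnit.mul v.isUnit
  unfold opW
  rw [if_pos h1]
  congr 1
  have h2 : Ring.inverse (((u⁻¹ : Rˣ) : R) * (v : R)) = ((v⁻¹ : Rˣ) : R) * (u : R) := by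
    rw [← Units.val_mul, Ring.inverse_unit, mul_inv_rev, inv_inv, Units.val_mul]
  rw [h2, Ring.inverse_unit]
  rw [← Equiv.sum_comp (Units.mulLeft (u⁻¹ : Rˣ)) (fun y : R =>
    psi q σ (y * (((v⁻¹ : Rˣ) : R) * (u : R))) * f y)]
  apply Finset.sum_congr rfl
  intro y _
  rw [Units.mulLeft_apply]
  congr 1
  rw [mul_assoc, hψ]
  congr 1
  rw [mul_assoc, mul_assoc, Units.mul_inv, mul_one]

theorem wcm_comp {m : ℕ} {f : V m → ℂ} (hf : Measurable f) {w : V m → V m}
    (hw : Measurable w) : Measurable fun z => f (w z) := hf.comp hw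

theorem wcm_kk {m : ℕ} (hMSR : T_MSR) (r : ℝ) (g β : Mat m) :
    Measurable fun z : V m => ((fun i j => kk r g β (mt z) i j) : V m) := by
  obtain ⟨_, _, _, _, _, _, h1, _⟩ := hMSR.1 m
  have h3 : Measurable fun z : V m => (((fun i j => g i j : V m)), z) :=
    measurable_const.prodMk measurable_id
  have h4 := (h1 r β).comp h3
  have h5 : mt (fun i j => g i j : V m) = g := by
    ext i j
    rfl
  have h6 : ((fun p : V m × V m => ((fun i j => kk r (mt p.1) β (mt p.2) i j) : V m)) ∘
      fun z : V m => (((fun i j => g i j : V m)), z)) =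
      fun z : V m => ((fun i j => kk r (mt (fun i j => g i j : V m)) β (mt z) i j) : V m) := by
    funext z
    rw [Function.comp_apply]
  rw [h6, h5] at h4
  exact h4

theorem wcm_meas {m : ℕ} (hMSR : T_MSR) {Φ : Mat m → ℂ} (hΦ : Continuous Φ) (r : ℝ)
    (g β : Mat m) : Measurable fun z : V m => Φ (kk r g β (mt z)) := by
  obtain ⟨_, _, _, _, _, _, _, h2⟩ := hMSR.1 m
  have h1 := wcm_comp (h2 Φ hΦ) (wcm_kk hMSR r g β)
  have h3 : (fun z : V m => Φ (kk r g β (mt z))) = fun z : V m =>
      Φ (mt (fun i j => kk r g β (mt z) i j : V m)) := by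
    funext z
    congr 1
  rw [h3]
  exact h1

theorem wcm_meas_sz {m : ℕ} (hMSR : T_MSR) (r s : ℝ)
    (g β : Mat m) : Measurable fun z : V m =>
      ENNReal.ofReal ((1 + sz (kk r g β (mt z))) ^ (-s)) := by
  have h4 : Measurable fun z : V m => sz (kk r g β (mt z)) := by
    have h5 : (fun z : V m => sz (kk r g β (mt z))) = fun z : V m =>
        ‖((fun i j => kk r g β (mt z) i j) : V m)‖ := by
      funext z
      rw [sz]
    rw [h5]
    exact (wcm_kk hMSR r g β).norm
  exact ((measurable_const.add h4).pow_const _).ennreal_ofReal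

/-- the terms of the dual operator: measurability and finiteness -/
theorem wcm_terms (hMSR : T_MSR) (hFNT : T_FNT) {m : ℕ} {O : Subring (Mat m)}
    {b : Module.Basis (Fin m × Fin m) ℝ (Mat m)} {d : ℤ} (ho : Ord m O b d) (hd : d ≠ 0)
    {D : Set (V m)} (hD : Dom m O D) {Φ : Mat m → ℂ} (hΦ : Continuous Φ) {M s : ℝ} (hM : 0 ≤ M)
    (hs : (m : ℝ) ^ 2 < s) (hb : ∀ z, ‖Φ z‖ ≤ M * (1 + sz z) ^ (-s)) {M1 : ℝ} (hM1 : 0 ≤ M1)
    {r : ℝ} (hr : 0 < r) {g : Mat m} (hg : g.det ≠ 0) (P : Dual O → Prop)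
    (hP : ∀ β, P β → (β : Mat m) ≠ 0) (G H : Dual O → V m → ℂ)
    (hG : ∀ β, ∀ z ∈ D, ‖G β z‖ ≤ M1)
    (hGm : ∀ β, AEStronglyMeasurable (G β) ((hm m).restrict D))
    (hH : ∀ β, P β → ∀ z, H β z = Φ (kk r g (β : Mat m) (mt z)) * G β z)
    (hH0 : ∀ β, ¬ P β → ∀ z, H β z = 0) :
    (∀ β, AEStronglyMeasurable (H β) ((hm m).restrict D)) ∧
    ∑' β, ∫⁻ z in D, ‖H β z‖ₑ ∂(hm m) ≠ ⊤ := by
  have hco : Countable (Dual O) := hMSR.2.2 m O b ho.ord
  refine ⟨?_, ?_⟩
  · intro β
    by_cases h : P β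
    · have h1 : H β = fun z => Φ (kk r g (β : Mat m) (mt z)) * G β z := funext (hH β h)
      rw [h1]
      exact (wcm_meas hMSR hΦ r g β).aestronglyMeasurable.mul (hGm β)
    · have h1 : H β = fun z => 0 := funext (hH0 β h)
      rw [h1]
      exact aestronglyMeasurable_const
  · obtain ⟨C, hC, hC1⟩ := hFNT m O b d ho hd s hs
    obtain ⟨_, hC2⟩ := hC1 D hD
    have h1 := (hC2 r hr g hg).2
    rw [lintegral_tsum] at h1
    · have h2 : ∀ β : Dual O,
          ∫⁻ z in D, ‖H β z‖ₑ ∂(hm m) ≤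
          ENNReal.ofReal (M * M1) * ∫⁻ z in D, (if (β : Mat m) = 0 then 0 else
            ENNReal.ofReal ((1 + sz (kk r g (β : Mat m) (mt z))) ^ (-s))) ∂(hm m) := by
        intro β
        rw [← lintegral_const_mul' _ _ ENNReal.ofReal_ne_top]
        apply setLIntegral_mono' hD.meas
        intro z hz
        by_cases h : P β
        · rw [hH β h z, if_neg (hP β h), ← ofReal_norm, norm_mul,
            ← ENNReal.ofReal_mul (mul_nonneg hM hM1)]
          apply ENNReal.ofReal_le_ofReal
          calc ‖Φ (kk r g (β : Mat m) (mt z))‖ * ‖G β z‖ ≤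
              (M * (1 + sz (kk r g (β : Mat m) (mt z))) ^ (-s)) * M1 :=
                mul_le_mul (hb _) (hG β z hz) (norm_nonneg _) ((norm_nonneg _).trans (hb _))
            _ = M * M1 * (1 + sz (kk r g (β : Mat m) (mt z))) ^ (-s) := by ring
        · rw [hH0 β h z, enorm_zero]
          exact bot_le
      have h3 := (ENNReal.tsum_le_tsum h2)
      rw [ENNReal.tsum_mul_left] at h3
      apply ne_of_lt
      apply lt_of_le_of_lt h3
      apply ENNReal.mul_lt_top ENNReal.ofReal_lt_top
      exact lt_of_le_of_lt h1 ENNReal.ofReal_lt_top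
    · intro β
      split_ifs
      · exact aemeasurable_const
      · exact (wcm_meas_sz hMSR r s g β).aemeasurable

open Classical in
/-- the terms of the operator `A'_r` -/
noncomputable def wcmT {m : ℕ} (O : Subring (Mat m)) (d : ℤ) {R : Type} [Ring R] (π : Mat m → R)
    (Φ : Mat m → ℂ) (r : ℝ) (F : Mat m → R → ℂ) (g : Mat m) (x : R) (β : Dual O) (z : V m) : ℂ :=
  if IsUnit (bt d π (β : Mat m)) then
    Φ (kk r g (β : Mat m) (mt z)) * F (mt z) (Ring.inverse (bt d π (β : Mat m)) * x) else 0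

theorem wcm_opB {m : ℕ} (O : Subring (Mat m)) (d : ℤ) {R : Type} [Ring R] (π : Mat m → R)
    (Φ : Mat m → ℂ) (r : ℝ) (D : Set (V m)) (F : Mat m → R → ℂ) (g : Mat m) (x : R) :
    opB O d π Φ r D F g x = ∫ z in D, ∑' β, wcmT O d π Φ r F g x β z ∂(hm m) := rfl

theorem wcmT_pos {m : ℕ} {O : Subring (Mat m)} {d : ℤ} {R : Type} [Ring R] {π : Mat m → R}
    {Φ : Mat m → ℂ} {r : ℝ} {F : Mat m → R → ℂ} {g : Mat m} {x : R} {β : Dual O}
    (h : IsUnit (bt d π (β : Mat m))) (z : V m) : wcmT O d π Φ r F g x β z =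
      Φ (kk r g (β : Mat m) (mt z)) * F (mt z) (Ring.inverse (bt d π (β : Mat m)) * x) := by
  unfold wcmT
  rw [if_pos h]

theorem wcmT_neg {m : ℕ} {O : Subring (Mat m)} {d : ℤ} {R : Type} [Ring R] {π : Mat m → R}
    {Φ : Mat m → ℂ} {r : ℝ} {F : Mat m → R → ℂ} {g : Mat m} {x : R} {β : Dual O}
    (h : ¬ IsUnit (bt d π (β : Mat m))) (z : V m) : wcmT O d π Φ r F g x β z = 0 := by
  unfold wcmT
  rw [if_neg h]

theorem pf_WCM : T_PSI → T_DUA → T_UNQ → T_MSR → T_FNT → T_WCM := by
  intro hPSI hDUA hUNQ hMSR hFNT m q O b d R _ _ π σ T D hS Φ M s hM hs hΦ hb F M1 hM1 hF hFm hF0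
    r hr g x hg
  obtain ⟨_, _, _, hn, hψ, _⟩ := hPSI m O b d q R π σ hS.ord hS.lev
  obtain ⟨_, hd, _⟩ := hDUA m O b d q R π σ hS.ord hS.lev
  have hnt : Nontrivial R := wcm_nontrivial hUNQ hS.ord hS.lev
  have hco : Countable (Dual O) := hMSR.2.2 m O b hS.ord.ord
  have hP : ∀ β : Dual O, IsUnit (bt d π (β : Mat m)) → (β : Mat m) ≠ 0 := by
    intro β h1 h2
    rw [h2, wcm_bt_zero hS.lev.red] at h1
    exact not_isUnit_zero h1
  rw [wcm_opB]
  by_cases hx : IsUnit x
  · obtain ⟨v, rfl⟩ := hx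
    -- the terms
    set f : R → Dual O → V m → ℂ := fun y β z => wcmT O d π Φ r F g y β z with hf
    have ht : ∀ y, (∀ β, AEStronglyMeasurable (f y β) ((hm m).restrict D)) ∧
        ∑' β, ∫⁻ z in D, ‖f y β z‖ₑ ∂(hm m) ≠ ⊤ := by
      intro y
      exact wcm_terms hMSR hFNT hS.ord hd hS.dom hΦ hM hs hb hM1 hr hg
        (fun β => IsUnit (bt d π (β : Mat m))) hP
        (fun β z => F (mt z) (Ring.inverse (bt d π (β : Mat m)) * y)) (f y)
        (fun β z hz => hF z hz _) (fun β => hFm _) (fun β h z => wcmT_pos h z)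
        (fun β h z => wcmT_neg h z)
    have hint : ∀ y β, Integrable (f y β) ((hm m).restrict D) := by
      intro y β
      refine ⟨(ht y).1 β, ?_⟩
      exact lt_of_le_of_lt (ENNReal.le_tsum β) (ht y).2.lt_top
    have hsum : ∀ y, Summable fun β => ∫ z in D, f y β z ∂(hm m) := by
      intro y
      apply Summable.of_norm
      apply Summable.of_nonneg_of_le (fun _ => norm_nonneg _) (fun β => ?_)
        (ENNReal.summable_toReal (ht y).2)
      rw [← integral_norm_eq_lintegral_enorm ((ht y).1 β)]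
      exact norm_integral_le_integral_norm _
    set c : ℂ := (((q : ℝ) ^ (-((m : ℝ) ^ 2) / 2) : ℝ) : ℂ) with hc
    -- the right side
    have hR : opW (m := m) q σ (fun y => opB O d π Φ r D F g y) (v : R) =
        c * ∑ y, psi q σ (y * Ring.inverse (v : R)) * ∑' β, ∫ z in D, f y β z ∂(hm m) := by
      unfold opW
      rw [if_pos v.isUnit]
      congr 1
      apply Finset.sum_congr rfl
      intro y _
      congr 1
      change opB O d π Φ r D F g y = _
      rw [wcm_opB]
      exact integral_tsum (ht y).1 (ht y).2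
    rw [hR]
    have hterm : ∀ (β : Dual O) (z : V m),
        wcmT O d π Φ r (fun h y => opW (m := m) q σ (F h) y) g (v : R) β z =
        ∑ y, (c * psi q σ (y * Ring.inverse (v : R))) * f y β z := by
      intro β z
      by_cases h : IsUnit (bt d π (β : Mat m))
      · rw [wcmT_pos h]
        simp only [hf, wcmT_pos h]
        obtain ⟨u, hu⟩ := h
        rw [← hu, Ring.inverse_unit, wcm_opW_mul hψ, ← hc, Finset.mul_sum, Finset.mul_sum]
        apply Finset.sum_congr rfl
        intro y _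
        ring
      · rw [wcmT_neg h]
        simp only [hf, wcmT_neg h, mul_zero, Finset.sum_const_zero]
    have hL : (fun z : V m => ∑' β, wcmT O d π Φ r (fun h y => opW (m := m) q σ (F h) y) g
        (v : R) β z) = fun z =>
        ∑' β, ∑ y, (c * psi q σ (y * Ring.inverse (v : R))) * f y β z := by
      funext z
      exact tsum_congr fun β => hterm β z
    rw [hL]
    have hm1 : ∀ β, AEStronglyMeasurable (fun z => ∑ y, (c * psi q σ (y * Ring.inverse (v : R))) *
        f y β z) ((hm m).restrict D) := by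
      intro β
      have h1 := Finset.aestronglyMeasurable_sum (μ := (hm m).restrict D) Finset.univ
        (f := fun y z => (c * psi q σ (y * Ring.inverse (v : R))) * f y β z)
        (fun y _ => ((ht y).1 β).const_mul _)
      have h2 : (∑ y : R, (fun y z => (c * psi q σ (y * Ring.inverse (v : R))) * f y β z) y) =
          fun z => ∑ y, (c * psi q σ (y * Ring.inverse (v : R))) * f y β z := by
        funext z
        rw [Finset.sum_apply]
      rw [h2] at h1
      exact h1
    have hm2 : ∑' β, ∫⁻ z in D, ‖∑ y, (c * psi q σ (y * Ring.inverse (v : R))) * f y β z‖ₑ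
        ∂(hm m) ≠ ⊤ := by
      have h1 : ∀ β, ∫⁻ z in D, ‖∑ y, (c * psi q σ (y * Ring.inverse (v : R))) * f y β z‖ₑ
          ∂(hm m) ≤ ∑ y, ‖c * psi q σ (y * Ring.inverse (v : R))‖ₑ * ∫⁻ z in D, ‖f y β z‖ₑ
          ∂(hm m) := by
        intro β
        calc ∫⁻ z in D, ‖∑ y, (c * psi q σ (y * Ring.inverse (v : R))) * f y β z‖ₑ ∂(hm m) ≤
            ∫⁻ z in D, ∑ y, ‖c * psi q σ (y * Ring.inverse (v : R))‖ₑ * ‖f y β z‖ₑ ∂(hm m) := by
              apply lintegral_mono
              intro z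
              refine (enorm_sum_le _ _).trans (le_of_eq ?_)
              apply Finset.sum_congr rfl
              intro y _
              rw [enorm_mul]
          _ = ∑ y, ∫⁻ z in D, ‖c * psi q σ (y * Ring.inverse (v : R))‖ₑ * ‖f y β z‖ₑ
              ∂(hm m) := by
              rw [lintegral_finsetSum']
              intro y _
              exact ((ht y).1 β).enorm.const_mul _
          _ = _ := by
              apply Finset.sum_congr rfl
              intro y _
              rw [lintegral_const_mul' _ _ enorm_ne_top]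
      apply ne_of_lt
      apply lt_of_le_of_lt (ENNReal.tsum_le_tsum h1)
      rw [Summable.tsum_finsetSum (fun _ _ => ENNReal.summable)]
      apply ENNReal.sum_lt_top.2
      intro y _
      rw [ENNReal.tsum_mul_left]
      exact ENNReal.mul_lt_top enorm_lt_top (ht y).2.lt_top
    rw [integral_tsum hm1 hm2]
    have h2 : ∀ β, ∫ z in D, ∑ y, (c * psi q σ (y * Ring.inverse (v : R))) * f y β z ∂(hm m) =
        ∑ y, (c * psi q σ (y * Ring.inverse (v : R))) * ∫ z in D, f y β z ∂(hm m) := by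
      intro β
      rw [integral_finset_sum]
      · apply Finset.sum_congr rfl
        intro y _
        rw [integral_const_mul]
      · intro y _
        exact (hint y β).const_mul _
    simp_rw [h2]
    rw [Summable.tsum_finsetSum (fun y _ => (hsum y).mul_left _), Finset.mul_sum]
    apply Finset.sum_congr rfl
    intro y _
    rw [tsum_mul_left, mul_assoc]
  · -- not a unit
    have h1 : opW (m := m) q σ (fun y => opB O d π Φ r D F g y) x = 0 := by
      unfold opW
      rw [if_neg hx]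
    rw [h1]
    have h2 : (fun z : V m => ∑' β, wcmT O d π Φ r (fun h y => opW (m := m) q σ (F h) y) g
        x β z) = fun _ => 0 := by
      funext z
      have h4 : ∀ β, wcmT O d π Φ r (fun h y => opW (m := m) q σ (F h) y) g x β z = 0 := by
        intro β
        by_cases h : IsUnit (bt d π (β : Mat m))
        · rw [wcmT_pos h]
          obtain ⟨u, hu⟩ := h
          unfold opW
          rw [← hu, Ring.inverse_unit, if_neg, mul_zero]
          intro h3
          exact hx ((Units.isUnit_units_mul _ _).1 h3)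
        · rw [wcmT_neg h]
      rw [tsum_congr h4, tsum_zero]
    rw [h2]
    exact integral_zero _ _

end Pool.Agent.H34.GM
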