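import Pool.Agent.H34.GM.EXT
import Pool.Agent.H34.GM.WCM

/-!
Row DID of the board gmf (page H34_GM.md): the forms are eigenfunctions of `W A'_r`.
-/

set_option autoImplicit false

namespace Pool.Agent.H34.GM

open MeasureTheory

/-- a finite sum of integrated series -/
theorem did_swap {m : ℕ} {D : Set (V m)} {ι : Type} [Countable ι] {R : Type} [Fintype R]
    (c : R → ℂ) (f : R → ι → V m → ℂ)
    (ht : ∀ y, (∀ β, AEStronglyMeasurable (f y β) ((hm m).restrict D)) ∧
      ∑' β, ∫⁻ z in D, ‖f y β z‖ₑ ∂(hm m) ≠ ⊤) :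
    ∫ z in D, ∑' β, ∑ y, c y * f y β z ∂(hm m) = ∑ y, c y * ∫ z in D, ∑' β, f y β z ∂(hm m) := by
  have hint : ∀ y β, Integrable (f y β) ((hm m).restrict D) := by
    intro y β
    refine ⟨(ht y).1 β, ?_⟩
    exact lt_of_le_of_lt (ENNReal.le_tsum β) (ht y).2.lt_top
  have hsum : ∀ y, Summable fun β => ∫ z in D, f y β z ∂(hm m) := by
    intro y
    apply Summable.of_norm
    apply Summable.of_nonneg_of_le (fun _ => norm_nonneg _) (fun β => ?_)
      (ENNReal.summable_toReal (ht y).2)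
    rw [← integral_norm_eq_lintegral_enorm ((ht y).1 β)]
    exact norm_integral_le_integral_norm _
  have hm1 : ∀ β, AEStronglyMeasurable (fun z => ∑ y, c y * f y β z) ((hm m).restrict D) := by
    intro β
    have h1 := Finset.aestronglyMeasurable_sum (μ := (hm m).restrict D) Finset.univ
      (f := fun y z => c y * f y β z) (fun y _ => ((ht y).1 β).const_mul _)
    have h2 : (∑ y : R, (fun y z => c y * f y β z) y) = fun z => ∑ y, c y * f y β z := by
      funext z
      rw [Finset.sum_apply]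
    rw [h2] at h1
    exact h1
  have hm2 : ∑' β, ∫⁻ z in D, ‖∑ y, c y * f y β z‖ₑ ∂(hm m) ≠ ⊤ := by
    have h1 : ∀ β, ∫⁻ z in D, ‖∑ y, c y * f y β z‖ₑ ∂(hm m) ≤
        ∑ y, ‖c y‖ₑ * ∫⁻ z in D, ‖f y β z‖ₑ ∂(hm m) := by
      intro β
      calc ∫⁻ z in D, ‖∑ y, c y * f y β z‖ₑ ∂(hm m) ≤
          ∫⁻ z in D, ∑ y, ‖c y‖ₑ * ‖f y β z‖ₑ ∂(hm m) := by
            apply lintegral_mono
            intro z
            refine (enorm_sum_le _ _).trans (le_of_eq ?_)
            apply Finset.sum_congr rfl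
            intro y _
            rw [enorm_mul]
        _ = ∑ y, ∫⁻ z in D, ‖c y‖ₑ * ‖f y β z‖ₑ ∂(hm m) := by
            rw [lintegral_finsetSum']
            intro y _
            exact ((ht y).1 β).enorm.const_mul _
        _ = _ := by
            apply Finset.sum_congr rfl
            intro y _
            rw [lintegral_const_mul' _ _ enorm_ne_top]
    apply ne_of_lt
    apply lt_of_le_of_lt (ENNReal.tsum_le_tsum h1)
    rw [Summable.tsum_finsetSum (fun _ _ => ENNReal.summable)]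
    apply ENNReal.sum_lt_top.2
    intro y _
    rw [ENNReal.tsum_mul_left]
    exact ENNReal.mul_lt_top enorm_lt_top (ht y).2.lt_top
  rw [integral_tsum hm1 hm2]
  have h2 : ∀ β, ∫ z in D, ∑ y, c y * f y β z ∂(hm m) =
      ∑ y, c y * ∫ z in D, f y β z ∂(hm m) := by
    intro β
    rw [integral_finsetSum]
    · apply Finset.sum_congr rfl
      intro y _
      rw [integral_const_mul]
    · intro y _
      exact (hint y β).const_mul _
  simp_rw [h2]
  rw [Summable.tsum_finsetSum (fun y _ => (hsum y).mul_left _)]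
  apply Finset.sum_congr rfl
  intro y _
  rw [tsum_mul_left, integral_tsum (ht y).1 (ht y).2]

/-- the sum over the classes, by primitivity -/
theorem did_inner {m q : ℕ} {R : Type} [Ring R] [Fintype R] {σ : R → Mat m} (f : R → ℂ)
    (hψ : ∀ x y : R, psi q σ (x * y) = psi q σ (y * x))
    (hp : ∀ a : R, ¬ IsUnit a → ∑ y, psi q σ (a * y) * f y = 0) (w : R) (v : Rˣ) :
    (IsUnit w → ∑ c, psi q σ (w * c) * f (c * (v : R)) =
      ∑ y, psi q σ (y * Ring.inverse (v : R)) * f (Ring.inverse w * y)) ∧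
    (¬ IsUnit w → ∑ c, psi q σ (w * c) * f (c * (v : R)) = 0) := by
  have h1 : ∑ c, psi q σ (w * c) * f (c * (v : R)) =
      ∑ y, psi q σ (w * (y * ((v⁻¹ : Rˣ) : R))) * f y := by
    rw [← Equiv.sum_comp (Units.mulRight v) (fun y : R =>
      psi q σ (w * (y * ((v⁻¹ : Rˣ) : R))) * f y)]
    apply Finset.sum_congr rfl
    intro c _
    rw [Units.mulRight_apply, mul_assoc c, Units.mul_inv, mul_one]
  rw [h1]
  refine ⟨fun hw => ?_, fun hw => ?_⟩
  · obtain ⟨u, rfl⟩ := hw
    rw [Ring.inverse_unit, Ring.inverse_unit]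
    rw [← Equiv.sum_comp (Units.mulLeft (u⁻¹ : Rˣ)) (fun y : R =>
      psi q σ ((u : R) * (y * ((v⁻¹ : Rˣ) : R))) * f y)]
    apply Finset.sum_congr rfl
    intro y _
    rw [Units.mulLeft_apply]
    congr 1
    rw [← mul_assoc, ← mul_assoc, Units.mul_inv, one_mul]
  · have h2 : ¬ IsUnit (((v⁻¹ : Rˣ) : R) * w) := by
      intro h
      exact hw ((Units.isUnit_units_mul _ _).1 h)
    rw [← hp _ h2]
    apply Finset.sum_congr rfl
    intro y _
    congr 1
    rw [← mul_assoc, hψ, ← mul_assoc]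

theorem did_covol {m : ℕ} (b : Module.Basis (Fin m × Fin m) ℝ (Mat m)) : 0 < covol b := by
  rw [covol, abs_pos]
  have h1 : LinearIndependent ℝ
      (Matrix.of fun (i j : Fin m × Fin m) => (b i) j.1 j.2).row := by
    let T : Mat m ≃ₗ[ℝ] (Fin m × Fin m → ℝ) :=
      { toFun := fun z p => z p.1 p.2
        invFun := fun x => Matrix.of fun i j => x (i, j)
        left_inv := fun x => rfl
        right_inv := fun z => rfl
        map_add' := fun x y => rfl
        map_smul' := fun c x => rfl }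
    exact b.linearIndependent.map' T.toLinearMap T.ker
  have h2 := Matrix.linearIndependent_rows_iff_isUnit.1 h1
  exact ((Matrix.isUnit_iff_isUnit_det _).1 h2).ne_zero

theorem did_pos {m : ℕ} {z : Mat m} (hz : z.det ≠ 0) : 0 < aN z :=
  Real.rpow_pos_of_pos (abs_pos.2 hz) _

/-- the kernel has finite support -/
theorem did_fin {m : ℕ} {O : Subring (Mat m)} {b : Module.Basis (Fin m × Fin m) ℝ (Mat m)}
    (h : DivOrder m O b) {Φ : Mat m → ℂ} (hΦ : Tst m Φ) {r : ℝ} (hr : 0 < r) {z g : Mat m}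
    (hz : z.det ≠ 0) (hg : g.det ≠ 0) :
    {α : O | Φ (kk r z (α : Mat m) g) ≠ 0}.Finite := by
  obtain ⟨c, hc, hs⟩ := hΦ.supp
  set L : ℝ := r⁻¹ * aN z / aN g with hL
  have hL0 : 0 < L := by
    have := did_pos hz
    have := did_pos hg
    positivity
  have h1 : ContinuousOn (fun w : V m => ((fun i j => (L⁻¹ • (z * mt w * g⁻¹)) i j) : V m))
      (Metric.closedBall 0 c) := by
    have : Continuous (fun w : Mat m => L⁻¹ • (z * w * g⁻¹)) := by fun_prop
    have h2 : Continuous (fun w : V m => ((fun i j => (L⁻¹ • (z * mt w * g⁻¹)) i j) : V m)) :=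
      this
    exact h2.continuousOn
  obtain ⟨B, hB⟩ := (isCompact_closedBall (0 : V m) c).exists_bound_of_continuousOn h1
  have h2 := ext_fin h B
  refine Set.Finite.of_finite_image (f := fun α : O => (α : Mat m)) (h2.subset ?_)
    Subtype.val_injective.injOn
  rintro _ ⟨α, hα, rfl⟩
  refine ⟨α.2, ?_⟩
  have h3 := (hs _ hα).1
  have h4 := hB (fun i j => kk r z (α : Mat m) g i j) (by
    rw [mem_closedBall_zero_iff]
    exact h3)
  have h5 : L⁻¹ • (z * kk r z (α : Mat m) g * g⁻¹) = (α : Mat m) := by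
    unfold kk
    rw [← hL, Matrix.mul_smul, Matrix.smul_mul, smul_smul, inv_mul_cancel₀ hL0.ne', one_smul,
      ← Matrix.mul_assoc, ← Matrix.mul_assoc, Matrix.mul_nonsing_inv _
      (isUnit_iff_ne_zero.2 hz), Matrix.one_mul, Matrix.mul_assoc, Matrix.mul_nonsing_inv _
      (isUnit_iff_ne_zero.2 hg), Matrix.mul_one]
  have h6 : sz (α : Mat m) = ‖((fun i j => (L⁻¹ • (z * mt (fun i j => kk r z (α : Mat m) g i j)
      * g⁻¹)) i j) : V m)‖ := by
    have h7 : mt (fun i j => kk r z (α : Mat m) g i j) = kk r z (α : Mat m) g := by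
      ext i j
      rfl
    rw [h7, h5]
    rfl
  rw [h6]
  exact h4

open Classical in
/-- the kernels for one point, by Poisson summation -/
theorem did_point {m q : ℕ} {O : Subring (Mat m)} {b : Module.Basis (Fin m × Fin m) ℝ (Mat m)}
    {d : ℤ} {R : Type} [Ring R] [Fintype R] {π : Mat m → R} {σ : R → Mat m}
    (ho : DivOrder m O b) {Φ : Mat m → ℂ} (hΦ : Tst m Φ) {z0 : V m} {z g : Mat m}
    (hzz : mt z0 = z) (hz : z.det ≠ 0)
    (hg : g.det ≠ 0) {r r' : ℝ} (hr' : 0 < r') (K : ℂ) (F : Mat m → R → ℂ)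
    (hψ : ∀ x y : R, psi q σ (x * y) = psi q σ (y * x)) (hn : ∀ x : R, ‖psi q σ x‖ = 1)
    (hp : ∀ a : R, ¬ IsUnit a → ∑ y, psi q σ (a * y) * F z y = 0)
    (hs : Summable fun β : Dual O => ‖ft Φ (kk r g (β : Mat m) z)‖)
    (hP : ∀ c : R, ∑' α : O, (if π (α : Mat m) = c then Φ (kk r' z (α : Mat m) g) else 0) =
      K * ∑' β : Dual O, psi q σ (bt d π (β : Mat m) * c) * ft Φ (kk r g (β : Mat m) z))
    (v : Rˣ) :
    ∑' α : O, Φ (kk r' z (α : Mat m) g) * F z (π (α : Mat m) * (v : R)) =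
      ∑' β : Dual O, ∑ y, (K * psi q σ (y * Ring.inverse (v : R))) *
        wcmT O d π (ft Φ) r F g y β z0 := by
  set f : R → ℂ := fun y => F z y with hf
  have h1 : ∀ α : O, Φ (kk r' z (α : Mat m) g) * F z (π (α : Mat m) * (v : R)) =
      ∑ c : R, (if π (α : Mat m) = c then Φ (kk r' z (α : Mat m) g) else 0) * f (c * (v : R)) := by
    intro α
    rw [Finset.sum_eq_single (π (α : Mat m))]
    · rw [if_pos rfl]
    · intro c _ hc
      rw [if_neg (Ne.symm hc), zero_mul]
    · intro h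
      exact absurd (Finset.mem_univ _) h
  have hfs : ∀ c : R, Summable fun α : O =>
      (if π (α : Mat m) = c then Φ (kk r' z (α : Mat m) g) else 0) * f (c * (v : R)) := by
    intro c
    apply summable_of_hasFiniteSupport
    apply (did_fin ho hΦ hr' hz hg).subset
    intro α hα h0
    apply hα
    simp only
    split_ifs
    · rw [h0, zero_mul]
    · rw [zero_mul]
  have hps : ∀ c : R, Summable fun β : Dual O =>
      psi q σ (bt d π (β : Mat m) * c) * ft Φ (kk r g (β : Mat m) z) := by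
    intro c
    apply Summable.of_norm
    refine hs.congr fun β => ?_
    rw [norm_mul, hn, one_mul]
  rw [tsum_congr h1, Summable.tsum_finsetSum (fun c _ => hfs c)]
  have h2 : ∀ c : R, ∑' α : O, (if π (α : Mat m) = c then Φ (kk r' z (α : Mat m) g) else 0) *
      f (c * (v : R)) = ∑' β : Dual O, K * (psi q σ (bt d π (β : Mat m) * c) *
        ft Φ (kk r g (β : Mat m) z)) * f (c * (v : R)) := by
    intro c
    rw [tsum_mul_right, hP c, tsum_mul_right, tsum_mul_left]
  rw [Finset.sum_congr rfl (fun c _ => h2 c),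
    ← Summable.tsum_finsetSum (fun c _ => ((hps c).mul_left K).mul_right _)]
  apply tsum_congr
  intro β
  have h3 := did_inner f hψ hp (bt d π (β : Mat m)) v
  have h4 : ∑ c, K * (psi q σ (bt d π (β : Mat m) * c) * ft Φ (kk r g (β : Mat m) z)) *
      f (c * (v : R)) = K * ft Φ (kk r g (β : Mat m) z) *
      ∑ c, psi q σ (bt d π (β : Mat m) * c) * f (c * (v : R)) := by
    rw [Finset.mul_sum]
    apply Finset.sum_congr rfl
    intro c _
    ring
  rw [h4]
  by_cases hu : IsUnit (bt d π (β : Mat m))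
  · rw [h3.1 hu, Finset.mul_sum]
    apply Finset.sum_congr rfl
    intro y _
    rw [wcmT_pos hu, hzz]
    simp only [hf]
    ring
  · rw [h3.2 hu, mul_zero]
    symm
    apply Finset.sum_eq_zero
    intro y _
    rw [wcmT_neg hu, mul_zero]

theorem pf_DID : T_UNQ → T_PSI → T_DUA → T_MSR → T_FNT → T_BDD → T_BMP → T_FTD → T_EIG →
    T_POI → T_DID := by
  intro hUNQ hPSI hDUA hMSR hFNT hBDD hBMP hFTD hEIG hPOI m q O b d R _ _ π σ T D hS F lam mu hF
    χ δ hχ hδ hδ2 g r x hg hr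
  have hm1 := hS.ord.one_le
  have hq2 := hS.lev.two_le
  have hq0 : (0 : ℝ) < q := by
    have : 0 < q := by omega
    exact_mod_cast this
  by_cases hx : IsUnit x
  swap
  · unfold opW
    rw [if_neg hx, hF.supp g x hx, mul_zero]
  obtain ⟨v, rfl⟩ := hx
  set Φ : Mat m → ℂ := bump m χ δ with hΦdef
  obtain ⟨hT, hcd, hcs, -, -⟩ := (hBMP m χ hm1 hχ).1 δ hδ hδ2
  obtain ⟨C, A, hC, hCA⟩ := hFTD m χ hm1 hχ (m ^ 2 + 1)
  obtain ⟨hftc, hftb⟩ := hCA δ hδ hδ2
  obtain ⟨M1, hM1, hM1b⟩ := hBDD m q O b d R π σ T D hS F lam mu hF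
  obtain ⟨_, _, _, hn, hψ, _⟩ := hPSI m O b d q R π σ hS.ord hS.lev
  obtain ⟨_, hd, _⟩ := hDUA m O b d q R π σ hS.ord hS.lev
  have hnt : Nontrivial R := wcm_nontrivial hUNQ hS.ord hS.lev
  have hco : Countable (Dual O) := hMSR.2.2 m O b hS.ord.ord
  have hP : ∀ β : Dual O, IsUnit (bt d π (β : Mat m)) → (β : Mat m) ≠ 0 := by
    intro β h1 h2
    rw [h2, wcm_bt_zero hS.lev.red] at h1
    exact not_isUnit_zero h1
  have hdm : ∀ z ∈ D, (mt z).det ≠ 0 := by
    intro z hz h0
    have h1 := (hS.dom.shell z hz).1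
    unfold aN at h1
    have hmz : (m : ℝ) ≠ 0 := by positivity
    rw [h0, abs_zero, Real.zero_rpow (one_div_ne_zero hmz)] at h1
    norm_num at h1
  have hFm : ∀ y, AEStronglyMeasurable (fun z : V m => F (mt z) y) ((hm m).restrict D) := by
    intro y
    have h1 : ContinuousOn (fun z : V m => F (mt z) y) {z | (mt z).det ≠ 0} :=
      (hF.cont y).comp (show Continuous (fun z : V m => mt z) from continuous_id).continuousOn
        (fun z hz => hz)
    exact (h1.mono (fun z hz => hdm z hz)).aestronglyMeasurable hS.dom.meas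
  -- the terms
  set f : R → Dual O → V m → ℂ := fun y β z => wcmT O d π (ft Φ) r F g y β z with hf
  have ht : ∀ y, (∀ β, AEStronglyMeasurable (f y β) ((hm m).restrict D)) ∧
      ∑' β, ∫⁻ z in D, ‖f y β z‖ₑ ∂(hm m) ≠ ⊤ := by
    intro y
    refine wcm_terms hMSR hFNT hS.ord hd hS.dom hftc (M := C * δ⁻¹ ^ A)
      (s := ((m ^ 2 + 1 : ℕ) : ℝ)) (by positivity) (by push_cast; linarith) hftb hM1 hr hg
      (fun β => IsUnit (bt d π (β : Mat m))) hP
      (fun β z => F (mt z) (Ring.inverse (bt d π (β : Mat m)) * y)) (f y)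
      (fun β z hz => hM1b _ _ (hdm z hz)) (fun β => hFm _) (fun β h z => wcmT_pos h z)
      (fun β h z => wcmT_neg h z)
  set r' : ℝ := (q : ℝ) / r with hr'def
  have hr' : 0 < r' := by positivity
  have hrr : (q : ℝ) / r' = r := by
    rw [hr'def]
    field_simp
  set K : ℂ := ((r' ^ (m ^ 2) / (covol b * (q : ℝ) ^ (m ^ 2)) : ℝ) : ℂ) with hK
  -- one point
  have hpt : ∀ z ∈ D, ∑' α : O, Φ (kk r' (mt z) (α : Mat m) g) *
      F (mt z) (π (α : Mat m) * (v : R)) =
      ∑' β : Dual O, ∑ y, (K * psi q σ (y * Ring.inverse (v : R))) * f y β z := by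
    intro z hz
    have h1 := hPOI m q O b d R π σ hS.ord hS.lev Φ hcd hcs g (mt z) r'
    have h2 := did_point hS.ord.ord hT (z0 := z) rfl (hdm z hz) hg (r := r) hr' K F
      (d := d) hψ hn
      (fun a ha => hF.prim a ha (mt z) (hdm z hz))
      (by
        have h3 := (h1 0 hg (hdm z hz) hr').1
        rw [hrr] at h3
        exact h3)
      (by
        intro c
        have h3 := (h1 c hg (hdm z hz) hr').2
        rw [hrr] at h3
        exact h3) v
    exact h2
  have hA : opA O π Φ r' D F g (v : R) =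
      ∑ y, (K * psi q σ (y * Ring.inverse (v : R))) * opB O d π (ft Φ) r D F g y := by
    unfold opA
    rw [setIntegral_congr_fun hS.dom.meas hpt, did_swap _ f ht]
    rfl
  have hE := hEIG m q O b d R π σ T D hS F lam mu hF Φ hT g r' (v : R) hg hr'
  unfold thD
  rw [← hr'def, mul_assoc, ← hE, hA]
  unfold opW
  rw [if_pos v.isUnit, Finset.mul_sum, Finset.mul_sum]
  apply Finset.sum_congr rfl
  intro y _
  have hV := did_covol b
  have key : (q : ℝ) ^ (-((m : ℝ) ^ 2) / 2) = covol b * (q : ℝ) ^ ((m : ℝ) ^ 2 / 2) *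
      r' ^ (-((m : ℝ) ^ 2)) * (r' ^ (m ^ 2) / (covol b * (q : ℝ) ^ (m ^ 2))) := by
    have e1 : r' ^ (-((m : ℝ) ^ 2)) = (r' ^ (m ^ 2))⁻¹ := by
      rw [Real.rpow_neg hr'.le, ← Real.rpow_natCast r' (m ^ 2)]
      push_cast
      rfl
    have e2 : (q : ℝ) ^ (m ^ 2) = (q : ℝ) ^ ((m : ℝ) ^ 2 / 2) * (q : ℝ) ^ ((m : ℝ) ^ 2 / 2) := by
      rw [← Real.rpow_add hq0, ← Real.rpow_natCast (q : ℝ) (m ^ 2)]
      congr 1
      push_cast
      ring
    have e3 : (q : ℝ) ^ (-((m : ℝ) ^ 2) / 2) = ((q : ℝ) ^ ((m : ℝ) ^ 2 / 2))⁻¹ := by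
      rw [← Real.rpow_neg hq0.le]
      congr 1
      ring
    have e4 : 0 < (q : ℝ) ^ ((m : ℝ) ^ 2 / 2) := Real.rpow_pos_of_pos hq0 _
    have e5 : 0 < r' ^ (m ^ 2) := pow_pos hr' _
    rw [e1, e2, e3]
    field_simp
  rw [key, hK]
  push_cast
  ring

end Pool.Agent.H34.GM
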