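import Pool.Agent.H34.GM.PSI

/-!
Row DUA of the board gmf: the classes of dual elements.
-/

namespace Pool.Agent.H34.GM

section
variable {m : ℕ} {O : Subring (Mat m)} {b : Module.Basis (Fin m × Fin m) ℝ (Mat m)}
  {d : ℤ} {q : ℕ} {R : Type} [Ring R] {π : Mat m → R} {σ : R → Mat m}

theorem dua_dual_smul (hN : ∀ α ∈ O, ∃ k : ℤ, α.trace = k) (hO : Ord m O b d) (β : Mat m)
    (hβ : β ∈ Dual O) : ((d : ℝ) • β) ∈ O := by
  obtain ⟨M, hMd, hM⟩ := psi_gram hN hO.ord hO.disc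
  have hk : ∀ j, ∃ k : ℤ, (β * b j).trace = k := fun j => hβ _ (psi_basis_mem hO.ord j)
  choose k hk using hk
  have hsys : Matrix.vecMul (fun i => b.repr β i) (M.map (Int.cast : ℤ → ℝ)) =
      fun j => (k j : ℝ) := by
    funext j
    have h1 := hk j
    rw [psi_trace_expand (b := b)] at h1
    simp only [Matrix.vecMul, dotProduct, Matrix.map_apply]
    simpa only [hM] using h1
  have hadj : (M.map (Int.cast : ℤ → ℝ)).adjugate = (M.adjugate).map (Int.cast : ℤ → ℝ) := by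
    have := RingHom.map_adjugate (Int.castRingHom ℝ) M
    simpa [RingHom.mapMatrix_apply] using this.symm
  have hdet : (M.map (Int.cast : ℤ → ℝ)).det = (d : ℝ) := by
    have := RingHom.map_det (Int.castRingHom ℝ) M
    rw [hMd] at this
    simpa [RingHom.mapMatrix_apply] using this.symm
  have h1 : (d : ℝ) • (fun i => b.repr β i) =
      Matrix.vecMul (fun j => (k j : ℝ)) ((M.adjugate).map (Int.cast : ℤ → ℝ)) := by
    have h2 := congrArg (fun v => Matrix.vecMul v (M.map (Int.cast : ℤ → ℝ)).adjugate) hsys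
    simp only [Matrix.vecMul_vecMul, Matrix.mul_adjugate] at h2
    rw [hdet, Matrix.vecMul_smul, Matrix.vecMul_one, hadj] at h2
    exact h2
  rw [hO.ord.lat]
  intro i
  refine ⟨Matrix.vecMul k M.adjugate i, ?_⟩
  have h2 := congrFun h1 i
  simp only [Pi.smul_apply, smul_eq_mul] at h2
  rw [map_smul, Finsupp.smul_apply, smul_eq_mul, h2]
  simp only [Matrix.vecMul, dotProduct, Matrix.map_apply]
  push_cast
  rfl

theorem dua_unit (hL : Lev m q O d π σ) : ∃ e f : ℤ, e * d + f * q = 1 ∧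
    (e : R) * (d : R) = 1 ∧ IsUnit (d : R) ∧ Ring.inverse (d : R) = (e : R) := by
  obtain ⟨e, f, hef⟩ := hL.cop
  have h1 : (e : R) * (d : R) = 1 := by
    have h2 := congrArg (Int.cast : ℤ → R) hef
    push_cast at h2
    rw [psi_q_zero hL.red, mul_zero, add_zero] at h2
    exact h2
  have h3 : (d : R) * (e : R) = 1 := by
    rw [← h1]
    exact (Int.cast_commute d (e : R)).eq
  have hu : IsUnit (d : R) := ⟨⟨(d : R), (e : R), h3, h1⟩, rfl⟩
  refine ⟨e, f, hef, h1, hu, ?_⟩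
  calc Ring.inverse (d : R) = Ring.inverse (d : R) * ((d : R) * (e : R)) := by rw [h3, mul_one]
    _ = (e : R) := by rw [← mul_assoc, Ring.inverse_mul_cancel _ hu, one_mul]

end

theorem pf_DUA : T_NRD → T_PSI → T_DUA := by
  intro hNRD hPSI m O b d q R _ _ π σ hO hL
  obtain ⟨hN, -, -, -⟩ := hNRD m O b hO.one_le hO.ord
  obtain ⟨hp, -, -, -, -, -⟩ := hPSI m O b d q R π σ hO hL
  have h := hL.red
  have hq := hL.two_le
  have hq0 : (q : ℝ) ≠ 0 := by positivity
  obtain ⟨e, f, hef, hed, hu, hinv⟩ := dua_unit hL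
  have hds := fun β hβ => dua_dual_smul hN hO β hβ
  refine ⟨hu, ?_, hds, ?_, ?_, ?_⟩
  · rintro rfl
    have h1 := isCoprime_zero_left.1 hL.cop
    rw [Int.isUnit_iff] at h1
    omega
  · intro β hβ α hα
    obtain ⟨k, hk⟩ := hβ α hα
    have h1 : bt d π β * π α = π ((e : ℝ) • (((d : ℝ) • β) * α)) := by
      rw [psi_pi_int_smul h _ _ (O.mul_mem (hds β hβ) hα), h.mul _ (hds β hβ) _ hα]
      unfold bt
      rw [hinv, mul_assoc]
    rw [h1, hp _ (psi_int_smul_mem _ _ (O.mul_mem (hds β hβ) hα)), Matrix.trace_smul,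
      smul_mul_assoc, Matrix.trace_smul, hk, smul_eq_mul, smul_eq_mul]
    have h2 : (e : ℝ) * ((d : ℝ) * k) / q = (k : ℝ) / q + ((-(f * k) : ℤ) : ℝ) := by
      have h3 : (e : ℝ) * d + f * q = 1 := by exact_mod_cast hef
      rw [div_add' _ _ _ hq0]
      congr 1
      push_cast
      linear_combination (k : ℝ) * h3
    rw [h2, psi_ee_add_int]
  · intro β hβ β' hβ' y hy
    obtain ⟨k, hk⟩ := hβ y hy
    obtain ⟨l, hl⟩ := hβ' y hy
    refine ⟨k + l, ?_⟩
    rw [add_mul, Matrix.trace_add, hk, hl]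
    push_cast
    rfl
  · intro β hβ γ hγ
    have hγO : γ ∈ O := hγ.1
    refine ⟨?_, ?_, ?_, ?_⟩
    · intro y hy
      obtain ⟨k, hk⟩ := hβ (y * γ) (O.mul_mem hy hγO)
      refine ⟨k, ?_⟩
      rw [← hk, mul_assoc, Matrix.trace_mul_comm, mul_assoc]
    · unfold bt
      have h1 : (d : ℝ) • (γ * β) = γ * ((d : ℝ) • β) := by rw [mul_smul_comm]
      rw [h1, h.mul _ hγO _ (hds β hβ), hinv, ← mul_assoc, ← mul_assoc,
        (Int.cast_commute e (π γ)).eq]
    · intro y hy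
      obtain ⟨k, hk⟩ := hβ (γ * y) (O.mul_mem hγO hy)
      exact ⟨k, by rw [← hk, mul_assoc]⟩
    · unfold bt
      have h1 : (d : ℝ) • (β * γ) = ((d : ℝ) • β) * γ := by rw [smul_mul_assoc]
      rw [h1, h.mul _ (hds β hβ) _ hγO, mul_assoc]

end Pool.Agent.H34.GM
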