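import Pool.Agent.H34.GM.Targets2

/-!
Row EIG of the board gmf (page H34_GM.md): the forms are eigenfunctions of `A_r`.
-/

namespace Pool.Agent.H34.GM

open MeasureTheory

/-- finite rings: a left factor of a unit is a unit -/
private lemma eig_unit {R : Type} [Ring R] [Fintype R] {a b : R} (h : IsUnit (a * b)) :
    IsUnit a := by
  obtain ⟨u, hu⟩ := h
  have h1 : a * (b * ((u⁻¹ : Rˣ) : R)) = 1 := by
    rw [← mul_assoc, ← hu, Units.mul_inv]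
  set c := b * ((u⁻¹ : Rˣ) : R) with hc
  have hs : Function.Surjective (fun y : R => a * y) := by
    intro y
    exact ⟨c * y, by simp only; rw [← mul_assoc, h1, one_mul]⟩
  have hi : Function.Injective (fun y : R => a * y) := Finite.injective_iff_surjective.mpr hs
  have h2 : c * a = 1 := by
    apply hi
    change a * (c * a) = a * 1
    rw [← mul_assoc, h1, one_mul, mul_one]
  exact ⟨⟨a, c, h1, h2⟩, rfl⟩

private lemma eig_inv {m : ℕ} {O : Subring (Mat m)} {γ : Mat m} (h : γ ∈ UnitsOf O) :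
    γ⁻¹ ∈ UnitsOf O ∧ γ⁻¹ ∈ O ∧ γ * γ⁻¹ = 1 ∧ γ⁻¹ * γ = 1 ∧ γ.det ≠ 0 := by
  obtain ⟨h1, δ, hδ, h2, h3⟩ := h
  have h4 : γ⁻¹ = δ := Matrix.inv_eq_right_inv h2
  rw [h4]
  refine ⟨⟨hδ, γ, h1, h3, h2⟩, hδ, h2, h3, ?_⟩
  intro h0
  have h5 := congrArg Matrix.det h2
  rw [Matrix.det_mul, h0, zero_mul, Matrix.det_one] at h5
  exact zero_ne_one h5

private lemma eig_aN_pow {m : ℕ} (hm : 1 ≤ m) (z : Mat m) : aN z ^ m = |z.det| := by
  unfold aN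
  rw [← Real.rpow_natCast, ← Real.rpow_mul (abs_nonneg _)]
  have h : (1 / (m : ℝ)) * (m : ℝ) = 1 := by
    have : (m : ℝ) ≠ 0 := by positivity
    field_simp
  rw [h, Real.rpow_one]

private lemma eig_aN_pos {m : ℕ} {z : Mat m} (hz : z.det ≠ 0) : 0 < aN z :=
  Real.rpow_pos_of_pos (abs_pos.mpr hz) _

private lemma eig_det {m : ℕ} (hm : 1 ≤ m) {r : ℝ} (hr : 0 < r) {z g : Mat m} (hz : z.det ≠ 0)
    (hg : g.det ≠ 0) (α : Mat m) : |(kk r z α g).det| = (r ^ m)⁻¹ * |α.det| := by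
  unfold kk
  rw [Matrix.det_smul, Fintype.card_fin, Matrix.det_mul, Matrix.det_mul, Matrix.det_nonsing_inv,
    Ring.inverse_eq_inv', abs_mul, abs_mul, abs_mul, abs_pow, abs_div, abs_mul, abs_inv,
    abs_inv, abs_of_pos hr, abs_of_pos (eig_aN_pos hz), abs_of_pos (eig_aN_pos hg), div_pow,
    mul_pow, eig_aN_pow hm, eig_aN_pow hm, inv_pow]
  have h1 : |z.det| ≠ 0 := abs_ne_zero.mpr hz
  have h2 : |g.det| ≠ 0 := abs_ne_zero.mpr hg
  have h3 : r ^ m ≠ 0 := by positivity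
  field_simp

private lemma eig_kk {m : ℕ} (r : ℝ) (z γ ρ g : Mat m) (hγ : |γ.det| = 1) :
    kk r (γ * z) ρ g = kk r z (γ⁻¹ * ρ) g := by
  unfold kk aN
  rw [Matrix.det_mul, abs_mul, hγ, one_mul, Matrix.mul_inv_rev]
  congr 1
  simp only [Matrix.mul_assoc]

private lemma eig_bd {m : ℕ} (z : Mat m) (c : ℝ) (hz : sz z ≤ c) :
    |z.det| ≤ (m.factorial : ℝ) * c ^ m := by
  have h := Matrix.det_le (A := z) (abv := AbsoluteValue.abs) (x := c) (by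
    intro i j
    have h1 : |z i j| ≤ sz z := by
      unfold sz
      have h2 := norm_le_pi_norm (f := ((fun i j => z i j) : V m)) i
      have h3 := norm_le_pi_norm (f := (fun j => z i j)) j
      exact le_trans h3 h2
    exact le_trans h1 hz)
  rw [Fintype.card_fin] at h
  simpa [nsmul_eq_mul] using h

/-- the sum over `O` as a finite sum of sums over the units -/
private lemma eig_sum {m : ℕ} {O : Subring (Mat m)} {T : ℕ → Finset (Mat m)}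
    (hT : Reps m O T) (hNR : ∀ α ∈ O, α ≠ 0 → ∃ n : ℕ, 1 ≤ n ∧ |α.det| = n)
    (hU1 : ∀ γ ∈ UnitsOf O, |γ.det| = 1) (N0 : ℕ) (t : Mat m → ℂ)
    (h0 : t 0 = 0) (hN0 : ∀ α ∈ O, t α ≠ 0 → |α.det| ≤ N0)
    (hs : ∀ n ∈ Finset.Icc 1 N0, ∀ ρ ∈ T n,
      Summable fun γ : UnitsOf O => t ((γ : Mat m)⁻¹ * ρ)) :
    ∑' α : O, t α =
      ∑ n ∈ Finset.Icc 1 N0, ∑ ρ ∈ T n, ∑' γ : UnitsOf O, t ((γ : Mat m)⁻¹ * ρ) := by
  classical
  set S : Finset (Σ _ : ℕ, Mat m) := (Finset.Icc 1 N0).sigma T with hS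
  have hS1 : ∀ p : S, 1 ≤ p.1.1 ∧ p.1.1 ∈ Finset.Icc 1 N0 ∧ p.1.2 ∈ T p.1.1 := by
    intro p
    have h1 := Finset.mem_sigma.mp p.2
    exact ⟨(Finset.mem_Icc.mp h1.1).1, h1.1, h1.2⟩
  have hmem : ∀ p : S × UnitsOf O, ((p.2 : Mat m)⁻¹ * p.1.1.2) ∈ O := by
    intro p
    exact O.mul_mem (eig_inv p.2.2).2.1 (hT.mem _ (hS1 p.1).1 _ (hS1 p.1).2.2).1
  have hdet : ∀ p : S × UnitsOf O, |((p.2 : Mat m)⁻¹ * p.1.1.2).det| = p.1.1.1 := by
    intro p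
    rw [Matrix.det_mul, abs_mul, hU1 _ (eig_inv p.2.2).1, one_mul]
    exact (hT.mem _ (hS1 p.1).1 _ (hS1 p.1).2.2).2
  let f : S × UnitsOf O → O := fun p => ⟨(p.2 : Mat m)⁻¹ * p.1.1.2, hmem p⟩
  have hinj : Function.Injective f := by
    rintro ⟨⟨⟨n, ρ⟩, hp⟩, γ⟩ ⟨⟨⟨n', ρ'⟩, hp'⟩, γ'⟩ hff
    have hff1 : (γ : Mat m)⁻¹ * ρ = (γ' : Mat m)⁻¹ * ρ' := congrArg Subtype.val hff
    have hd := hdet ⟨⟨⟨n, ρ⟩, hp⟩, γ⟩
    have hd' := hdet ⟨⟨⟨n', ρ'⟩, hp'⟩, γ'⟩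
    simp only at hd hd'
    have hnn : n = n' := by
      rw [hff1, hd'] at hd
      exact_mod_cast hd.symm
    subst hnn
    obtain ⟨h1, h2, h3⟩ := hS1 ⟨⟨n, ρ⟩, hp⟩
    obtain ⟨h1', h2', h3'⟩ := hS1 ⟨⟨n, ρ'⟩, hp'⟩
    simp only at h1 h2 h3 h1' h2' h3'
    have hO := hmem ⟨⟨⟨n, ρ⟩, hp⟩, γ⟩
    simp only at hO
    obtain ⟨α, -, hα⟩ := hT.uniq n h1 _ hO hd
    have e1 := hα ρ ⟨h3, (γ : Mat m)⁻¹, (eig_inv γ.2).1, rfl⟩
    have e2 := hα ρ' ⟨h3', (γ' : Mat m)⁻¹, (eig_inv γ'.2).1, hff1⟩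
    have e3 : ρ = ρ' := e1.trans e2.symm
    subst e3
    have hρ : ρ.det ≠ 0 := by
      intro hz
      have h4 := (hT.mem n h1 ρ h3).2
      rw [hz, abs_zero] at h4
      have : (1 : ℝ) ≤ n := by exact_mod_cast h1
      linarith
    have hgg : (γ : Mat m)⁻¹ = (γ' : Mat m)⁻¹ := by
      have h5 : (γ : Mat m)⁻¹ * ρ * ρ⁻¹ = (γ' : Mat m)⁻¹ * ρ * ρ⁻¹ := by rw [hff1]
      rwa [Matrix.mul_assoc, Matrix.mul_assoc, Matrix.mul_nonsing_inv _ (Ne.isUnit hρ),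
        Matrix.mul_one, Matrix.mul_one] at h5
    have hgg2 : (γ : Mat m) = γ' := by
      have a1 := eig_inv γ.2
      have a2 := eig_inv γ'.2
      calc (γ : Mat m) = γ * ((γ' : Mat m)⁻¹ * γ') := by rw [a2.2.2.2.1, Matrix.mul_one]
        _ = γ * ((γ : Mat m)⁻¹ * γ') := by rw [hgg]
        _ = (γ * (γ : Mat m)⁻¹) * γ' := by rw [Matrix.mul_assoc]
        _ = γ' := by rw [a1.2.2.1, Matrix.one_mul]
    have hgg3 : γ = γ' := Subtype.ext hgg2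
    subst hgg3
    rfl
  have hsupp : Function.support (fun α : O => t α) ⊆ Set.range f := by
    intro α hα
    have hα1 : t α ≠ 0 := hα
    have hα0 : (α : Mat m) ≠ 0 := by
      intro hz
      rw [hz] at hα1
      exact hα1 h0
    obtain ⟨n, hn1, hn2⟩ := hNR α α.2 hα0
    have hn3 := hN0 α α.2 hα1
    rw [hn2] at hn3
    have hn4 : n ≤ N0 := by exact_mod_cast hn3
    obtain ⟨ρ, ⟨hρ, γ, hγ, hγρ⟩, -⟩ := hT.uniq n hn1 α α.2 hn2
    have hp : (⟨n, ρ⟩ : Σ _ : ℕ, Mat m) ∈ S := by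
      rw [hS, Finset.mem_sigma]
      exact ⟨Finset.mem_Icc.mpr ⟨hn1, hn4⟩, hρ⟩
    refine ⟨⟨⟨⟨n, ρ⟩, hp⟩, ⟨γ⁻¹, (eig_inv hγ).1⟩⟩, ?_⟩
    apply Subtype.ext
    change (γ⁻¹)⁻¹ * ρ = α
    have h6 : (γ⁻¹)⁻¹ = γ := Matrix.inv_eq_right_inv (eig_inv hγ).2.2.2.1
    rw [h6, hγρ]
  have h1 : ∑' p, t (f p) = ∑' α : O, t α := hinj.tsum_eq hsupp
  rw [← h1]
  have hsm : Summable (fun p : S × UnitsOf O => t (f p)) := by
    apply Summable.of_norm
    rw [summable_prod_of_nonneg (fun _ => norm_nonneg _)]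
    refine ⟨fun p => (hs p.1.1 (hS1 p).2.1 _ (hS1 p).2.2).norm, ?_⟩
    exact (hasSum_fintype _).summable
  rw [hsm.tsum_prod, tsum_fintype, Finset.sum_sigma', ← hS]
  exact Finset.sum_coe_sort S (fun p => ∑' γ : UnitsOf O, t ((γ : Mat m)⁻¹ * p.2))

/-- the truncated eigenvalue -/
private lemma eig_th {m q : ℕ} (hm1 : 1 ≤ m) {Φ : Mat m → ℂ} {mu : Fin m → ℂ} {lam : ℕ → ℂ}
    {r c1 : ℝ} (hr : 0 < r) (hc1 : 0 < c1)
    (hth : ∀ r : ℝ, 0 < r → th1 Φ mu r ≠ 0 → c1⁻¹ ≤ r ∧ r ≤ c1) {N0 : ℕ}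
    (hN : (c1 * r) ^ m < N0) :
    thF q Φ mu lam r = ∑ n ∈ Finset.Icc 1 N0, if n.Coprime q then
      (n : ℂ) ^ (((m : ℂ) - 1) / 2) * lam n * th1 Φ mu (r * (n : ℝ) ^ (-(1 / (m : ℝ)))) else 0 := by
  unfold thF
  rw [tsum_eq_sum (s := Finset.Icc 1 N0)]
  · apply Finset.sum_congr rfl
    intro n hn
    have h1 : 1 ≤ n := (Finset.mem_Icc.mp hn).1
    simp only [h1, true_and]
  · intro n hn
    by_cases h1 : 1 ≤ n ∧ n.Coprime q
    · rw [if_pos h1]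
      have hnN : N0 < n := by
        by_contra h2
        exact hn (Finset.mem_Icc.mpr ⟨h1.1, not_lt.mp h2⟩)
      have hn0 : (0 : ℝ) < n := by exact_mod_cast h1.1
      have hmz : (m : ℝ) ≠ 0 := by positivity
      have h3 : th1 Φ mu (r * (n : ℝ) ^ (-(1 / (m : ℝ)))) = 0 := by
        by_contra h4
        have hp : 0 < (n : ℝ) ^ (-(1 / (m : ℝ))) := Real.rpow_pos_of_pos hn0 _
        have h5 := (hth _ (mul_pos hr hp) h4).1
        have h6 : (n : ℝ) ^ (1 / (m : ℝ)) ≤ c1 * r := by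
          have hq : 0 < (n : ℝ) ^ (1 / (m : ℝ)) := Real.rpow_pos_of_pos hn0 _
          rw [Real.rpow_neg hn0.le] at h5
          rw [inv_le_iff_one_le_mul₀ hc1] at h5
          have h8 : r * ((n : ℝ) ^ (1 / (m : ℝ)))⁻¹ * c1 = c1 * r / (n : ℝ) ^ (1 / (m : ℝ)) := by
            rw [div_eq_mul_inv]; ring
          rw [h8, le_div_iff₀ hq, one_mul] at h5
          exact h5
        have h9 : (n : ℝ) ≤ (c1 * r) ^ m := by
          calc (n : ℝ) = ((n : ℝ) ^ (1 / (m : ℝ))) ^ m := by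
                rw [← Real.rpow_natCast, ← Real.rpow_mul hn0.le, one_div, inv_mul_cancel₀ hmz,
                  Real.rpow_one]
            _ ≤ (c1 * r) ^ m := pow_le_pow_left₀ (Real.rpow_nonneg hn0.le _) h6 m
        have h10 : (N0 : ℝ) < n := by exact_mod_cast hnN
        linarith
      rw [h3, mul_zero]
    · rw [if_neg h1]

theorem pf_EIG : T_NRD → T_UNQ → T_UNF → T_TH1 → T_EG1 → T_EIG := by
  intro hNRD hUNQ hUNF hTH1 hEG1 m q O b d R _ _ π σ T D hS F lam mu hF Φ hΦ g r x hg hr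
  have hm1 : 1 ≤ m := hS.ord.one_le
  have hO := hS.ord.ord
  have hR := hS.lev.red
  obtain ⟨-, -, hNR, hU1⟩ := hNRD m O b hm1 hO
  have hUQ := (hUNQ m O b q R π σ hm1 hO hS.lev.two_le hR).2
  have hUN := (hUNF m O b hm1 hO D hS.dom).2
  obtain ⟨c1, hc1, hth, -⟩ := hTH1 m Φ mu hm1 hΦ hF.tr0
  obtain ⟨c0, hc0, hsup⟩ := hΦ.supp
  have hmz : (m : ℝ) ≠ 0 := by positivity
  obtain ⟨N0, hN0⟩ := exists_nat_gt
    (max (r ^ m * ((m.factorial : ℝ) * c0 ^ m)) ((c1 * r) ^ m))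
  have hN1 : r ^ m * ((m.factorial : ℝ) * c0 ^ m) < N0 := lt_of_le_of_lt (le_max_left _ _) hN0
  have hN2 : (c1 * r) ^ m < N0 := lt_of_le_of_lt (le_max_right _ _) hN0
  have hΦ0 : Φ 0 = 0 := by
    by_contra h
    have h1 := (hsup 0 h).2
    have hne : Nonempty (Fin m) := ⟨⟨0, hm1⟩⟩
    rw [Matrix.det_zero, abs_zero] at h1
    have h2 : 0 < c0⁻¹ := inv_pos.mpr hc0
    linarith
  have hdm : ∀ z ∈ D, (mt z).det ≠ 0 := by
    intro z hz h0
    have h1 := (hS.dom.shell z hz).1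
    unfold aN at h1
    rw [h0, abs_zero, Real.zero_rpow (one_div_ne_zero hmz)] at h1
    norm_num at h1
  have hT1 : ∀ n ∈ Finset.Icc 1 N0, ∀ ρ ∈ T n, 1 ≤ n ∧ ρ ∈ O ∧ |ρ.det| = n ∧ ρ.det ≠ 0 := by
    intro n hn ρ hρ
    have h1 := (Finset.mem_Icc.mp hn).1
    have h2 := hS.reps.mem n h1 ρ hρ
    refine ⟨h1, h2.1, h2.2, ?_⟩
    intro h3
    rw [h3, abs_zero] at h2
    have h4 : (1 : ℝ) ≤ n := by exact_mod_cast h1
    linarith [h2.2]
  have hfi : ∀ n ∈ Finset.Icc 1 N0, ∀ ρ ∈ T n,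
      IntegrableOn (fun z : V m => Φ (kk r (mt z) ρ g) * F (mt z) (π ρ * x)) (Shell m) (hm m) ∧
      ∫ z in Shell m, Φ (kk r (mt z) ρ g) * F (mt z) (π ρ * x) ∂(hm m) =
        th1 Φ mu (r * (n : ℝ) ^ (-(1 / (m : ℝ)))) * F (ρ * g) (π ρ * x) := by
    intro n hn ρ hρ
    obtain ⟨h1, h2, h3, h4⟩ := hT1 n hn ρ hρ
    have h5 := hEG1 m q O b d R π σ T D hS F lam mu hF Φ hΦ ρ g r (π ρ * x) h4 hg hr
    refine ⟨h5.1, ?_⟩
    rw [h5.2]
    have h6 : (aN ρ)⁻¹ = (n : ℝ) ^ (-(1 / (m : ℝ))) := by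
      unfold aN
      rw [h3, Real.rpow_neg (Nat.cast_nonneg n)]
    rw [h6]
  have hae : ∀ᵐ z ∂((hm m).restrict D), ∀ n ∈ Finset.Icc 1 N0, ∀ ρ ∈ T n,
      Summable fun γ : UnitsOf O =>
        Φ (kk r (mt (fun i j => ((γ : Mat m) * mt z) i j)) ρ g) *
          F (mt (fun i j => ((γ : Mat m) * mt z) i j)) (π ρ * x) := by
    rw [Filter.eventually_all_finset]
    intro n hn
    rw [Filter.eventually_all_finset]
    intro ρ hρ
    exact (hUN _ (hfi n hn ρ hρ).1).2.1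
  have hkey : ∀ᵐ z ∂((hm m).restrict D),
      ∑' α : O, Φ (kk r (mt z) (α : Mat m) g) * F (mt z) (π (α : Mat m) * x) =
      ∑ n ∈ Finset.Icc 1 N0, ∑ ρ ∈ T n, ∑' γ : UnitsOf O,
        Φ (kk r (mt (fun i j => ((γ : Mat m) * mt z) i j)) ρ g) *
          F (mt (fun i j => ((γ : Mat m) * mt z) i j)) (π ρ * x) := by
    filter_upwards [hae, ae_restrict_mem hS.dom.meas] with z hz hzD
    have hzd := hdm z hzD
    have hpt : ∀ n ∈ Finset.Icc 1 N0, ∀ ρ ∈ T n, ∀ γ : UnitsOf O,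
        Φ (kk r (mt (fun i j => ((γ : Mat m) * mt z) i j)) ρ g) *
          F (mt (fun i j => ((γ : Mat m) * mt z) i j)) (π ρ * x) =
        Φ (kk r (mt z) ((γ : Mat m)⁻¹ * ρ) g) *
          F (mt z) (π ((γ : Mat m)⁻¹ * ρ) * x) := by
      intro n hn ρ hρ γ
      obtain ⟨h1, h2, h3, h4⟩ := hT1 n hn ρ hρ
      have e1 : mt (fun i j => ((γ : Mat m) * mt z) i j) = (γ : Mat m) * mt z := rfl
      rw [e1, eig_kk r (mt z) γ ρ g (hU1 _ γ.2)]
      have hg1 := eig_inv γ.2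
      have hγO : (γ : Mat m) ∈ O := γ.2.1
      have e2 : π ρ * x = π (γ : Mat m) * (π ((γ : Mat m)⁻¹ * ρ) * x) := by
        rw [← mul_assoc, ← hR.mul _ hγO _ (O.mul_mem hg1.2.1 h2), ← Matrix.mul_assoc,
          hg1.2.2.1, Matrix.one_mul]
      rw [e2, hF.auto _ γ.2 _ _ hzd]
    rw [eig_sum hS.reps hNR hU1 N0
      (fun α => Φ (kk r (mt z) α g) * F (mt z) (π α * x))]
    · apply Finset.sum_congr rfl
      intro n hn
      apply Finset.sum_congr rfl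
      intro ρ hρ
      exact tsum_congr fun γ => (hpt n hn ρ hρ γ).symm
    · have e3 : kk r (mt z) 0 g = 0 := by
        unfold kk
        rw [Matrix.mul_zero, Matrix.zero_mul, smul_zero]
      change Φ (kk r (mt z) 0 g) * _ = 0
      rw [e3, hΦ0, zero_mul]
    · intro α hα hne
      have h1 : Φ (kk r (mt z) α g) ≠ 0 := left_ne_zero_of_mul hne
      have h2 := eig_bd _ _ (hsup _ h1).1
      rw [eig_det hm1 hr hzd hg] at h2
      have hrm : 0 < r ^ m := pow_pos hr m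
      have h3 : |α.det| ≤ r ^ m * ((m.factorial : ℝ) * c0 ^ m) := by
        rw [inv_mul_le_iff₀ hrm] at h2
        exact h2
      linarith
    · intro n hn ρ hρ
      refine (hz n hn ρ hρ).congr ?_
      intro γ
      exact hpt n hn ρ hρ γ
  unfold opA
  rw [integral_congr_ae hkey, integral_finsetSum, eig_th hm1 hr hc1 hth hN2, Finset.sum_mul]
  · apply Finset.sum_congr rfl
    intro n hn
    rw [integral_finsetSum]
    · have h1 : ∀ ρ ∈ T n, ∫ z in D, ∑' γ : UnitsOf O,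
          Φ (kk r (mt (fun i j => ((γ : Mat m) * mt z) i j)) ρ g) *
            F (mt (fun i j => ((γ : Mat m) * mt z) i j)) (π ρ * x) ∂(hm m) =
          th1 Φ mu (r * (n : ℝ) ^ (-(1 / (m : ℝ)))) * F (ρ * g) (π ρ * x) := by
        intro ρ hρ
        rw [← (hfi n hn ρ hρ).2]
        exact (hUN _ (hfi n hn ρ hρ).1).2.2.symm
      rw [Finset.sum_congr rfl h1, ← Finset.mul_sum]
      by_cases hc : n.Coprime q
      · rw [if_pos hc, hF.hecke n (Finset.mem_Icc.mp hn).1 hc g x hg]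
        ring
      · rw [if_neg hc, zero_mul]
        have h2 : ∑ ρ ∈ T n, F (ρ * g) (π ρ * x) = 0 := by
          apply Finset.sum_eq_zero
          intro ρ hρ
          apply hF.supp
          intro hu
          obtain ⟨h3, h4, h5, -⟩ := hT1 n hn ρ hρ
          exact hc ((hUQ ρ h4 n h3 h5).mp (eig_unit hu))
        rw [h2, mul_zero]
    · intro ρ hρ
      exact (hUN _ (hfi n hn ρ hρ).1).1
  · intro n hn
    apply integrable_finsetSum
    intro ρ hρ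
    exact (hUN _ (hfi n hn ρ hρ).1).1

end Pool.Agent.H34.GM
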