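import Pool.Agent.H34.GM.Targets

/-!
Row EN of gmf_modules: the multiplicative energy of an order.
-/

namespace Pool.Agent.H34.GM

open MeasureTheory

namespace ENrow

/-- the point of `V` of a matrix -/
def vv {m : ℕ} (z : Mat m) : V m := fun i j => z i j

theorem sz_eq {m : ℕ} (z : Mat m) : sz z = ‖vv z‖ := rfl

theorem mt_vv {m : ℕ} (z : Mat m) : mt (vv z) = z := rfl

theorem exists_min {m : ℕ} {O : Subring (Mat m)} {b : Module.Basis (Fin m × Fin m) ℝ (Mat m)}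
    (hO : DivOrder m O b) : ∃ l : ℝ, 0 < l ∧ ∀ α ∈ O, α ≠ 0 → l ≤ sz α := by
  let e : V m →ₗ[ℝ] Mat m := (Matrix.ofLinearEquiv ℝ).toLinearMap
  let f : V m →ₗ[ℝ] ((Fin m × Fin m) → ℝ) := (b.equivFun.toLinearMap).comp e
  let F := LinearMap.toContinuousLinearMap f
  refine ⟨1 / (‖F‖ + 1), by positivity, ?_⟩
  intro α hα h0
  obtain ⟨i, hi⟩ : ∃ i, b.repr α i ≠ 0 := by
    by_contra h
    push Not at h
    apply h0
    apply b.repr.injective
    ext i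
    rw [h i]
    simp
  obtain ⟨n, hn⟩ := (hO.lat α).1 hα i
  have hn0 : n ≠ 0 := by
    intro h
    rw [h] at hn
    exact hi (by simpa using hn)
  have h1 : (1 : ℝ) ≤ |(n : ℝ)| := by
    have : (1 : ℤ) ≤ |n| := Int.one_le_abs hn0
    exact_mod_cast this
  have h2 : F (vv α) i = b.repr α i := rfl
  have h3 : |b.repr α i| ≤ ‖F (vv α)‖ := by
    rw [← h2, ← Real.norm_eq_abs]
    exact norm_le_pi_norm (F (vv α)) i
  have h4 : ‖F (vv α)‖ ≤ ‖F‖ * ‖vv α‖ := F.le_opNorm _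
  rw [sz_eq, div_le_iff₀ (by positivity)]
  rw [hn] at h3
  have h5 := norm_nonneg (vv α)
  nlinarith

theorem pick {E : Type} [NormedAddCommGroup E] (Λ : AddSubgroup E) (l : ℝ) (hl : 0 < l)
    (h : ∀ v ∈ Λ, v ≠ 0 → l ≤ ‖v‖) (hn : ∃ v ∈ Λ, v ≠ 0) :
    ∃ v ∈ Λ, v ≠ 0 ∧ ∀ w ∈ Λ, w ≠ 0 → ‖v‖ / 2 ≤ ‖w‖ := by
  set S : Set ℝ := {x | ∃ v ∈ Λ, v ≠ 0 ∧ x = ‖v‖} with hS
  obtain ⟨v0, hv0, hv00⟩ := hn
  have hne : S.Nonempty := ⟨‖v0‖, v0, hv0, hv00, rfl⟩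
  have hb : BddBelow S := ⟨l, by rintro x ⟨v, hv, hv1, rfl⟩; exact h v hv hv1⟩
  have hL : l ≤ sInf S := le_csInf hne (by rintro x ⟨v, hv, hv1, rfl⟩; exact h v hv hv1)
  obtain ⟨x, ⟨v, hv, hv1, rfl⟩, hx⟩ := exists_lt_of_csInf_lt hne (show sInf S < 2 * sInf S by
    linarith)
  refine ⟨v, hv, hv1, fun w hw hw0 => ?_⟩
  have : sInf S ≤ ‖w‖ := csInf_le hb ⟨w, hw, hw0, rfl⟩
  linarith

/-- pairs `(x, ρ x)` -/
def LL {m : ℕ} (O : Subring (Mat m)) (ρ : Mat m) : AddSubgroup (V m × V m) where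
  carrier := {v | mt v.1 ∈ O ∧ mt v.2 ∈ O ∧ mt v.2 = ρ * mt v.1}
  zero_mem' := by
    refine ⟨O.zero_mem, O.zero_mem, ?_⟩
    change (0 : Mat m) = ρ * (0 : Mat m)
    rw [mul_zero]
  add_mem' := by
    rintro a b ⟨h1, h2, h3⟩ ⟨h4, h5, h6⟩
    refine ⟨O.add_mem h1 h4, O.add_mem h2 h5, ?_⟩
    change mt a.2 + mt b.2 = ρ * (mt a.1 + mt b.1)
    rw [h3, h6, mul_add]
  neg_mem' := by
    rintro a ⟨h1, h2, h3⟩
    refine ⟨O.neg_mem h1, O.neg_mem h2, ?_⟩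
    change -mt a.2 = ρ * (-mt a.1)
    rw [h3, mul_neg]

/-- pairs `(y ρ, y)` -/
def LR {m : ℕ} (O : Subring (Mat m)) (ρ : Mat m) : AddSubgroup (V m × V m) where
  carrier := {v | mt v.1 ∈ O ∧ mt v.2 ∈ O ∧ mt v.1 = mt v.2 * ρ}
  zero_mem' := by
    refine ⟨O.zero_mem, O.zero_mem, ?_⟩
    change (0 : Mat m) = (0 : Mat m) * ρ
    rw [zero_mul]
  add_mem' := by
    rintro a b ⟨h1, h2, h3⟩ ⟨h4, h5, h6⟩
    refine ⟨O.add_mem h1 h4, O.add_mem h2 h5, ?_⟩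
    change mt a.1 + mt b.1 = (mt a.2 + mt b.2) * ρ
    rw [h3, h6, add_mul]
  neg_mem' := by
    rintro a ⟨h1, h2, h3⟩
    refine ⟨O.neg_mem h1, O.neg_mem h2, ?_⟩
    change -mt a.1 = (-mt a.2) * ρ
    rw [h3, neg_mul]

/-- all pairs -/
def LO {m : ℕ} (O : Subring (Mat m)) : AddSubgroup (V m × V m) where
  carrier := {v | mt v.1 ∈ O ∧ mt v.2 ∈ O}
  zero_mem' := ⟨O.zero_mem, O.zero_mem⟩
  add_mem' := by
    rintro a b ⟨h1, h2⟩ ⟨h4, h5⟩
    exact ⟨O.add_mem h1 h4, O.add_mem h2 h5⟩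
  neg_mem' := by
    rintro a ⟨h1, h2⟩
    exact ⟨O.neg_mem h1, O.neg_mem h2⟩

/-- the subspace of the `(x, ρ x)` -/
def WL {m : ℕ} (ρ : Mat m) : Submodule ℝ (V m × V m) where
  carrier := {v | mt v.2 = ρ * mt v.1}
  zero_mem' := by
    change (0 : Mat m) = ρ * (0 : Mat m)
    rw [mul_zero]
  add_mem' := by
    intro a b h3 h6
    change mt a.2 + mt b.2 = ρ * (mt a.1 + mt b.1)
    rw [show mt a.2 = ρ * mt a.1 from h3, show mt b.2 = ρ * mt b.1 from h6, mul_add]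
  smul_mem' := by
    intro c a h
    change c • mt a.2 = ρ * (c • mt a.1)
    rw [show mt a.2 = ρ * mt a.1 from h, mul_smul_comm]

/-- the subspace of the `(y ρ, y)` -/
def WR {m : ℕ} (ρ : Mat m) : Submodule ℝ (V m × V m) where
  carrier := {v | mt v.1 = mt v.2 * ρ}
  zero_mem' := by
    change (0 : Mat m) = (0 : Mat m) * ρ
    rw [zero_mul]
  add_mem' := by
    intro a b h3 h6
    change mt a.1 + mt b.1 = (mt a.2 + mt b.2) * ρ
    rw [show mt a.1 = mt a.2 * ρ from h3, show mt b.1 = mt b.2 * ρ from h6, add_mul]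
  smul_mem' := by
    intro c a h
    change c • mt a.1 = (c • mt a.2) * ρ
    rw [show mt a.1 = mt a.2 * ρ from h, smul_mul_assoc]

theorem finrank_V (m : ℕ) : Module.finrank ℝ (V m) = m ^ 2 := by
  rw [Module.finrank_pi_fintype]
  simp [sq]

theorem mt_eq_zero {m : ℕ} {x : V m} (h : mt x = 0) : x = 0 := by
  funext i j
  exact congrFun (congrFun h i) j

theorem finrank_WL {m : ℕ} (ρ : Mat m) : Module.finrank ℝ (WL ρ) ≤ m ^ 2 := by
  rw [← finrank_V m]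
  refine LinearMap.finrank_le_finrank_of_injective
    (f := (LinearMap.fst ℝ (V m) (V m)).comp (WL ρ).subtype) ?_
  rw [← LinearMap.ker_eq_bot, LinearMap.ker_eq_bot']
  rintro ⟨⟨x, y⟩, hv⟩ h0
  change x = 0 at h0
  subst h0
  have h1 : mt y = ρ * mt (0 : V m) := hv
  have h2 : mt y = 0 := by
    rw [h1]
    exact mul_zero _
  have h3 : y = 0 := mt_eq_zero h2
  subst h3
  rfl

theorem finrank_WR {m : ℕ} (ρ : Mat m) : Module.finrank ℝ (WR ρ) ≤ m ^ 2 := by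
  rw [← finrank_V m]
  refine LinearMap.finrank_le_finrank_of_injective
    (f := (LinearMap.snd ℝ (V m) (V m)).comp (WR ρ).subtype) ?_
  rw [← LinearMap.ker_eq_bot, LinearMap.ker_eq_bot']
  rintro ⟨⟨x, y⟩, hv⟩ h0
  change y = 0 at h0
  subst h0
  have h1 : mt x = mt (0 : V m) * ρ := hv
  have h2 : mt x = 0 := by
    rw [h1]
    exact zero_mul _
  have h3 : x = 0 := mt_eq_zero h2
  subst h3
  rfl

/-- the pair in `V × V` -/
def pr {m : ℕ} {O : Subring (Mat m)} (q : O × O) : V m × V m :=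
  (vv (q.1 : Mat m), vv (q.2 : Mat m))

theorem vv_inj {m : ℕ} {x y : Mat m} (h : vv x = vv y) : x = y := by
  ext i j
  exact congrFun (congrFun h i) j

theorem pr_inj {m : ℕ} {O : Subring (Mat m)} {q q' : O × O} (h : pr q = pr q') : q = q' := by
  have h1 := vv_inj (congrArg Prod.fst h)
  have h2 := vv_inj (congrArg Prod.snd h)
  exact Prod.ext (Subtype.ext h1) (Subtype.ext h2)

theorem sum_sub {m : ℕ} (Λ : AddSubgroup (V m × V m)) (O : Subring (Mat m)) (Q : O × O → Prop)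
    [DecidablePred Q] (hQ : ∀ q : O × O, Q q → pr q ∈ Λ) (s : ℝ) :
    ∑' q : O × O, (if Q q then ENNReal.ofReal (‖pr q‖ ^ (-s)) else 0) ≤
      ∑' v : Λ, ENNReal.ofReal (‖(v : V m × V m)‖ ^ (-s)) := by
  have e1 : ∑' q : O × O, (if Q q then ENNReal.ofReal (‖pr q‖ ^ (-s)) else 0) =
      ∑' q : {q : O × O | Q q}, ENNReal.ofReal (‖pr (q : O × O)‖ ^ (-s)) := by
    rw [tsum_subtype {q : O × O | Q q} (fun q => ENNReal.ofReal (‖pr q‖ ^ (-s)))]
    refine tsum_congr fun q => ?_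
    by_cases h : Q q
    · rw [if_pos h, Set.indicator_of_mem (by exact h)]
    · rw [if_neg h, Set.indicator_of_notMem (by exact h)]
  rw [e1]
  let φ : {q : O × O | Q q} → Λ := fun q => ⟨pr (q : O × O), hQ _ q.2⟩
  have hφ : Function.Injective φ := by
    intro q q' h
    have h1 : pr (q : O × O) = pr (q' : O × O) := congrArg Subtype.val h
    exact Subtype.ext (pr_inj h1)
  exact ENNReal.tsum_comp_le_tsum_of_injective hφ
    (fun v : Λ => ENNReal.ofReal (‖(v : V m × V m)‖ ^ (-s)))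

theorem finrank_E (m : ℕ) : Module.finrank ℝ (⊤ : Submodule ℝ (V m × V m)) ≤ 2 * m ^ 2 := by
  rw [finrank_top, Module.finrank_prod, finrank_V]
  omega

theorem norm_ge {m : ℕ} {O : Subring (Mat m)} {l : ℝ} (hmin : ∀ α ∈ O, α ≠ 0 → l ≤ sz α)
    (v : V m × V m) (h1 : mt v.1 ∈ O) (h2 : mt v.2 ∈ O) (h0 : v ≠ 0) : l ≤ ‖v‖ := by
  rw [Prod.norm_def]
  by_cases hx : v.1 = 0
  · have hy : v.2 ≠ 0 := fun h => h0 (Prod.ext hx h)
    exact (hmin _ h2 (fun h => hy (mt_eq_zero h))).trans (le_max_right _ _)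
  · exact (hmin _ h1 (fun h => hx (mt_eq_zero h))).trans (le_max_left _ _)

theorem half_pow (x s : ℝ) (hx : 0 < x) :
    ((x / 2) ^ (-s)) ^ 2 = 2 ^ (2 * s) * x ^ (-(2 * s)) := by
  rw [← Real.rpow_natCast, ← Real.rpow_mul (by positivity), Real.div_rpow hx.le (by norm_num)]
  have e : -s * ((2 : ℕ) : ℝ) = -(2 * s) := by push_cast; ring
  rw [e, Real.rpow_neg (by norm_num : (0 : ℝ) ≤ 2), div_inv_eq_mul, mul_comm]

theorem prod_le (a b c d A B r s : ℝ) (ha : 0 ≤ a) (hb : 0 ≤ b) (hc : 0 ≤ c) (hd : 0 ≤ d)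
    (hr : 0 < r) (hs : 0 < s) (hA : A = max a c) (hB : B = max b d) (hA0 : 0 < A) (hB0 : 0 < B) :
    ((1 + a / r) * (1 + b / r) * (1 + c / r) * (1 + d / r)) ^ (-s) ≤
      r ^ (2 * s) * (A ^ (-s) * B ^ (-s)) := by
  have h1 : A / r ≤ (1 + a / r) * (1 + c / r) := by
    have h3 : 0 ≤ a / r := by positivity
    have h4 : 0 ≤ c / r := by positivity
    rcases max_cases a c with h | h
    · rw [hA, h.1]; nlinarith
    · rw [hA, h.1]; nlinarith
  have h2 : B / r ≤ (1 + b / r) * (1 + d / r) := by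
    have h3 : 0 ≤ b / r := by positivity
    have h4 : 0 ≤ d / r := by positivity
    rcases max_cases b d with h | h
    · rw [hB, h.1]; nlinarith
    · rw [hB, h.1]; nlinarith
  have h5 : (A / r) * (B / r) ≤ (1 + a / r) * (1 + b / r) * (1 + c / r) * (1 + d / r) := by
    calc (A / r) * (B / r) ≤ ((1 + a / r) * (1 + c / r)) * ((1 + b / r) * (1 + d / r)) :=
          mul_le_mul h1 h2 (by positivity) (by positivity)
      _ = _ := by ring
  refine (Real.rpow_le_rpow_of_nonpos (by positivity) h5 (by linarith)).trans (le_of_eq ?_)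
  rw [Real.mul_rpow (by positivity) (by positivity), Real.div_rpow hA0.le hr.le,
    Real.div_rpow hB0.le hr.le, Real.rpow_neg hr.le s, div_inv_eq_mul, div_inv_eq_mul,
    two_mul, Real.rpow_add hr]
  ring

end ENrow

open ENrow in
open Classical in
theorem pf_EN (hPK : T_PK) : T_EN := by
  intro m O b hm hO s hs
  have hs0 : 0 < s := lt_of_le_of_lt (by positivity) hs
  obtain ⟨C1, hC1, h1⟩ := hPK (m ^ 2) s (by exact_mod_cast hs)
  obtain ⟨C2, hC2, h2⟩ := hPK (2 * m ^ 2) (2 * s) (by push_cast; linarith)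
  obtain ⟨l, hl, hmin⟩ := exists_min hO
  refine ⟨C1 ^ 2 * 2 ^ (2 * s) * (2 * (C2 * l ^ (-(2 * s)))), by positivity, ?_⟩
  intro r hr
  have hu : ∀ α ∈ O, α ≠ 0 → IsUnit α.det := fun α hα h => isUnit_iff_ne_zero.2 (hO.dvn α hα h)
  let P : Type := {ρ : Mat m // (∃ v ∈ LL O ρ, v ≠ 0) ∧ (∃ v ∈ LR O ρ, v ≠ 0)}
  have hL : ∀ ρ : P, ∃ v ∈ LL O ρ.1, v ≠ 0 ∧ ∀ w ∈ LL O ρ.1, w ≠ 0 → ‖v‖ / 2 ≤ ‖w‖ := fun ρ =>
    pick (LL O ρ.1) l hl (fun v hv h0 => norm_ge hmin v hv.1 hv.2.1 h0) ρ.2.1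
  have hR : ∀ ρ : P, ∃ v ∈ LR O ρ.1, v ≠ 0 ∧ ∀ w ∈ LR O ρ.1, w ≠ 0 → ‖v‖ / 2 ≤ ‖w‖ := fun ρ =>
    pick (LR O ρ.1) l hl (fun v hv h0 => norm_ge hmin v hv.1 hv.2.1 h0) ρ.2.2
  choose vL vLm vL0 vLi using hL
  choose vR vRm vR0 vRi using hR
  -- the sums over the pairs
  let QL : P → O × O → Prop := fun ρ q => (q.2 : Mat m) = ρ.1 * (q.1 : Mat m)
  let QR : P → O × O → Prop := fun ρ q => (q.1 : Mat m) = (q.2 : Mat m) * ρ.1
  let gL : P → O × O → ENNReal := fun ρ q =>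
    if QL ρ q then ENNReal.ofReal (‖pr q‖ ^ (-s)) else 0
  let gR : P → O × O → ENNReal := fun ρ q =>
    if QR ρ q then ENNReal.ofReal (‖pr q‖ ^ (-s)) else 0
  have hgL : ∀ ρ, ∑' q, gL ρ q ≤ ENNReal.ofReal (C1 * (‖vL ρ‖ / 2) ^ (-s)) := by
    intro ρ
    refine (sum_sub (LL O ρ.1) O (QL ρ) (fun q hq => ⟨q.1.2, q.2.2, hq⟩) s).trans ?_
    exact h1 (V m × V m) (WL ρ.1) (finrank_WL ρ.1) (LL O ρ.1) _
      (by have := norm_pos_iff.2 (vL0 ρ); positivity) (fun v hv => hv.2.2) (vLi ρ)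
  have hgR : ∀ ρ, ∑' q, gR ρ q ≤ ENNReal.ofReal (C1 * (‖vR ρ‖ / 2) ^ (-s)) := by
    intro ρ
    refine (sum_sub (LR O ρ.1) O (QR ρ) (fun q hq => ⟨q.1.2, q.2.2, hq⟩) s).trans ?_
    exact h1 (V m × V m) (WR ρ.1) (finrank_WR ρ.1) (LR O ρ.1) _
      (by have := norm_pos_iff.2 (vR0 ρ); positivity) (fun v hv => hv.2.2) (vRi ρ)
  -- the sums over rho
  have hLO : ∑' v : LO O, ENNReal.ofReal (‖(v : V m × V m)‖ ^ (-(2 * s))) ≤
      ENNReal.ofReal (C2 * l ^ (-(2 * s))) :=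
    h2 (V m × V m) ⊤ (finrank_E m) (LO O) l hl (fun _ _ => Submodule.mem_top)
      (fun v hv h0 => norm_ge hmin v hv.1 hv.2 h0)
  have hsL : ∑' ρ : P, ENNReal.ofReal (‖vL ρ‖ ^ (-(2 * s))) ≤
      ENNReal.ofReal (C2 * l ^ (-(2 * s))) := by
    refine le_trans ?_ hLO
    let φ : P → LO O := fun ρ => ⟨vL ρ, (vLm ρ).1, (vLm ρ).2.1⟩
    have hφ : Function.Injective φ := by
      intro ρ ρ' h
      have h3 : vL ρ = vL ρ' := congrArg Subtype.val h
      have h4 := (vLm ρ).2.2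
      have h5 := (vLm ρ').2.2
      rw [← h3] at h5
      have h6 : mt (vL ρ).1 ≠ 0 := by
        intro h7
        apply vL0 ρ
        rw [h7] at h4
        refine Prod.ext (mt_eq_zero h7) (mt_eq_zero ?_)
        rw [h4]
        exact mul_zero _
      have h8 := hu _ (vLm ρ).1 h6
      refine Subtype.ext ?_
      have h9 : ρ.1 * mt (vL ρ).1 = ρ'.1 * mt (vL ρ).1 := h4.symm.trans h5
      have h10 := congrArg (fun z => z * (mt (vL ρ).1)⁻¹) h9
      simpa [Matrix.mul_assoc, Matrix.mul_nonsing_inv _ h8] using h10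
    exact ENNReal.tsum_comp_le_tsum_of_injective hφ
      (fun v : LO O => ENNReal.ofReal (‖(v : V m × V m)‖ ^ (-(2 * s))))
  have hsR : ∑' ρ : P, ENNReal.ofReal (‖vR ρ‖ ^ (-(2 * s))) ≤
      ENNReal.ofReal (C2 * l ^ (-(2 * s))) := by
    refine le_trans ?_ hLO
    let φ : P → LO O := fun ρ => ⟨vR ρ, (vRm ρ).1, (vRm ρ).2.1⟩
    have hφ : Function.Injective φ := by
      intro ρ ρ' h
      have h3 : vR ρ = vR ρ' := congrArg Subtype.val h
      have h4 := (vRm ρ).2.2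
      have h5 := (vRm ρ').2.2
      rw [← h3] at h5
      have h6 : mt (vR ρ).2 ≠ 0 := by
        intro h7
        apply vR0 ρ
        rw [h7] at h4
        refine Prod.ext (mt_eq_zero ?_) (mt_eq_zero h7)
        rw [h4]
        exact zero_mul _
      have h8 := hu _ (vRm ρ).2.1 h6
      refine Subtype.ext ?_
      have h9 : mt (vR ρ).2 * ρ.1 = mt (vR ρ).2 * ρ'.1 := h4.symm.trans h5
      have h10 := congrArg (fun z => (mt (vR ρ).2)⁻¹ * z) h9
      simpa [← Matrix.mul_assoc, Matrix.nonsing_inv_mul _ h8] using h10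
    exact ENNReal.tsum_comp_le_tsum_of_injective hφ
      (fun v : LO O => ENNReal.ofReal (‖(v : V m × V m)‖ ^ (-(2 * s))))
  -- the product for one rho
  have hprod : ∀ ρ : P, (∑' q, gL ρ q) * (∑' q, gR ρ q) ≤
      ENNReal.ofReal (C1 ^ 2 * 2 ^ (2 * s)) * (ENNReal.ofReal (‖vL ρ‖ ^ (-(2 * s))) +
        ENNReal.ofReal (‖vR ρ‖ ^ (-(2 * s)))) := by
    intro ρ
    have p1 := norm_pos_iff.2 (vL0 ρ)
    have p2 := norm_pos_iff.2 (vR0 ρ)
    refine (mul_le_mul' (hgL ρ) (hgR ρ)).trans ?_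
    rw [← ENNReal.ofReal_mul (by positivity), ← ENNReal.ofReal_add (by positivity)
      (by positivity), ← ENNReal.ofReal_mul (by positivity)]
    refine ENNReal.ofReal_le_ofReal ?_
    have e1 := half_pow ‖vL ρ‖ s p1
    have e2 := half_pow ‖vR ρ‖ s p2
    set x := (‖vL ρ‖ / 2) ^ (-s) with hx
    set y := (‖vR ρ‖ / 2) ^ (-s) with hy
    have e3 : C1 ^ 2 * 2 ^ (2 * s) * (‖vL ρ‖ ^ (-(2 * s)) + ‖vR ρ‖ ^ (-(2 * s))) =
        C1 ^ 2 * (x ^ 2 + y ^ 2) := by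
      rw [e1, e2]; ring
    rw [e3]
    have e4 : x * y ≤ x ^ 2 + y ^ 2 := by nlinarith [sq_nonneg (x - y), sq_nonneg (x + y)]
    calc C1 * x * (C1 * y) = C1 ^ 2 * (x * y) := by ring
      _ ≤ C1 ^ 2 * (x ^ 2 + y ^ 2) := mul_le_mul_of_nonneg_left e4 (by positivity)
  -- the pointwise bound
  let F : (O × O) × (O × O) → ENNReal := fun p =>
    ∑' ρ : P, ENNReal.ofReal (r ^ (2 * s)) * (gL ρ p.1 * gR ρ p.2)
  have hpt : ∀ p : (O × O) × (O × O),
      (if p.1.1 ≠ 0 ∧ p.1.2 ≠ 0 ∧ p.2.1 ≠ 0 ∧ p.2.2 ≠ 0 ∧ p.1.2 * p.1.1 = p.2.2 * p.2.1 then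
        ENNReal.ofReal (((1 + sz (p.1.1 : Mat m) / r) * (1 + sz (p.1.2 : Mat m) / r) *
          (1 + sz (p.2.1 : Mat m) / r) * (1 + sz (p.2.2 : Mat m) / r)) ^ (-s)) else 0) ≤
        F ((Equiv.prodProdProdComm O O O O) p) := by
    rintro ⟨⟨α, β⟩, ⟨α', β'⟩⟩
    split_ifs with hG
    · obtain ⟨a0, b0, a0', b0', he⟩ := hG
      change α ≠ 0 at a0
      change β ≠ 0 at b0
      change α' ≠ 0 at a0'
      change β' ≠ 0 at b0'
      change β * α = β' * α' at he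
      have a1 : (α : Mat m) ≠ 0 := fun h => a0 (Subtype.ext h)
      have b1 : (β : Mat m) ≠ 0 := fun h => b0 (Subtype.ext h)
      have he' : (β : Mat m) * α = β' * α' := congrArg Subtype.val he
      have ua := hu _ α.2 a1
      have hρ1 : (α' : Mat m) = ((α' : Mat m) * (α : Mat m)⁻¹) * (α : Mat m) := by
        rw [Matrix.mul_assoc, Matrix.nonsing_inv_mul _ ua, Matrix.mul_one]
      have hρ2 : (β : Mat m) = (β' : Mat m) * ((α' : Mat m) * (α : Mat m)⁻¹) := by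
        rw [← Matrix.mul_assoc, ← he', Matrix.mul_assoc, Matrix.mul_nonsing_inv _ ua,
          Matrix.mul_one]
      have hne1 : (pr (α, α') : V m × V m) ≠ 0 := by
        intro h
        exact a1 (vv_inj (congrArg Prod.fst h))
      have hne2 : (pr (β, β') : V m × V m) ≠ 0 := by
        intro h
        exact b1 (vv_inj (congrArg Prod.fst h))
      let ρ : P := ⟨(α' : Mat m) * (α : Mat m)⁻¹,
        ⟨pr (α, α'), ⟨α.2, α'.2, hρ1⟩, hne1⟩, ⟨pr (β, β'), ⟨β.2, β'.2, hρ2⟩, hne2⟩⟩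
      refine le_trans ?_ (ENNReal.le_tsum ρ)
      have g1 : gL ρ (α, α') = ENNReal.ofReal (‖pr (α, α')‖ ^ (-s)) := if_pos hρ1
      have g2 : gR ρ (β, β') = ENNReal.ofReal (‖pr (β, β')‖ ^ (-s)) := if_pos hρ2
      change _ ≤ ENNReal.ofReal (r ^ (2 * s)) * (gL ρ (α, α') * gR ρ (β, β'))
      rw [g1, g2, ← ENNReal.ofReal_mul (by positivity), ← ENNReal.ofReal_mul (by positivity)]
      refine ENNReal.ofReal_le_ofReal ?_
      exact prod_le (sz (α : Mat m)) (sz (β : Mat m)) (sz (α' : Mat m)) (sz (β' : Mat m))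
        ‖pr (α, α')‖ ‖pr (β, β')‖ r s (norm_nonneg _) (norm_nonneg _) (norm_nonneg _)
        (norm_nonneg _) hr hs0 rfl rfl (norm_pos_iff.2 hne1) (norm_pos_iff.2 hne2)
    · exact zero_le
  calc _ ≤ ∑' p : (O × O) × (O × O), F ((Equiv.prodProdProdComm O O O O) p) :=
        ENNReal.tsum_le_tsum hpt
    _ = ∑' p : (O × O) × (O × O), F p := (Equiv.prodProdProdComm O O O O).tsum_eq F
    _ = ∑' ρ : P, ENNReal.ofReal (r ^ (2 * s)) * ((∑' q, gL ρ q) * (∑' q, gR ρ q)) := by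
        change ∑' p : (O × O) × (O × O), ∑' ρ : P,
          ENNReal.ofReal (r ^ (2 * s)) * (gL ρ p.1 * gR ρ p.2) = _
        rw [ENNReal.tsum_comm]
        refine tsum_congr fun ρ => ?_
        rw [ENNReal.tsum_mul_left, ENNReal.tsum_prod (f := fun a b => gL ρ a * gR ρ b)]
        congr 1
        simp_rw [ENNReal.tsum_mul_left]
        rw [ENNReal.tsum_mul_right]
    _ ≤ ∑' ρ : P, ENNReal.ofReal (r ^ (2 * s)) * (ENNReal.ofReal (C1 ^ 2 * 2 ^ (2 * s)) *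
          (ENNReal.ofReal (‖vL ρ‖ ^ (-(2 * s))) + ENNReal.ofReal (‖vR ρ‖ ^ (-(2 * s))))) :=
        ENNReal.tsum_le_tsum fun ρ => mul_le_mul_right (hprod ρ) _
    _ = ENNReal.ofReal (r ^ (2 * s)) * (ENNReal.ofReal (C1 ^ 2 * 2 ^ (2 * s)) *
          (∑' ρ : P, ENNReal.ofReal (‖vL ρ‖ ^ (-(2 * s))) +
            ∑' ρ : P, ENNReal.ofReal (‖vR ρ‖ ^ (-(2 * s))))) := by
        rw [ENNReal.tsum_mul_left, ENNReal.tsum_mul_left, ENNReal.tsum_add]
    _ ≤ ENNReal.ofReal (r ^ (2 * s)) * (ENNReal.ofReal (C1 ^ 2 * 2 ^ (2 * s)) *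
          (ENNReal.ofReal (C2 * l ^ (-(2 * s))) + ENNReal.ofReal (C2 * l ^ (-(2 * s))))) := by
        gcongr
    _ = ENNReal.ofReal (C1 ^ 2 * 2 ^ (2 * s) * (2 * (C2 * l ^ (-(2 * s)))) * r ^ (2 * s)) := by
        rw [← ENNReal.ofReal_add (by positivity) (by positivity),
          ← ENNReal.ofReal_mul (by positivity), ← ENNReal.ofReal_mul (by positivity)]
        congr 1
        ring

end Pool.Agent.H34.GM
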