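import Pool.Agent.H34.GM.Targets3
import Pool.Agent.H34.GM.HAC

/-!
Row EXD of gmf_modules (MP_52e316_nt): strict measurable fundamental domains exist.
-/

set_option autoImplicit false

namespace Pool.Agent.H34.GM

open MeasureTheory

theorem exd_entry {m : ℕ} (z : Mat m) (i j : Fin m) : |z i j| ≤ sz z := by
  unfold sz
  have h1 := norm_le_pi_norm (fun i j => z i j : V m) i
  have h2 := norm_le_pi_norm ((fun i j => z i j : V m) i) j
  simpa using h2.trans h1

theorem exd_det {m : ℕ} (z : Mat m) : |z.det| ≤ (m.factorial : ℝ) * sz z ^ m := by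
  have h := Matrix.det_le (A := z) (abv := AbsoluteValue.abs) (x := sz z) (fun i j => exd_entry z i j)
  simpa [nsmul_eq_mul] using h

theorem exd_mul {m : ℕ} {O : Subring (Mat m)} {γ δ : Mat m} (h1 : γ ∈ UnitsOf O)
    (h2 : δ ∈ UnitsOf O) : γ * δ ∈ UnitsOf O := by
  obtain ⟨a1, a, ha, a2, a3⟩ := h1
  obtain ⟨b1, b, hb, b2, b3⟩ := h2
  refine ⟨O.mul_mem a1 b1, b * a, O.mul_mem hb ha, ?_, ?_⟩
  · rw [mul_assoc, ← mul_assoc δ, b2, one_mul, a2]
  · rw [mul_assoc, ← mul_assoc a, a3, one_mul, b3]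

theorem exd_one {m : ℕ} (O : Subring (Mat m)) : (1 : Mat m) ∈ UnitsOf O :=
  ⟨O.one_mem, 1, O.one_mem, by simp, by simp⟩

theorem pf_EXD : T_MSR → T_NRD → T_EXD := by
  classical
  intro hMSR hNRD m O b hm hO
  obtain ⟨-, -, hdet, hun⟩ := hNRD m O b hm hO
  obtain ⟨-, hdm, ham, hsm, -, hSh, -, -⟩ := hMSR.1 m
  have hcnt : Countable (UnitsOf O) := (hMSR.2.1 m O b hO).2
  -- the radius
  obtain ⟨ε, hε, hε1⟩ : ∃ ε : ℝ, 0 < ε ∧ (m.factorial : ℝ) * (2 * ε) ^ m < 1 := by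
    refine ⟨1 / (4 * m.factorial), by positivity, ?_⟩
    have hf : (1 : ℝ) ≤ m.factorial := by exact_mod_cast Nat.factorial_pos m
    have h1 : 2 * (1 / (4 * (m.factorial : ℝ))) = 1 / (2 * m.factorial) := by
      field_simp; ring
    rw [h1]
    have h2 : (1 / (2 * (m.factorial : ℝ))) ^ m ≤ (1 / (2 * (m.factorial : ℝ))) ^ 1 := by
      refine pow_le_pow_of_le_one (by positivity) ?_ hm
      rw [div_le_one (by positivity)]
      linarith
    calc (m.factorial : ℝ) * (1 / (2 * m.factorial)) ^ m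
        ≤ (m.factorial : ℝ) * (1 / (2 * m.factorial)) ^ 1 :=
          mul_le_mul_of_nonneg_left h2 (by positivity)
      _ = 1 / 2 := by field_simp
      _ < 1 := by norm_num
  -- the action keeps the shell
  have hdet1 : ∀ z ∈ Shell m, 1 ≤ |(mt z).det| := by
    intro z hz
    have h1 : 1 ≤ aN (mt z) := hz.1
    unfold aN at h1
    by_contra h
    push Not at h
    have h2 : |(mt z).det| ^ (1 / (m : ℝ)) < 1 :=
      Real.rpow_lt_one (abs_nonneg _) h (by positivity)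
    linarith
  have haN : ∀ γ ∈ UnitsOf O, ∀ z : V m, aN (mt (hac_lm γ z)) = aN (mt z) := by
    intro γ hγ z
    have : (mt (hac_lm γ z)) = γ * mt z := rfl
    unfold aN
    rw [this, Matrix.det_mul, abs_mul, hun γ hγ, one_mul]
  have hkeep : ∀ γ ∈ UnitsOf O, ∀ z, hac_lm γ z ∈ Shell m ↔ z ∈ Shell m := by
    intro γ hγ z
    unfold Shell
    simp only [Set.mem_ofPred_eq, haN γ hγ z]
  have hcomp : ∀ (γ δ : Mat m) (z : V m), hac_lm γ (hac_lm δ z) = hac_lm (γ * δ) z := by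
    intro γ δ z
    funext i j
    show (γ * (δ * mt z)) i j = (γ * δ * mt z) i j
    rw [Matrix.mul_assoc]
  -- the small sets
  let s : ℕ → V m := TopologicalSpace.denseSeq (V m)
  let U : ℕ → Set (V m) := fun k => Shell m ∩ Metric.ball (s k) ε
  have hUm : ∀ k, MeasurableSet (U k) := fun k => hSh.inter Metric.isOpen_ball.measurableSet
  have hUcov : ∀ z ∈ Shell m, ∃ k, z ∈ U k := by
    intro z hz
    obtain ⟨k, hk⟩ := (TopologicalSpace.denseRange_denseSeq (V m)).exists_dist_lt z hε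
    exact ⟨k, hz, Metric.mem_ball.2 hk⟩
  have hUfree : ∀ k, ∀ z ∈ U k, ∀ δ ∈ UnitsOf O, hac_lm δ z ∈ U k → δ = 1 := by
    intro k z hz δ hδ hz'
    by_contra hne
    have h1 : δ - 1 ∈ O := O.sub_mem hδ.1 O.one_mem
    obtain ⟨n, hn, hn'⟩ := hdet (δ - 1) h1 (sub_ne_zero.2 hne)
    have h2 : 1 ≤ |((δ - 1) * mt z).det| := by
      rw [Matrix.det_mul, abs_mul, hn']
      have h3 := hdet1 z hz.1
      have h4 : (1 : ℝ) ≤ n := by exact_mod_cast hn
      nlinarith
    have h5 : sz ((δ - 1) * mt z) ≤ 2 * ε := by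
      have h6 : ((fun i j => ((δ - 1) * mt z) i j) : V m) = hac_lm δ z - z := by
        funext i j
        show ((δ - 1) * mt z) i j = (δ * mt z) i j - z i j
        rw [sub_mul, one_mul]
        rfl
      unfold sz
      rw [h6, ← dist_eq_norm]
      have h7 := Metric.mem_ball.1 hz.2
      have h8 := Metric.mem_ball.1 hz'.2
      have h9 := dist_triangle_right (hac_lm δ z) z (s k)
      linarith
    have h10 := exd_det ((δ - 1) * mt z)
    have h11 : 0 ≤ sz ((δ - 1) * mt z) := norm_nonneg _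
    have h12 : sz ((δ - 1) * mt z) ^ m ≤ (2 * ε) ^ m := pow_le_pow_left₀ h11 h5 m
    have h13 : (m.factorial : ℝ) * sz ((δ - 1) * mt z) ^ m ≤ (m.factorial : ℝ) * (2 * ε) ^ m :=
      mul_le_mul_of_nonneg_left h12 (by positivity)
    linarith
  -- the domain
  let G : ℕ → Set (V m) := fun j => ⋃ γ : UnitsOf O, hac_lm (γ : Mat m) ⁻¹' (U j)
  have hGm : ∀ j, MeasurableSet (G j) := fun j =>
    MeasurableSet.iUnion fun γ => hac_meas_lm _ (hUm j)
  have hGmem : ∀ j z, z ∈ G j ↔ ∃ γ ∈ UnitsOf O, hac_lm γ z ∈ U j := by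
    intro j z
    simp only [G, Set.mem_iUnion, Set.mem_preimage, Subtype.exists, exists_prop]
  let D : Set (V m) := ⋃ k, (U k \ ⋃ j ∈ Finset.range k, G j)
  have hDmem : ∀ z, z ∈ D ↔ ∃ k, z ∈ U k ∧ ∀ j < k, z ∉ G j := by
    intro z
    simp only [D, Set.mem_iUnion, Set.mem_sdiff, Finset.mem_range, exists_prop, not_exists, not_and]
  refine ⟨D, ?_, ?_, ?_⟩
  · refine MeasurableSet.iUnion fun k => (hUm k).diff ?_
    exact Finset.measurableSet_biUnion _ fun j _ => hGm j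
  · intro z hz
    obtain ⟨k, hk, -⟩ := (hDmem z).1 hz
    exact hk.1
  · intro z hz1 hz2
    have hz : z ∈ Shell m := ⟨hz1, hz2⟩
    have hex : ∃ k, z ∈ G k := by
      obtain ⟨k, hk⟩ := hUcov z hz
      refine ⟨k, (hGmem k z).2 ⟨1, exd_one O, ?_⟩⟩
      have : hac_lm (1 : Mat m) z = z := by
        funext i j
        show ((1 : Mat m) * mt z) i j = z i j
        rw [one_mul]
        rfl
      rw [this]
      exact hk
    have hspec := Nat.find_spec hex
    have hmin : ∀ j < Nat.find hex, z ∉ G j := fun j hj => Nat.find_min hex hj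
    obtain ⟨γ, hγ, hγU⟩ := (hGmem _ z).1 hspec
    have hback : ∀ δ ∈ UnitsOf O, ∀ j, hac_lm δ z ∈ G j → z ∈ G j := by
      intro δ hδ j hj
      obtain ⟨τ, hτ, hτU⟩ := (hGmem j _).1 hj
      rw [hcomp] at hτU
      exact (hGmem j z).2 ⟨_, exd_mul hτ hδ, hτU⟩
    refine ⟨γ, ⟨hγ, ?_⟩, ?_⟩
    · show hac_lm γ z ∈ D
      exact (hDmem _).2 ⟨_, hγU, fun j hj h => hmin j hj (hback γ hγ j h)⟩
    · rintro γ' ⟨hγ', hγ'D⟩
      obtain ⟨k', hk', hk'2⟩ := (hDmem _).1 (show hac_lm γ' z ∈ D from hγ'D)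
      have hfor : ∀ δ ∈ UnitsOf O, ∀ j, z ∈ G j → hac_lm δ z ∈ G j := by
        intro δ hδ j hj
        obtain ⟨τ, hτ, hτU⟩ := (hGmem j _).1 hj
        obtain ⟨-, δ', hδ', e1, e2⟩ := id hδ
        have hδ'u : δ' ∈ UnitsOf O := ⟨hδ', δ, hδ.1, e2, e1⟩
        refine (hGmem j _).2 ⟨τ * δ', exd_mul hτ hδ'u, ?_⟩
        rw [hcomp, mul_assoc, e2, mul_one]
        exact hτU
      have hle : Nat.find hex ≤ k' := by
        refine Nat.find_min' hex ?_
        exact (hGmem k' z).2 ⟨γ', hγ', hk'⟩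
      have hge : k' ≤ Nat.find hex := by
        by_contra h
        push Not at h
        exact hk'2 _ h (hfor γ' hγ' _ hspec)
      have hkk : k' = Nat.find hex := le_antisymm hge hle
      obtain ⟨-, δ', hδ', e1, e2⟩ := id hγ
      have hδ'u : δ' ∈ UnitsOf O := ⟨hδ', γ, hγ.1, e2, e1⟩
      have h1 : γ' * δ' = 1 := by
        refine hUfree _ (hac_lm γ z) hγU (γ' * δ') (exd_mul hγ' hδ'u) ?_
        rw [hcomp, mul_assoc, e2, mul_one, ← hkk]
        exact hk'
      calc γ' = γ' * (δ' * γ) := by rw [e2, mul_one]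
        _ = γ := by rw [← mul_assoc, h1, one_mul]

end Pool.Agent.H34.GM
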