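import Pool.Agent.H34.GM.Targets3

/-! Row EXT: representatives of the classes of given determinant exist (MP_52e316_nt). -/

open Matrix

namespace Pool.Agent.H34.GM

theorem ext_coord {m : ℕ} (b : Module.Basis (Fin m × Fin m) ℝ (Mat m)) :
    ∃ C : ℝ, 0 ≤ C ∧ ∀ (x : Mat m) (i : Fin m × Fin m), |b.repr x i| ≤ C * sz x := by
  refine ⟨∑ i, ∑ k, ∑ l, |b.repr (Matrix.single k l (1 : ℝ)) i|, by positivity, ?_⟩
  intro x i
  have hx : x = ∑ k, ∑ l, x k l • Matrix.single k l (1 : ℝ) := by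
    conv_lhs => rw [Matrix.matrix_eq_sum_single x]
    refine Finset.sum_congr rfl fun k _ => Finset.sum_congr rfl fun l _ => ?_
    rw [Matrix.smul_single, smul_eq_mul, mul_one]
  have hsz : ∀ k l, |x k l| ≤ sz x := by
    intro k l
    unfold sz
    have h1 := norm_le_pi_norm (fun i j => x i j : V m) k
    have h2 := norm_le_pi_norm (fun j => x k j : Fin m → ℝ) l
    exact h2.trans h1
  have h0 : 0 ≤ sz x := norm_nonneg _
  have h1 : b.repr x i = ∑ k, ∑ l, x k l * b.repr (Matrix.single k l (1 : ℝ)) i := by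
    conv_lhs => rw [hx]
    simp only [map_sum, map_smul, Finsupp.coe_finsetSum, Finset.sum_apply, Finsupp.coe_smul,
      Pi.smul_apply, smul_eq_mul]
  rw [h1]
  calc |∑ k, ∑ l, x k l * b.repr (Matrix.single k l (1 : ℝ)) i|
      ≤ ∑ k, ∑ l, |b.repr (Matrix.single k l (1 : ℝ)) i| * sz x := by
        refine (Finset.abs_sum_le_sum_abs _ _).trans (Finset.sum_le_sum fun k _ => ?_)
        refine (Finset.abs_sum_le_sum_abs _ _).trans (Finset.sum_le_sum fun l _ => ?_)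
        rw [abs_mul, mul_comm]
        exact mul_le_mul_of_nonneg_left (hsz k l) (abs_nonneg _)
    _ = (∑ k, ∑ l, |b.repr (Matrix.single k l (1 : ℝ)) i|) * sz x := by
        rw [Finset.sum_mul]
        refine Finset.sum_congr rfl fun k _ => ?_
        rw [Finset.sum_mul]
    _ ≤ (∑ i, ∑ k, ∑ l, |b.repr (Matrix.single k l (1 : ℝ)) i|) * sz x := by
        refine mul_le_mul_of_nonneg_right ?_ h0
        exact Finset.single_le_sum (f := fun i => ∑ k, ∑ l, |b.repr (Matrix.single k l (1 : ℝ)) i|)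
          (fun _ _ => by positivity) (Finset.mem_univ i)

theorem ext_fin {m : ℕ} {O : Subring (Mat m)} {b : Module.Basis (Fin m × Fin m) ℝ (Mat m)}
    (h : DivOrder m O b) (B : ℝ) : {x : Mat m | x ∈ O ∧ sz x ≤ B}.Finite := by
  obtain ⟨C, hC, hb⟩ := ext_coord b
  obtain ⟨N, hN⟩ := exists_nat_ge (C * B)
  have hS : (Set.Icc (fun _ : Fin m × Fin m => -(N : ℤ)) (fun _ => (N : ℤ))).Finite :=
    Set.finite_Icc _ _
  refine (hS.image fun f : Fin m × Fin m → ℤ => ∑ i, (f i : ℝ) • b i).subset ?_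
  rintro x ⟨hx, hxB⟩
  choose f hf using (h.lat x).1 hx
  have hbd : ∀ i, |f i| ≤ (N : ℤ) := by
    intro i
    have h1 : |(f i : ℝ)| ≤ N := by
      rw [← hf i]
      exact (hb x i).trans ((mul_le_mul_of_nonneg_left hxB hC).trans hN)
    exact_mod_cast h1
  refine ⟨f, ⟨fun i => (abs_le.1 (hbd i)).1, fun i => (abs_le.1 (hbd i)).2⟩, ?_⟩
  show ∑ i, (f i : ℝ) • b i = x
  conv_rhs => rw [← b.sum_repr x]
  exact Finset.sum_congr rfl fun i _ => by rw [hf i]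

theorem ext_mul {m : ℕ} {O : Subring (Mat m)} {γ δ : Mat m} (h : γ ∈ UnitsOf O)
    (h' : δ ∈ UnitsOf O) : γ * δ ∈ UnitsOf O := by
  obtain ⟨h1, γ', h2, h3, h4⟩ := h
  obtain ⟨k1, δ', k2, k3, k4⟩ := h'
  refine ⟨O.mul_mem h1 k1, δ' * γ', O.mul_mem k2 h2, ?_, ?_⟩
  · rw [Matrix.mul_assoc, ← Matrix.mul_assoc δ, k3, Matrix.one_mul, h3]
  · rw [Matrix.mul_assoc, ← Matrix.mul_assoc γ', h4, Matrix.one_mul, k4]

theorem ext_inv {m : ℕ} {O : Subring (Mat m)} {γ : Mat m} (h : γ ∈ UnitsOf O) :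
    ∃ δ ∈ UnitsOf O, γ * δ = 1 ∧ δ * γ = 1 := by
  obtain ⟨h1, γ', h2, h3, h4⟩ := h
  exact ⟨γ', ⟨h2, γ, h1, h4, h3⟩, h3, h4⟩

theorem pf_EXT (CMP : T_CMP) (NRD : T_NRD) : T_EXT := by
  classical
  intro m O b hm hO
  obtain ⟨C, hC, hcmp⟩ := CMP m O b hm hO
  obtain ⟨-, -, -, hdet⟩ := NRD m O b hm hO
  obtain ⟨B, hB⟩ : ∃ B : ℕ → Set (Mat m), ∀ n, B n = {x | (x ∈ O ∧ sz x ≤
      C * (n : ℝ) ^ (1 / (m : ℝ))) ∧ |x.det| = n} := ⟨_, fun _ => rfl⟩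
  have hfin : ∀ n, (B n).Finite := by
    intro n
    rw [hB]
    exact (ext_fin hO (C * (n : ℝ) ^ (1 / (m : ℝ)))).subset fun x hx => hx.1
  obtain ⟨cl, hcl⟩ : ∃ cl : ℕ → Mat m → Set (Mat m), ∀ n β, cl n β =
      {β' | β' ∈ B n ∧ ∃ γ ∈ UnitsOf O, β' = γ * β} := ⟨_, fun _ _ => rfl⟩
  obtain ⟨g, hg⟩ : ∃ g : Set (Mat m) → Mat m, ∀ s : Set (Mat m), s.Nonempty → g s ∈ s :=
    ⟨fun s => if h : s.Nonempty then h.some else 0, fun s hs => by
      simp only [hs, dif_pos]; exact hs.some_mem⟩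
  have hclB : ∀ n β x, x ∈ cl n β → x ∈ B n := by
    intro n β x hx
    rw [hcl] at hx
    exact hx.1
  have hBm : ∀ n x, x ∈ B n → x ∈ O ∧ |x.det| = n := by
    intro n x hx
    rw [hB] at hx
    exact ⟨hx.1.1, hx.2⟩
  have h1 : (1 : Mat m) ∈ UnitsOf O := ⟨O.one_mem, 1, O.one_mem, by simp, by simp⟩
  have hself : ∀ n β, β ∈ B n → β ∈ cl n β := by
    intro n β hβ
    rw [hcl]
    exact ⟨hβ, 1, h1, by rw [Matrix.one_mul]⟩
  have hcleq : ∀ n β β', (∃ γ ∈ UnitsOf O, β' = γ * β) → cl n β = cl n β' := by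
    rintro n β β' ⟨γ, hγ, rfl⟩
    obtain ⟨δ, hδ, hδ1, hδ2⟩ := ext_inv hγ
    rw [hcl, hcl]
    ext x
    constructor
    · rintro ⟨hx, ε, hε, rfl⟩
      refine ⟨hx, ε * δ, ext_mul hε hδ, ?_⟩
      rw [Matrix.mul_assoc, ← Matrix.mul_assoc δ, hδ2, Matrix.one_mul]
    · rintro ⟨hx, ε, hε, rfl⟩
      exact ⟨hx, ε * γ, ext_mul hε hγ, by rw [Matrix.mul_assoc]⟩
  refine ⟨fun n => (hfin n).toFinset.image fun β => g (cl n β), ?_, ?_⟩
  · intro n _ α hα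
    obtain ⟨β, hβ, rfl⟩ := Finset.mem_image.1 hα
    have hβ' := (hfin n).mem_toFinset.1 hβ
    exact hBm n _ (hclB n β _ (hg _ ⟨β, hself n β hβ'⟩))
  · intro n hn β hβO hβdet
    have hn0 : (0 : ℝ) < n := by exact_mod_cast hn
    have hβ0 : β.det ≠ 0 := by
      intro h
      rw [h, abs_zero] at hβdet
      exact hn0.ne hβdet
    obtain ⟨γ, hγ, hγsz, -⟩ := hcmp β hβ0
    have haN : aN β = (n : ℝ) ^ (1 / (m : ℝ)) := by
      unfold aN
      rw [hβdet]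
    rw [haN] at hγsz
    have hγβ : γ * β ∈ B n := by
      rw [hB]
      refine ⟨⟨O.mul_mem hγ.1 hβO, hγsz⟩, ?_⟩
      rw [Matrix.det_mul, abs_mul, hdet γ hγ, one_mul, hβdet]
    have hmem := hg _ ⟨_, hself n _ hγβ⟩
    have hmem' := hmem
    rw [hcl] at hmem'
    obtain ⟨-, ε, hε, hεq⟩ := hmem'
    refine ⟨g (cl n (γ * β)), ⟨Finset.mem_image.2 ⟨γ * β, (hfin n).mem_toFinset.2 hγβ, rfl⟩,
      ?_⟩, ?_⟩
    · obtain ⟨δ, hδ, hδ1, hδ2⟩ := ext_inv (ext_mul hε hγ)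
      refine ⟨δ, hδ, ?_⟩
      have h2 : g (cl n (γ * β)) = (ε * γ) * β := by
        rw [← hcl] at hεq
        rw [hεq, Matrix.mul_assoc]
      rw [h2, ← Matrix.mul_assoc, hδ2, Matrix.one_mul]
    · rintro α ⟨hα, δ, hδ, hδq⟩
      obtain ⟨β', hβ', rfl⟩ := Finset.mem_image.1 hα
      have hβB := (hfin n).mem_toFinset.1 hβ'
      have h2 := hg _ ⟨β', hself n β' hβB⟩
      rw [hcl] at h2
      obtain ⟨-, ζ, hζ, hζq⟩ := h2
      rw [← hcl] at hζq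
      show g (cl n β') = g (cl n (γ * β))
      congr 1
      refine hcleq n β' (γ * β) ⟨γ * δ * ζ, ext_mul (ext_mul hγ hδ) hζ, ?_⟩
      rw [Matrix.mul_assoc, ← hζq, Matrix.mul_assoc, ← hδq]

end Pool.Agent.H34.GM
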