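import Pool.Agent.H34.GM.Targets

/-!
Finiteness of the classes of bounded determinant.
-/

namespace Pool.Agent.H34.GM

namespace FIC

theorem aeval_mem {m : ℕ} {O : Subring (Mat m)} {α : Mat m} (hα : α ∈ O) (p : Polynomial ℤ) :
    Polynomial.aeval α p ∈ O := by
  rw [Polynomial.aeval_eq_sum_range]
  refine O.sum_mem fun i _ => ?_
  exact O.zsmul_mem (O.pow_mem hα i) _

theorem right_inv (CHP : T_CHP) {m : ℕ} {O : Subring (Mat m)}
    {b : Module.Basis (Fin m × Fin m) ℝ (Mat m)} (hm : 1 ≤ m) (hO : DivOrder m O b) {α : Mat m}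
    (hα : α ∈ O) {n : ℕ} (hn : |α.det| = n) : ∃ β ∈ O, α * β = (n : ℝ) • (1 : Mat m) := by
  obtain ⟨p, hp⟩ := CHP m O b hm hO α hα
  have h1 : Polynomial.aeval α p = 0 := by
    have h2 := Matrix.aeval_self_charpoly α
    rw [← hp, ← algebraMap_int_eq, Polynomial.aeval_map_algebraMap] at h2
    exact h2
  have h3 : α * Polynomial.aeval α p.divX + ((p.coeff 0 : ℤ) : Mat m) = 0 := by
    rw [← h1]
    conv_rhs => rw [← Polynomial.divX_mul_X_add p]
    rw [map_add, ← Polynomial.X_mul, map_mul, Polynomial.aeval_X, Polynomial.aeval_C]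
    simp
  have h4 : |((p.coeff 0 : ℤ) : ℝ)| = n := by
    have h5 := Matrix.det_eq_sign_charpoly_coeff α
    rw [← hp, Polynomial.coeff_map] at h5
    rw [h5, abs_mul, abs_pow, abs_neg, abs_one, one_pow, one_mul] at hn
    simpa using hn
  have h6 : α * Polynomial.aeval α p.divX = -((p.coeff 0 : ℤ) : Mat m) :=
    eq_neg_of_add_eq_zero_left h3
  have hc : ∀ k : ℤ, ((k : ℤ) : Mat m) = (k : ℝ) • (1 : Mat m) := by
    intro k
    rw [Int.cast_smul_eq_zsmul ℝ k (1 : Mat m), zsmul_one]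
  rcases eq_or_eq_neg_of_abs_eq h4 with h7 | h7
  · refine ⟨-Polynomial.aeval α p.divX, O.neg_mem (aeval_mem hα _), ?_⟩
    rw [mul_neg, h6, neg_neg, hc, h7]
  · refine ⟨Polynomial.aeval α p.divX, aeval_mem hα _, ?_⟩
    rw [h6, hc, h7, neg_smul, neg_neg]

/-- residues of the coordinates -/
noncomputable def rs {m : ℕ} (b : Module.Basis (Fin m × Fin m) ℝ (Mat m)) (L : ℕ) (x : Mat m) :
    Fin m × Fin m → ZMod L := fun i => ((⌊b.repr x i⌋ : ℤ) : ZMod L)

theorem rs_eq {m : ℕ} {O : Subring (Mat m)} {b : Module.Basis (Fin m × Fin m) ℝ (Mat m)}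
    (hO : DivOrder m O b) {L : ℕ} (hL : 0 < L) {x y : Mat m} (hx : x ∈ O) (hy : y ∈ O)
    (h : rs b L x = rs b L y) : ∃ w ∈ O, x = y + (L : ℝ) • w := by
  refine ⟨(L : ℝ)⁻¹ • (x - y), ?_, ?_⟩
  · rw [hO.lat]
    intro i
    obtain ⟨p, hp⟩ := (hO.lat x).1 hx i
    obtain ⟨r, hr⟩ := (hO.lat y).1 hy i
    have h1 := congrFun h i
    unfold rs at h1
    rw [hp, hr, Int.floor_intCast, Int.floor_intCast] at h1
    have h2 : ((p - r : ℤ) : ZMod L) = 0 := by
      push_cast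
      rw [h1, sub_self]
    rw [ZMod.intCast_zmod_eq_zero_iff_dvd] at h2
    obtain ⟨k, hk⟩ := h2
    refine ⟨k, ?_⟩
    have hL' : (L : ℝ) ≠ 0 := by exact_mod_cast hL.ne'
    rw [map_smul, map_sub, Finsupp.smul_apply, Finsupp.sub_apply, hp, hr, smul_eq_mul]
    have h3 : (p : ℝ) - r = L * k := by exact_mod_cast hk
    rw [h3, ← mul_assoc, inv_mul_cancel₀ hL', one_mul]
  · have hL' : (L : ℝ) ≠ 0 := by exact_mod_cast hL.ne'
    rw [smul_smul, mul_inv_cancel₀ hL', one_smul, add_sub_cancel]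

end FIC

open FIC in
theorem pf_FIC : T_CHP → T_NRD → T_FIC := by
  classical
  intro CHP NRD m O b hm hO N
  obtain ⟨M, hM⟩ : ∃ M : ℕ, N ≤ M := exists_nat_ge N
  have hL : 0 < M.factorial := Nat.factorial_pos M
  have : NeZero M.factorial := ⟨hL.ne'⟩
  obtain ⟨f, hf⟩ : ∃ f : Mat m → Set (Fin m × Fin m → ZMod M.factorial),
      ∀ α, f α = {c | ∃ x ∈ O, rs b M.factorial (α * x) = c} := ⟨_, fun _ => rfl⟩
  obtain ⟨s, hs, hbij⟩ := Set.exists_subset_bijOn
    {α : Mat m | α ∈ O ∧ α ≠ 0 ∧ |α.det| ≤ N} f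
  have hfin : s.Finite := by
    refine Set.Finite.of_finite_image ?_ hbij.injOn
    exact Set.toFinite _
  refine ⟨hfin.toFinset, ?_, ?_⟩
  · intro a ha
    have := hs (hfin.mem_toFinset.1 ha)
    exact ⟨this.1, this.2.1⟩
  · intro α hα hα0 hαN
    obtain ⟨a, ha, hfa⟩ := hbij.surjOn ⟨α, ⟨hα, hα0, hαN⟩, rfl⟩
    obtain ⟨haO, ha0, haN⟩ := hs ha
    -- one inclusion of right ideals
    have key : ∀ β γ : Mat m, β ∈ O → γ ∈ O → γ ≠ 0 → |γ.det| ≤ N → f β = f γ →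
        ∃ δ ∈ O, β = γ * δ := by
      intro β γ hβ hγ hγ0 hγN he
      obtain ⟨n, hn1, hn⟩ := (NRD m O b hm hO).2.2.1 γ hγ hγ0
      have hnM : n ≤ M := by
        have : (n : ℝ) ≤ M := by
          rw [← hn]
          exact hγN.trans hM
        exact_mod_cast this
      obtain ⟨ε, hε, hγε⟩ := right_inv CHP hm hO hγ hn
      obtain ⟨k, hk⟩ := Nat.dvd_factorial hn1 hnM
      have h1 : rs b M.factorial β ∈ f β := by
        rw [hf]
        exact ⟨1, O.one_mem, by rw [mul_one]⟩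
      rw [he, hf] at h1
      obtain ⟨x, hx, hx'⟩ := h1
      obtain ⟨w, hw, hw'⟩ := rs_eq hO hL hβ (O.mul_mem hγ hx) hx'.symm
      refine ⟨x + k • (ε * w), O.add_mem hx (O.nsmul_mem (O.mul_mem hε hw) k), ?_⟩
      rw [hw', mul_add, mul_smul_comm, ← mul_assoc, hγε, smul_mul_assoc, one_mul, hk]
      congr 1
      rw [← Nat.cast_smul_eq_nsmul ℝ, smul_smul]
      push_cast
      rw [mul_comm]
    obtain ⟨γ, hγ, h1⟩ := key α a hα haO ha0 haN hfa.symm
    obtain ⟨δ, hδ, h2⟩ := key a α haO hα hα0 hαN hfa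
    refine ⟨a, hfin.mem_toFinset.2 ha, γ, ⟨hγ, δ, hδ, ?_, ?_⟩, h1⟩
    · have hu : IsUnit a := (Matrix.isUnit_iff_isUnit_det a).2 (isUnit_iff_ne_zero.2
        (hO.dvn a haO ha0))
      apply hu.mul_left_cancel
      rw [← mul_assoc, ← h1, ← h2, mul_one]
    · have hu : IsUnit α := (Matrix.isUnit_iff_isUnit_det α).2 (isUnit_iff_ne_zero.2
        (hO.dvn α hα hα0))
      apply hu.mul_left_cancel
      rw [← mul_assoc, ← h2, ← h1, mul_one]

end Pool.Agent.H34.GM
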