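import Pool.Agent.H34.GM.Targets2

/-!
Row FTD: decay of the Fourier transform of the bump functions.
-/

namespace Pool.Agent.H34.GM

open MeasureTheory

/-- the coordinate `z i j` -/
private noncomputable def ftd_c (m : ℕ) (i j : Fin m) : V m →L[ℝ] ℝ :=
  (ContinuousLinearMap.proj (R := ℝ) (φ := fun _ : Fin m => ℝ) j).comp
    (ContinuousLinearMap.proj (R := ℝ) (φ := fun _ : Fin m => (Fin m → ℝ)) i)

private lemma ftd_c_apply (m : ℕ) (i j : Fin m) (z : V m) : ftd_c m i j z = z i j := rfl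

/-- the bilinear form `tr (w z)` -/
private noncomputable def ftd_L (m : ℕ) : V m →L[ℝ] V m →L[ℝ] ℝ :=
  ∑ a : Fin m, ∑ b : Fin m, (ftd_c m b a).smulRight (ftd_c m a b)

private lemma ftd_L_apply (m : ℕ) (z w : V m) :
    ftd_L m z w = ∑ a : Fin m, ∑ b : Fin m, z b a * w a b := by
  simp [ftd_L, ftd_c_apply]

private lemma ftd_tr (m : ℕ) (z : V m) (w : Mat m) :
    (w * mt z).trace = ftd_L m z (fun i j => w i j) := by
  rw [ftd_L_apply, Matrix.trace]
  refine Finset.sum_congr rfl fun a _ => ?_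
  rw [Matrix.diag_apply, Matrix.mul_apply]
  refine Finset.sum_congr rfl fun b _ => ?_
  exact mul_comm _ _

private lemma ftd_four (m : ℕ) (f : V m → ℂ) (w : V m) :
    VectorFourier.fourierIntegral Real.fourierChar (volume : Measure (V m))
      (ContinuousLinearMap.toLinearMap₁₂ (ftd_L m)) f w =
      ∫ z : V m, f z * ee (-(ftd_L m z w)) := by
  unfold VectorFourier.fourierIntegral
  refine integral_congr_ae (Filter.Eventually.of_forall fun z => ?_)
  show Real.fourierChar (-(ftd_L m z w)) • f z = f z * ee (-(ftd_L m z w))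
  rw [Circle.smul_def, smul_eq_mul, mul_comm, Real.fourierChar_apply]
  unfold ee
  congr 2
  push_cast
  ring

private noncomputable def ftd_S (m : ℕ) (z : V m) : ℝ :=
  ∑ i, ∑ j, (((mt z).transpose * mt z - 1) i j) ^ 2

private lemma ftd_S_eq (m : ℕ) (z : V m) : ftd_S m z =
    ∑ i, ∑ j, ((∑ k, z k i * z k j) - (1 : Mat m) i j) ^ 2 := by
  unfold ftd_S
  refine Finset.sum_congr rfl fun i _ => Finset.sum_congr rfl fun j _ => ?_
  rw [Matrix.sub_apply, Matrix.mul_apply]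
  rfl

private lemma ftd_S_smooth (m : ℕ) : ContDiff ℝ ((⊤ : ℕ∞) : WithTop ℕ∞) (ftd_S m) := by
  have h : ftd_S m = fun z : V m =>
      ∑ i, ∑ j, ((∑ k, ftd_c m k i z * ftd_c m k j z) - (1 : Mat m) i j) ^ 2 := by
    funext z
    rw [ftd_S_eq]
    rfl
  rw [h]
  refine ContDiff.sum fun i _ => ContDiff.sum fun j _ => ContDiff.pow ?_ 2
  refine ContDiff.sub (ContDiff.sum fun k _ => ?_) contDiff_const
  exact (ftd_c m k i).contDiff.mul (ftd_c m k j).contDiff

/-- the matrices with small `S` are bounded -/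
private lemma ftd_S_ball (m : ℕ) (z : V m) (h : ftd_S m z ≤ 1 / 4) : ‖z‖ ≤ 2 := by
  rw [pi_norm_le_iff_of_nonneg (by norm_num)]
  intro i
  rw [pi_norm_le_iff_of_nonneg (by norm_num)]
  intro j
  have h1 : ((∑ k, z k j * z k j) - (1 : Mat m) j j) ^ 2 ≤ 1 / 4 := by
    refine le_trans ?_ h
    rw [ftd_S_eq]
    refine le_trans ?_ (Finset.single_le_sum (f := fun i => ∑ j, ((∑ k, z k i * z k j) -
      (1 : Mat m) i j) ^ 2) (fun i _ => Finset.sum_nonneg fun j _ => sq_nonneg _)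
      (Finset.mem_univ j))
    exact Finset.single_le_sum (f := fun j' => ((∑ k, z k j * z k j') -
      (1 : Mat m) j j') ^ 2) (fun i _ => sq_nonneg _) (Finset.mem_univ j)
  rw [Matrix.one_apply_eq] at h1
  have h2 : z i j * z i j ≤ ∑ k, z k j * z k j :=
    Finset.single_le_sum (f := fun k => z k j * z k j) (fun k _ => mul_self_nonneg _)
      (Finset.mem_univ i)
  rw [Real.norm_eq_abs]
  refine abs_le_of_sq_le_sq ?_ (by norm_num)
  nlinarith [abs_nonneg (z i j)]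

private lemma ftd_g_bound (χ : ℝ → ℝ) (hχ : Prof χ) (N : ℕ) : ∃ B : ℝ, 0 ≤ B ∧ ∀ i ≤ N, ∀ x : ℝ,
    ‖iteratedFDeriv ℝ i (fun x : ℝ => (χ x : ℂ)) x‖ ≤ B := by
  have hs : ContDiff ℝ ((⊤ : ℕ∞) : WithTop ℕ∞) (fun x : ℝ => (χ x : ℂ)) :=
    Complex.ofRealCLM.contDiff.comp hχ.smooth
  have hc : HasCompactSupport (fun x : ℝ => (χ x : ℂ)) := by
    refine HasCompactSupport.intro (K := Set.Icc (-1) 1) isCompact_Icc fun x hx => ?_
    have h1 : 1 ≤ |x| := by
      by_contra h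
      rw [not_le] at h
      exact hx ⟨by linarith [(abs_lt.mp h).1], by linarith [(abs_lt.mp h).2]⟩
    rw [hχ.supp x h1]
    simp
  have h1 : ∀ i : ℕ, ∃ B : ℝ, ∀ x : ℝ,
      ‖iteratedFDeriv ℝ i (fun x : ℝ => (χ x : ℂ)) x‖ ≤ B := fun i =>
    Continuous.bounded_above_of_compact_support
      (ContDiff.continuous_iteratedFDeriv (by exact_mod_cast le_top) hs) (hc.iteratedFDeriv i)
  choose B hB using h1
  refine ⟨∑ i ∈ Finset.range (N + 1), |B i|, Finset.sum_nonneg fun i _ => abs_nonneg _,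
    fun i hi x => ?_⟩
  refine (hB i x).trans ((le_abs_self _).trans ?_)
  exact Finset.single_le_sum (f := fun i => |B i|) (fun i _ => abs_nonneg _)
    (Finset.mem_range.mpr (by omega))

private lemma ftd_S_bound (m : ℕ) (N : ℕ) : ∃ D : ℝ, 1 ≤ D ∧ ∀ i ≤ N, ∀ z : V m, ‖z‖ ≤ 2 →
    ‖iteratedFDeriv ℝ i (ftd_S m) z‖ ≤ D := by
  have h1 : ∀ i : ℕ, ∃ B : ℝ, ∀ z ∈ Metric.closedBall (0 : V m) 2,
      ‖iteratedFDeriv ℝ i (ftd_S m) z‖ ≤ B := fun i =>
    (isCompact_closedBall (0 : V m) 2).exists_bound_of_continuousOn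
      (ContDiff.continuous_iteratedFDeriv (by exact_mod_cast le_top) (ftd_S_smooth m)).continuousOn
  choose B hB using h1
  refine ⟨1 + ∑ i ∈ Finset.range (N + 1), |B i|,
    by linarith [Finset.sum_nonneg fun (i : ℕ) (_ : i ∈ Finset.range (N + 1)) => abs_nonneg (B i)],
    fun i hi z hz => ?_⟩
  refine (hB i z (by simpa using hz)).trans ((le_abs_self _).trans ?_)
  have h2 := Finset.single_le_sum (f := fun i => |B i|) (fun i _ => abs_nonneg _)
    (Finset.mem_range.mpr (show i < N + 1 by omega))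
  linarith

private lemma ftd_bump_eq (m : ℕ) (χ : ℝ → ℝ) (δ : ℝ) :
    (fun z : V m => bump m χ δ (mt z)) =
      (fun x : ℝ => (χ x : ℂ)) ∘ ((δ ^ 2)⁻¹ • ftd_S m) := by
  funext z
  show ((χ _ : ℝ) : ℂ) = ((χ _ : ℝ) : ℂ)
  congr 2
  show ftd_S m z / δ ^ 2 = (δ ^ 2)⁻¹ * ftd_S m z
  rw [div_eq_inv_mul]

private lemma ftd_Sd (m : ℕ) (δ : ℝ) :
    ContDiff ℝ ((⊤ : ℕ∞) : WithTop ℕ∞) ((δ ^ 2)⁻¹ • ftd_S m) := by
  show ContDiff ℝ ((⊤ : ℕ∞) : WithTop ℕ∞) (fun y => (δ ^ 2)⁻¹ • ftd_S m y)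
  exact (ftd_S_smooth m).const_smul _

private lemma ftd_smooth (m : ℕ) (χ : ℝ → ℝ) (hχ : Prof χ) (δ : ℝ) :
    ContDiff ℝ ((⊤ : ℕ∞) : WithTop ℕ∞) (fun z : V m => bump m χ δ (mt z)) := by
  rw [ftd_bump_eq]
  have hs : ContDiff ℝ ((⊤ : ℕ∞) : WithTop ℕ∞) (fun x : ℝ => (χ x : ℂ)) :=
    Complex.ofRealCLM.contDiff.comp hχ.smooth
  exact hs.comp (ftd_Sd m δ)

private lemma ftd_supp (m : ℕ) (χ : ℝ → ℝ) (hχ : Prof χ) (δ : ℝ) (h0 : 0 < δ) (h1 : δ ≤ 1 / 2)
    (z : V m) (hz : bump m χ δ (mt z) ≠ 0) : ‖z‖ ≤ 2 := by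
  apply ftd_S_ball
  by_contra h
  rw [not_le] at h
  apply hz
  show ((χ (ftd_S m z / δ ^ 2) : ℝ) : ℂ) = 0
  have h2 : 1 ≤ ftd_S m z / δ ^ 2 := by
    rw [le_div_iff₀ (by positivity)]
    nlinarith
  rw [hχ.supp _ (h2.trans (le_abs_self _))]
  simp

private lemma ftd_tsupp (m : ℕ) (χ : ℝ → ℝ) (hχ : Prof χ) (δ : ℝ) (h0 : 0 < δ)
    (h1 : δ ≤ 1 / 2) : tsupport (fun z : V m => bump m χ δ (mt z)) ⊆
      Metric.closedBall (0 : V m) 2 := by
  refine closure_minimal (fun z hz => ?_) Metric.isClosed_closedBall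
  simpa using ftd_supp m χ hχ δ h0 h1 z hz

private lemma ftd_compact (m : ℕ) (χ : ℝ → ℝ) (hχ : Prof χ) (δ : ℝ) (h0 : 0 < δ)
    (h1 : δ ≤ 1 / 2) : HasCompactSupport (fun z : V m => bump m χ δ (mt z)) :=
  (isCompact_closedBall (0 : V m) 2).of_isClosed_subset (isClosed_tsupport _)
    (ftd_tsupp m χ hχ δ h0 h1)

/-- bound for the derivatives -/
private lemma ftd_der (m : ℕ) (χ : ℝ → ℝ) (hχ : Prof χ) (N : ℕ) : ∃ K : ℝ, 0 ≤ K ∧
    ∀ δ : ℝ, 0 < δ → δ ≤ 1 / 2 → ∀ p ≤ N, ∀ z : V m,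
      ‖iteratedFDeriv ℝ p (fun z : V m => bump m χ δ (mt z)) z‖ ≤ K * δ⁻¹ ^ (2 * N) := by
  obtain ⟨B, hB0, hB⟩ := ftd_g_bound χ hχ N
  obtain ⟨D, hD1, hD⟩ := ftd_S_bound m N
  refine ⟨N.factorial * B * D ^ N, by positivity, fun δ h0 h1 p hp z => ?_⟩
  have hi1 : 1 ≤ δ⁻¹ := by
    rw [one_le_inv₀ h0]
    linarith
  by_cases hz : ‖z‖ ≤ 2
  · rw [ftd_bump_eq]
    have hs : ContDiff ℝ ((⊤ : ℕ∞) : WithTop ℕ∞) (fun x : ℝ => (χ x : ℂ)) :=
      Complex.ofRealCLM.contDiff.comp hχ.smooth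
    have hb : 1 ≤ D * δ⁻¹ ^ 2 := by
      have : 1 ≤ δ⁻¹ ^ 2 := one_le_pow₀ hi1
      nlinarith
    have h2 := norm_iteratedFDeriv_comp_le (𝕜 := ℝ) (g := fun x : ℝ => (χ x : ℂ))
      (f := (δ ^ 2)⁻¹ • ftd_S m) (n := p) hs (ftd_Sd m δ)
      (by exact_mod_cast le_top) z (C := B) (D := D * δ⁻¹ ^ 2)
      (fun i hi => hB i (hi.trans hp) _) (fun i hi1' hip => by
        have h3 : iteratedFDeriv ℝ i ((δ ^ 2)⁻¹ • ftd_S m) z =
            (δ ^ 2)⁻¹ • iteratedFDeriv ℝ i (ftd_S m) z :=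
          iteratedFDeriv_const_smul_apply
            (((ftd_S_smooth m).of_le (by exact_mod_cast le_top)).contDiffAt)
        rw [h3, norm_smul, Real.norm_eq_abs, abs_of_nonneg (by positivity)]
        calc (δ ^ 2)⁻¹ * ‖iteratedFDeriv ℝ i (ftd_S m) z‖ ≤ (δ ^ 2)⁻¹ * D := by
              gcongr
              exact hD i (hip.trans hp) z hz
          _ = (D * δ⁻¹ ^ 2) ^ 1 := by
              rw [pow_one, inv_pow, mul_comm]
          _ ≤ (D * δ⁻¹ ^ 2) ^ i := pow_le_pow_right₀ hb hi1')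
    refine h2.trans ?_
    have h4 : (p.factorial : ℝ) ≤ N.factorial := by
      exact_mod_cast Nat.factorial_le hp
    have h5 : (D * δ⁻¹ ^ 2) ^ p ≤ (D * δ⁻¹ ^ 2) ^ N := pow_le_pow_right₀ hb hp
    calc (p.factorial : ℝ) * B * (D * δ⁻¹ ^ 2) ^ p
        ≤ (N.factorial : ℝ) * B * (D * δ⁻¹ ^ 2) ^ N := by gcongr
      _ = N.factorial * B * D ^ N * δ⁻¹ ^ (2 * N) := by
          rw [mul_pow, ← pow_mul]
          ring
  · have h2 : iteratedFDeriv ℝ p (fun z : V m => bump m χ δ (mt z)) z = 0 := by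
      by_contra h
      have h3 := support_iteratedFDeriv_subset (𝕜 := ℝ)
        (f := fun z : V m => bump m χ δ (mt z)) p (Function.mem_support.mpr h)
      have h4 := ftd_tsupp m χ hχ δ h0 h1 h3
      exact hz (by simpa using h4)
    rw [h2, norm_zero]
    positivity

private lemma ftd_int (m : ℕ) (χ : ℝ → ℝ) (hχ : Prof χ) (δ : ℝ) (h0 : 0 < δ) (h1 : δ ≤ 1 / 2)
    (k p : ℕ) : Integrable (fun z : V m => ‖z‖ ^ k *
      ‖iteratedFDeriv ℝ p (fun z : V m => bump m χ δ (mt z)) z‖) := by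
  have hc : Continuous (fun z : V m =>
      iteratedFDeriv ℝ p (fun z : V m => bump m χ δ (mt z)) z) :=
    ContDiff.continuous_iteratedFDeriv (by exact_mod_cast le_top) (ftd_smooth m χ hχ δ)
  refine Continuous.integrable_of_hasCompactSupport ?_ ?_
  · exact (continuous_norm.pow k).mul hc.norm
  · exact (((ftd_compact m χ hχ δ h0 h1).iteratedFDeriv (𝕜 := ℝ) p).norm).mul_left

private lemma ftd_int_le (m : ℕ) (χ : ℝ → ℝ) (hχ : Prof χ) (δ : ℝ) (h0 : 0 < δ)
    (h1 : δ ≤ 1 / 2) (p : ℕ) (K : ℝ)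
    (hK : ∀ z : V m, ‖iteratedFDeriv ℝ p (fun z : V m => bump m χ δ (mt z)) z‖ ≤ K) :
    ∫ z : V m, ‖z‖ ^ 0 * ‖iteratedFDeriv ℝ p (fun z : V m => bump m χ δ (mt z)) z‖ ≤
      K * (volume : Measure (V m)).real (Metric.closedBall 0 2) := by
  have h2 : ∫ z in Metric.closedBall (0 : V m) 2,
      ‖iteratedFDeriv ℝ p (fun z : V m => bump m χ δ (mt z)) z‖ =
      ∫ z : V m, ‖z‖ ^ 0 * ‖iteratedFDeriv ℝ p (fun z : V m => bump m χ δ (mt z)) z‖ := by
    rw [setIntegral_eq_integral_of_forall_compl_eq_zero]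
    · simp
    · intro z hz
      rw [norm_eq_zero]
      by_contra h
      exact hz (ftd_tsupp m χ hχ δ h0 h1 (support_iteratedFDeriv_subset (𝕜 := ℝ)
        (f := fun z : V m => bump m χ δ (mt z)) p (Function.mem_support.mpr h)))
  rw [← h2]
  refine (le_abs_self _).trans ?_
  rw [← Real.norm_eq_abs]
  exact norm_setIntegral_le_of_norm_le_const (isCompact_closedBall (0 : V m) 2).measure_lt_top
    (fun z _ => by rw [norm_norm]; exact hK z)

theorem pf_FTD : T_FTD := by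
  intro m χ hm hχ N
  obtain ⟨K, hK0, hK⟩ := ftd_der m χ hχ N
  set vol : ℝ := (volume : Measure (V m)).real (Metric.closedBall 0 2) with hvol
  have hvol0 : 0 ≤ vol := measureReal_nonneg
  refine ⟨2 * 2 ^ N * (2 ^ N * ((N + 1) * (K * vol))) + 1, 2 * N, by positivity,
    fun δ h0 h1 => ?_⟩
  have hfi : Integrable (fun z : V m => bump m χ δ (mt z)) :=
    (ftd_smooth m χ hχ δ).continuous.integrable_of_hasCompactSupport (ftd_compact m χ hχ δ h0 h1)
  have hft : ∀ w : Mat m, ft (bump m χ δ) w =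
      VectorFourier.fourierIntegral Real.fourierChar (volume : Measure (V m))
      (ContinuousLinearMap.toLinearMap₁₂ (ftd_L m)) (fun z : V m => bump m χ δ (mt z))
      (fun i j => w i j) := by
    intro w
    rw [ftd_four]
    unfold ft
    refine integral_congr_ae (Filter.Eventually.of_forall fun z => ?_)
    show _ * ee _ = _ * ee _
    rw [ftd_tr]
  have hi1 : 1 ≤ δ⁻¹ := by
    rw [one_le_inv₀ h0]
    linarith
  refine ⟨?_, fun w => ?_⟩
  · have hc := VectorFourier.fourierIntegral_continuous (e := Real.fourierChar)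
      (μ := (volume : Measure (V m))) (L := ContinuousLinearMap.toLinearMap₁₂ (ftd_L m))
      Real.continuous_fourierChar (by
        show Continuous fun p : V m × V m => ftd_L m p.1 p.2
        simp only [ftd_L_apply]
        fun_prop) hfi
    have h2 : ft (bump m χ δ) = (VectorFourier.fourierIntegral Real.fourierChar
        (volume : Measure (V m)) (ContinuousLinearMap.toLinearMap₁₂ (ftd_L m))
        (fun z : V m => bump m χ δ (mt z))) ∘ (fun (w : Mat m) => ((fun i j => w i j) : V m)) := by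
      funext w
      exact hft w
    rw [h2]
    refine hc.comp ?_
    exact continuous_pi fun i => continuous_pi fun j => (continuous_apply_apply i j)
  · set W : V m := fun i j => w i j with hW
    have hsz : sz w = ‖W‖ := rfl
    set F : ℂ := ft (bump m χ δ) w with hF
    -- the basic estimate
    have hb : ∀ n ≤ N, ‖W‖ ^ n * ‖F‖ ≤ 2 ^ N * ((N + 1) * (K * vol)) * δ⁻¹ ^ (2 * N) := by
      intro n hn
      have hne : Nonempty (Fin m) := ⟨⟨0, by omega⟩⟩
      obtain ⟨i, hi⟩ := Finite.exists_max (fun i => ‖W i‖)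
      obtain ⟨j, hj⟩ := Finite.exists_max (fun j => ‖W i j‖)
      have hWi : ‖W‖ ≤ |W i j| := by
        rw [pi_norm_le_iff_of_nonneg (abs_nonneg _)]
        intro i'
        refine (hi i').trans ?_
        rw [pi_norm_le_iff_of_nonneg (abs_nonneg _)]
        intro j'
        exact hj j'
      have h2 := VectorFourier.pow_mul_norm_iteratedFDeriv_fourierIntegral_le (ftd_L m)
        (μ := (volume : Measure (V m))) (K := ⊤) (N := ⊤)
        (f := fun z : V m => bump m χ δ (mt z)) (ftd_smooth m χ hχ δ)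
        (fun k p _ _ => ftd_int m χ hχ δ h0 h1 k p) (k := 0) (n := n) le_top le_top
        (Pi.single j (Pi.single i 1)) W
      have hLv : ftd_L m (Pi.single j (Pi.single i 1)) W = W i j := by
        rw [ftd_L_apply]
        rw [Finset.sum_eq_single i, Finset.sum_eq_single j]
        · simp
        · intro b _ hb
          simp [Pi.single_eq_of_ne hb]
        · simp
        · intro a _ ha
          refine Finset.sum_eq_zero fun b _ => ?_
          by_cases hbj : b = j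
          · subst hbj
            simp [Pi.single_eq_of_ne ha]
          · simp [Pi.single_eq_of_ne hbj]
        · simp
      have hvn : ‖(Pi.single j (Pi.single i 1) : V m)‖ ≤ 1 := by
        rw [pi_norm_le_iff_of_nonneg zero_le_one]
        intro a
        rw [pi_norm_le_iff_of_nonneg zero_le_one]
        intro b
        by_cases ha : a = j
        · subst ha
          by_cases hb : b = i
          · subst hb
            simp
          · simp [Pi.single_eq_of_ne hb]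
        · simp [Pi.single_eq_of_ne ha]
      rw [hLv, norm_iteratedFDeriv_zero, ← hft w] at h2
      have h3 : ∑ p ∈ Finset.range (0 + 1) ×ˢ Finset.range (n + 1),
          ∫ v : V m, ‖v‖ ^ p.1 * ‖iteratedFDeriv ℝ p.2 (fun z : V m => bump m χ δ (mt z)) v‖ ≤
          (N + 1) * (K * δ⁻¹ ^ (2 * N) * vol) := by
        have h4 : ∀ p ∈ Finset.range (0 + 1) ×ˢ Finset.range (n + 1),
            ∫ v : V m, ‖v‖ ^ p.1 * ‖iteratedFDeriv ℝ p.2 (fun z : V m => bump m χ δ (mt z)) v‖ ≤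
            K * δ⁻¹ ^ (2 * N) * vol := by
          intro p hp
          simp only [Finset.mem_product, Finset.mem_range] at hp
          have hp1 : p.1 = 0 := by omega
          rw [hp1]
          exact ftd_int_le m χ hχ δ h0 h1 p.2 _ (fun z => hK δ h0 h1 p.2 (by omega) z)
        refine (Finset.sum_le_card_nsmul _ _ _ h4).trans ?_
        rw [Finset.card_product, Finset.card_range, Finset.card_range, nsmul_eq_mul]
        push_cast
        have h5 : (n : ℝ) ≤ N := by exact_mod_cast hn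
        have h6 : 0 ≤ K * δ⁻¹ ^ (2 * N) * vol := by positivity
        nlinarith
      have hn2 : (2 : ℝ) ^ n ≤ 2 ^ N := pow_le_pow_right₀ (by norm_num) hn
      calc ‖W‖ ^ n * ‖F‖ ≤ |W i j| ^ n * ‖F‖ := by gcongr
        _ ≤ ‖(Pi.single j (Pi.single i 1) : V m)‖ ^ n * (2 * Real.pi * ‖ftd_L m‖) ^ 0 *
            (2 * ((0 : ℕ) : ℝ) + 2) ^ n * ∑ p ∈ Finset.range (0 + 1) ×ˢ Finset.range (n + 1),
          ∫ v : V m, ‖v‖ ^ p.1 *
            ‖iteratedFDeriv ℝ p.2 (fun z : V m => bump m χ δ (mt z)) v‖ := h2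
        _ ≤ 1 ^ n * 1 * (2 : ℝ) ^ N * ((N + 1) * (K * δ⁻¹ ^ (2 * N) * vol)) := by
            rw [pow_zero]
            have h7 : (2 * ((0 : ℕ) : ℝ) + 2) ^ n ≤ 2 ^ N := by
              simpa using hn2
            have h8 : 0 ≤ ∑ p ∈ Finset.range (0 + 1) ×ˢ Finset.range (n + 1),
                ∫ v : V m, ‖v‖ ^ p.1 *
                ‖iteratedFDeriv ℝ p.2 (fun z : V m => bump m χ δ (mt z)) v‖ :=
              Finset.sum_nonneg fun p _ => integral_nonneg fun v => by positivity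
            gcongr
        _ = 2 ^ N * ((N + 1) * (K * vol)) * δ⁻¹ ^ (2 * N) := by
            rw [one_pow]
            ring
    have hF0 := hb 0 (Nat.zero_le _)
    have hFN := hb N le_rfl
    rw [pow_zero, one_mul] at hF0
    set M : ℝ := 2 ^ N * ((N + 1) * (K * vol)) with hM
    have hM0 : 0 ≤ M := by positivity
    have hW0 : 0 ≤ ‖W‖ := norm_nonneg _
    have hpw : (1 + ‖W‖) ^ N ≤ 2 ^ N * (1 + ‖W‖ ^ N) := by
      rcases le_total ‖W‖ 1 with h | h
      · calc (1 + ‖W‖) ^ N ≤ 2 ^ N := by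
              gcongr
              linarith
          _ ≤ 2 ^ N * (1 + ‖W‖ ^ N) := by
              have : 0 ≤ ‖W‖ ^ N := by positivity
              nlinarith [pow_pos (show (0 : ℝ) < 2 by norm_num) N]
      · calc (1 + ‖W‖) ^ N ≤ (2 * ‖W‖) ^ N := by
              gcongr
              linarith
          _ = 2 ^ N * ‖W‖ ^ N := mul_pow _ _ _
          _ ≤ 2 ^ N * (1 + ‖W‖ ^ N) := by
              gcongr
              linarith
    rw [hsz, Real.rpow_neg (by positivity), Real.rpow_natCast, ← div_eq_mul_inv,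
      le_div_iff₀ (by positivity)]
    calc ‖F‖ * (1 + ‖W‖) ^ N ≤ ‖F‖ * (2 ^ N * (1 + ‖W‖ ^ N)) := by gcongr
      _ = 2 ^ N * (‖F‖ + ‖W‖ ^ N * ‖F‖) := by ring
      _ ≤ 2 ^ N * (M * δ⁻¹ ^ (2 * N) + M * δ⁻¹ ^ (2 * N)) := by gcongr
      _ = 2 * 2 ^ N * M * δ⁻¹ ^ (2 * N) := by ring
      _ ≤ (2 * 2 ^ N * M + 1) * δ⁻¹ ^ (2 * N) := by
          gcongr
          linarith

end Pool.Agent.H34.GM
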