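import Pool.Agent.H34.GM.Targets

/-!
Row GC of the board `gmf_modules`: translated lattice sums.
-/

set_option autoImplicit false

namespace Pool.Agent.H34.GM

open MeasureTheory

theorem gc_coord {m : ℕ} (b : Module.Basis (Fin m × Fin m) ℝ (Mat m)) :
    ∃ K : ℝ, 0 < K ∧ ∀ (x : Mat m) (i : Fin m × Fin m), |b.repr x i| ≤ K * sz x := by
  have h : ∀ i : Fin m × Fin m, ∃ K : ℝ, 0 ≤ K ∧ ∀ x : Mat m, |b.repr x i| ≤ K * sz x := by
    intro i
    obtain ⟨f, hf⟩ : ∃ f : V m →ₗ[ℝ] ℝ, f =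
      (b.coord i).comp (Matrix.ofLinearEquiv ℝ : V m ≃ₗ[ℝ] Mat m).toLinearMap := ⟨_, rfl⟩
    refine ⟨‖LinearMap.toContinuousLinearMap f‖, norm_nonneg _, fun x => ?_⟩
    have h1 := (LinearMap.toContinuousLinearMap f).le_opNorm ((fun i j => x i j) : V m)
    have h2 : (LinearMap.toContinuousLinearMap f) ((fun i j => x i j) : V m) = b.repr x i := by
      rw [hf]
      rfl
    rw [h2, Real.norm_eq_abs] at h1
    exact h1
  choose K hK0 hK using h
  refine ⟨1 + ∑ i, K i, by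
    have := Finset.sum_nonneg (s := Finset.univ) fun i _ => hK0 i
    linarith, fun x i => (hK i x).trans ?_⟩
  have h1 : K i ≤ ∑ i, K i := Finset.single_le_sum (fun i _ => hK0 i) (Finset.mem_univ i)
  have h2 : 0 ≤ sz x := norm_nonneg _
  nlinarith

theorem gc_sz_add {m : ℕ} (x y : Mat m) : sz (x + y) ≤ sz x + sz y :=
  norm_add_le ((fun i j => x i j) : V m) ((fun i j => y i j) : V m)

theorem gc_sz_smul {m : ℕ} (r : ℝ) (x : Mat m) : sz (r • x) = |r| * sz x := by
  have := norm_smul r ((fun i j => x i j) : V m)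
  rw [Real.norm_eq_abs] at this
  exact this

theorem gc_sz_neg {m : ℕ} (x : Mat m) : sz (-x) = sz x :=
  norm_neg ((fun i j => x i j) : V m)

theorem gc_sz_nonneg {m : ℕ} (x : Mat m) : 0 ≤ sz x := norm_nonneg _

theorem gc_sz_zero {m : ℕ} : sz (0 : Mat m) = 0 :=
  norm_zero (E := V m)

theorem gc_sz_sum {m : ℕ} {ι : Type} (s : Finset ι) (f : ι → Mat m) :
    sz (∑ i ∈ s, f i) ≤ ∑ i ∈ s, sz (f i) := by
  classical
  induction s using Finset.induction_on with
  | empty => rw [Finset.sum_empty, Finset.sum_empty]; exact (gc_sz_zero).le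
  | insert a s ha ih =>
    rw [Finset.sum_insert ha, Finset.sum_insert ha]
    exact (gc_sz_add _ _).trans (by linarith)

/-- the lattice in `V m` -/
def gc_lat {m : ℕ} (O : Subring (Mat m)) : AddSubgroup (V m) where
  carrier := {v | mt v ∈ O}
  add_mem' := fun ha hb => O.add_mem ha hb
  zero_mem' := O.zero_mem
  neg_mem' := fun ha => O.neg_mem ha

theorem pf_GC : T_PK → T_GC := by
  intro hPK m O b hm hO s hs
  obtain ⟨K, hK0, hK⟩ := gc_coord b
  have hs0 : 0 < s := lt_of_le_of_lt (by positivity) hs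
  obtain ⟨C, hC0, hC⟩ := hPK (m ^ 2) s (by push_cast; exact hs)
  have hmin : ∀ v ∈ gc_lat O, v ≠ 0 → K⁻¹ ≤ ‖v‖ := by
    intro v hv hv0
    obtain ⟨i, hi⟩ : ∃ i, b.repr (mt v) i ≠ 0 := by
      by_contra hcon
      push Not at hcon
      apply hv0
      have h1 : b.repr (mt v) = 0 := by
        ext i
        simpa using hcon i
      have h2 : mt v = 0 := by simpa using h1
      funext i j
      exact congrFun (congrFun h2 i) j
    obtain ⟨n, hn⟩ := (hO.lat (mt v)).1 hv i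
    have hn0 : n ≠ 0 := by
      intro h
      rw [h] at hn
      exact hi (by simpa using hn)
    have h3 := hK (mt v) i
    rw [hn] at h3
    have h4 : (1 : ℝ) ≤ |(n : ℝ)| := by
      exact_mod_cast Int.one_le_abs hn0
    have h5 : sz (mt v) = ‖v‖ := rfl
    rw [h5] at h3
    rw [inv_le_iff_one_le_mul₀ hK0]
    linarith
  have hfin : Module.finrank ℝ (⊤ : Submodule ℝ (V m)) ≤ m ^ 2 := by
    rw [finrank_top]
    simp [Module.finrank_pi_fintype, pow_two]
  have hsum := hC (V m) ⊤ hfin (gc_lat O) K⁻¹ (inv_pos.2 hK0) (fun v _ => trivial) hmin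
  obtain ⟨B, hB⟩ : ∃ B : ℝ, B = ∑ i, sz (b i) := ⟨_, rfl⟩
  have hB0 : 0 ≤ B := by
    rw [hB]
    exact Finset.sum_nonneg fun i _ => gc_sz_nonneg _
  refine ⟨(1 + B) ^ s * (1 + C * K⁻¹ ^ (-s)), by positivity, fun q hq c hc => ?_⟩
  have hq0 : (0 : ℝ) < q := by exact_mod_cast hq
  -- the shift
  have hcn : ∀ i, ∃ n : ℤ, b.repr c i = n := (hO.lat c).1 hc
  choose n hn using hcn
  obtain ⟨w0, hw0⟩ : ∃ w0 : Mat m, w0 = ∑ i, (-(⌊(n i : ℝ) / q⌋ : ℝ)) • b i := ⟨_, rfl⟩
  have hw0r : ∀ i, b.repr w0 i = -(⌊(n i : ℝ) / q⌋ : ℝ) := by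
    intro i
    rw [hw0]
    exact b.repr_sum_self _ ▸ rfl
  have hw0O : w0 ∈ O := by
    rw [hO.lat]
    intro i
    exact ⟨-⌊(n i : ℝ) / q⌋, by rw [hw0r]; push_cast; rfl⟩
  obtain ⟨x0, hx0⟩ : ∃ x0 : Mat m, x0 = (q : ℝ)⁻¹ • c + w0 := ⟨_, rfl⟩
  have hx0B : sz x0 ≤ B := by
    have h1 : x0 = ∑ i, (b.repr x0 i) • b i := (b.sum_repr x0).symm
    rw [h1, hB]
    refine (gc_sz_sum _ _).trans (Finset.sum_le_sum fun i _ => ?_)
    rw [gc_sz_smul]
    have h2 : b.repr x0 i = (n i : ℝ) / q - ⌊(n i : ℝ) / q⌋ := by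
      rw [hx0, map_add, map_smul, Finsupp.add_apply, Finsupp.smul_apply, hn, hw0r]
      simp only [smul_eq_mul]
      ring
    have h3 : |b.repr x0 i| ≤ 1 := by
      rw [h2]
      have h4 := Int.floor_le ((n i : ℝ) / q)
      have h5 := Int.lt_floor_add_one ((n i : ℝ) / q)
      rw [abs_le]
      constructor <;> linarith
    have h6 := gc_sz_nonneg (b i)
    nlinarith
  have hterm : ∀ w : O, ENNReal.ofReal ((1 + sz (c + (q : ℝ) • ((w : Mat m) + w0)) / q) ^ (-s)) ≤
      ENNReal.ofReal ((1 + B) ^ s) * ((if w = 0 then 1 else 0) +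
        ENNReal.ofReal (sz (w : Mat m) ^ (-s))) := by
    intro w
    have h1 : sz (c + (q : ℝ) • ((w : Mat m) + w0)) / q = sz (x0 + (w : Mat m)) := by
      have h2 : c + (q : ℝ) • ((w : Mat m) + w0) = (q : ℝ) • (x0 + (w : Mat m)) := by
        rw [hx0, smul_add, smul_add, smul_add, smul_smul, mul_inv_cancel₀ hq0.ne', one_smul]
        abel
      rw [h2, gc_sz_smul, abs_of_pos hq0]
      field_simp
    rw [h1]
    have h3 : sz (w : Mat m) ≤ sz (x0 + (w : Mat m)) + B := by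
      have h4 : (w : Mat m) = (x0 + (w : Mat m)) + -x0 := by abel
      have h5 := gc_sz_add (x0 + (w : Mat m)) (-x0)
      rw [← h4, gc_sz_neg] at h5
      linarith
    have h6 : 0 ≤ sz (x0 + (w : Mat m)) := gc_sz_nonneg _
    have h7 : 0 ≤ sz (w : Mat m) := gc_sz_nonneg _
    have h8 : 1 + sz (w : Mat m) ≤ (1 + B) * (1 + sz (x0 + (w : Mat m))) := by nlinarith
    have h9 : (1 + sz (x0 + (w : Mat m))) ^ (-s) ≤ (1 + B) ^ s * (1 + sz (w : Mat m)) ^ (-s) := by
      have h10 : (1 + sz (w : Mat m)) ^ s ≤ ((1 + B) * (1 + sz (x0 + (w : Mat m)))) ^ s :=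
        Real.rpow_le_rpow (by linarith) h8 hs0.le
      rw [Real.mul_rpow (by linarith) (by linarith)] at h10
      rw [Real.rpow_neg (by linarith), Real.rpow_neg (by linarith)]
      have h11 : 0 < (1 + sz (w : Mat m)) ^ s := Real.rpow_pos_of_pos (by linarith) _
      have h12 : 0 < (1 + sz (x0 + (w : Mat m))) ^ s := Real.rpow_pos_of_pos (by linarith) _
      rw [← div_eq_mul_inv, le_div_iff₀ h11, inv_mul_le_iff₀ h12]
      linarith
    refine (ENNReal.ofReal_le_ofReal h9).trans ?_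
    rw [ENNReal.ofReal_mul (by positivity)]
    refine mul_le_mul_right ?_ _
    by_cases hw : w = 0
    · rw [if_pos hw]
      have h13 : (w : Mat m) = 0 := by rw [hw]; rfl
      have h14 : sz (w : Mat m) = 0 := by
        rw [h13, gc_sz_zero]
      rw [h14, add_zero, Real.one_rpow, ENNReal.ofReal_one]
      exact le_self_add
    · rw [if_neg hw, zero_add]
      apply ENNReal.ofReal_le_ofReal
      have h15 : 0 < sz (w : Mat m) := by
        refine lt_of_le_of_ne h7 (fun h => hw ?_)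
        have h16 : ((fun i j => (w : Mat m) i j) : V m) = 0 := norm_eq_zero.1 h.symm
        apply Subtype.ext
        ext i j
        exact congrFun (congrFun h16 i) j
      rw [Real.rpow_neg (by linarith), Real.rpow_neg h7]
      apply inv_anti₀ (Real.rpow_pos_of_pos h15 _)
      exact Real.rpow_le_rpow h7 (by linarith) hs0.le
  have hshift : ∑' w : O, ENNReal.ofReal ((1 + sz (c + (q : ℝ) • (w : Mat m)) / q) ^ (-s)) =
      ∑' w : O, ENNReal.ofReal ((1 + sz (c + (q : ℝ) • ((w : Mat m) + w0)) / q) ^ (-s)) := by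
    rw [← (Equiv.addRight (⟨w0, hw0O⟩ : O)).tsum_eq]
    rfl
  rw [hshift]
  have hlatsum : ∑' w : O, ENNReal.ofReal (sz (w : Mat m) ^ (-s)) =
      ∑' v : gc_lat O, ENNReal.ofReal (‖(v : V m)‖ ^ (-s)) := by
    let e : O ≃ gc_lat O :=
      { toFun := fun w => ⟨fun i j => (w : Mat m) i j, w.2⟩
        invFun := fun v => ⟨mt (v : V m), v.2⟩
        left_inv := fun w => rfl
        right_inv := fun v => rfl }
    rw [← e.tsum_eq]
    rfl
  calc ∑' w : O, ENNReal.ofReal ((1 + sz (c + (q : ℝ) • ((w : Mat m) + w0)) / q) ^ (-s))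
      ≤ ∑' w : O, ENNReal.ofReal ((1 + B) ^ s) * ((if w = 0 then 1 else 0) +
        ENNReal.ofReal (sz (w : Mat m) ^ (-s))) := ENNReal.tsum_le_tsum hterm
    _ = ENNReal.ofReal ((1 + B) ^ s) * (1 +
        ∑' v : gc_lat O, ENNReal.ofReal (‖(v : V m)‖ ^ (-s))) := by
        rw [ENNReal.tsum_mul_left, ENNReal.tsum_add, hlatsum, tsum_ite_eq]
    _ ≤ ENNReal.ofReal ((1 + B) ^ s) * (1 + ENNReal.ofReal (C * K⁻¹ ^ (-s))) := by gcongr
    _ = ENNReal.ofReal ((1 + B) ^ s * (1 + C * K⁻¹ ^ (-s))) := by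
        rw [ENNReal.ofReal_mul (p := (1 + B) ^ s) (by positivity),
          ENNReal.ofReal_add zero_le_one (by positivity), ENNReal.ofReal_one]

end Pool.Agent.H34.GM
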