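import Pool.Agent.H34.GM.Targets2

/-!
Row GLU of the board gmf: the L-function is entire.
-/

set_option autoImplicit false

namespace Pool.Agent.H34.GM

open MeasureTheory Filter Topology

theorem pf_GLU : T_BMP → T_ZLB → T_ZMT → T_THC → T_LMB → T_SMA → T_CON → T_MEL → T_GLU := by
  intro hBMP hZLB hZMT hTHC hLMB hSMA hCON hMEL m q O b d R _ _ π σ T D hS F lam mu hF hNZ χ hχ
  have hm : 1 ≤ m := hS.ord.one_le
  have htr : ∑ j, mu j = 0 := hF.tr0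
  obtain ⟨C0, hC0⟩ := hLMB m q O b d R π σ T D hS F lam mu hF hNZ
  obtain ⟨c, c1, hc, hc1, hZ⟩ := hZLB m χ hm hχ
  have hT : ∀ δ : ℝ, 0 < δ → δ ≤ 1 / 2 → Tst m (bump m χ δ) := fun δ h0 h1 =>
    ((hBMP m χ hm hχ).1 δ h0 h1).1
  have hZd : ∀ δ : ℝ, 0 < δ → δ ≤ 1 / 2 → Differentiable ℂ (Zf (bump m χ δ) mu) := fun δ h0 h1 =>
    (hZMT m (bump m χ δ) mu hm (hT δ h0 h1) htr).1
  have hLd : ∀ δ : ℝ, 0 < δ → δ ≤ 1 / 2 → Differentiable ℂ (Lm q (bump m χ δ) mu lam) := by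
    intro δ h0 h1
    have hth := hTHC m q (bump m χ δ) mu lam hm (hT δ h0 h1) htr
    exact (hCON m (thF q (bump m χ δ) mu lam) hm hth.1 hth.2 (fun N => by
      obtain ⟨C, hC⟩ := hSMA m q O b d R π σ T D hS F lam mu hF hNZ χ δ hχ h0 h1 N
      exact ⟨C, hC.2⟩)).1
  have hM : ∀ δ : ℝ, 0 < δ → δ ≤ 1 / 2 → ∀ s : ℂ, (m : ℝ) + 2 < s.re →
      (Summable fun n : ℕ => if 1 ≤ n ∧ n.Coprime q then lam n * (n : ℂ) ^ (-s) else 0) ∧
      Lm q (bump m χ δ) mu lam s =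
        (∑' n : ℕ, if 1 ≤ n ∧ n.Coprime q then lam n * (n : ℂ) ^ (-s) else 0) *
          Zf (bump m χ δ) mu s := fun δ h0 h1 s hs =>
    hMEL m q (bump m χ δ) mu lam hm (hT δ h0 h1) htr C0 hC0 s hs
  -- cross identity
  have hcross : ∀ δ : ℝ, 0 < δ → δ ≤ 1 / 2 → ∀ δ' : ℝ, 0 < δ' → δ' ≤ 1 / 2 → ∀ s : ℂ,
      Lm q (bump m χ δ) mu lam s * Zf (bump m χ δ') mu s =
        Lm q (bump m χ δ') mu lam s * Zf (bump m χ δ) mu s := by
    intro δ h0 h1 δ' h0' h1' s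
    have hf : Differentiable ℂ (fun s => Lm q (bump m χ δ) mu lam s * Zf (bump m χ δ') mu s) :=
      (hLd δ h0 h1).mul (hZd δ' h0' h1')
    have hg : Differentiable ℂ (fun s => Lm q (bump m χ δ') mu lam s * Zf (bump m χ δ) mu s) :=
      (hLd δ' h0' h1').mul (hZd δ h0 h1)
    have hev : (fun s => Lm q (bump m χ δ) mu lam s * Zf (bump m χ δ') mu s)
        =ᶠ[𝓝 (((m : ℝ) + 3 : ℝ) : ℂ)]
        (fun s => Lm q (bump m χ δ') mu lam s * Zf (bump m χ δ) mu s) := by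
      have hopen : IsOpen {s : ℂ | (m : ℝ) + 2 < s.re} :=
        isOpen_lt continuous_const Complex.continuous_re
      have hmem : (((m : ℝ) + 3 : ℝ) : ℂ) ∈ {s : ℂ | (m : ℝ) + 2 < s.re} := by
        simp only [Set.mem_ofPred_eq, Complex.ofReal_re]
        linarith
      filter_upwards [hopen.mem_nhds hmem] with s hs
      have hs' : (m : ℝ) + 2 < s.re := hs
      rw [(hM δ h0 h1 s hs').2, (hM δ' h0' h1' s hs').2]
      ring
    have hEq := AnalyticOnNhd.eq_of_eventuallyEq (𝕜 := ℂ)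
      (fun z _ => hf.analyticAt z) (fun z _ => hg.analyticAt z) hev
    exact congrFun hEq s
  -- the parameter
  set P : ℂ → ℝ := fun s => 2 + ‖s‖ + ∑ j, ‖mu j‖ with hP
  have hPpos : ∀ s, 0 < P s := by
    intro s
    have h1 : 0 ≤ ∑ j, ‖mu j‖ := Finset.sum_nonneg fun j _ => norm_nonneg _
    have h2 := norm_nonneg s
    simp only [hP]
    linarith
  set dd : ℂ → ℝ := fun s => min (1 / 2) (c / P s) with hdd
  have hd0 : ∀ s, 0 < dd s := fun s => lt_min (by norm_num) (div_pos hc (hPpos s))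
  have hd1 : ∀ s, dd s ≤ 1 / 2 := fun s => min_le_left _ _
  have hdP : ∀ s, dd s * P s ≤ c := by
    intro s
    have h : dd s ≤ c / P s := min_le_right _ _
    calc dd s * P s ≤ c / P s * P s := mul_le_mul_of_nonneg_right h (hPpos s).le
      _ = c := div_mul_cancel₀ c (hPpos s).ne'
  have hne : ∀ s0 s : ℂ, ‖s - s0‖ < 1 → Zf (bump m χ (dd s0)) mu s ≠ 0 := by
    intro s0 s hs h0
    have hns : ‖s‖ ≤ ‖s0‖ + 1 := by
      have : s = s0 + (s - s0) := by ring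
      calc ‖s‖ = ‖s0 + (s - s0)‖ := by rw [← this]
        _ ≤ ‖s0‖ + ‖s - s0‖ := norm_add_le _ _
        _ ≤ ‖s0‖ + 1 := by linarith
    have h1 : dd s0 * (1 + ‖s‖ + ∑ j, ‖mu j‖) ≤ c := by
      refine le_trans (mul_le_mul_of_nonneg_left ?_ (hd0 s0).le) (hdP s0)
      simp only [hP]
      linarith
    have h2 := hZ mu s (dd s0) (hd0 s0) (hd1 s0) h1
    rw [h0, norm_zero] at h2
    have h3 : 0 < c1 * dd s0 ^ (m ^ 2) := mul_pos hc1 (pow_pos (hd0 s0) _)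
    linarith
  have hne' : ∀ s : ℂ, Zf (bump m χ (dd s)) mu s ≠ 0 := fun s => hne s s (by simp)
  set L : ℂ → ℂ := fun s => Lm q (bump m χ (dd s)) mu lam s / Zf (bump m χ (dd s)) mu s with hL
  have hK : ∀ δ : ℝ, 0 < δ → δ ≤ 1 / 2 → ∀ s : ℂ,
      Lm q (bump m χ δ) mu lam s = L s * Zf (bump m χ δ) mu s := by
    intro δ h0 h1 s
    have h := hcross δ h0 h1 (dd s) (hd0 s) (hd1 s) s
    simp only [hL]
    rw [div_mul_eq_mul_div, eq_div_iff (hne' s)]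
    exact h
  refine ⟨L, ⟨?_, ?_⟩, hK⟩
  · intro s0
    have hev : L =ᶠ[𝓝 s0] (fun s => Lm q (bump m χ (dd s0)) mu lam s /
        Zf (bump m χ (dd s0)) mu s) := by
      filter_upwards [Metric.ball_mem_nhds s0 one_pos] with s hs
      have hs' : ‖s - s0‖ < 1 := by
        have := Metric.mem_ball.mp hs
        rwa [dist_eq_norm] at this
      rw [eq_div_iff (hne s0 s hs')]
      exact (hK (dd s0) (hd0 s0) (hd1 s0) s).symm
    refine DifferentiableAt.congr_of_eventuallyEq ?_ hev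
    exact ((hLd _ (hd0 s0) (hd1 s0)) s0).div ((hZd _ (hd0 s0) (hd1 s0)) s0) (hne' s0)
  · intro s hs
    obtain ⟨h1, h2⟩ := hM (dd s) (hd0 s) (hd1 s) s hs
    have h3 : L s = ∑' n : ℕ, if 1 ≤ n ∧ n.Coprime q then lam n * (n : ℂ) ^ (-s) else 0 := by
      simp only [hL]
      rw [h2, mul_div_assoc, div_self (hne' s), mul_one]
    rw [h3]
    exact h1.hasSum

end Pool.Agent.H34.GM
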