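import Pool.Agent.H34.GM.Targets2

/-!
Row HOL of the board gmf (page H34_GM.md): Hoelder's inequality for the fourth moment.
-/

set_option autoImplicit false

namespace Pool.Agent.H34.GM

open MeasureTheory Set

/-- the power integral -/
theorem hol_pow {a Q : ℝ} (ha : 0 < a) (hQ : 1 ≤ Q) :
    IntegrableOn (fun r : ℝ => r ^ (a - 1)) (Ioc 0 Q) ∧
      ∫ r in Ioc (0 : ℝ) Q, r ^ (a - 1) = Q ^ a / a := by
  have hQ0 : (0 : ℝ) ≤ Q := by linarith
  constructor
  · have := intervalIntegral.intervalIntegrable_rpow' (a := 0) (b := Q) (r := a - 1) (by linarith)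
    rwa [intervalIntegrable_iff_integrableOn_Ioc_of_le hQ0] at this
  · rw [← intervalIntegral.integral_of_le hQ0, integral_rpow (Or.inl (by linarith))]
    rw [show a - 1 + 1 = a by ring, Real.zero_rpow ha.ne', sub_zero]

theorem pf_HOL : T_HOL := by
  intro κ hκ
  refine ⟨27 / κ ^ 4, by positivity, ?_⟩
  intro m ι _ th M Q hM hQ hc hb
  have hQ0 : (0 : ℝ) < Q := by linarith
  set A : ℝ := (m : ℝ) ^ 2 with hA
  set e : ℝ := -((2 * A + κ + 1) / 4) with he
  set e' : ℝ := 3 / 4 * (κ / 3 - 1) with he'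
  obtain ⟨i1, v1⟩ := hol_pow (a := κ / 3) (Q := Q) (by positivity) hQ
  obtain ⟨i2, v2⟩ := hol_pow (a := κ) (Q := Q) (by positivity) hQ
  have hpos : ∀ᵐ r ∂(volume.restrict (Ioc (0 : ℝ) Q)), 0 < r := by
    filter_upwards [ae_restrict_mem measurableSet_Ioc] with r hr using hr.1
  -- measurability
  have hm : ∀ i, AEStronglyMeasurable (fun r : ℝ => ‖th i r‖ * r ^ e)
      (volume.restrict (Ioc (0 : ℝ) Q)) := by
    intro i
    have h1 : ContinuousOn (fun r : ℝ => ‖th i r‖ * r ^ e) (Ioi 0) := by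
      apply (hc i).norm.mul
      intro r hr
      exact (Real.continuousAt_rpow_const r e (Or.inl (ne_of_gt hr))).continuousWithinAt
    exact (h1.mono (fun r hr => hr.1)).aestronglyMeasurable measurableSet_Ioc
  have hf4 : ∀ i, ∀ r : ℝ, 0 < r → (‖th i r‖ * r ^ e) ^ (4 : ℝ) =
      ‖th i r‖ ^ 4 * r ^ (-(2 * A + κ + 1)) := by
    intro i r hr
    rw [Real.mul_rpow (norm_nonneg _) (by positivity), ← Real.rpow_mul hr.le]
    congr 1
    · exact_mod_cast Real.rpow_natCast ‖th i r‖ 4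
    · congr 1
      rw [he]
      ring
  have hle : ∀ i, ∀ r : ℝ, 0 < r → r ≤ Q → ‖th i r‖ ^ 4 * r ^ (-(2 * A + κ + 1)) ≤
      M * r ^ (κ - 1) := by
    intro i r hr hrQ
    have h1 : ‖th i r‖ ^ 4 ≤ M * r ^ (2 * (A + κ)) :=
      (Finset.single_le_sum (f := fun i => ‖th i r‖ ^ 4) (fun i _ => by positivity)
        (Finset.mem_univ i)).trans (hb r hr hrQ)
    calc ‖th i r‖ ^ 4 * r ^ (-(2 * A + κ + 1)) ≤
          M * r ^ (2 * (A + κ)) * r ^ (-(2 * A + κ + 1)) :=
          mul_le_mul_of_nonneg_right h1 (by positivity)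
      _ = M * r ^ (κ - 1) := by
        rw [mul_assoc, ← Real.rpow_add hr]
        congr 2
        ring
  have hi4 : ∀ i, IntegrableOn (fun r : ℝ => ‖th i r‖ ^ 4 * r ^ (-(2 * A + κ + 1)))
      (Ioc 0 Q) := by
    intro i
    refine Integrable.mono' (i2.const_mul M) ?_ ?_
    · have h1 : ContinuousOn (fun r : ℝ => ‖th i r‖ ^ 4 * r ^ (-(2 * A + κ + 1))) (Ioi 0) := by
        apply ((hc i).norm.pow 4).mul
        intro r hr
        exact (Real.continuousAt_rpow_const r _ (Or.inl (ne_of_gt hr))).continuousWithinAt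
      exact (h1.mono (fun r hr => hr.1)).aestronglyMeasurable measurableSet_Ioc
    · filter_upwards [ae_restrict_mem measurableSet_Ioc] with r hr
      have hr0 := hr.1
      rw [Real.norm_of_nonneg (by positivity)]
      exact hle i r hr.1 hr.2
  have hp : (4 : ℝ).HolderConjugate (4 / 3) := by
    rw [Real.holderConjugate_iff]
    constructor <;> norm_num
  -- Hoelder
  have key : ∀ i, (∫ r in Ioc (0 : ℝ) Q, ‖th i r‖ * r ^ (-(A / 2) - 1)) ^ 4 ≤
      (∫ r in Ioc (0 : ℝ) Q, ‖th i r‖ ^ 4 * r ^ (-(2 * A + κ + 1))) *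
        (Q ^ (κ / 3) / (κ / 3)) ^ 3 := by
    intro i
    have hL4 : MemLp (fun r : ℝ => ‖th i r‖ * r ^ e) (ENNReal.ofReal 4)
        (volume.restrict (Ioc (0 : ℝ) Q)) := by
      rw [← integrable_norm_rpow_iff (hm i) (by simp) (by simp)]
      refine (hi4 i).congr ?_
      filter_upwards [hpos] with r hr
      rw [ENNReal.toReal_ofReal (by norm_num), Real.norm_of_nonneg (by positivity), hf4 i r hr]
    have hm2 : AEStronglyMeasurable (fun r : ℝ => r ^ e') (volume.restrict (Ioc (0 : ℝ) Q)) := by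
      have h1 : ContinuousOn (fun r : ℝ => r ^ e') (Ioi 0) := by
        intro r hr
        exact (Real.continuousAt_rpow_const r _ (Or.inl (ne_of_gt hr))).continuousWithinAt
      exact (h1.mono (fun r hr => hr.1)).aestronglyMeasurable measurableSet_Ioc
    have hg4 : ∀ r : ℝ, 0 < r → (r ^ e') ^ (4 / 3 : ℝ) = r ^ (κ / 3 - 1) := by
      intro r hr
      rw [← Real.rpow_mul hr.le]
      congr 1
      rw [he']
      ring
    have hLq : MemLp (fun r : ℝ => r ^ e') (ENNReal.ofReal (4 / 3))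
        (volume.restrict (Ioc (0 : ℝ) Q)) := by
      rw [← integrable_norm_rpow_iff hm2 (by simp) (by simp)]
      refine i1.congr ?_
      filter_upwards [hpos] with r hr
      rw [ENNReal.toReal_ofReal (by norm_num), Real.norm_of_nonneg (by positivity), hg4 r hr]
    have h1 := integral_mul_le_Lp_mul_Lq_of_nonneg hp
      (by filter_upwards [hpos] with r hr; simp only [Pi.zero_apply]; positivity)
      (by filter_upwards [hpos] with r hr; simp only [Pi.zero_apply]; positivity) hL4 hLq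
    have e1 : ∫ r in Ioc (0 : ℝ) Q, ‖th i r‖ * r ^ e * r ^ e' =
        ∫ r in Ioc (0 : ℝ) Q, ‖th i r‖ * r ^ (-(A / 2) - 1) := by
      apply setIntegral_congr_fun measurableSet_Ioc
      intro r hr
      simp only
      rw [mul_assoc, ← Real.rpow_add hr.1]
      congr 2
      rw [he, he']
      ring
    have e2 : ∫ r in Ioc (0 : ℝ) Q, (‖th i r‖ * r ^ e) ^ (4 : ℝ) =
        ∫ r in Ioc (0 : ℝ) Q, ‖th i r‖ ^ 4 * r ^ (-(2 * A + κ + 1)) := by
      apply setIntegral_congr_fun measurableSet_Ioc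
      intro r hr
      exact hf4 i r hr.1
    have e3 : ∫ r in Ioc (0 : ℝ) Q, (r ^ e') ^ (4 / 3 : ℝ) = Q ^ (κ / 3) / (κ / 3) := by
      rw [← v1]
      apply setIntegral_congr_fun measurableSet_Ioc
      intro r hr
      exact hg4 r hr.1
    rw [e1, e2, e3] at h1
    have hI0 : 0 ≤ ∫ r in Ioc (0 : ℝ) Q, ‖th i r‖ ^ 4 * r ^ (-(2 * A + κ + 1)) := by
      apply setIntegral_nonneg measurableSet_Ioc
      intro r hr
      have := hr.1
      positivity
    have hJ0 : 0 ≤ ∫ r in Ioc (0 : ℝ) Q, ‖th i r‖ * r ^ (-(A / 2) - 1) := by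
      apply setIntegral_nonneg measurableSet_Ioc
      intro r hr
      have := hr.1
      positivity
    have hB0 : (0 : ℝ) ≤ Q ^ (κ / 3) / (κ / 3) := by positivity
    refine (pow_le_pow_left₀ hJ0 h1 4).trans (le_of_eq ?_)
    rw [mul_pow]
    congr 1
    · rw [← Real.rpow_natCast, ← Real.rpow_mul hI0]
      norm_num
    · rw [← Real.rpow_natCast, ← Real.rpow_mul hB0, ← Real.rpow_natCast]
      congr 1
      norm_num
  calc ∑ i, (∫ r in Ioc (0 : ℝ) Q, ‖th i r‖ * r ^ (-(A / 2) - 1)) ^ 4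
      ≤ ∑ i, (∫ r in Ioc (0 : ℝ) Q, ‖th i r‖ ^ 4 * r ^ (-(2 * A + κ + 1))) *
        (Q ^ (κ / 3) / (κ / 3)) ^ 3 := Finset.sum_le_sum fun i _ => key i
    _ = (∫ r in Ioc (0 : ℝ) Q, ∑ i, ‖th i r‖ ^ 4 * r ^ (-(2 * A + κ + 1))) *
        (Q ^ (κ / 3) / (κ / 3)) ^ 3 := by
        rw [← Finset.sum_mul, integral_finsetSum _ (fun i _ => hi4 i)]
    _ ≤ (∫ r in Ioc (0 : ℝ) Q, M * r ^ (κ - 1)) * (Q ^ (κ / 3) / (κ / 3)) ^ 3 := by
        refine mul_le_mul_of_nonneg_right ?_ (by positivity)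
        refine setIntegral_mono_on (integrable_finsetSum _ (fun i _ => hi4 i))
          (i2.const_mul M) measurableSet_Ioc ?_
        intro r hr
        have hr0 := hr.1
        rw [← Finset.sum_mul]
        calc (∑ i, ‖th i r‖ ^ 4) * r ^ (-(2 * A + κ + 1)) ≤
              M * r ^ (2 * (A + κ)) * r ^ (-(2 * A + κ + 1)) :=
              mul_le_mul_of_nonneg_right (hb r hr.1 hr.2) (by positivity)
          _ = M * r ^ (κ - 1) := by
            rw [mul_assoc, ← Real.rpow_add hr.1]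
            congr 2
            ring
    _ = 27 / κ ^ 4 * M * Q ^ (2 * κ) := by
        rw [integral_const_mul, v2, div_pow, ← Real.rpow_natCast (Q ^ (κ / 3)) 3,
          ← Real.rpow_mul hQ0.le, show κ / 3 * ((3 : ℕ) : ℝ) = κ by push_cast; ring,
          show (2 : ℝ) * κ = κ + κ by ring, Real.rpow_add hQ0]
        field_simp
        ring

end Pool.Agent.H34.GM
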