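import Pool.Agent.H34.GM.Targets2

/-!
Row HSA: the fourth moment of the operators `A_r`, reduced to the Hilbert-Schmidt bound.
-/

set_option autoImplicit false

namespace Pool.Agent.H34.GM

open MeasureTheory

open Classical in
/-- the kernel of `A_r` on `V × Rˣ` -/
noncomputable def hsaK {m : ℕ} (O : Subring (Mat m)) {R : Type} [Ring R] (π : Mat m → R)
    (Φ : Mat m → ℂ) (r : ℝ) (p p' : V m × Rˣ) : ℂ :=
  ∑' α : O, if π (α : Mat m) * (p.2 : R) = (p'.2 : R) then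
    Φ (kk r (mt p'.1) (α : Mat m) (mt p.1)) else 0

section

variable {m : ℕ} {O : Subring (Mat m)} {R : Type} [Ring R] {π : Mat m → R} {Φ : Mat m → ℂ}
  {r M N : ℝ}

theorem hsa_bound (hM : 0 ≤ M) (hΦ : ∀ z, ‖Φ z‖ ≤ M * (1 + sz z) ^ (-N)) (p p' : V m × Rˣ) :
    ENNReal.ofReal ‖hsaK O π Φ r p p'‖ ≤
      ENNReal.ofReal M * Kp O π 1 N r (mt p.1) p.2 (mt p'.1) p'.2 := by
  rw [ofReal_norm_eq_enorm]
  unfold hsaK Kp
  rw [← ENNReal.tsum_mul_left]
  refine tsum_of_enorm_bounded ENNReal.summable.hasSum (fun α => ?_)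
  by_cases h : π (α : Mat m) * (p.2 : R) = (p'.2 : R)
  · have h' : π (α : Mat m) * (p.2 : R) = ((1 : Rˣ) : R) * (p'.2 : R) := by
      rw [Units.val_one, one_mul]; exact h
    rw [if_pos h, if_pos h', ← ofReal_norm_eq_enorm, ← ENNReal.ofReal_mul hM]
    exact ENNReal.ofReal_le_ofReal (hΦ _)
  · rw [if_neg h]
    simp

theorem hsa_Kp_le (p p' : V m × Rˣ) :
    Kp O π 1 N r (mt p.1) p.2 (mt p'.1) p'.2 ≤
      ∑' α : O, ENNReal.ofReal ((1 + sz (kk r (mt p'.1) (α : Mat m) (mt p.1))) ^ (-N)) := by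
  unfold Kp
  refine ENNReal.tsum_le_tsum (fun α => ?_)
  split_ifs
  · exact le_rfl
  · exact bot_le

theorem hsa_mt (A : Mat m) : mt (fun i j => A i j) = A := by
  ext i j
  rfl

theorem hsa_kkm {X β : Type} [MeasurableSpace X] [MeasurableSpace β] (Ψ : Mat m → β) (α : Mat m)
    (hkk : ∀ α : Mat m, Measurable (fun p : V m × V m =>
      ((fun i j => kk r (mt p.1) α (mt p.2) i j) : V m)))
    (hΨ : Measurable (fun z : V m => Ψ (mt z))) (a b : X → V m) (ha : Measurable a)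
    (hb : Measurable b) : Measurable (fun x => Ψ (kk r (mt (a x)) α (mt (b x)))) := by
  have h2 : Measurable (fun x => (a x, b x)) := ha.prodMk hb
  have h4 := (hkk α).comp h2
  have h5 := hΨ.comp h4
  have h6 : ((fun z : V m => Ψ (mt z)) ∘ ((fun p : V m × V m =>
      ((fun i j => kk r (mt p.1) α (mt p.2) i j) : V m)) ∘ (fun x => (a x, b x)))) =
      (fun x => Ψ (kk r (mt (a x)) α (mt (b x)))) := by
    funext x
    show Ψ (mt (fun i j => kk r (mt (a x)) α (mt (b x)) i j)) = _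
    rw [hsa_mt]
  rw [← h6]
  exact h5

variable [MeasurableSpace Rˣ] [MeasurableSingletonClass Rˣ] [Countable Rˣ]

theorem hsa_cond (a : R) (u : Rˣ) :
    MeasurableSet {q : (V m × Rˣ) × (V m × Rˣ) | a * (q.1.2 : R) = (u : R) * (q.2.2 : R)} := by
  have h1 : MeasurableSet {w : Rˣ × Rˣ | a * (w.1 : R) = (u : R) * (w.2 : R)} :=
    (Set.to_countable _).measurableSet
  have h2 : Measurable (fun q : (V m × Rˣ) × (V m × Rˣ) => ((q.1.2, q.2.2) : Rˣ × Rˣ)) := by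
    fun_prop
  exact h2 h1

theorem hsa_measK (hO : Countable O)
    (hkk : ∀ α : Mat m, Measurable (fun p : V m × V m =>
      ((fun i j => kk r (mt p.1) α (mt p.2) i j) : V m)))
    (hΦ : Measurable (fun z : V m => Φ (mt z))) :
    Measurable (fun q : (V m × Rˣ) × (V m × Rˣ) => hsaK O π Φ r q.1 q.2) := by
  unfold hsaK
  refine Measurable.tsum (fun α => ?_)
  refine Measurable.ite ?_ ?_ measurable_const
  · have := hsa_cond (m := m) (R := R) (π (α : Mat m)) 1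
    simpa using this
  · exact hsa_kkm Φ (α : Mat m) hkk hΦ (fun q : (V m × Rˣ) × (V m × Rˣ) => q.2.1)
      (fun q => q.1.1) (by fun_prop) (by fun_prop)

theorem hsa_measKp (hO : Countable O)
    (hkk : ∀ α : Mat m, Measurable (fun p : V m × V m =>
      ((fun i j => kk r (mt p.1) α (mt p.2) i j) : V m)))
    (hsz : Measurable (fun z : V m => sz (mt z))) :
    Measurable (fun q : (V m × Rˣ) × (V m × Rˣ) =>
      Kp O π 1 N r (mt q.1.1) q.1.2 (mt q.2.1) q.2.2) := by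
  unfold Kp
  refine Measurable.tsum (fun α => ?_)
  refine Measurable.ite (hsa_cond _ _) ?_ measurable_const
  have h3 := hsa_kkm (fun z => sz z) (α : Mat m) hkk hsz
    (fun q : (V m × Rˣ) × (V m × Rˣ) => q.2.1) (fun q => q.1.1) (by fun_prop) (by fun_prop)
  exact ((measurable_const.add h3).pow_const _).ennreal_ofReal

theorem hsa_measS (hO : Countable O)
    (hkk : ∀ α : Mat m, Measurable (fun p : V m × V m =>
      ((fun i j => kk r (mt p.1) α (mt p.2) i j) : V m)))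
    (hsz : Measurable (fun z : V m => sz (mt z))) (g : V m) :
    Measurable (fun z : V m =>
      ∑' α : O, ENNReal.ofReal ((1 + sz (kk r (mt z) (α : Mat m) (mt g))) ^ (-N))) := by
  refine Measurable.tsum (fun α => ?_)
  have h3 := hsa_kkm (fun z => sz z) (α : Mat m) hkk hsz
    (fun z : V m => z) (fun _ => g) (by fun_prop) (by fun_prop)
  exact ((measurable_const.add h3).pow_const _).ennreal_ofReal

theorem hsa_pt (hM : 0 ≤ M) (hΦ : ∀ z, ‖Φ z‖ ≤ M * (1 + sz z) ^ (-N)) [Fintype Rˣ] (z g : V m)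
    (u : Rˣ)
    (hfin : ∑' α : O, ENNReal.ofReal ((1 + sz (kk r (mt z) (α : Mat m) (mt g))) ^ (-N)) < ⊤)
    (G : Mat m → R → ℂ) (f : V m × Rˣ → ℂ) (hfG : ∀ y : Rˣ, f (z, y) = G (mt z) (y : R))
    (hG0 : ∀ y : R, ¬ IsUnit y → G (mt z) y = 0) :
    ∑ y : Rˣ, hsaK O π Φ r (g, u) (z, y) * f (z, y) =
      ∑' α : O, Φ (kk r (mt z) (α : Mat m) (mt g)) * G (mt z) (π (α : Mat m) * (u : R)) := by
  classical
  have hpos : ∀ α : O, 0 ≤ (1 + sz (kk r (mt z) (α : Mat m) (mt g))) ^ (-N) := by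
    intro α
    apply Real.rpow_nonneg
    have : 0 ≤ sz (kk r (mt z) (α : Mat m) (mt g)) := norm_nonneg _
    linarith
  have h1 : Summable (fun α : O => (1 + sz (kk r (mt z) (α : Mat m) (mt g))) ^ (-N)) := by
    have h2 := ENNReal.summable_toReal hfin.ne
    refine h2.congr (fun α => ?_)
    rw [ENNReal.toReal_ofReal (hpos α)]
  have hn : Summable (fun α : O => ‖Φ (kk r (mt z) (α : Mat m) (mt g))‖) :=
    Summable.of_nonneg_of_le (fun α => norm_nonneg _) (fun α => hΦ _) (h1.mul_left M)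
  have hs : ∀ y : Rˣ, Summable (fun α : O =>
      (if π (α : Mat m) * (u : R) = (y : R) then Φ (kk r (mt z) (α : Mat m) (mt g)) else 0) *
        f (z, y)) := by
    intro y
    refine Summable.mul_right _ (Summable.of_norm_bounded hn (fun α => ?_))
    split_ifs
    · exact le_rfl
    · rw [norm_zero]; exact norm_nonneg _
  have e1 : ∀ y : Rˣ, hsaK O π Φ r (g, u) (z, y) * f (z, y) = ∑' α : O,
      (if π (α : Mat m) * (u : R) = (y : R) then Φ (kk r (mt z) (α : Mat m) (mt g)) else 0) *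
        f (z, y) := by
    intro y
    rw [tsum_mul_right]
    unfold hsaK
    congr 1
  rw [Finset.sum_congr rfl (fun y _ => e1 y), ← Summable.tsum_finsetSum (fun y _ => hs y)]
  refine tsum_congr (fun α => ?_)
  by_cases h : IsUnit (π (α : Mat m) * (u : R))
  · obtain ⟨w, hw⟩ := h
    rw [Finset.sum_eq_single w]
    · rw [if_pos hw.symm, hfG, hw]
    · intro y _ hy
      rw [if_neg, zero_mul]
      intro h2
      apply hy
      apply Units.ext
      rw [← h2, hw]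
    · intro h2
      exact absurd (Finset.mem_univ w) h2
  · rw [hG0 _ h, mul_zero]
    refine Finset.sum_eq_zero (fun y _ => ?_)
    rw [if_neg, zero_mul]
    intro h2
    exact h (h2 ▸ y.isUnit)

/-- the measure on `D × Rˣ` -/
noncomputable def hsaNu (R : Type) [Ring R] [MeasurableSpace Rˣ] (D : Set (V m)) :
    Measure (V m × Rˣ) :=
  ((hm m).restrict D).prod Measure.count

theorem hsa_ae [Fintype Rˣ] {D : Set (V m)} (hD : MeasurableSet D) (hsf : SigmaFinite (hm m)) :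
    ∀ᵐ p ∂(hsaNu R D), p.1 ∈ D := by
  unfold hsaNu
  exact Measure.quasiMeasurePreserving_fst.ae (ae_restrict_mem hD)

theorem hsa_intKp [Fintype Rˣ] (hO : Countable O)
    (hkk : ∀ α : Mat m, Measurable (fun p : V m × V m =>
      ((fun i j => kk r (mt p.1) α (mt p.2) i j) : V m)))
    (hsz : Measurable (fun z : V m => sz (mt z))) (hsf : SigmaFinite (hm m)) {D : Set (V m)}
    {B : ENNReal} (p : V m × Rˣ)
    (hS : ∫⁻ z in D, ∑' α : O, ENNReal.ofReal ((1 + sz (kk r (mt z) (α : Mat m) (mt p.1))) ^ (-N))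
      ∂(hm m) ≤ B) :
    ∫⁻ p', Kp O π 1 N r (mt p.1) p.2 (mt p'.1) p'.2 ∂(hsaNu R D) ≤
      B * (Measure.count (Set.univ : Set Rˣ)) := by
  have h1 := hsa_measS (N := N) hO hkk hsz p.1
  calc ∫⁻ p', Kp O π 1 N r (mt p.1) p.2 (mt p'.1) p'.2 ∂(hsaNu R D)
      ≤ ∫⁻ p' : V m × Rˣ, ∑' α : O,
          ENNReal.ofReal ((1 + sz (kk r (mt p'.1) (α : Mat m) (mt p.1))) ^ (-N)) ∂(hsaNu R D) :=
        lintegral_mono (fun p' => hsa_Kp_le p p')
    _ = ∫⁻ z in D, ∫⁻ _y : Rˣ, ∑' α : O,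
          ENNReal.ofReal ((1 + sz (kk r (mt z) (α : Mat m) (mt p.1))) ^ (-N)) ∂Measure.count
          ∂(hm m) := by
        unfold hsaNu
        exact lintegral_prod _ (h1.comp measurable_fst).aemeasurable
    _ = ∫⁻ z in D, (∑' α : O,
          ENNReal.ofReal ((1 + sz (kk r (mt z) (α : Mat m) (mt p.1))) ^ (-N))) *
            Measure.count (Set.univ : Set Rˣ) ∂(hm m) := by
        refine lintegral_congr (fun z => ?_)
        rw [lintegral_const]
    _ = (∫⁻ z in D, (∑' α : O,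
          ENNReal.ofReal ((1 + sz (kk r (mt z) (α : Mat m) (mt p.1))) ^ (-N))) ∂(hm m)) *
            Measure.count (Set.univ : Set Rˣ) := lintegral_mul_const _ h1
    _ ≤ _ := mul_le_mul_left hS _

theorem hsa_op [Fintype Rˣ] (hM : 0 ≤ M) (hΦ : ∀ z, ‖Φ z‖ ≤ M * (1 + sz z) ^ (-N))
    (hO : Countable O)
    (hkk : ∀ α : Mat m, Measurable (fun p : V m × V m =>
      ((fun i j => kk r (mt p.1) α (mt p.2) i j) : V m)))
    (hΦm : Measurable (fun z : V m => Φ (mt z)))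
    (hsz : Measurable (fun z : V m => sz (mt z))) (hsf : SigmaFinite (hm m)) {D : Set (V m)}
    (hD : MeasurableSet D) {B : ENNReal} (hB : B < ⊤)
    (G : Mat m → R → ℂ) (f : V m × Rˣ → ℂ) (hf : Measurable f) {M1 : ℝ}
    (hfb : ∀ z ∈ D, ∀ y : Rˣ, ‖f (z, y)‖ ≤ M1)
    (hfG : ∀ z ∈ D, ∀ y : Rˣ, f (z, y) = G (mt z) (y : R))
    (hG0 : ∀ z ∈ D, ∀ y : R, ¬ IsUnit y → G (mt z) y = 0) (p : V m × Rˣ)
    (hS : ∫⁻ z in D, ∑' α : O, ENNReal.ofReal ((1 + sz (kk r (mt z) (α : Mat m) (mt p.1))) ^ (-N))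
      ∂(hm m) ≤ B) :
    opA O π Φ r D G (mt p.1) (p.2 : R) = ∫ p', hsaK O π Φ r p p' * f p' ∂(hsaNu R D) ∧
    ENNReal.ofReal ‖∫ p', hsaK O π Φ r p p' * f p' ∂(hsaNu R D)‖ ≤
      ENNReal.ofReal M * ENNReal.ofReal M1 * (B * Measure.count (Set.univ : Set Rˣ)) := by
  have hae := hsa_ae (R := R) hD hsf
  have hmK : Measurable (fun p' : V m × Rˣ => hsaK O π Φ r p p') :=
    (hsa_measK (R := R) (π := π) hO hkk hΦm).comp (measurable_prodMk_left : Measurable (Prod.mk p))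
  have hmP : Measurable (fun p' : V m × Rˣ => Kp O π 1 N r (mt p.1) p.2 (mt p'.1) p'.2) :=
    (hsa_measKp (R := R) (π := π) (N := N) hO hkk hsz).comp
      (measurable_prodMk_left : Measurable (Prod.mk p))
  have hb : ∫⁻ p', ‖hsaK O π Φ r p p' * f p'‖ₑ ∂(hsaNu R D) ≤
      ENNReal.ofReal M * ENNReal.ofReal M1 * (B * Measure.count (Set.univ : Set Rˣ)) := by
    calc ∫⁻ p', ‖hsaK O π Φ r p p' * f p'‖ₑ ∂(hsaNu R D)
        ≤ ∫⁻ p', (ENNReal.ofReal M * ENNReal.ofReal M1) *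
            Kp O π 1 N r (mt p.1) p.2 (mt p'.1) p'.2 ∂(hsaNu R D) := by
          refine lintegral_mono_ae ?_
          filter_upwards [hae] with p' hp'
          rw [enorm_mul]
          have h1 : ‖hsaK O π Φ r p p'‖ₑ ≤
              ENNReal.ofReal M * Kp O π 1 N r (mt p.1) p.2 (mt p'.1) p'.2 := by
            rw [← ofReal_norm_eq_enorm]
            exact hsa_bound hM hΦ p p'
          have h2 : ‖f p'‖ₑ ≤ ENNReal.ofReal M1 := by
            rw [← ofReal_norm_eq_enorm]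
            exact ENNReal.ofReal_le_ofReal (hfb p'.1 hp' p'.2)
          calc ‖hsaK O π Φ r p p'‖ₑ * ‖f p'‖ₑ
              ≤ (ENNReal.ofReal M * Kp O π 1 N r (mt p.1) p.2 (mt p'.1) p'.2) *
                ENNReal.ofReal M1 := mul_le_mul' h1 h2
            _ = _ := by ring
      _ = (ENNReal.ofReal M * ENNReal.ofReal M1) *
            ∫⁻ p', Kp O π 1 N r (mt p.1) p.2 (mt p'.1) p'.2 ∂(hsaNu R D) :=
          lintegral_const_mul _ hmP
      _ ≤ _ := mul_le_mul_right (hsa_intKp hO hkk hsz hsf p hS) _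
  have hfinal : ENNReal.ofReal M * ENNReal.ofReal M1 *
      (B * Measure.count (Set.univ : Set Rˣ)) < ⊤ := by
    refine ENNReal.mul_lt_top (ENNReal.mul_lt_top ENNReal.ofReal_lt_top ENNReal.ofReal_lt_top) ?_
    exact ENNReal.mul_lt_top hB (measure_lt_top _ _)
  have hint : Integrable (fun p' => hsaK O π Φ r p p' * f p') (hsaNu R D) :=
    ⟨(hmK.mul hf).aestronglyMeasurable, lt_of_le_of_lt hb hfinal⟩
  refine ⟨?_, ?_⟩
  · unfold opA
    have hint' := hint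
    unfold hsaNu at hint' ⊢
    rw [integral_prod _ hint']
    refine integral_congr_ae ?_
    have h1 := ae_lt_top (hsa_measS (N := N) hO hkk hsz p.1) (lt_of_le_of_lt hS hB).ne
    filter_upwards [h1, ae_restrict_mem hD] with z hz hzD
    rw [integral_count]
    exact (hsa_pt hM hΦ z p.1 p.2 hz G f (hfG z hzD) (hG0 z hzD)).symm
  · rw [ofReal_norm_eq_enorm]
    exact (enorm_integral_le_lintegral_enorm _).trans hb

theorem hsa_rhs [Fintype Rˣ] (hO : Countable O)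
    (hkk : ∀ α : Mat m, Measurable (fun p : V m × V m =>
      ((fun i j => kk r (mt p.1) α (mt p.2) i j) : V m)))
    (hsz : Measurable (fun z : V m => sz (mt z))) (hsf : SigmaFinite (hm m)) {D : Set (V m)} :
    ∫⁻ x, ∫⁻ z, (∫⁻ y, (ENNReal.ofReal M * Kp O π 1 N r (mt x.1) x.2 (mt y.1) y.2) *
      (ENNReal.ofReal M * Kp O π 1 N r (mt y.1) y.2 (mt z.1) z.2) ∂(hsaNu R D)) ^ 2
      ∂(hsaNu R D) ∂(hsaNu R D) =
    ENNReal.ofReal M ^ 4 * ∫⁻ g in D, ∫⁻ k in D, ∑' x : Rˣ, ∑' z : Rˣ,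
      (∑' y : Rˣ, ∫⁻ h in D, Kp O π 1 N r (mt g) x (mt h) y * Kp O π 1 N r (mt h) y (mt k) z
        ∂(hm m)) ^ 2 ∂(hm m) ∂(hm m) := by
  have hQ := hsa_measKp (R := R) (π := π) (N := N) (r := r) hO hkk hsz
  have hsfn : SFinite (hsaNu R D) := by unfold hsaNu; infer_instance
  have hQQ : Measurable (fun w : ((V m × Rˣ) × (V m × Rˣ)) × (V m × Rˣ) =>
      Kp O π 1 N r (mt w.1.1.1) w.1.1.2 (mt w.2.1) w.2.2 *
        Kp O π 1 N r (mt w.2.1) w.2.2 (mt w.1.2.1) w.1.2.2) := by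
    have h1 : Measurable (fun w : ((V m × Rˣ) × (V m × Rˣ)) × (V m × Rˣ) => (w.1.1, w.2)) := by
      fun_prop
    have h2 : Measurable (fun w : ((V m × Rˣ) × (V m × Rˣ)) × (V m × Rˣ) => (w.2, w.1.2)) := by
      fun_prop
    exact (hQ.comp h1).mul (hQ.comp h2)
  have hI : Measurable (fun q : (V m × Rˣ) × (V m × Rˣ) =>
      ∫⁻ y, Kp O π 1 N r (mt q.1.1) q.1.2 (mt y.1) y.2 *
        Kp O π 1 N r (mt y.1) y.2 (mt q.2.1) q.2.2 ∂(hsaNu R D)) :=
    hQQ.lintegral_prod_right'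
  have hI2 := hI.pow_const 2
  have e1 : ∀ x z : V m × Rˣ, (∫⁻ y, (ENNReal.ofReal M * Kp O π 1 N r (mt x.1) x.2 (mt y.1) y.2) *
      (ENNReal.ofReal M * Kp O π 1 N r (mt y.1) y.2 (mt z.1) z.2) ∂(hsaNu R D)) ^ 2 =
      ENNReal.ofReal M ^ 4 * (∫⁻ y, Kp O π 1 N r (mt x.1) x.2 (mt y.1) y.2 *
        Kp O π 1 N r (mt y.1) y.2 (mt z.1) z.2 ∂(hsaNu R D)) ^ 2 := by
    intro x z
    have h1 : Measurable (fun y : V m × Rˣ => Kp O π 1 N r (mt x.1) x.2 (mt y.1) y.2 *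
        Kp O π 1 N r (mt y.1) y.2 (mt z.1) z.2) :=
      hQQ.comp (measurable_prodMk_left : Measurable (Prod.mk (x, z)))
    have h2 : (∫⁻ y, (ENNReal.ofReal M * Kp O π 1 N r (mt x.1) x.2 (mt y.1) y.2) *
      (ENNReal.ofReal M * Kp O π 1 N r (mt y.1) y.2 (mt z.1) z.2) ∂(hsaNu R D)) =
        ENNReal.ofReal M ^ 2 * ∫⁻ y, Kp O π 1 N r (mt x.1) x.2 (mt y.1) y.2 *
        Kp O π 1 N r (mt y.1) y.2 (mt z.1) z.2 ∂(hsaNu R D) := by
      rw [← lintegral_const_mul _ h1]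
      refine lintegral_congr (fun y => ?_)
      ring
    rw [h2]
    ring
  have e2 : ∀ x z : V m × Rˣ, (∫⁻ y, Kp O π 1 N r (mt x.1) x.2 (mt y.1) y.2 *
        Kp O π 1 N r (mt y.1) y.2 (mt z.1) z.2 ∂(hsaNu R D)) =
      ∑' y : Rˣ, ∫⁻ h in D, Kp O π 1 N r (mt x.1) x.2 (mt h) y *
        Kp O π 1 N r (mt h) y (mt z.1) z.2 ∂(hm m) := by
    intro x z
    have h1 : Measurable (fun y : V m × Rˣ => Kp O π 1 N r (mt x.1) x.2 (mt y.1) y.2 *
        Kp O π 1 N r (mt y.1) y.2 (mt z.1) z.2) :=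
      hQQ.comp (measurable_prodMk_left : Measurable (Prod.mk (x, z)))
    unfold hsaNu
    rw [lintegral_prod_symm' _ h1, lintegral_count]
  simp only [e1]
  have e3 : ∀ x : V m × Rˣ, ∫⁻ z, ENNReal.ofReal M ^ 4 *
      (∫⁻ y, Kp O π 1 N r (mt x.1) x.2 (mt y.1) y.2 *
        Kp O π 1 N r (mt y.1) y.2 (mt z.1) z.2 ∂(hsaNu R D)) ^ 2 ∂(hsaNu R D) =
      ENNReal.ofReal M ^ 4 * ∫⁻ z, (∫⁻ y, Kp O π 1 N r (mt x.1) x.2 (mt y.1) y.2 *
        Kp O π 1 N r (mt y.1) y.2 (mt z.1) z.2 ∂(hsaNu R D)) ^ 2 ∂(hsaNu R D) := by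
    intro x
    exact lintegral_const_mul _ (hI2.comp (measurable_prodMk_left : Measurable (Prod.mk x)))
  simp only [e3]
  have hJ : Measurable (fun x : V m × Rˣ => ∫⁻ z, (∫⁻ y, Kp O π 1 N r (mt x.1) x.2 (mt y.1) y.2 *
        Kp O π 1 N r (mt y.1) y.2 (mt z.1) z.2 ∂(hsaNu R D)) ^ 2 ∂(hsaNu R D)) :=
    hI2.lintegral_prod_right'
  rw [lintegral_const_mul _ hJ]
  congr 1
  have e4 : ∫⁻ x, ∫⁻ z, (∫⁻ y, Kp O π 1 N r (mt x.1) x.2 (mt y.1) y.2 *
        Kp O π 1 N r (mt y.1) y.2 (mt z.1) z.2 ∂(hsaNu R D)) ^ 2 ∂(hsaNu R D) ∂(hsaNu R D) =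
      ∫⁻ g in D, ∑' x : Rˣ, ∫⁻ z, (∫⁻ y, Kp O π 1 N r (mt g) x (mt y.1) y.2 *
        Kp O π 1 N r (mt y.1) y.2 (mt z.1) z.2 ∂(hsaNu R D)) ^ 2 ∂(hsaNu R D) ∂(hm m) := by
    have h1 : ∀ F : V m × Rˣ → ENNReal, Measurable F →
        ∫⁻ x, F x ∂(hsaNu R D) = ∫⁻ g in D, ∑' x : Rˣ, F (g, x) ∂(hm m) := by
      intro F hF
      unfold hsaNu
      rw [lintegral_prod _ hF.aemeasurable]
      refine lintegral_congr (fun g => ?_)
      rw [lintegral_count]
    exact h1 _ hJ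
  rw [e4]
  refine lintegral_congr (fun g => ?_)
  have e5 : ∀ x : Rˣ, ∫⁻ z, (∫⁻ y, Kp O π 1 N r (mt g) x (mt y.1) y.2 *
        Kp O π 1 N r (mt y.1) y.2 (mt z.1) z.2 ∂(hsaNu R D)) ^ 2 ∂(hsaNu R D) =
      ∫⁻ k in D, ∑' z : Rˣ, (∫⁻ y, Kp O π 1 N r (mt g) x (mt y.1) y.2 *
        Kp O π 1 N r (mt y.1) y.2 (mt k) z ∂(hsaNu R D)) ^ 2 ∂(hm m) := by
    intro x
    have h1 : ∀ F : V m × Rˣ → ENNReal, Measurable F →
        ∫⁻ x, F x ∂(hsaNu R D) = ∫⁻ g in D, ∑' x : Rˣ, F (g, x) ∂(hm m) := by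
      intro F hF
      unfold hsaNu
      rw [lintegral_prod _ hF.aemeasurable]
      refine lintegral_congr (fun g => ?_)
      rw [lintegral_count]
    exact h1 (fun z => (∫⁻ y, Kp O π 1 N r (mt g) x (mt y.1) y.2 *
        Kp O π 1 N r (mt y.1) y.2 (mt z.1) z.2 ∂(hsaNu R D)) ^ 2)
      (hI2.comp (measurable_prodMk_left : Measurable (Prod.mk (g, x))))
  simp only [e5]
  rw [← lintegral_tsum]
  · refine lintegral_congr (fun k => ?_)
    refine tsum_congr (fun x => tsum_congr (fun z => ?_))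
    have := e2 (g, x) (k, z)
    simp only at this
    rw [this]
  · intro x
    have h2 : Measurable (fun k : V m => ∑' z : Rˣ, (∫⁻ y, Kp O π 1 N r (mt g) x (mt y.1) y.2 *
        Kp O π 1 N r (mt y.1) y.2 (mt k) z ∂(hsaNu R D)) ^ 2) := by
      refine Measurable.tsum (fun z => ?_)
      have h3 : Measurable (fun k : V m => (((g, x), (k, z)) : (V m × Rˣ) × (V m × Rˣ))) := by
        fun_prop
      exact hI2.comp h3
    exact h2.aemeasurable

end

theorem hsa_sum_units {R : Type} [Ring R] [Fintype R] [Fintype Rˣ] {A : Type} [AddCommMonoid A]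
    (w : R → A) (hw : ∀ x, ¬ IsUnit x → w x = 0) : ∑ x : R, w x = ∑ y : Rˣ, w (y : R) := by
  symm
  refine Fintype.sum_of_injective (fun y : Rˣ => (y : R)) Units.val_injective _ _ ?_
    (fun y => rfl)
  intro x hx
  apply hw
  rintro ⟨u, rfl⟩
  exact hx ⟨u, rfl⟩

theorem hsa_det {m : ℕ} (hm1 : 1 ≤ m) {z : V m} (hz : 1 ≤ aN (mt z)) : (mt z).det ≠ 0 := by
  intro h
  unfold aN at hz
  rw [h, abs_zero, Real.zero_rpow] at hz
  · linarith
  · have : (0 : ℝ) < m := by exact_mod_cast hm1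
    positivity

theorem hsa_opA0 {m : ℕ} {O : Subring (Mat m)} {R : Type} [Ring R] [Finite R] (π : Mat m → R)
    (Φ : Mat m → ℂ) (r : ℝ) (D : Set (V m)) (F : Mat m → R → ℂ)
    (hF : ∀ g x, ¬ IsUnit x → F g x = 0) (g : Mat m) (x : R) (hx : ¬ IsUnit x) :
    opA O π Φ r D F g x = 0 := by
  unfold opA
  have h1 : ∀ z : V m, ∑' α : O, Φ (kk r (mt z) (α : Mat m) g) *
      F (mt z) (π (α : Mat m) * x) = 0 := by
    intro z
    have h2 : ∀ α : O, Φ (kk r (mt z) (α : Mat m) g) * F (mt z) (π (α : Mat m) * x) = 0 := by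
      intro α
      rw [hF, mul_zero]
      intro h3
      exact hx (isUnit_of_mul_isUnit_right h3)
    simp only [h2, tsum_zero]
  simp only [h1, integral_zero]

theorem pf_HSA : T_MSR → T_BDD → T_FNT → T_HS → T_BES → T_HSA := by
  intro hMSR hBDD hFNT hHS hBES m O b d hord s hs
  classical
  have hm1 := hord.one_le
  obtain ⟨hms, hcO, _⟩ := hMSR
  obtain ⟨_, _, _, hsz, hsf, _, hkk0, hΦc⟩ := hms m
  have hO := (hcO m O b hord.ord).1
  have hs0 : 0 < s := lt_of_le_of_lt (by positivity) hs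
  obtain ⟨C, hC, hHS⟩ := hHS m O b d hord s 1 hs le_rfl
  refine ⟨C, hC, ?_⟩
  intro q R _ _ π σ T D hSys ι _ _ F lam mu hF hOrth Φ M hM hΦ hb r hr hrq
  have hd : d ≠ 0 := by
    rintro rfl
    have h1 := hSys.lev.cop
    rw [isCoprime_zero_left] at h1
    have h2 := hSys.lev.two_le
    rcases Int.isUnit_iff.mp h1 with h3 | h3 <;> omega
  obtain ⟨C', hC', hFN⟩ := hFNT m O b d hord hd (2 * s) (by linarith)
  obtain ⟨hDfin, hFN'⟩ := hFN D hSys.dom
  have hkk := hkk0 r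
  have hΦm := hΦc Φ hΦ
  have hDm := hSys.dom.meas
  have hDdet : ∀ z ∈ D, (mt z).det ≠ 0 := fun z hz => hsa_det hm1 (hSys.dom.shell z hz).1
  obtain ⟨B, hBdef⟩ : ∃ B : ENNReal, B = hm m D + ENNReal.ofReal (C' * r ^ (2 * s)) := ⟨_, rfl⟩
  have hB : B < ⊤ := by
    rw [hBdef]
    exact ENNReal.add_lt_top.mpr ⟨hDfin, ENNReal.ofReal_lt_top⟩
  have hS : ∀ g : V m, (mt g).det ≠ 0 → ∫⁻ z in D, ∑' α : O,
      ENNReal.ofReal ((1 + sz (kk r (mt z) (α : Mat m) (mt g))) ^ (-(2 * s))) ∂(hm m) ≤ B := by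
    intro g hg
    have h1 := (hFN' r hr (mt g) hg).1
    rw [hBdef]
    refine le_trans ?_ (add_le_add_right h1 _)
    have h2 : hm m D = ∫⁻ _z in D, 1 ∂(hm m) := by simp
    rw [h2, ← lintegral_add_left measurable_const]
    refine lintegral_mono (fun z => ?_)
    show _ ≤ 1 + _
    have h3 : (1 : ENNReal) = ∑' α : O, (if α = 0 then (1 : ENNReal) else 0) := by
      rw [tsum_ite_eq]
    rw [h3, ← ENNReal.tsum_add]
    refine ENNReal.tsum_le_tsum (fun α => ?_)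
    by_cases h4 : α = 0
    · rw [if_pos h4, if_pos h4, add_zero, h4]
      have h5 : kk r (mt z) ((0 : O) : Mat m) (mt g) = 0 := by
        unfold kk
        simp
      have h6 : sz (0 : Mat m) = 0 := by
        unfold sz
        exact norm_zero
      rw [h5, h6]
      simp
    · rw [if_neg h4, if_neg h4, zero_add]
  let _ms : MeasurableSpace Rˣ := ⊤
  have _hs : MeasurableSingletonClass Rˣ := ⟨fun _ => trivial⟩
  have _hf : Finite Rˣ := inferInstance
  have _hc : Countable Rˣ := inferInstance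
  let _ft : Fintype Rˣ := Fintype.ofFinite Rˣ
  have hsfn : SFinite (hsaNu R D) := by unfold hsaNu; infer_instance
  -- the functions
  obtain ⟨f, hfdef⟩ : ∃ f : ι → V m × Rˣ → ℂ, ∀ i z y, f i (z, y) =
      D.piecewise (fun z => F i (mt z) (y : R)) (fun _ => 0) z :=
    ⟨fun i p => D.piecewise (fun z => F i (mt z) (p.2 : R)) (fun _ => 0) p.1, fun _ _ _ => rfl⟩
  have hfD : ∀ i, ∀ z ∈ D, ∀ y : Rˣ, f i (z, y) = F i (mt z) (y : R) := by
    intro i z hz y
    rw [hfdef, Set.piecewise_eq_of_mem _ _ _ hz]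
  have hcmt : Continuous (fun z : V m => mt z) := continuous_id
  have hfm : ∀ i, Measurable (f i) := by
    intro i
    refine measurable_from_prod_countable_left (fun y => ?_)
    have h1 : Measurable (D.piecewise (fun z => F i (mt z) (y : R)) (fun _ => (0 : ℂ))) := by
      refine ContinuousOn.measurable_piecewise ?_ continuousOn_const hDm
      exact ((hF i).cont (y : R)).comp hcmt.continuousOn (fun z hz => hDdet z hz)
    have h2 : (fun z => f i (z, y)) =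
        D.piecewise (fun z => F i (mt z) (y : R)) (fun _ => (0 : ℂ)) := by
      funext z
      rw [hfdef]
    rw [h2]
    exact h1
  -- integrability
  have hint : ∀ i j, Integrable (fun p => f i p * (starRingEnd ℂ) (f j p)) (hsaNu R D) := by
    intro i j
    have hmeas : Measurable (fun p => f i p * (starRingEnd ℂ) (f j p)) :=
      (hfm i).mul (Complex.continuous_conj.measurable.comp (hfm j))
    unfold hsaNu
    rw [integrable_prod_iff' hmeas.aestronglyMeasurable]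
    refine ⟨Filter.Eventually.of_forall (fun y => ?_), Integrable.of_finite⟩
    refine (hOrth.1 i j (y : R)).congr_fun (fun z hz => ?_) hDm
    show F i (mt z) (y : R) * (starRingEnd ℂ) (F j (mt z) (y : R)) = _
    rw [hfD i z hz y, hfD j z hz y]
  have horth : ∀ i j, ∫ p, f i p * (starRingEnd ℂ) (f j p) ∂(hsaNu R D) =
      if i = j then 1 else 0 := by
    intro i j
    have h1 := hint i j
    rw [← hOrth.2 i j]
    unfold hsaNu at h1 ⊢
    rw [integral_prod_symm _ h1, integral_count]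
    refine Eq.trans ?_ (hsa_sum_units
      (fun x : R => ∫ z in D, F i (mt z) x * (starRingEnd ℂ) (F j (mt z) x) ∂(hm m)) ?_).symm
    · refine Finset.sum_congr rfl (fun y _ => ?_)
      refine setIntegral_congr_fun hDm (fun z hz => ?_)
      show f i (z, y) * (starRingEnd ℂ) (f j (z, y)) = _
      rw [hfD i z hz y, hfD j z hz y]
    · intro x hx
      have h2 : ∀ z : V m, F i (mt z) x * (starRingEnd ℂ) (F j (mt z) x) = 0 := by
        intro z
        rw [(hF i).supp _ _ hx, zero_mul]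
      show ∫ z in D, F i (mt z) x * (starRingEnd ℂ) (F j (mt z) x) ∂(hm m) = 0
      simp only [h2, integral_zero]
  -- the first operator
  have hMi : ∀ i, ∃ M1 : ℝ, ∀ z ∈ D, ∀ y : Rˣ, ‖f i (z, y)‖ ≤ M1 := by
    intro i
    obtain ⟨M1, _, h1⟩ := hBDD m q O b d R π σ T D hSys (F i) (lam i) (mu i) (hF i)
    refine ⟨M1, fun z hz y => ?_⟩
    rw [hfD i z hz y]
    exact h1 _ _ (hDdet z hz)
  have hKm : Measurable (fun w : (V m × Rˣ) × (V m × Rˣ) => hsaK O π Φ r w.1 w.2) :=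
    hsa_measK hO hkk hΦm
  have hop : ∀ f : V m × Rˣ → ℂ, Measurable f →
      Measurable (fun p => ∫ p', hsaK O π Φ r p p' * f p' ∂(hsaNu R D)) := by
    intro f hf
    have h1 : StronglyMeasurable (fun w : (V m × Rˣ) × (V m × Rˣ) =>
        hsaK O π Φ r w.1 w.2 * f w.2) := (hKm.mul (hf.comp measurable_snd)).stronglyMeasurable
    exact h1.integral_prod_right'.measurable
  have hA1 : ∀ i, ∀ x, ¬ IsUnit x → ∀ g, opA O π Φ r D (F i) g x = 0 := fun i x hx g =>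
    hsa_opA0 π Φ r D (F i) (hF i).supp g x hx
  have hA2 : ∀ i, ∀ x, ¬ IsUnit x → ∀ g, opA O π Φ r D (opA O π Φ r D (F i)) g x = 0 :=
    fun i x hx g => hsa_opA0 π Φ r D (opA O π Φ r D (F i)) (fun g x hx => hA1 i x hx g) g x hx
  have hfin2 : ∀ M1 : ℝ, ENNReal.ofReal M * ENNReal.ofReal M1 *
      (B * Measure.count (Set.univ : Set Rˣ)) < ⊤ := by
    intro M1
    refine ENNReal.mul_lt_top (ENNReal.mul_lt_top ENNReal.ofReal_lt_top ENNReal.ofReal_lt_top) ?_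
    exact ENNReal.mul_lt_top hB (measure_lt_top _ _)
  have hstep : ∀ i, ∀ z ∈ D, ∀ y : Rˣ, opA O π Φ r D (opA O π Φ r D (F i)) (mt z) (y : R) =
      ∫ p', hsaK O π Φ r (z, y) p' * (∫ p'', hsaK O π Φ r p' p'' * f i p'' ∂(hsaNu R D))
        ∂(hsaNu R D) := by
    intro i z hz y
    obtain ⟨M1, hM1⟩ := hMi i
    have h1 := fun (z : V m) (hz : z ∈ D) (y : Rˣ) =>
      hsa_op (π := π) hM hb hO hkk hΦm hsz hsf hDm hB (F i) (f i) (hfm i) hM1 (hfD i)
        (fun z _ y hy => (hF i).supp _ _ hy) (z, y) (hS z (hDdet z hz))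
    have h2 := hsa_op (π := π) hM hb hO hkk hΦm hsz hsf hDm hB (opA O π Φ r D (F i))
      (fun p => ∫ p', hsaK O π Φ r p p' * f i p' ∂(hsaNu R D)) (hop _ (hfm i))
      (M1 := (ENNReal.ofReal M * ENNReal.ofReal M1 *
        (B * Measure.count (Set.univ : Set Rˣ))).toReal)
      (fun z hz y => (ENNReal.ofReal_le_iff_le_toReal (hfin2 M1).ne).mp (h1 z hz y).2)
      (fun z hz y => (h1 z hz y).1.symm)
      (fun z _ y hy => hA1 i y hy _) (z, y) (hS z (hDdet z hz))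
    exact h2.1
  have hbes := hBES (V m × Rˣ) (hsaNu R D) ι f (fun p p' => hsaK O π Φ r p p')
    (fun p p' => ENNReal.ofReal M * Kp O π 1 (2 * s) r (mt p.1) p.2 (mt p'.1) p'.2) hfm hint horth
    hKm ((hsa_measKp (N := 2 * s) hO hkk hsz).const_mul _) (fun p p' => hsa_bound hM hb p p')
  have hlhs : ∀ i, ∑ x : R, ∫⁻ z in D, ENNReal.ofReal
      (‖opA O π Φ r D (opA O π Φ r D (F i)) (mt z) x‖ ^ 2) ∂(hm m) =
      ∫⁻ p, ENNReal.ofReal (‖∫ p', hsaK O π Φ r p p' *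
        (∫ p'', hsaK O π Φ r p' p'' * f i p'' ∂(hsaNu R D)) ∂(hsaNu R D)‖ ^ 2)
        ∂(hsaNu R D) := by
    intro i
    have h1 : Measurable (fun p => ENNReal.ofReal (‖∫ p', hsaK O π Φ r p p' *
        (∫ p'', hsaK O π Φ r p' p'' * f i p'' ∂(hsaNu R D)) ∂(hsaNu R D)‖ ^ 2)) :=
      ((hop _ (hop _ (hfm i))).norm.pow_const 2).ennreal_ofReal
    have h3 : ∫⁻ p, ENNReal.ofReal (‖∫ p', hsaK O π Φ r p p' *
        (∫ p'', hsaK O π Φ r p' p'' * f i p'' ∂(hsaNu R D)) ∂(hsaNu R D)‖ ^ 2)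
        ∂(hsaNu R D) = ∑ y : Rˣ, ∫⁻ z in D, ENNReal.ofReal (‖∫ p', hsaK O π Φ r (z, y) p' *
        (∫ p'', hsaK O π Φ r p' p'' * f i p'' ∂(hsaNu R D)) ∂(hsaNu R D)‖ ^ 2) ∂(hm m) := by
      have h4 : ∀ G : V m × Rˣ → ENNReal, Measurable G →
          ∫⁻ x, G x ∂(hsaNu R D) = ∑ y : Rˣ, ∫⁻ g in D, G (g, y) ∂(hm m) := by
        intro G hG
        unfold hsaNu
        rw [lintegral_prod_symm' _ hG, lintegral_count, tsum_fintype]
      exact h4 _ h1
    rw [h3]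
    refine Eq.trans (hsa_sum_units (fun x : R => ∫⁻ z in D, ENNReal.ofReal
      (‖opA O π Φ r D (opA O π Φ r D (F i)) (mt z) x‖ ^ 2) ∂(hm m)) ?_) ?_
    swap
    · refine Finset.sum_congr rfl (fun y _ => ?_)
      refine setLIntegral_congr_fun hDm (fun z hz => ?_)
      show ENNReal.ofReal (‖opA O π Φ r D (opA O π Φ r D (F i)) (mt z) (y : R)‖ ^ 2) = _
      rw [hstep i z hz y]
    · intro x hx
      simp only [hA2 i x hx]
      simp
  rw [Finset.sum_congr rfl (fun i _ => hlhs i)]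
  calc ∑ i, ∫⁻ p, ENNReal.ofReal (‖∫ p', hsaK O π Φ r p p' *
            (∫ p'', hsaK O π Φ r p' p'' * f i p'' ∂(hsaNu R D)) ∂(hsaNu R D)‖ ^ 2)
          ∂(hsaNu R D)
      ≤ _ := hbes
    _ = ENNReal.ofReal M ^ 4 * ∫⁻ g in D, ∫⁻ k in D, ∑' x : Rˣ, ∑' z : Rˣ,
      (∑' y : Rˣ, ∫⁻ h in D, Kp O π 1 (2 * s) r (mt g) x (mt h) y *
        Kp O π 1 (2 * s) r (mt h) y (mt k) z ∂(hm m)) ^ 2 ∂(hm m) ∂(hm m) :=
        hsa_rhs hO hkk hsz hsf
    _ ≤ ENNReal.ofReal M ^ 4 * ENNReal.ofReal (C * (q : ℝ) ^ (m ^ 2) * r ^ (2 * s)) := by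
        refine mul_le_mul_right ?_ _
        exact hHS q R π σ hSys.lev 1 (fun a => by simp) r hr (by linarith) D hSys.dom
    _ = ENNReal.ofReal (M ^ 4 * C * (q : ℝ) ^ (m ^ 2) * r ^ (2 * s)) := by
        rw [← ENNReal.ofReal_pow hM, ← ENNReal.ofReal_mul (by positivity)]
        congr 1
        ring

end Pool.Agent.H34.GM
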