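import Pool.Agent.H34.GM.WCM

/-!
The fourth moment bound for the dual operators, from Bessel's inequality.
-/

namespace Pool.Agent.H34.GM

open MeasureTheory

/-! ### generic facts -/

theorem hsb_meas_tsum {X I : Type} [MeasurableSpace X] [Countable I] (t : I → X → ℂ)
    (ht : ∀ i, Measurable (t i)) : Measurable fun x => ∑' i, t i x := by
  let : MeasurableSpace I := ⊤
  have : MeasurableSingletonClass I := ⟨fun _ => trivial⟩
  have h1 : (fun x => ∑' i, t i x) = fun x => ∫ i, t i x ∂(Measure.count : Measure I) := by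
    funext x
    by_cases h : Integrable (fun i => t i x) (Measure.count : Measure I)
    · rw [integral_countable h]
      apply tsum_congr
      intro i
      rw [Measure.real, Measure.count_singleton, ENNReal.toReal_one, one_smul]
    · rw [integral_undef h, tsum_eq_zero_of_not_summable]
      intro hs
      exact h (integrable_count_iff.2 hs.norm)
  rw [h1]
  apply StronglyMeasurable.measurable
  apply StronglyMeasurable.integral_prod_right (f := fun x i => t i x)
  apply Measurable.stronglyMeasurable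
  exact measurable_from_prod_countable_left (fun i => ht i)

theorem hsb_enorm_tsum {I : Type} (t : I → ℂ) : ‖∑' i, t i‖ₑ ≤ ∑' i, ‖t i‖ₑ := by
  by_cases h : Summable fun i => ‖t i‖
  · have h1 := norm_tsum_le_tsum_norm h
    rw [← ofReal_norm]
    refine (ENNReal.ofReal_le_ofReal h1).trans (le_of_eq ?_)
    rw [ENNReal.ofReal_tsum_of_nonneg (fun _ => norm_nonneg _) h]
    apply tsum_congr
    intro i
    rw [ofReal_norm]
  · rw [tsum_eq_zero_of_not_summable (fun hs => h hs.norm), enorm_zero]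
    exact bot_le

theorem hsb_swap {X I U : Type} [MeasurableSpace X] [Countable I] [Fintype U] {μ : Measure X}
    (h : U → I → X → ℂ) (h1 : ∀ y β, AEStronglyMeasurable (h y β) μ)
    (h2 : ∀ y, ∑' β, ∫⁻ z, ‖h y β z‖ₑ ∂μ ≠ ⊤) :
    ∫ z, ∑' β, ∑ y, h y β z ∂μ = ∑ y, ∫ z, ∑' β, h y β z ∂μ := by
  have hint : ∀ y β, Integrable (h y β) μ := fun y β =>
    ⟨h1 y β, lt_of_le_of_lt (ENNReal.le_tsum β) (h2 y).lt_top⟩
  have hsum : ∀ y, Summable fun β => ∫ z, h y β z ∂μ := by
    intro y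
    apply Summable.of_norm
    apply Summable.of_nonneg_of_le (fun _ => norm_nonneg _) (fun β => ?_)
      (ENNReal.summable_toReal (h2 y))
    rw [← integral_norm_eq_lintegral_enorm (h1 y β)]
    exact norm_integral_le_integral_norm _
  have hm1 : ∀ β, AEStronglyMeasurable (fun z => ∑ y, h y β z) μ := by
    intro β
    have h3 := Finset.aestronglyMeasurable_sum (μ := μ) Finset.univ
      (f := fun y z => h y β z) (fun y _ => h1 y β)
    have h4 : (∑ y : U, (fun y z => h y β z) y) = fun z => ∑ y, h y β z := by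
      funext z
      rw [Finset.sum_apply]
    rw [h4] at h3
    exact h3
  have hm2 : ∑' β, ∫⁻ z, ‖∑ y, h y β z‖ₑ ∂μ ≠ ⊤ := by
    have h3 : ∀ β, ∫⁻ z, ‖∑ y, h y β z‖ₑ ∂μ ≤ ∑ y, ∫⁻ z, ‖h y β z‖ₑ ∂μ := by
      intro β
      rw [← lintegral_finsetSum' _ (fun y _ => (h1 y β).enorm)]
      exact lintegral_mono fun z => enorm_sum_le _ _
    apply ne_of_lt
    apply lt_of_le_of_lt (ENNReal.tsum_le_tsum h3)
    rw [Summable.tsum_finsetSum (fun _ _ => ENNReal.summable)]
    exact ENNReal.sum_lt_top.2 fun y _ => (h2 y).lt_top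
  rw [integral_tsum hm1 hm2]
  have h3 : ∀ β, ∫ z, ∑ y, h y β z ∂μ = ∑ y, ∫ z, h y β z ∂μ := fun β =>
    integral_finsetSum _ fun y _ => hint y β
  simp_rw [h3]
  rw [Summable.tsum_finsetSum (fun y _ => hsum y)]
  apply Finset.sum_congr rfl
  intro y _
  rw [integral_tsum (h1 y) (h2 y)]

section prod

variable {X U : Type} [MeasurableSpace X] [MeasurableSpace U] [MeasurableSingletonClass U]
  [Fintype U] {μ : Measure X} [SFinite μ]

theorem hsb_lint {f : X × U → ENNReal} (hf : Measurable f) :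
    ∫⁻ p, f p ∂(μ.prod Measure.count) = ∑ u, ∫⁻ x, f (x, u) ∂μ := by
  rw [lintegral_prod_symm' f hf, lintegral_count, tsum_fintype]

theorem hsb_integrable {f : X × U → ℂ} (hf : Measurable f)
    (h : ∀ u, ∫⁻ x, ‖f (x, u)‖ₑ ∂μ < ⊤) : Integrable f (μ.prod Measure.count) := by
  refine ⟨hf.aestronglyMeasurable, ?_⟩
  rw [hasFiniteIntegral_iff_enorm, hsb_lint hf.enorm]
  exact ENNReal.sum_lt_top.2 fun u _ => h u

theorem hsb_int {f : X × U → ℂ} (hf : Integrable f (μ.prod Measure.count)) :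
    ∫ p, f p ∂(μ.prod Measure.count) = ∑ u, ∫ x, f (x, u) ∂μ := by
  rw [integral_prod_symm f hf, integral_count]

end prod

/-! ### the kernel -/

open Classical in
/-- the terms of the kernel -/
noncomputable def hsbt {m : ℕ} (O : Subring (Mat m)) (d : ℤ) {R : Type} [Ring R] (π : Mat m → R)
    (Φ : Mat m → ℂ) (r : ℝ) (β : Dual O) (p w : V m × Rˣ) : ℂ :=
  if bt d π (β : Mat m) * (w.2 : R) = (p.2 : R) then Φ (kk r (mt p.1) (β : Mat m) (mt w.1)) else 0

/-- the kernel -/
noncomputable def hsbK {m : ℕ} (O : Subring (Mat m)) (d : ℤ) {R : Type} [Ring R] (π : Mat m → R)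
    (Φ : Mat m → ℂ) (r : ℝ) (p w : V m × Rˣ) : ℂ := ∑' β : Dual O, hsbt O d π Φ r β p w

theorem hsbt_pos {m : ℕ} {O : Subring (Mat m)} {d : ℤ} {R : Type} [Ring R] {π : Mat m → R}
    {Φ : Mat m → ℂ} {r : ℝ} {β : Dual O} {p w : V m × Rˣ}
    (h : bt d π (β : Mat m) * (w.2 : R) = (p.2 : R)) :
    hsbt O d π Φ r β p w = Φ (kk r (mt p.1) (β : Mat m) (mt w.1)) := by
  unfold hsbt
  rw [if_pos h]

theorem hsbt_neg {m : ℕ} {O : Subring (Mat m)} {d : ℤ} {R : Type} [Ring R] {π : Mat m → R}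
    {Φ : Mat m → ℂ} {r : ℝ} {β : Dual O} {p w : V m × Rˣ}
    (h : ¬ bt d π (β : Mat m) * (w.2 : R) = (p.2 : R)) :
    hsbt O d π Φ r β p w = 0 := by
  unfold hsbt
  rw [if_neg h]

theorem hsb_kk {m : ℕ} (hMSR : T_MSR) (r : ℝ) (β : Mat m) :
    Measurable fun p : V m × V m => ((fun i j => kk r (mt p.1) β (mt p.2) i j) : V m) := by
  obtain ⟨_, _, _, _, _, _, h1, _⟩ := hMSR.1 m
  exact h1 r β

theorem hsb_comp {X Y Z : Type} [MeasurableSpace X] [MeasurableSpace Y] [MeasurableSpace Z]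
    {f : Y → Z} (hf : Measurable f) {w : X → Y} (hw : Measurable w) :
    Measurable fun x => f (w x) := hf.comp hw

theorem hsb_comp2 {X Y Z W : Type} [MeasurableSpace X] [MeasurableSpace Y] [MeasurableSpace Z]
    [MeasurableSpace W] (f : X → Y → Z) (hf : Measurable fun p : X × Y => f p.1 p.2) {u : W → X}
    {v : W → Y} (hu : Measurable u) (hv : Measurable v) : Measurable fun w => f (u w) (v w) :=
  hf.comp (hu.prodMk hv)

section meas

variable {m : ℕ} {R : Type} [Ring R] [Fintype R] [MeasurableSpace Rˣ] [MeasurableSingletonClass Rˣ]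

theorem hsb_set (Q : Rˣ → Rˣ → Prop) :
    MeasurableSet {z : (V m × Rˣ) × (V m × Rˣ) | Q z.1.2 z.2.2} := by
  have h1 : Measurable fun z : (V m × Rˣ) × (V m × Rˣ) => (z.1.2, z.2.2) :=
    (measurable_fst.snd).prodMk (measurable_snd.snd)
  have h2 : MeasurableSet {q : Rˣ × Rˣ | Q q.1 q.2} := (Set.to_countable _).measurableSet
  exact h1 h2

theorem hsb_meas_t (hMSR : T_MSR) {O : Subring (Mat m)} (d : ℤ) (π : Mat m → R) {Φ : Mat m → ℂ}
    (hΦ : Continuous Φ) (r : ℝ) (β : Dual O) :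
    Measurable fun z : (V m × Rˣ) × (V m × Rˣ) => hsbt O d π Φ r β z.1 z.2 := by
  unfold hsbt
  apply Measurable.ite
  · exact hsb_set (fun (a b : Rˣ) => bt d π (β : Mat m) * (b : R) = (a : R))
  · obtain ⟨_, _, _, _, _, _, _, h2⟩ := hMSR.1 m
    have h1 := hsb_comp (h2 Φ hΦ) (hsb_kk hMSR r (β : Mat m))
    have h3 : (fun p : V m × V m => Φ (kk r (mt p.1) (β : Mat m) (mt p.2))) =
        fun p : V m × V m => Φ (mt (fun i j => kk r (mt p.1) (β : Mat m) (mt p.2) i j : V m)) := by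
      funext p
      congr 1
    have h4 : Measurable fun p : V m × V m => Φ (kk r (mt p.1) (β : Mat m) (mt p.2)) := by
      rw [h3]
      exact h1
    exact hsb_comp2 (fun a b : V m => Φ (kk r (mt a) (β : Mat m) (mt b))) h4
      (measurable_fst.fst) (measurable_snd.fst)
  · exact measurable_const

theorem hsb_meas_K (hMSR : T_MSR) {O : Subring (Mat m)} {b : Module.Basis (Fin m × Fin m) ℝ (Mat m)}
    (hO : DivOrder m O b) (d : ℤ) (π : Mat m → R) {Φ : Mat m → ℂ}
    (hΦ : Continuous Φ) (r : ℝ) :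
    Measurable fun z : (V m × Rˣ) × (V m × Rˣ) => hsbK O d π Φ r z.1 z.2 := by
  have hco : Countable (Dual O) := hMSR.2.2 m O b hO
  exact hsb_meas_tsum (fun (β : Dual O) (z : (V m × Rˣ) × (V m × Rˣ)) =>
    hsbt O d π Φ r β z.1 z.2) (fun β => hsb_meas_t hMSR d π hΦ r β)

theorem hsb_meas_Kp (hMSR : T_MSR) {O : Subring (Mat m)}
    {b : Module.Basis (Fin m × Fin m) ℝ (Mat m)} (hO : DivOrder m O b) (π : Mat m → R) (u : Rˣ)
    (N r : ℝ) : Measurable fun z : (V m × Rˣ) × (V m × Rˣ) =>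
      Kp O π u N r (mt z.1.1) z.1.2 (mt z.2.1) z.2.2 := by
  have hco : Countable O := (hMSR.2.1 m O b hO).1
  unfold Kp
  apply Measurable.ennreal_tsum
  intro α
  apply Measurable.ite
  · exact hsb_set (fun (a b : Rˣ) => π (α : Mat m) * (a : R) = (u : R) * (b : R))
  · have h1 : Measurable fun p : V m × V m => sz (kk r (mt p.1) (α : Mat m) (mt p.2)) := by
      have h5 : (fun p : V m × V m => sz (kk r (mt p.1) (α : Mat m) (mt p.2))) =
          fun p : V m × V m => ‖((fun i j => kk r (mt p.1) (α : Mat m) (mt p.2) i j) : V m)‖ := by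
        funext p
        rw [sz]
      rw [h5]
      exact Measurable.norm (hsb_kk hMSR r (α : Mat m))
    have h2 : Measurable fun z : (V m × Rˣ) × (V m × Rˣ) =>
        sz (kk r (mt z.2.1) (α : Mat m) (mt z.1.1)) :=
      hsb_comp2 (fun a b : V m => sz (kk r (mt a) (α : Mat m) (mt b))) h1
        (measurable_snd.fst) (measurable_fst.fst)
    exact ((measurable_const.add h2).pow_const _).ennreal_ofReal
  · exact measurable_const

end meas

/-- the operator as an integral operator -/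
theorem hsb_op (hMSR : T_MSR) (hFNT : T_FNT) {m : ℕ} {O : Subring (Mat m)}
    {b : Module.Basis (Fin m × Fin m) ℝ (Mat m)} {d : ℤ} (ho : Ord m O b d) (hd : d ≠ 0)
    {q : ℕ} {R : Type} [Ring R] [Fintype R] [Fintype Rˣ] [MeasurableSpace Rˣ]
    [MeasurableSingletonClass Rˣ] {π : Mat m → R} {σ : R → Mat m} (hl : Red m q O π σ) [Nontrivial R]
    {D : Set (V m)} (hD : Dom m O D) {Φ : Mat m → ℂ} (hΦ : Continuous Φ) {M s : ℝ} (hM : 0 ≤ M)
    (hs : (m : ℝ) ^ 2 < s) (hb : ∀ z, ‖Φ z‖ ≤ M * (1 + sz z) ^ (-s)) {M1 : ℝ} (hM1 : 0 ≤ M1)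
    {r : ℝ} (hr : 0 < r) {G : Mat m → R → ℂ} {f : V m × Rˣ → ℂ} (hf : Measurable f)
    (hfb : ∀ z ∈ D, ∀ y, ‖f (z, y)‖ ≤ M1) (hfG : ∀ z ∈ D, ∀ y : Rˣ, G (mt z) (y : R) = f (z, y))
    {g : V m} (hg : (mt g).det ≠ 0) (x : Rˣ) [SFinite (hm m)] :
    opB O d π Φ r D G (mt g) (x : R) =
      ∫ w, hsbK O d π Φ r (g, x) w * f w ∂(((hm m).restrict D).prod Measure.count) := by
  have hco : Countable (Dual O) := hMSR.2.2 m O b ho.ord
  have hK := hsb_meas_K (b := b) hMSR ho.ord d π hΦ r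
  set h : Rˣ → Dual O → V m → ℂ := fun y β z => hsbt O d π Φ r β (g, x) (z, y) * f (z, y) with hh
  have ht : ∀ y, (∀ β, AEStronglyMeasurable (h y β) ((hm m).restrict D)) ∧
      ∑' β, ∫⁻ z in D, ‖h y β z‖ₑ ∂(hm m) ≠ ⊤ := by
    intro y
    refine wcm_terms hMSR hFNT ho hd hD hΦ hM hs hb hM1 hr hg
      (fun β => bt d π (β : Mat m) * (y : R) = (x : R)) ?_
      (fun β z => f (z, y)) (h y) (fun β z hz => hfb z hz y)
      (fun β => (hf.comp (measurable_id.prodMk measurable_const)).aestronglyMeasurable)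
      (fun β h1 z => ?_) (fun β h1 z => ?_)
    · intro β h1 h2
      rw [h2, wcm_bt_zero hl, zero_mul] at h1
      exact x.ne_zero h1.symm
    · simp only [hh]
      rw [hsbt_pos h1]
    · simp only [hh]
      rw [hsbt_neg h1, zero_mul]
  have hKf : ∀ y z, hsbK O d π Φ r (g, x) (z, y) * f (z, y) = ∑' β, h y β z := by
    intro y z
    simp only [hh, hsbK]
    rw [tsum_mul_right]
  have hmeas : Measurable fun w => hsbK O d π Φ r (g, x) w * f w :=
    (hK.comp (measurable_const.prodMk measurable_id)).mul hf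
  rw [hsb_int]
  · rw [wcm_opB]
    have h1 : ∫ z in D, ∑' β, wcmT O d π Φ r G (mt g) (x : R) β z ∂(hm m) =
        ∫ z in D, ∑' β, ∑ y, h y β z ∂(hm m) := by
      apply setIntegral_congr_fun hD.meas
      intro z hz
      apply tsum_congr
      intro β
      by_cases hu : IsUnit (bt d π (β : Mat m))
      · rw [wcmT_pos hu]
        obtain ⟨u, hu⟩ := hu
        rw [Finset.sum_eq_single (u⁻¹ * x)]
        · simp only [hh]
          rw [hsbt_pos, ← hu, Ring.inverse_unit, ← Units.val_mul, hfG z hz]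
          rw [← hu, ← Units.val_mul, mul_inv_cancel_left]
        · intro y _ hy
          simp only [hh]
          rw [hsbt_neg, zero_mul]
          intro h2
          apply hy
          rw [← hu, ← Units.val_mul] at h2
          have h3 := Units.ext h2
          change u * y = x at h3
          rw [← h3, inv_mul_cancel_left]
        · intro h2
          exact absurd (Finset.mem_univ _) h2
      · rw [wcmT_neg hu]
        symm
        apply Finset.sum_eq_zero
        intro y _
        simp only [hh]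
        rw [hsbt_neg, zero_mul]
        intro h2
        apply hu
        have h3 : bt d π (β : Mat m) = (x : R) * ((y⁻¹ : Rˣ) : R) := by
          change bt d π (β : Mat m) * (y : R) = (x : R) at h2
          rw [← h2, mul_assoc, Units.mul_inv, mul_one]
        rw [h3]
        exact x.isUnit.mul (y⁻¹).isUnit
    rw [h1, hsb_swap h (fun y => (ht y).1) (fun y => (ht y).2)]
    apply Finset.sum_congr rfl
    intro y _
    apply integral_congr_ae
    filter_upwards with z
    rw [hKf]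
  · apply hsb_integrable hmeas
    intro y
    apply lt_of_le_of_lt _ (ht y).2.lt_top
    rw [← lintegral_tsum (fun β => ((ht y).1 β).enorm)]
    apply lintegral_mono
    intro z
    simp only [hKf]
    exact hsb_enorm_tsum _

/-! ### the majorant -/

theorem hsb_sz_smul {m : ℕ} (c : ℝ) (w : Mat m) : sz (c • w) = |c| * sz w := by
  have h1 : ((fun i j => (c • w) i j) : V m) = c • ((fun i j => w i j) : V m) := by
    funext i j
    rfl
  rw [sz, h1, norm_smul, Real.norm_eq_abs, sz]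

theorem hsb_sz_kk {m : ℕ} {d : ℝ} (hd : d ≠ 0) (r : ℝ) (g h β : Mat m) :
    sz (kk (r * |d|) g (d • β) h) = sz (kk r g β h) := by
  unfold kk
  rw [Matrix.mul_smul, Matrix.smul_mul, smul_smul, hsb_sz_smul, hsb_sz_smul]
  congr 1
  rw [mul_inv, abs_mul, abs_div, abs_div, abs_mul, abs_mul, abs_mul, abs_inv |d|, abs_abs]
  have : |d| ≠ 0 := abs_ne_zero.2 hd
  field_simp

theorem hsb_maj {m : ℕ} {O : Subring (Mat m)} {d : ℤ} (hd : d ≠ 0) {R : Type} [Ring R]
    {π : Mat m → R} (hdual : ∀ β ∈ Dual O, ((d : ℝ) • β) ∈ O) {u : Rˣ} (hu : (u : R) = (d : R))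
    {Φ : Mat m → ℂ} {M N : ℝ} (hM : 0 ≤ M)
    (hb : ∀ z, ‖Φ z‖ ≤ M * (1 + sz z) ^ (-N)) (r : ℝ) (p w : V m × Rˣ) :
    ENNReal.ofReal ‖hsbK O d π Φ r p w‖ ≤
      ENNReal.ofReal M * Kp O π u N (r * |(d : ℝ)|) (mt w.1) w.2 (mt p.1) p.2 := by
  have hd' : (d : ℝ) ≠ 0 := by exact_mod_cast hd
  rw [ofReal_norm]
  unfold hsbK Kp
  refine (hsb_enorm_tsum _).trans ?_
  rw [← ENNReal.tsum_mul_left]
  set e : Dual O → O := fun β => ⟨(d : ℝ) • (β : Mat m), hdual _ β.2⟩ with he
  have hinj : Function.Injective e := by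
    intro a b hab
    have h1 := congrArg Subtype.val hab
    simp only [he] at h1
    apply Subtype.ext
    exact smul_right_injective _ hd' h1
  refine le_trans ?_ (ENNReal.tsum_comp_le_tsum_of_injective hinj _)
  apply ENNReal.tsum_le_tsum
  intro β
  by_cases h : bt d π (β : Mat m) * (w.2 : R) = (p.2 : R)
  · rw [hsbt_pos h]
    have h1 : π ((e β : O) : Mat m) * (w.2 : R) = (u : R) * (p.2 : R) := by
      simp only [he]
      unfold bt at h
      rw [← h, ← hu, Ring.inverse_unit, mul_assoc, Units.mul_inv_cancel_left]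
    rw [if_pos h1, ← ENNReal.ofReal_mul hM, ← ofReal_norm]
    apply ENNReal.ofReal_le_ofReal
    refine (hb _).trans (le_of_eq ?_)
    simp only [he]
    rw [hsb_sz_kk hd']
  · rw [hsbt_neg h, enorm_zero]
    exact bot_le

section rhs

variable {X U : Type} [MeasurableSpace X] [MeasurableSpace U] [MeasurableSingletonClass U]
  [Fintype U] {μ : Measure X} [SFinite μ]

theorem hsb_rhs (κ : X × U → X × U → ENNReal)
    (hκ : Measurable fun z : (X × U) × (X × U) => κ z.1 z.2) (c : ENNReal) :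
    ∫⁻ p, ∫⁻ w, (∫⁻ v, (c * κ v p) * (c * κ w v) ∂(μ.prod Measure.count)) ^ 2
      ∂(μ.prod Measure.count) ∂(μ.prod Measure.count) =
    c ^ 4 * ∫⁻ g, ∫⁻ k, ∑' x, ∑' z, (∑' y, ∫⁻ h, κ (g, x) (h, y) * κ (h, y) (k, z) ∂μ) ^ 2
      ∂μ ∂μ := by
  have hκ2 : ∀ {W : Type} [MeasurableSpace W] {a b : W → X × U}, Measurable a → Measurable b →
      Measurable fun w => κ (a w) (b w) := fun {W} _ {a b} ha hb => hκ.comp (ha.prodMk hb)
  set L : X × U → X × U → ENNReal := fun a b => ∫⁻ v, κ a v * κ v b ∂(μ.prod Measure.count)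
    with hL
  have hLm : Measurable fun z : (X × U) × (X × U) => L z.1 z.2 := by
    simp only [hL]
    apply Measurable.lintegral_prod_right' (f := fun z : ((X × U) × (X × U)) × (X × U) =>
      κ z.1.1 z.2 * κ z.2 z.1.2)
    exact (hκ2 measurable_fst.fst measurable_snd).mul (hκ2 measurable_snd measurable_fst.snd)
  have hL2 : ∀ {W : Type} [MeasurableSpace W] {a b : W → X × U}, Measurable a → Measurable b →
      Measurable fun w => L (a w) (b w) := fun {W} _ {a b} ha hb => hLm.comp (ha.prodMk hb)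
  have hk1 : ∀ p w : X × U, Measurable fun v => κ w v * κ v p := fun p w =>
    (hκ2 (a := fun _ => w) (b := fun v => v) measurable_const measurable_id).mul
      (hκ2 (a := fun v => v) (b := fun _ => p) measurable_id measurable_const)
  have hk2 : ∀ p, Measurable fun w => L w p ^ 2 := fun p =>
    (hL2 (a := fun w => w) (b := fun _ => p) measurable_id measurable_const).pow_const 2
  have hk3 : ∀ a, Measurable fun w => L a w ^ 2 := fun a =>
    (hL2 (a := fun _ => a) (b := fun w => w) measurable_const measurable_id).pow_const 2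
  have h1 : ∀ p w, ∫⁻ v, (c * κ v p) * (c * κ w v) ∂(μ.prod Measure.count) =
      c ^ 2 * L w p := by
    intro p w
    simp only [hL]
    rw [← lintegral_const_mul _ (hk1 p w)]
    apply lintegral_congr
    intro v
    ring
  have h2 : ∫⁻ p, ∫⁻ w, (∫⁻ v, (c * κ v p) * (c * κ w v) ∂(μ.prod Measure.count)) ^ 2
      ∂(μ.prod Measure.count) ∂(μ.prod Measure.count) =
      c ^ 4 * ∫⁻ p, ∫⁻ w, L w p ^ 2 ∂(μ.prod Measure.count) ∂(μ.prod Measure.count) := by
    have h3 : Measurable fun p => ∫⁻ w, L w p ^ 2 ∂(μ.prod Measure.count) := by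
      apply Measurable.lintegral_prod_right' (f := fun z : (X × U) × (X × U) => L z.2 z.1 ^ 2)
      exact (hL2 measurable_snd measurable_fst).pow_const 2
    rw [← lintegral_const_mul _ h3]
    apply lintegral_congr
    intro p
    rw [← lintegral_const_mul _ (hk2 p)]
    apply lintegral_congr
    intro w
    rw [h1, mul_pow, ← pow_mul]
  rw [h2]
  congr 1
  rw [lintegral_lintegral_swap (f := fun p w => L w p ^ 2)
    ((hL2 measurable_snd measurable_fst).pow_const 2).aemeasurable]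
  have h4 : ∀ x z, Measurable fun g => ∫⁻ k, L (g, x) (k, z) ^ 2 ∂μ := by
    intro x z
    apply Measurable.lintegral_prod_right' (f := fun t : X × X => L (t.1, x) (t.2, z) ^ 2)
    exact (hL2 (measurable_fst.prodMk measurable_const)
      (measurable_snd.prodMk measurable_const)).pow_const 2
  have h5 : ∀ a, ∫⁻ w, L a w ^ 2 ∂(μ.prod Measure.count) = ∑ z, ∫⁻ k, L a (k, z) ^ 2 ∂μ := by
    intro a
    rw [hsb_lint (hk3 a)]
  simp_rw [h5]
  rw [hsb_lint]
  · have h6 : ∀ g k x z, (∑' y, ∫⁻ h, κ (g, x) (h, y) * κ (h, y) (k, z) ∂μ) =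
        L (g, x) (k, z) := by
      intro g k x z
      simp only [hL]
      rw [hsb_lint (hk1 _ _), tsum_fintype]
    simp_rw [h6, tsum_fintype]
    have h7 : ∀ g, ∫⁻ k, ∑ x, ∑ z, L (g, x) (k, z) ^ 2 ∂μ =
        ∑ x, ∑ z, ∫⁻ k, L (g, x) (k, z) ^ 2 ∂μ := by
      intro g
      have h8 : ∀ x z, Measurable fun k => L (g, x) (k, z) ^ 2 := fun x z =>
        (hL2 measurable_const (measurable_id.prodMk measurable_const)).pow_const 2
      rw [lintegral_finsetSum _ fun x _ => Finset.measurable_sum _ fun z _ => h8 x z]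
      apply Finset.sum_congr rfl
      intro x _
      rw [lintegral_finsetSum _ fun z _ => h8 x z]
    simp_rw [h7]
    rw [lintegral_finsetSum _ fun x _ => Finset.measurable_sum _ fun z _ => h4 x z]
  · apply Finset.measurable_sum
    intro z _
    apply Measurable.lintegral_prod_right' (f := fun t : (X × U) × X => L t.1 (t.2, z) ^ 2)
    exact (hL2 measurable_fst (measurable_snd.prodMk measurable_const)).pow_const 2

end rhs

/-! ### forms -/

theorem hsb_det {m : ℕ} (hm1 : 1 ≤ m) {O : Subring (Mat m)} {D : Set (V m)} (hD : Dom m O D)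
    {z : V m} (hz : z ∈ D) : (mt z).det ≠ 0 := by
  intro h0
  have h1 := (hD.shell z hz).1
  have h2 : (1 : ℝ) / (m : ℝ) ≠ 0 := by
    have : (0 : ℝ) < m := by exact_mod_cast hm1
    positivity
  rw [aN, h0, abs_zero, Real.zero_rpow h2] at h1
  norm_num at h1

open Classical in
/-- a form as a measurable function -/
noncomputable def hsbf {m : ℕ} {R : Type} [Ring R] (F : Mat m → R → ℂ) (p : V m × Rˣ) : ℂ :=
  if (mt p.1).det ≠ 0 then F (mt p.1) (p.2 : R) else 0

theorem hsbf_pos {m : ℕ} {R : Type} [Ring R] {F : Mat m → R → ℂ} {z : V m} (y : Rˣ)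
    (h : (mt z).det ≠ 0) : hsbf F (z, y) = F (mt z) (y : R) := by
  unfold hsbf
  rw [if_pos h]

theorem hsbf_meas {m : ℕ} {R : Type} [Ring R] [Fintype R] [MeasurableSpace Rˣ]
    [MeasurableSingletonClass Rˣ] {F : Mat m → R → ℂ}
    (hF : ∀ x, ContinuousOn (fun g => F g x) {g | g.det ≠ 0}) : Measurable (hsbf F) := by
  classical
  apply measurable_from_prod_countable_left
  intro y
  have hcont : Continuous fun z : V m => (mt z).det := by
    have h1 : Continuous fun z : V m => mt z := continuous_id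
    exact h1.matrix_det
  set S : Set (V m) := {z | (mt z).det ≠ 0} with hS
  have hSo : IsOpen S := isOpen_ne_fun hcont continuous_const
  have h2 : ContinuousOn (fun z : V m => F (mt z) (y : R)) S := by
    apply (hF (y : R)).comp (t := {g : Mat m | g.det ≠ 0})
    · exact (continuous_id : Continuous fun z : V m => (mt z)).continuousOn
    · intro z hz
      exact hz
  have h3 := h2.measurable_piecewise (g := fun _ => (0 : ℂ)) continuousOn_const hSo.measurableSet
  have h4 : (fun z : V m => hsbf F (z, y)) = S.piecewise (fun z : V m => F (mt z) (y : R))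
      (fun _ => (0 : ℂ)) := by
    funext z
    by_cases h : z ∈ S
    · rw [Set.piecewise_eq_of_mem _ _ _ h, hsbf_pos y h]
    · rw [Set.piecewise_eq_of_notMem _ _ _ h]
      unfold hsbf
      rw [if_neg]
      exact h
  rw [h4]
  exact h3

theorem hsb_sum_units {R : Type} [Ring R] [Fintype R] [Fintype Rˣ] {A : Type} [AddCommMonoid A]
    (f : R → A) (h : ∀ x, ¬ IsUnit x → f x = 0) : ∑ x, f x = ∑ u : Rˣ, f (u : R) := by
  symm
  apply Fintype.sum_of_injective (fun u : Rˣ => (u : R)) Units.val_injective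
  · intro x hx
    apply h
    rintro ⟨u, rfl⟩
    exact hx ⟨u, rfl⟩
  · intro u
    rfl

theorem pf_HSB : T_UNQ → T_DUA → T_MSR → T_FNT → T_HS → T_BES → T_BDD → T_BBD → T_HSB := by
  classical
  intro hUNQ hDUA hMSR hFNT hHS hBES hBDD hBBD m O b d ho s hs
  have hm1 := ho.one_le
  have hs0 : 0 < s := lt_of_le_of_lt (by positivity) hs
  have hs2 : (m : ℝ) ^ 2 < 2 * s := by linarith
  set B : ℝ := max 1 |(d : ℝ)| with hB
  have hB1 : 1 ≤ B := le_max_left _ _
  have hB0 : 0 < B := by linarith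
  obtain ⟨C, hC, hHS1⟩ := hHS m O b d ho s B hs hB1
  refine ⟨C * B ^ (2 * s), by positivity, ?_⟩
  intro q R _ _ π σ T D hS ι _ _ F lam mu hF hO Φ M hM hΦ hb r hr hrq
  obtain ⟨hdu, hd, hdual, _⟩ := hDUA m O b d q R π σ hS.ord hS.lev
  obtain ⟨u, hu⟩ := hdu
  have hnt : Nontrivial R := wcm_nontrivial hUNQ hS.ord hS.lev
  let : MeasurableSpace Rˣ := ⊤
  have : MeasurableSingletonClass Rˣ := ⟨fun _ => trivial⟩
  have hsf : SigmaFinite (hm m) := (hMSR.1 m).2.2.2.2.1
  have hd' : (d : ℝ) ≠ 0 := by exact_mod_cast hd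
  have hdpos : 0 < |(d : ℝ)| := abs_pos.2 hd'
  set ν : Measure (V m × Rˣ) := ((hm m).restrict D).prod Measure.count with hν
  set K : V m × Rˣ → V m × Rˣ → ℂ := hsbK O d π Φ r with hK
  set P : V m × Rˣ → V m × Rˣ → ENNReal := fun p w =>
    ENNReal.ofReal M * Kp O π u (2 * s) (r * |(d : ℝ)|) (mt w.1) w.2 (mt p.1) p.2 with hP
  have hKm : Measurable fun z : (V m × Rˣ) × (V m × Rˣ) => K z.1 z.2 :=
    hsb_meas_K (b := b) hMSR ho.ord d π hΦ r
  have hKp := hsb_meas_Kp (b := b) hMSR ho.ord π u (2 * s) (r * |(d : ℝ)|)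
  -- the form as functions on the product
  have hfm : ∀ i, Measurable (hsbf (F i)) := fun i => hsbf_meas (hF i).cont
  have hfD : ∀ i, ∀ z ∈ D, ∀ y : Rˣ, F i (mt z) (y : R) = hsbf (F i) (z, y) := by
    intro i z hz y
    rw [hsbf_pos y (hsb_det hm1 hS.dom hz)]
  -- first application
  have hbdd : ∀ i, ∃ M1 : ℝ, 0 ≤ M1 ∧ ∀ g x, g.det ≠ 0 → ‖F i g x‖ ≤ M1 := fun i =>
    hBDD m q O b d R π σ T D hS (F i) (lam i) (mu i) (hF i)
  choose M1 hM10 hM1 using hbdd
  obtain ⟨C2, hC2⟩ := hBBD m q O b d R π σ T D hS Φ M (2 * s) hM hs2 hΦ hb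
  have hae : ∀ i x, AEStronglyMeasurable (fun z : V m => F i (mt z) x) ((hm m).restrict D) := by
    intro i x
    by_cases hx : IsUnit x
    · obtain ⟨y, rfl⟩ := hx
      have h1 : Measurable fun z : V m => hsbf (F i) (z, y) :=
        (hfm i).comp (measurable_id.prodMk measurable_const)
      refine h1.aestronglyMeasurable.congr ?_
      rw [Filter.EventuallyEq, ae_restrict_iff' hS.dom.meas]
      exact Filter.Eventually.of_forall fun z hz => (hfD i z hz y).symm
    · have h1 : (fun z : V m => F i (mt z) x) = fun _ => 0 := by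
        funext z
        exact (hF i).supp _ _ hx
      rw [h1]
      exact aestronglyMeasurable_const
  have hB2 := fun i => hC2 (F i) (M1 i) (hM10 i)
    (fun z hz x => hM1 i _ _ (hsb_det hm1 hS.dom hz)) (hae i)
    (fun x hx z _ => (hF i).supp _ _ hx) r hr
  set f2 : ι → V m × Rˣ → ℂ := fun i p => ∫ w, K p w * hsbf (F i) w ∂ν with hf2
  have hf2m : ∀ i, Measurable (f2 i) := by
    intro i
    apply StronglyMeasurable.measurable
    apply StronglyMeasurable.integral_prod_right' (f := fun z : (V m × Rˣ) × (V m × Rˣ) =>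
      K z.1 z.2 * hsbf (F i) z.2)
    exact (hKm.mul ((hfm i).comp measurable_snd)).stronglyMeasurable
  have hop1 : ∀ i (g : V m), (mt g).det ≠ 0 → ∀ x : Rˣ,
      opB O d π Φ r D (F i) (mt g) (x : R) = f2 i (g, x) := by
    intro i g hg x
    exact hsb_op hMSR hFNT ho hd hS.lev.red hS.dom hΦ hM hs2 hb (hM10 i) hr (hfm i)
      (fun z hz y => by
        rw [← hfD i z hz y]
        exact hM1 i _ _ (hsb_det hm1 hS.dom hz)) (hfD i) hg x
  have hop2 : ∀ i (g : V m), (mt g).det ≠ 0 → ∀ x : Rˣ,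
      opB O d π Φ r D (opB O d π Φ r D (F i)) (mt g) (x : R) =
        ∫ w, K (g, x) w * f2 i w ∂ν := by
    intro i g hg x
    refine hsb_op hMSR hFNT ho hd hS.lev.red hS.dom hΦ hM hs2 hb
      (M1 := |C2 * M1 i * r ^ (2 * s)|) (abs_nonneg _) hr (hf2m i)
      (fun z hz y => ?_) (fun z hz y => ?_) hg x
    · rw [← hop1 i z (hsb_det hm1 hS.dom hz) y]
      exact ((hB2 i).1 _ _ (hsb_det hm1 hS.dom hz)).trans (le_abs_self _)
    · exact hop1 i z (hsb_det hm1 hS.dom hz) y
  have hop0 : ∀ i (z : V m), z ∈ D → ∀ x : R, ¬ IsUnit x →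
      opB O d π Φ r D (opB O d π Φ r D (F i)) (mt z) x = 0 := by
    intro i z hz x hx
    have h1 := hC2 (opB O d π Φ r D (F i)) |C2 * M1 i * r ^ (2 * s)| (abs_nonneg _)
      (fun z hz x => ((hB2 i).1 _ _ (hsb_det hm1 hS.dom hz)).trans (le_abs_self _))
      (hB2 i).2.1 (fun x hx z hz => (hB2 i).2.2 _ _ hx) r hr
    exact h1.2.2 _ _ hx
  -- the left side
  have hL : ∀ i, ∑ x, ∫⁻ z in D, ENNReal.ofReal
      (‖opB O d π Φ r D (opB O d π Φ r D (F i)) (mt z) x‖ ^ 2) ∂(hm m) =
      ∫⁻ p, ENNReal.ofReal (‖∫ y, K p y * (∫ z, K y z * hsbf (F i) z ∂ν) ∂ν‖ ^ 2) ∂ν := by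
    intro i
    rw [hsb_sum_units]
    · have h1 : Measurable fun p => ENNReal.ofReal (‖∫ y, K p y * f2 i y ∂ν‖ ^ 2) := by
        have h2 : StronglyMeasurable fun p => ∫ y, K p y * f2 i y ∂ν := by
          apply StronglyMeasurable.integral_prod_right' (f := fun z : (V m × Rˣ) × (V m × Rˣ) =>
            K z.1 z.2 * f2 i z.2)
          exact (hKm.mul ((hf2m i).comp measurable_snd)).stronglyMeasurable
        exact (h2.measurable.norm.pow_const 2).ennreal_ofReal
      change _ = ∫⁻ p, ENNReal.ofReal (‖∫ y, K p y * f2 i y ∂ν‖ ^ 2) ∂ν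
      rw [hν, hsb_lint h1]
      apply Finset.sum_congr rfl
      intro x _
      apply setLIntegral_congr_fun hS.dom.meas
      intro z hz
      dsimp only
      rw [hop2 i z (hsb_det hm1 hS.dom hz) x]
    · intro x hx
      have h1 : ∫⁻ z in D, ENNReal.ofReal
          (‖opB O d π Φ r D (opB O d π Φ r D (F i)) (mt z) x‖ ^ 2) ∂(hm m) =
          ∫⁻ z in D, 0 ∂(hm m) := by
        apply setLIntegral_congr_fun hS.dom.meas
        intro z hz
        dsimp only
        rw [hop0 i z hz x hx, norm_zero]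
        simp
      rw [h1, lintegral_zero]
  simp_rw [hL]
  -- Bessel
  have hprod : ∀ i j (x : Rˣ), Set.EqOn (fun z => F i (mt z) (x : R) *
      (starRingEnd ℂ) (F j (mt z) (x : R))) (fun z => hsbf (F i) (z, x) *
        (starRingEnd ℂ) (hsbf (F j) (z, x))) D := by
    intro i j x z hz
    dsimp only
    rw [hfD i z hz x, hfD j z hz x]
  have hint : ∀ i j, Integrable (fun p => hsbf (F i) p * (starRingEnd ℂ) (hsbf (F j) p)) ν := by
    intro i j
    apply hsb_integrable ((hfm i).mul (Complex.continuous_conj.measurable.comp (hfm j)))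
    intro x
    exact ((hO.1 i j (x : R)).congr_fun (hprod i j x) hS.dom.meas).2
  have horth : ∀ i j, ∫ p, hsbf (F i) p * (starRingEnd ℂ) (hsbf (F j) p) ∂ν =
      if i = j then 1 else 0 := by
    intro i j
    have h0 : ∑ x : R, ∫ z in D, F i (mt z) x * (starRingEnd ℂ) (F j (mt z) x) ∂(hm m) =
        ∑ u : Rˣ, ∫ z in D, F i (mt z) (u : R) * (starRingEnd ℂ) (F j (mt z) (u : R)) ∂(hm m) := by
      apply hsb_sum_units (fun x : R =>
        ∫ z in D, F i (mt z) x * (starRingEnd ℂ) (F j (mt z) x) ∂(hm m))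
      intro x hx
      have h1 : ∀ z : V m, F i (mt z) x * (starRingEnd ℂ) (F j (mt z) x) = 0 := by
        intro z
        rw [(hF i).supp _ _ hx, zero_mul]
      simp_rw [h1]
      exact integral_zero _ _
    rw [← hO.2 i j, h0, hsb_int (hint i j)]
    apply Finset.sum_congr rfl
    intro x _
    exact (setIntegral_congr_fun hS.dom.meas (hprod i j x)).symm
  have hPm : Measurable (Function.uncurry P) := by
    have h1 : Measurable fun z : (V m × Rˣ) × (V m × Rˣ) =>
        Kp O π u (2 * s) (r * |(d : ℝ)|) (mt z.2.1) z.2.2 (mt z.1.1) z.1.2 :=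
      hsb_comp2 (fun a c : V m × Rˣ => Kp O π u (2 * s) (r * |(d : ℝ)|) (mt a.1) a.2 (mt c.1) c.2)
        hKp measurable_snd measurable_fst
    exact h1.const_mul _
  have hbes := hBES (V m × Rˣ) ν ι (fun i => hsbf (F i)) K P hfm hint horth hKm hPm
    (fun p w => hsb_maj hd hdual hu hM hb r p w)
  refine hbes.trans ?_
  rw [hP, hν]
  have hr1 := hsb_rhs (μ := (hm m).restrict D) (fun a c : V m × Rˣ =>
    Kp O π u (2 * s) (r * |(d : ℝ)|) (mt a.1) a.2 (mt c.1) c.2) hKp (ENNReal.ofReal M)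
  dsimp only at hr1 ⊢
  rw [hr1]
  have hr2 : r * |(d : ℝ)| ≤ B * Real.sqrt q := by
    calc r * |(d : ℝ)| ≤ Real.sqrt q * B :=
          mul_le_mul hrq (le_max_right _ _) (abs_nonneg _) (Real.sqrt_nonneg _)
      _ = B * Real.sqrt q := mul_comm _ _
  have h3 := hHS1 q R π σ hS.lev u (fun a => by rw [hu]; exact Int.cast_comm d a)
    (r * |(d : ℝ)|) (mul_pos hr hdpos) hr2 D hS.dom
  calc ENNReal.ofReal M ^ 4 * _ ≤ ENNReal.ofReal M ^ 4 *
        ENNReal.ofReal (C * (q : ℝ) ^ (m ^ 2) * (r * |(d : ℝ)|) ^ (2 * s)) := by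
        gcongr
    _ = ENNReal.ofReal (M ^ 4 * (C * (q : ℝ) ^ (m ^ 2) * (r * |(d : ℝ)|) ^ (2 * s))) := by
        rw [← ENNReal.ofReal_pow hM, ← ENNReal.ofReal_mul (by positivity)]
    _ ≤ ENNReal.ofReal (M ^ 4 * (C * B ^ (2 * s)) * (q : ℝ) ^ (m ^ 2) * r ^ (2 * s)) := by
        apply ENNReal.ofReal_le_ofReal
        rw [Real.mul_rpow hr.le (abs_nonneg _)]
        have h4 : |(d : ℝ)| ^ (2 * s) ≤ B ^ (2 * s) :=
          Real.rpow_le_rpow (abs_nonneg _) (le_max_right _ _) (by linarith)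
        have h5 : 0 ≤ M ^ 4 * C * (q : ℝ) ^ (m ^ 2) * r ^ (2 * s) := by positivity
        nlinarith [mul_le_mul_of_nonneg_left h4 h5]

end Pool.Agent.H34.GM
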