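import Pool.Agent.H34.GM.Targets

/-!
Row HSL of gmf_modules: the discrete part of the Hilbert-Schmidt bound.
-/

namespace Pool.Agent.H34.GM

open MeasureTheory

namespace HSLrow

theorem sz_mul {m : ℕ} (a b : Mat m) : sz (a * b) ≤ m * (sz a * sz b) := by
  have h1 : ∀ (z : Mat m) i j, |z i j| ≤ sz z := by
    intro z i j
    have e1 := norm_le_pi_norm ((fun i j => z i j) : V m) i
    have e2 := norm_le_pi_norm (((fun i j => z i j) : V m) i) j
    rw [← Real.norm_eq_abs]
    exact e2.trans e1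
  have h0 : 0 ≤ (m : ℝ) * (sz a * sz b) :=
    mul_nonneg (Nat.cast_nonneg _) (mul_nonneg (norm_nonneg _) (norm_nonneg _))
  refine (pi_norm_le_iff_of_nonneg h0).2 fun i => ?_
  refine (pi_norm_le_iff_of_nonneg h0).2 fun j => ?_
  change ‖(a * b) i j‖ ≤ _
  rw [Real.norm_eq_abs, Matrix.mul_apply]
  calc |∑ k, a i k * b k j| ≤ ∑ k, |a i k * b k j| := Finset.abs_sum_le_sum_abs _ _
    _ ≤ ∑ _k : Fin m, sz a * sz b := by
        refine Finset.sum_le_sum fun k _ => ?_
        rw [abs_mul]
        exact mul_le_mul (h1 a i k) (h1 b k j) (abs_nonneg _) (norm_nonneg _)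
    _ = m * (sz a * sz b) := by
        rw [Finset.sum_const, Finset.card_univ, Fintype.card_fin, nsmul_eq_mul]

theorem cs {ι : Type} (g h S : ι → ENNReal) (hg : ∀ i, g i * h i = 1) :
    (∑' i, S i) ^ 2 ≤ 2 * ((∑' i, g i) * ∑' i, h i * S i ^ 2) := by
  have key : ∀ i j, S i * S j ≤ g i * (h j * S j ^ 2) + g j * (h i * S i ^ 2) := by
    intro i j
    rcases le_total (g j * S i) (g i * S j) with hh | hh
    · calc S i * S j = (g j * h j) * (S i * S j) := by rw [hg, one_mul]
        _ = (g j * S i) * (h j * S j) := by ring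
        _ ≤ (g i * S j) * (h j * S j) := mul_le_mul' hh le_rfl
        _ = g i * (h j * S j ^ 2) := by ring
        _ ≤ _ := le_self_add
    · calc S i * S j = (g i * h i) * (S i * S j) := by rw [hg, one_mul]
        _ = (g i * S j) * (h i * S i) := by ring
        _ ≤ (g j * S i) * (h i * S i) := mul_le_mul' hh le_rfl
        _ = g j * (h i * S i ^ 2) := by ring
        _ ≤ _ := le_add_self
  calc (∑' i, S i) ^ 2 = ∑' i, ∑' j, S i * S j := by
        rw [sq, ← ENNReal.tsum_mul_right]
        refine tsum_congr fun i => ?_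
        rw [ENNReal.tsum_mul_left]
    _ ≤ ∑' i, ∑' j, (g i * (h j * S j ^ 2) + g j * (h i * S i ^ 2)) :=
        ENNReal.tsum_le_tsum fun i => ENNReal.tsum_le_tsum fun j => key i j
    _ = ∑' i, (g i * (∑' j, h j * S j ^ 2) + (∑' j, g j) * (h i * S i ^ 2)) := by
        refine tsum_congr fun i => ?_
        rw [ENNReal.tsum_add, ENNReal.tsum_mul_left, ENNReal.tsum_mul_right]
    _ = 2 * ((∑' i, g i) * ∑' i, h i * S i ^ 2) := by
        rw [ENNReal.tsum_add, ENNReal.tsum_mul_right, ENNReal.tsum_mul_left, two_mul]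

/-- grouping by the value of a map -/
theorem group {α β : Type} [DecidableEq β] (f : α → β) (w : α → ENNReal) (Q : β → Prop)
    [DecidablePred Q] :
    ∑' p, (if Q (f p) then w p else 0) =
      ∑' c : {c : β // Q c}, ∑' p, (if f p = (c : β) then w p else 0) := by
  have e1 : ∑' c : {c : β // Q c}, ∑' p, (if f p = (c : β) then w p else 0) =
      ∑' c : β, {c | Q c}.indicator (fun c => ∑' p, (if f p = c then w p else 0)) c :=
    tsum_subtype {c : β | Q c} (fun c => ∑' p, (if f p = c then w p else 0))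
  rw [e1]
  have e2 : ∀ c : β, {c | Q c}.indicator (fun c => ∑' p, (if f p = c then w p else 0)) c =
      ∑' p, (if c = f p then (if Q c then w p else 0) else 0) := by
    intro c
    by_cases h : Q c
    · rw [Set.indicator_of_mem (by exact h)]
      refine tsum_congr fun p => ?_
      by_cases h2 : f p = c
      · rw [if_pos h2, if_pos h2.symm, if_pos h]
      · rw [if_neg h2, if_neg (Ne.symm h2)]
    · rw [Set.indicator_of_notMem (by exact h)]
      symm
      rw [ENNReal.tsum_eq_zero]
      intro p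
      by_cases h2 : c = f p
      · rw [if_pos h2, if_neg h]
      · rw [if_neg h2]
  simp_rw [e2]
  rw [ENNReal.tsum_comm]
  refine tsum_congr fun p => ?_
  rw [tsum_ite_eq (f p) (fun c => if Q c then w p else 0)]

/-- the pointwise bound -/
theorem pt (m q : ℕ) (hm : 1 ≤ m) (hq : 1 ≤ q) (s B r a b c d x : ℝ) (hs : 0 < s) (hB : 1 ≤ B)
    (hr : 0 < r) (hrB : r ≤ B * Real.sqrt q) (ha : 0 ≤ a) (hb : 0 ≤ b) (hc : 0 ≤ c) (hd : 0 ≤ d)
    (hx : 0 ≤ x) (hxm : x ≤ m * (b * a)) :
    (1 + x / q) ^ s * (((1 + a / r) * (1 + b / r)) ^ (-(2 * s)) *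
      ((1 + c / r) * (1 + d / r)) ^ (-(2 * s))) ≤
    (m * B ^ 2) ^ s * ((1 + a / r) * (1 + b / r) * (1 + c / r) * (1 + d / r)) ^ (-s) := by
  have hqr : (0 : ℝ) < q := by exact_mod_cast hq
  have hm1 : (1 : ℝ) ≤ m := by exact_mod_cast hm
  have hr2 : r ^ 2 ≤ B ^ 2 * q := by
    calc r ^ 2 ≤ (B * Real.sqrt q) ^ 2 := pow_le_pow_left₀ hr.le hrB 2
      _ = B ^ 2 * q := by rw [mul_pow, Real.sq_sqrt hqr.le]
  set A := a / r with hA
  set B' := b / r with hB'
  set C := c / r with hC
  set E := d / r with hE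
  have hA0 : 0 ≤ A := by positivity
  have hB0 : 0 ≤ B' := by positivity
  have hC0 : 0 ≤ C := by positivity
  have hE0 : 0 ≤ E := by positivity
  have hB2 : 1 ≤ B ^ 2 := one_le_pow₀ hB
  have hmB : 1 ≤ m * B ^ 2 := by nlinarith
  have h1 : 1 + x / q ≤ m * B ^ 2 * ((1 + A) * (1 + B')) := by
    have h2 : x / q ≤ m * B ^ 2 * (A * B') := by
      rw [div_le_iff₀ hqr]
      have h3 : a = A * r := by rw [hA]; field_simp
      have h4 : b = B' * r := by rw [hB']; field_simp
      calc x ≤ m * (b * a) := hxm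
        _ = m * (A * B') * r ^ 2 := by rw [h3, h4]; ring
        _ ≤ m * (A * B') * (B ^ 2 * q) := mul_le_mul_of_nonneg_left hr2 (by positivity)
        _ = m * B ^ 2 * (A * B') * q := by ring
    have h5 : 0 ≤ m * B ^ 2 * A := by positivity
    have h6 : 0 ≤ m * B ^ 2 * B' := by positivity
    nlinarith
  have hW : 0 < (1 + A) * (1 + B') := by positivity
  have hW' : 0 < (1 + C) * (1 + E) := by positivity
  have hW'1 : 1 ≤ (1 + C) * (1 + E) := by nlinarith [mul_nonneg hC0 hE0]
  have h7 : (1 + x / q) ^ s ≤ (m * B ^ 2) ^ s * ((1 + A) * (1 + B')) ^ s := by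
    rw [← Real.mul_rpow (by positivity) hW.le]
    exact Real.rpow_le_rpow (by positivity) h1 hs.le
  have h8 : ((1 + C) * (1 + E)) ^ (-(2 * s)) ≤ ((1 + C) * (1 + E)) ^ (-s) :=
    Real.rpow_le_rpow_of_exponent_le hW'1 (by linarith)
  have h9 : ((1 + A) * (1 + B')) ^ s * ((1 + A) * (1 + B')) ^ (-(2 * s)) =
      ((1 + A) * (1 + B')) ^ (-s) := by
    rw [← Real.rpow_add hW]
    congr 1
    ring
  calc (1 + x / q) ^ s * (((1 + A) * (1 + B')) ^ (-(2 * s)) * ((1 + C) * (1 + E)) ^ (-(2 * s)))
      ≤ ((m * B ^ 2) ^ s * ((1 + A) * (1 + B')) ^ s) *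
          (((1 + A) * (1 + B')) ^ (-(2 * s)) * ((1 + C) * (1 + E)) ^ (-s)) := by
        refine mul_le_mul h7 ?_ (by positivity) (by positivity)
        exact mul_le_mul_of_nonneg_left h8 (by positivity)
    _ = (m * B ^ 2) ^ s * ((((1 + A) * (1 + B')) ^ s * ((1 + A) * (1 + B')) ^ (-(2 * s))) *
          ((1 + C) * (1 + E)) ^ (-s)) := by ring
    _ = (m * B ^ 2) ^ s * ((1 + A) * (1 + B') * (1 + C) * (1 + E)) ^ (-s) := by
        rw [h9, ← Real.mul_rpow hW.le hW'.le]
        congr 2
        ring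

theorem pi_zero {m q : ℕ} {O : Subring (Mat m)} {R : Type} [Ring R] {π : Mat m → R}
    {σ : R → Mat m} (h : Red m q O π σ) : π 0 = 0 :=
  (h.ker 0 O.zero_mem).2 ⟨0, O.zero_mem, by rw [smul_zero]⟩

end HSLrow

open HSLrow in
open Classical in
theorem pf_HSL (hUNQ : T_UNQ) (hEN : T_EN) (hGC : T_GC) : T_HSL := by
  intro m O b d hO s B hs hB
  have hs0 : 0 < s := lt_of_le_of_lt (by positivity) hs
  obtain ⟨CE, hCE, hEN1⟩ := hEN m O b hO.one_le hO.ord s hs
  obtain ⟨CG, hCG, hGC1⟩ := hGC m O b hO.one_le hO.ord s hs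
  have hm1 : (1 : ℝ) ≤ m := by exact_mod_cast hO.one_le
  have hmB : 0 < (m : ℝ) * B ^ 2 := by positivity
  refine ⟨2 * (CG * ((m * B ^ 2) ^ s * CE)), by positivity, ?_⟩
  intro q R _ _ π σ hLev v hv r hr hrB
  have hq1 : 1 ≤ q := le_trans (by norm_num) hLev.two_le
  have hqr : (0 : ℝ) < q := by exact_mod_cast hq1
  have hcard := (hUNQ m O b q R π σ hO.one_le hO.ord hLev.two_le hLev.red).1
  have hnt : Nontrivial R := by
    rw [← Fintype.one_lt_card_iff_nontrivial, hcard]
    exact Nat.one_lt_pow (by have := hO.one_le; positivity) hLev.two_le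
  -- the weights
  let w : O × O → ENNReal := fun p =>
    ENNReal.ofReal (((1 + sz (p.1 : Mat m) / r) * (1 + sz (p.2 : Mat m) / r)) ^ (-(2 * s)))
  let f : O × O → O := fun p => p.2 * p.1
  let S : O → ENNReal := fun c => ∑' p : O × O, (if f p = c then w p else 0)
  let g : O → ENNReal := fun c => ENNReal.ofReal ((1 + sz (c : Mat m) / q) ^ (-s))
  let h : O → ENNReal := fun c => ENNReal.ofReal ((1 + sz (c : Mat m) / q) ^ s)
  have hsz : ∀ c : O, 0 ≤ sz (c : Mat m) := fun c => norm_nonneg _
  have hgh : ∀ c, g c * h c = 1 := by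
    intro c
    have h1 : 0 < 1 + sz (c : Mat m) / q := by have := hsz c; positivity
    change ENNReal.ofReal _ * ENNReal.ofReal _ = 1
    rw [← ENNReal.ofReal_mul (by positivity), ← Real.rpow_add h1, neg_add_cancel,
      Real.rpow_zero, ENNReal.ofReal_one]
  -- one pair x, z
  have one : ∀ x z : Rˣ, (∑' p : O × O,
      (if π (p.2 : Mat m) * (π (p.1 : Mat m) * (x : R)) = (v : R) * (z : R) then
        ENNReal.ofReal (((1 + sz (p.1 : Mat m) / r) * (1 + sz (p.2 : Mat m) / r)) ^ (-(2 * s)))
        else 0)) ^ 2 ≤ 2 * (ENNReal.ofReal CG * ∑' c : O,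
          (if π (c : Mat m) * (x : R) = (v : R) * (z : R) then h c * S c ^ 2 else 0)) := by
    intro x z
    let Q : O → Prop := fun c => π (c : Mat m) * (x : R) = (v : R) * (z : R)
    have e1 : ∑' p : O × O,
        (if π (p.2 : Mat m) * (π (p.1 : Mat m) * (x : R)) = (v : R) * (z : R) then
          ENNReal.ofReal (((1 + sz (p.1 : Mat m) / r) * (1 + sz (p.2 : Mat m) / r)) ^
            (-(2 * s))) else 0) = ∑' p : O × O, (if Q (f p) then w p else 0) := by
      refine tsum_congr fun p => ?_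
      have e2 : π (p.2 : Mat m) * (π (p.1 : Mat m) * (x : R)) =
          π ((f p : O) : Mat m) * (x : R) := by
        change _ = π ((p.2 : Mat m) * (p.1 : Mat m)) * (x : R)
        rw [hLev.red.mul _ p.2.2 _ p.1.2, mul_assoc]
      rw [e2]
    rw [e1, group f w Q]
    refine (cs (fun c : {c : O // Q c} => g c) (fun c : {c : O // Q c} => h c)
      (fun c : {c : O // Q c} => S c) (fun c => hgh c)).trans ?_
    refine mul_le_mul' le_rfl (mul_le_mul' ?_ ?_)
    · -- the Gauss sum over the class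
      let c0 : Mat m := σ ((v : R) * (z : R) * ((x⁻¹ : Rˣ) : R))
      have hc0 := hLev.red.sec ((v : R) * (z : R) * ((x⁻¹ : Rˣ) : R))
      have hw : ∀ c : {c : O // Q c}, ∃ u : O, ((c : O) : Mat m) = c0 + (q : ℝ) • (u : Mat m) := by
        intro c
        have h1 : π ((c : O) : Mat m) = π c0 := by
          rw [hc0.2, ← show π ((c : O) : Mat m) * (x : R) = (v : R) * (z : R) from c.2,
            mul_assoc, Units.mul_inv, mul_one]
        have h2 : ((c : O) : Mat m) - c0 ∈ O := O.sub_mem (c : O).2 hc0.1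
        have h3 : π (((c : O) : Mat m) - c0) = 0 := by
          have h4 := hLev.red.add _ h2 _ hc0.1
          rw [sub_add_cancel, h1] at h4
          exact left_eq_add.1 (by rw [add_comm]; exact h4)
        obtain ⟨u, hu, hu2⟩ := (hLev.red.ker _ h2).1 h3
        refine ⟨⟨u, hu⟩, ?_⟩
        change ((c : O) : Mat m) = c0 + (q : ℝ) • u
        rw [← hu2, add_sub_cancel]
      choose u hu using hw
      have hinj : Function.Injective u := by
        intro c c' hcc
        refine Subtype.ext (Subtype.ext ?_)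
        rw [hu c, hu c', hcc]
      refine le_trans ?_ (hGC1 q hq1 c0 hc0.1)
      have e3 : ∑' c : {c : O // Q c}, g (c : O) = ∑' c : {c : O // Q c},
          ENNReal.ofReal ((1 + sz (c0 + (q : ℝ) • ((u c : O) : Mat m)) / q) ^ (-s)) := by
        refine tsum_congr fun c => ?_
        change ENNReal.ofReal ((1 + sz ((c : O) : Mat m) / q) ^ (-s)) = _
        rw [← hu c]
      rw [e3]
      exact ENNReal.tsum_comp_le_tsum_of_injective hinj
        (fun u : O => ENNReal.ofReal ((1 + sz (c0 + (q : ℝ) • (u : Mat m)) / q) ^ (-s)))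
    · refine le_of_eq ?_
      have e4 := tsum_subtype {c : O | Q c} (fun c => h c * S c ^ 2)
      refine (Eq.trans ?_ e4).trans (tsum_congr fun c => ?_)
      · rfl
      · by_cases h1 : Q c
        · rw [Set.indicator_of_mem (by exact h1), if_pos (by exact h1)]
        · rw [Set.indicator_of_notMem (by exact h1), if_neg (by exact h1)]
  -- the sum over z
  have sz1 : ∀ x : Rˣ, ∑' z : Rˣ, ∑' c : O,
      (if π (c : Mat m) * (x : R) = (v : R) * (z : R) then h c * S c ^ 2 else 0) ≤
      ∑' c : O, (if IsUnit (π (c : Mat m)) then h c * S c ^ 2 else 0) := by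
    intro x
    rw [ENNReal.tsum_comm]
    refine ENNReal.tsum_le_tsum fun c => ?_
    by_cases hc : ∃ z : Rˣ, π (c : Mat m) * (x : R) = (v : R) * (z : R)
    · obtain ⟨z, hz⟩ := hc
      have hunit : IsUnit (π (c : Mat m)) := by
        refine ⟨v * z * x⁻¹, ?_⟩
        push_cast
        rw [← hz, mul_assoc, Units.mul_inv, mul_one]
      rw [if_pos hunit, tsum_eq_single z]
      · rw [if_pos hz]
      · intro z' hz'
        rw [if_neg]
        intro h1
        apply hz'
        rw [hz] at h1
        exact Units.ext (v.isUnit.mul_left_cancel h1.symm)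
    · push Not at hc
      have : ∑' z : Rˣ, (if π (c : Mat m) * (x : R) = (v : R) * (z : R) then h c * S c ^ 2
          else 0) = 0 := by
        rw [ENNReal.tsum_eq_zero]
        intro z
        rw [if_neg (hc z)]
      rw [this]
      exact zero_le
  -- the energy
  have en : ∑' c : O, (if IsUnit (π (c : Mat m)) then h c * S c ^ 2 else 0) ≤
      ENNReal.ofReal ((m * B ^ 2) ^ s * CE * r ^ (2 * s)) := by
    have e5 : ∀ c : O, (if IsUnit (π (c : Mat m)) then h c * S c ^ 2 else 0) =
        ∑' P : (O × O) × (O × O), (if f P.1 = c then (if f P.2 = c then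
          (if IsUnit (π (c : Mat m)) then h c * (w P.1 * w P.2) else 0) else 0) else 0) := by
      intro c
      rw [ENNReal.tsum_prod (f := fun a b => (if f a = c then (if f b = c then
          (if IsUnit (π (c : Mat m)) then h c * (w a * w b) else 0) else 0) else 0))]
      by_cases hc : IsUnit (π (c : Mat m))
      · rw [if_pos hc, sq]
        change h c * ((∑' p : O × O, (if f p = c then w p else 0)) *
          (∑' p : O × O, (if f p = c then w p else 0))) = _
        rw [← ENNReal.tsum_mul_right, ← ENNReal.tsum_mul_left]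
        refine tsum_congr fun a => ?_
        rw [← ENNReal.tsum_mul_left, ← ENNReal.tsum_mul_left]
        refine tsum_congr fun b => ?_
        by_cases h1 : f a = c
        · by_cases h2 : f b = c
          · rw [if_pos h1, if_pos h2, if_pos h1, if_pos h2, if_pos hc]
          · rw [if_pos h1, if_neg h2, if_pos h1, if_neg h2, mul_zero, mul_zero]
        · rw [if_neg h1, if_neg h1, zero_mul, mul_zero]
      · rw [if_neg hc]
        symm
        rw [ENNReal.tsum_eq_zero]
        intro a
        rw [ENNReal.tsum_eq_zero]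
        intro b
        rw [if_neg hc]
        simp
    simp_rw [e5]
    rw [ENNReal.tsum_comm]
    have e6 : ∀ P : (O × O) × (O × O), ∑' c : O, (if f P.1 = c then (if f P.2 = c then
          (if IsUnit (π (c : Mat m)) then h c * (w P.1 * w P.2) else 0) else 0) else 0) ≤
        ENNReal.ofReal ((m * B ^ 2) ^ s) *
        (if P.1.1 ≠ 0 ∧ P.1.2 ≠ 0 ∧ P.2.1 ≠ 0 ∧ P.2.2 ≠ 0 ∧ P.1.2 * P.1.1 = P.2.2 * P.2.1 then
        ENNReal.ofReal (((1 + sz (P.1.1 : Mat m) / r) * (1 + sz (P.1.2 : Mat m) / r) *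
          (1 + sz (P.2.1 : Mat m) / r) * (1 + sz (P.2.2 : Mat m) / r)) ^ (-s)) else 0) := by
      rintro ⟨⟨α, β⟩, ⟨α', β'⟩⟩
      rw [tsum_eq_single (β * α)]
      swap
      · intro c hc
        rw [if_neg (by exact fun h1 => hc h1.symm)]
      have hf1 : f (α, β) = β * α := rfl
      rw [if_pos (by exact hf1)]
      by_cases h2 : f (α', β') = β * α
      · rw [if_pos (by exact h2)]
        by_cases h3 : IsUnit (π ((β * α : O) : Mat m))
        · rw [if_pos h3]
          have h4 : β * α = β' * α' := h2.symm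
          have hne : β * α ≠ 0 := by
            intro h5
            rw [h5] at h3
            have h6 : π ((0 : O) : Mat m) = 0 := pi_zero hLev.red
            rw [h6] at h3
            exact not_isUnit_zero h3
          have a0 : α ≠ 0 := fun h5 => hne (by rw [h5, mul_zero])
          have b0 : β ≠ 0 := fun h5 => hne (by rw [h5, zero_mul])
          have a0' : α' ≠ 0 := fun h5 => hne (by rw [h4, h5, mul_zero])
          have b0' : β' ≠ 0 := fun h5 => hne (by rw [h4, h5, zero_mul])
          rw [if_pos ⟨a0, b0, a0', b0', h4⟩]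
          change ENNReal.ofReal ((1 + sz ((β * α : O) : Mat m) / q) ^ s) *
            (ENNReal.ofReal (((1 + sz (α : Mat m) / r) * (1 + sz (β : Mat m) / r)) ^ (-(2 * s))) *
            ENNReal.ofReal (((1 + sz (α' : Mat m) / r) * (1 + sz (β' : Mat m) / r)) ^
              (-(2 * s)))) ≤ _
          have k1 := hsz α
          have k2 := hsz β
          have k3 := hsz α'
          have k4 := hsz β'
          have k5 := hsz (β * α)
          rw [← ENNReal.ofReal_mul (by positivity), ← ENNReal.ofReal_mul (by positivity),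
            ← ENNReal.ofReal_mul (by positivity)]
          refine ENNReal.ofReal_le_ofReal ?_
          exact pt m q hO.one_le hq1 s B r _ _ _ _ _ hs0 hB hr hrB k1 k2 k3 k4 k5
            (sz_mul (β : Mat m) (α : Mat m))
        · rw [if_neg h3]
          exact zero_le
      · rw [if_neg (by exact h2)]
        exact zero_le
    refine (ENNReal.tsum_le_tsum e6).trans ?_
    rw [ENNReal.tsum_mul_left]
    refine (mul_le_mul' le_rfl (hEN1 r hr)).trans (le_of_eq ?_)
    rw [← ENNReal.ofReal_mul (by positivity)]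
    congr 1
    ring
  -- conclusion
  have tot : ∑' x : Rˣ, ∑' z : Rˣ, 2 * (ENNReal.ofReal CG * ∑' c : O,
          (if π (c : Mat m) * (x : R) = (v : R) * (z : R) then h c * S c ^ 2 else 0)) ≤
      ∑' _x : Rˣ, 2 * (ENNReal.ofReal CG *
        ENNReal.ofReal ((m * B ^ 2) ^ s * CE * r ^ (2 * s))) := by
    refine ENNReal.tsum_le_tsum fun x => ?_
    rw [ENNReal.tsum_mul_left, ENNReal.tsum_mul_left]
    exact mul_le_mul' le_rfl (mul_le_mul' le_rfl ((sz1 x).trans en))
  refine ((ENNReal.tsum_le_tsum fun x => ENNReal.tsum_le_tsum fun z => one x z).trans tot).trans ?_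
  have hcu : (Fintype.card Rˣ : ℝ) ≤ (q : ℝ) ^ (m ^ 2) := by
    have h1 : Fintype.card Rˣ ≤ Fintype.card R :=
      Fintype.card_le_of_injective (fun u : Rˣ => (u : R)) Units.val_injective
    rw [hcard] at h1
    exact_mod_cast h1
  rw [tsum_fintype, Finset.sum_const, Finset.card_univ, nsmul_eq_mul,
    ← ENNReal.ofReal_natCast, ← ENNReal.ofReal_mul (by positivity),
    show (2 : ENNReal) = ENNReal.ofReal 2 by simp, ← ENNReal.ofReal_mul (by norm_num),
    ← ENNReal.ofReal_mul (by positivity)]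
  refine ENNReal.ofReal_le_ofReal ?_
  have hK : 0 ≤ 2 * (CG * ((m * B ^ 2) ^ s * CE * r ^ (2 * s))) := by positivity
  calc (Fintype.card Rˣ : ℝ) * (2 * (CG * ((m * B ^ 2) ^ s * CE * r ^ (2 * s))))
      ≤ (q : ℝ) ^ (m ^ 2) * (2 * (CG * ((m * B ^ 2) ^ s * CE * r ^ (2 * s)))) :=
        mul_le_mul_of_nonneg_right hcu hK
    _ = 2 * (CG * ((m * B ^ 2) ^ s * CE)) * (q : ℝ) ^ (m ^ 2) * r ^ (2 * s) := by ring

end Pool.Agent.H34.GM
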