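import Pool.Agent.H34.GM.Targets2

/-!
Row LVL: the bound for one `δ`.
-/

namespace Pool.Agent.H34.GM

open MeasureTheory

private lemma lvl_det {m : ℕ} (hm1 : 1 ≤ m) (z : V m) (h : 1 ≤ aN (mt z)) :
    (mt z).det ≠ 0 := by
  intro h0
  unfold aN at h
  rw [h0, abs_zero, Real.zero_rpow] at h
  · linarith
  · have : (0 : ℝ) < m := by exact_mod_cast hm1
    positivity

private lemma lvl_nz {m : ℕ} (hm1 : 1 ≤ m) {O : Subring (Mat m)} {D : Set (V m)}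
    (hD : Dom m O D) {R : Type} [Fintype R] {ι : Type} [DecidableEq ι]
    (F : ι → Mat m → R → ℂ) (hF : Orthn D F) (i : ι) : NZ (F i) := by
  by_contra hcon
  have hz : ∀ g x, g.det ≠ 0 → F i g x = 0 := by
    intro g x hg
    by_contra hne
    exact hcon ⟨g, x, hg, hne⟩
  have h1 := hF.2 i i
  rw [if_pos rfl] at h1
  have h2 : ∑ x : R, ∫ z in D, F i (mt z) x * (starRingEnd ℂ) (F i (mt z) x) ∂(hm m) = 0 := by
    refine Finset.sum_eq_zero (fun x _ => ?_)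
    apply setIntegral_eq_zero_of_forall_eq_zero
    intro z hzD
    rw [hz (mt z) x (lvl_det hm1 z (hD.shell z hzD).1), zero_mul]
  rw [h2] at h1
  exact zero_ne_one h1

private lemma lvl_contD {m : ℕ} (b : Module.Basis (Fin m × Fin m) ℝ (Mat m)) (q : ℕ)
    (hq : 0 < q) (Φ : Mat m → ℂ) (mu : Fin m → ℂ) (lam : ℕ → ℂ)
    (h : ContinuousOn (thF q Φ mu lam) (Set.Ioi 0)) :
    ContinuousOn (thD b q Φ mu lam) (Set.Ioi 0) := by
  have hq' : (0 : ℝ) < q := by exact_mod_cast hq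
  have hdiv : ContinuousOn (fun r : ℝ => (q : ℝ) / r) (Set.Ioi 0) :=
    ContinuousOn.div continuousOn_const continuousOn_id (fun r hr => ne_of_gt hr)
  have hmaps : Set.MapsTo (fun r : ℝ => (q : ℝ) / r) (Set.Ioi 0) (Set.Ioi 0) :=
    fun r hr => div_pos hq' hr
  unfold thD
  apply ContinuousOn.mul
  · apply Complex.continuous_ofReal.comp_continuousOn
    apply ContinuousOn.mul continuousOn_const
    apply ContinuousOn.rpow_const hdiv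
    intro r hr
    left
    exact ne_of_gt (div_pos hq' hr)
  · exact h.comp hdiv hmaps

private lemma lvl_four (a c : ℝ) : (a + c) ^ 4 ≤ 8 * (a ^ 4 + c ^ 4) := by
  nlinarith [sq_nonneg (a - c), sq_nonneg (a + c), sq_nonneg (a ^ 2 - c ^ 2),
    mul_nonneg (sq_nonneg (a - c)) (sq_nonneg (a + c)), mul_nonneg (sq_nonneg (a - c)) (sq_nonneg (a - c)),
    mul_nonneg (sq_nonneg (a - c)) (sq_nonneg a), mul_nonneg (sq_nonneg (a - c)) (sq_nonneg c)]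

theorem pf_LVL : T_BMP → T_THC → T_SPL → T_HOL → T_TA4 → T_TD4 → T_LVL := by
  intro hBMP hTHC hSPL hHOL hTA hTD m O b d hO χ hχ κ hκ
  have hm1 := hO.one_le
  have hs : (m : ℝ) ^ 2 < (m : ℝ) ^ 2 + κ := by linarith
  obtain ⟨C1, hC1, hA⟩ := hTA m O b d hO χ hχ ((m : ℝ) ^ 2 + κ) hs
  obtain ⟨C2, A, hC2, hB⟩ := hTD m O b d hO χ hχ ((m : ℝ) ^ 2 + κ) hs
  obtain ⟨CH, hCH, hH⟩ := hHOL κ hκ
  set W : ℝ := ((covol b)⁻¹) ^ 4 with hW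
  have hW0 : 0 ≤ W := by
    rw [hW]
    positivity
  refine ⟨8 * CH * (C1 + W * C2), A, by positivity, ?_⟩
  intro q R _ _ π σ T D hS ι _ _ F lam mu hF hOr δ hδ hδ2 t
  have hq2 : 2 ≤ q := hS.lev.two_le
  have hq0 : (0 : ℝ) < q := by
    have : 0 < q := by omega
    exact_mod_cast this
  have hq1 : (1 : ℝ) ≤ q := by
    have : 1 ≤ q := by omega
    exact_mod_cast this
  set Q : ℝ := Real.sqrt q with hQ
  have hQ1 : 1 ≤ Q := by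
    rw [hQ]
    exact Real.one_le_sqrt.mpr hq1
  have hTst := ((hBMP m χ hm1 hχ).1 δ hδ hδ2).1
  have hcF : ∀ i, ContinuousOn (thF q (bump m χ δ) (mu i) (lam i)) (Set.Ioi 0) := fun i =>
    (hTHC m q (bump m χ δ) (mu i) (lam i) hm1 hTst (hF i).tr0).1
  have hcD : ∀ i, ContinuousOn (thD b q (bump m χ δ) (mu i) (lam i)) (Set.Ioi 0) := fun i =>
    lvl_contD b q (by omega) _ _ _ (hcF i)
  have hnz : ∀ i, NZ (F i) := lvl_nz hm1 hS.dom F hOr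
  -- the two moments
  set a : ι → ℝ := fun i => ∫ r in Set.Ioc (0 : ℝ) Q, ‖thF q (bump m χ δ) (mu i) (lam i) r‖ *
        r ^ (-((m : ℝ) ^ 2 / 2) - 1) with ha
  set c : ι → ℝ := fun i => ∫ r in Set.Ioc (0 : ℝ) Q, ‖thD b q (bump m χ δ) (mu i) (lam i) r‖ *
        r ^ (-((m : ℝ) ^ 2 / 2) - 1) with hc
  have hQκ : Q ^ (2 * κ) = (q : ℝ) ^ κ := by
    rw [hQ, Real.sqrt_eq_rpow, ← Real.rpow_mul hq0.le]
    congr 1
    ring
  have hsa : ∑ i, a i ^ 4 ≤ CH * (C1 * (q : ℝ) ^ (m ^ 2)) * Q ^ (2 * κ) := by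
    apply hH m ι (fun i => thF q (bump m χ δ) (mu i) (lam i)) (C1 * (q : ℝ) ^ (m ^ 2)) Q
      (by positivity) hQ1 hcF
    intro r hr hrQ
    exact hA q R π σ T D hS ι F lam mu hF hOr δ hδ hδ2 r hr hrQ
  have hsc : ∑ i, c i ^ 4 ≤ CH * (C2 * δ⁻¹ ^ A * (q : ℝ) ^ (m ^ 2)) * Q ^ (2 * κ) := by
    apply hH m ι (fun i => thD b q (bump m χ δ) (mu i) (lam i))
      (C2 * δ⁻¹ ^ A * (q : ℝ) ^ (m ^ 2)) Q (by positivity) hQ1 hcD
    intro r hr hrQ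
    exact hB q R π σ T D hS ι F lam mu hF hOr δ hδ hδ2 r hr hrQ
  have hterm : ∀ i, ‖Lm q (bump m χ δ) (mu i) (lam i) (1 / 2 + t i * Complex.I)‖ ^ 4 ≤
      8 * (a i ^ 4 + W * c i ^ 4) := by
    intro i
    have h1 := hSPL m q O b d R π σ T D hS (F i) (lam i) (mu i) (hF i) (hnz i) χ δ hχ hδ hδ2 (t i)
    calc ‖Lm q (bump m χ δ) (mu i) (lam i) (1 / 2 + t i * Complex.I)‖ ^ 4
        ≤ (a i + (covol b)⁻¹ * c i) ^ 4 := pow_le_pow_left₀ (norm_nonneg _) h1 4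
      _ ≤ 8 * (a i ^ 4 + ((covol b)⁻¹ * c i) ^ 4) := lvl_four _ _
      _ = 8 * (a i ^ 4 + W * c i ^ 4) := by rw [mul_pow]
  have hδ1 : 1 ≤ δ⁻¹ ^ A := by
    apply one_le_pow₀
    rw [one_le_inv₀ hδ]
    linarith
  have hqq : (q : ℝ) ^ ((m : ℝ) ^ 2 + κ) = (q : ℝ) ^ (m ^ 2) * (q : ℝ) ^ κ := by
    have h0 : (q : ℝ) ^ ((m : ℝ) ^ 2) = (q : ℝ) ^ (m ^ 2) := by
      have h1 : ((m : ℝ) ^ 2) = ((m ^ 2 : ℕ) : ℝ) := by push_cast; rfl
      rw [h1, Real.rpow_natCast]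
    rw [Real.rpow_add hq0, h0]
  have hqκ : 0 < (q : ℝ) ^ κ := Real.rpow_pos_of_pos hq0 κ
  have hqm : 0 < (q : ℝ) ^ (m ^ 2) := by positivity
  calc ∑ i, ‖Lm q (bump m χ δ) (mu i) (lam i) (1 / 2 + t i * Complex.I)‖ ^ 4
      ≤ ∑ i, 8 * (a i ^ 4 + W * c i ^ 4) := Finset.sum_le_sum (fun i _ => hterm i)
    _ = 8 * (∑ i, a i ^ 4 + W * ∑ i, c i ^ 4) := by
        rw [← Finset.mul_sum, Finset.sum_add_distrib, Finset.mul_sum]
    _ ≤ 8 * (CH * (C1 * (q : ℝ) ^ (m ^ 2)) * (q : ℝ) ^ κ +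
          W * (CH * (C2 * δ⁻¹ ^ A * (q : ℝ) ^ (m ^ 2)) * (q : ℝ) ^ κ)) := by
        rw [hQκ] at hsa hsc
        have := mul_le_mul_of_nonneg_left hsc hW0
        linarith
    _ ≤ 8 * (CH * (C1 * (q : ℝ) ^ (m ^ 2)) * (q : ℝ) ^ κ * δ⁻¹ ^ A +
          W * (CH * (C2 * δ⁻¹ ^ A * (q : ℝ) ^ (m ^ 2)) * (q : ℝ) ^ κ)) := by
        have h3 : CH * (C1 * (q : ℝ) ^ (m ^ 2)) * (q : ℝ) ^ κ ≤
            CH * (C1 * (q : ℝ) ^ (m ^ 2)) * (q : ℝ) ^ κ * δ⁻¹ ^ A :=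
          le_mul_of_one_le_right (by positivity) hδ1
        linarith
    _ = 8 * CH * (C1 + W * C2) * δ⁻¹ ^ A * (q : ℝ) ^ ((m : ℝ) ^ 2 + κ) := by
        rw [hqq]
        ring

end Pool.Agent.H34.GM
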