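import Pool.Agent.H34.GM.Targets2

/-!
Row MOM: the fourth moment from the bound at one level of localisation.
-/

namespace Pool.Agent.H34.GM

open MeasureTheory

lemma mom_det {m : ℕ} (hm1 : 1 ≤ m) {z : V m} (h : 1 ≤ aN (mt z)) : (mt z).det ≠ 0 := by
  intro h0
  unfold aN at h
  rw [h0, abs_zero, Real.zero_rpow (by positivity)] at h
  linarith

lemma mom_nz {m : ℕ} {O : Subring (Mat m)} (hm1 : 1 ≤ m) {R : Type} [Fintype R]
    {D : Set (V m)} (hD : Dom m O D) {ι : Type} [DecidableEq ι] (F : ι → Mat m → R → ℂ)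
    (hF : Orthn D F) (i : ι) : NZ (F i) := by
  by_contra hn
  have hz : ∀ g x, g.det ≠ 0 → F i g x = 0 := by
    intro g x hg
    by_contra h
    exact hn ⟨g, x, hg, h⟩
  have h1 := hF.2 i i
  rw [if_pos rfl] at h1
  have h2 : ∀ x : R, ∫ z in D, F i (mt z) x * (starRingEnd ℂ) (F i (mt z) x) ∂(hm m) = 0 := by
    intro x
    rw [← integral_zero (V m) ℂ (μ := (hm m).restrict D)]
    refine setIntegral_congr_fun hD.meas (fun z hz' => ?_)
    have := hz (mt z) x (mom_det hm1 (hD.shell z hz').1)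
    simp only [this, zero_mul]
  rw [Finset.sum_eq_zero (fun x _ => h2 x)] at h1
  exact zero_ne_one h1

lemma mom_psz_one {m : ℕ} (t : ℝ) (mu : Fin m → ℂ) : 1 ≤ psz t mu := by
  unfold psz
  have h1 := abs_nonneg t
  have h2 : 0 ≤ ∑ j, ‖mu j‖ := Finset.sum_nonneg (fun j _ => norm_nonneg _)
  linarith

lemma mom_s {m : ℕ} (t : ℝ) (mu : Fin m → ℂ) :
    1 + ‖(1 / 2 + t * Complex.I : ℂ)‖ + ∑ j, ‖mu j‖ ≤ 2 * psz t mu := by
  have h1 : ‖(1 / 2 + t * Complex.I : ℂ)‖ ≤ 1 / 2 + |t| := by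
    refine (norm_add_le _ _).trans ?_
    rw [norm_mul, Complex.norm_I, mul_one, Complex.norm_real, Real.norm_eq_abs]
    norm_num
  unfold psz
  have h2 := abs_nonneg t
  have h3 : 0 ≤ ∑ j, ‖mu j‖ := Finset.sum_nonneg (fun j _ => norm_nonneg _)
  linarith

theorem pf_MOM : T_PRF → T_ZLB → T_GLU → T_LVL → T_MOM := by
  rintro ⟨χ, hχ⟩ hZLB hGLU hLVL
  intro m O b d hO ε hε
  have hm1 := hO.one_le
  obtain ⟨c, c1, hc, hc1, hZ⟩ := hZLB m χ hm1 hχ
  obtain ⟨C0, A0, hC0, hL⟩ := hLVL m O b d hO χ hχ ε hε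
  set A1 : ℕ := 4 * m ^ 2 + A0 with hA1
  set K : ℝ := 2 / min 1 c with hK
  have hmin : 0 < min 1 c := lt_min one_pos hc
  have hKpos : 0 < K := by positivity
  set B : ℝ := (c1⁻¹) ^ 4 * C0 * K ^ A1 * 2 ^ A1 with hB
  have hBpos : 0 < B := by positivity
  set S2 : ℝ := ∑' j : ℕ, 1 / (j : ℝ) ^ 2 with hS2
  have hsum : Summable (fun j : ℕ => 1 / (j : ℝ) ^ 2) :=
    Real.summable_one_div_nat_pow.2 (by norm_num)
  have hS2nn : 0 ≤ S2 := tsum_nonneg (fun j => by positivity)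
  refine ⟨B * S2 + 1, ((A1 : ℝ) + 2) / 4, by positivity, by positivity, ?_⟩
  intro q R _ _ π σ T D hS ι _ _ F lam mu hF hOr
  have hnz := fun i => mom_nz hm1 hS.dom F hOr i
  choose L hLL hLm using fun i => hGLU m q O b d R π σ T D hS (F i) (lam i) (mu i) (hF i) (hnz i)
    χ hχ
  refine ⟨L, hLL, ?_⟩
  intro t
  have hq0 : (0 : ℝ) < q := by
    have := hS.lev.two_le
    positivity
  set Q : ℝ := (q : ℝ) ^ ((m : ℝ) ^ 2 + ε) with hQ
  have hQpos : 0 < Q := Real.rpow_pos_of_pos hq0 _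
  set P : ι → ℝ := fun i => psz (t i) (mu i) with hP
  have hP1 : ∀ i, 1 ≤ P i := fun i => mom_psz_one _ _
  set jf : ι → ℕ := fun i => ⌊P i⌋₊ with hjf
  have hjf1 : ∀ i, 1 ≤ jf i := fun i => Nat.le_floor (by exact_mod_cast hP1 i)
  set a : ι → ℝ := fun i => (‖L i (1 / 2 + t i * Complex.I)‖ * P i ^ (-(((A1 : ℝ) + 2) / 4))) ^ 4
    with ha
  have key : ∀ j : ℕ, 1 ≤ j → ∑ i ∈ Finset.univ.filter (fun i => jf i = j), a i ≤
      B * (1 / (j : ℝ) ^ 2) * Q := by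
    intro j hj
    have hj0 : (0 : ℝ) < j := by exact_mod_cast hj
    set δ : ℝ := min (1 / 2) (c / (2 * ((j : ℝ) + 1))) with hδ
    have hδ0 : 0 < δ := lt_min (by norm_num) (by positivity)
    have hδ1 : δ ≤ 1 / 2 := min_le_left _ _
    have hδinv : δ⁻¹ ≤ K * ((j : ℝ) + 1) := by
      rw [inv_le_comm₀ hδ0 (by positivity), hK, hδ, le_min_iff]
      have e1 : (2 / min 1 c * ((j : ℝ) + 1))⁻¹ = min 1 c / (2 * ((j : ℝ) + 1)) := by
        field_simp
      rw [e1]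
      constructor
      · rw [div_le_div_iff₀ (by positivity) (by norm_num)]
        have : min 1 c ≤ 1 := min_le_left _ _
        nlinarith
      · exact div_le_div_of_nonneg_right (min_le_right _ _) (by positivity)
    have hLv := hL q R π σ T D hS ι F lam mu hF hOr δ hδ0 hδ1 t
    have hai : ∀ i ∈ Finset.univ.filter (fun i => jf i = j), a i ≤
        ‖Lm q (bump m χ δ) (mu i) (lam i) (1 / 2 + t i * Complex.I)‖ ^ 4 *
          ((c1⁻¹) ^ 4 * (δ⁻¹) ^ (4 * m ^ 2) * ((j : ℝ) ^ (A1 + 2))⁻¹) := by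
      intro i hi
      have hji : jf i = j := (Finset.mem_filter.1 hi).2
      have hPj : (j : ℝ) ≤ P i := by
        rw [← hji]
        exact Nat.floor_le (by linarith [hP1 i])
      have hPj1 : P i < (j : ℝ) + 1 := by
        rw [← hji]
        exact Nat.lt_floor_add_one _
      have hb1 : δ * (1 + ‖(1 / 2 + t i * Complex.I : ℂ)‖ + ∑ j, ‖mu i j‖) ≤ c := by
        have e1 : 1 + ‖(1 / 2 + t i * Complex.I : ℂ)‖ + ∑ j, ‖mu i j‖ ≤ 2 * ((j : ℝ) + 1) :=
          (mom_s (t i) (mu i)).trans (by linarith)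
        calc δ * (1 + ‖(1 / 2 + t i * Complex.I : ℂ)‖ + ∑ j, ‖mu i j‖) ≤
            (c / (2 * ((j : ℝ) + 1))) * (2 * ((j : ℝ) + 1)) := by
              refine mul_le_mul (min_le_right _ _) e1 (by positivity) (by positivity)
          _ = c := by field_simp
      have hz1 := hZ (mu i) (1 / 2 + t i * Complex.I) δ hδ0 hδ1 hb1
      have hlm := hLm i δ hδ0 hδ1 (1 / 2 + t i * Complex.I)
      have hδm : 0 < c1 * δ ^ (m ^ 2) := by positivity
      have hLn : ‖L i (1 / 2 + t i * Complex.I)‖ ≤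
          ‖Lm q (bump m χ δ) (mu i) (lam i) (1 / 2 + t i * Complex.I)‖ *
            (c1⁻¹ * (δ⁻¹) ^ (m ^ 2)) := by
        rw [hlm, norm_mul]
        calc ‖L i (1 / 2 + t i * Complex.I)‖ = ‖L i (1 / 2 + t i * Complex.I)‖ *
            (c1 * δ ^ (m ^ 2)) * (c1⁻¹ * (δ⁻¹) ^ (m ^ 2)) := by
              have : δ ^ (m ^ 2) * (δ⁻¹) ^ (m ^ 2) = 1 := by
                rw [← mul_pow, mul_inv_cancel₀ hδ0.ne', one_pow]
              have h2 : c1 * c1⁻¹ = 1 := mul_inv_cancel₀ hc1.ne'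
              calc ‖L i (1 / 2 + t i * Complex.I)‖ = ‖L i (1 / 2 + t i * Complex.I)‖ *
                  (c1 * c1⁻¹) * (δ ^ (m ^ 2) * (δ⁻¹) ^ (m ^ 2)) := by rw [this, h2]; ring
                _ = _ := by ring
          _ ≤ _ := by
              refine mul_le_mul_of_nonneg_right ?_ (by positivity)
              exact mul_le_mul_of_nonneg_left hz1 (norm_nonneg _)
      have hPw : P i ^ (-(((A1 : ℝ) + 2) / 4)) ≤ (j : ℝ) ^ (-(((A1 : ℝ) + 2) / 4)) :=
        Real.rpow_le_rpow_of_nonpos hj0 hPj (by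
          have : (0 : ℝ) ≤ A1 := Nat.cast_nonneg _
          linarith)
      have hPw4 : ((j : ℝ) ^ (-(((A1 : ℝ) + 2) / 4))) ^ 4 = ((j : ℝ) ^ (A1 + 2))⁻¹ := by
        rw [← Real.rpow_natCast, ← Real.rpow_mul hj0.le, ← Real.rpow_natCast,
          ← Real.rpow_neg hj0.le]
        congr 1
        push_cast
        ring
      have hPnn : 0 ≤ P i ^ (-(((A1 : ℝ) + 2) / 4)) :=
        Real.rpow_nonneg (by linarith [hP1 i]) _
      calc a i = ‖L i (1 / 2 + t i * Complex.I)‖ ^ 4 * (P i ^ (-(((A1 : ℝ) + 2) / 4))) ^ 4 := by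
            rw [ha]; ring
        _ ≤ (‖Lm q (bump m χ δ) (mu i) (lam i) (1 / 2 + t i * Complex.I)‖ *
            (c1⁻¹ * (δ⁻¹) ^ (m ^ 2))) ^ 4 * ((j : ℝ) ^ (-(((A1 : ℝ) + 2) / 4))) ^ 4 := by
            refine mul_le_mul (pow_le_pow_left₀ (norm_nonneg _) hLn 4)
              (pow_le_pow_left₀ hPnn hPw 4) (by positivity) (by positivity)
        _ = _ := by
            rw [hPw4, mul_pow, mul_pow, ← pow_mul, mul_comm (m ^ 2) 4]
            ring
    have hJ : ((j : ℝ) + 1) ^ A1 * ((j : ℝ) ^ (A1 + 2))⁻¹ ≤ 2 ^ A1 * (1 / (j : ℝ) ^ 2) := by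
      have e1 : ((j : ℝ) + 1) ^ A1 ≤ (2 * (j : ℝ)) ^ A1 := by
        refine pow_le_pow_left₀ (by positivity) ?_ _
        have : (1 : ℝ) ≤ j := by exact_mod_cast hj
        linarith
      calc ((j : ℝ) + 1) ^ A1 * ((j : ℝ) ^ (A1 + 2))⁻¹ ≤
          (2 * (j : ℝ)) ^ A1 * ((j : ℝ) ^ (A1 + 2))⁻¹ :=
            mul_le_mul_of_nonneg_right e1 (by positivity)
        _ = 2 ^ A1 * (1 / (j : ℝ) ^ 2) := by
            rw [mul_pow]
            field_simp
            ring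
    calc ∑ i ∈ Finset.univ.filter (fun i => jf i = j), a i ≤
        ∑ i ∈ Finset.univ.filter (fun i => jf i = j),
          ‖Lm q (bump m χ δ) (mu i) (lam i) (1 / 2 + t i * Complex.I)‖ ^ 4 *
          ((c1⁻¹) ^ 4 * (δ⁻¹) ^ (4 * m ^ 2) * ((j : ℝ) ^ (A1 + 2))⁻¹) := Finset.sum_le_sum hai
      _ ≤ ∑ i, ‖Lm q (bump m χ δ) (mu i) (lam i) (1 / 2 + t i * Complex.I)‖ ^ 4 *
          ((c1⁻¹) ^ 4 * (δ⁻¹) ^ (4 * m ^ 2) * ((j : ℝ) ^ (A1 + 2))⁻¹) := by
            refine Finset.sum_le_sum_of_subset_of_nonneg (Finset.filter_subset _ _) ?_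
            intro i _ _
            positivity
      _ = (∑ i, ‖Lm q (bump m χ δ) (mu i) (lam i) (1 / 2 + t i * Complex.I)‖ ^ 4) *
          ((c1⁻¹) ^ 4 * (δ⁻¹) ^ (4 * m ^ 2) * ((j : ℝ) ^ (A1 + 2))⁻¹) := by
            rw [Finset.sum_mul]
      _ ≤ (C0 * δ⁻¹ ^ A0 * Q) *
          ((c1⁻¹) ^ 4 * (δ⁻¹) ^ (4 * m ^ 2) * ((j : ℝ) ^ (A1 + 2))⁻¹) :=
            mul_le_mul_of_nonneg_right hLv (by positivity)
      _ = (c1⁻¹) ^ 4 * C0 * (δ⁻¹) ^ A1 * ((j : ℝ) ^ (A1 + 2))⁻¹ * Q := by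
            rw [hA1, pow_add]
            ring
      _ ≤ (c1⁻¹) ^ 4 * C0 * (K * ((j : ℝ) + 1)) ^ A1 * ((j : ℝ) ^ (A1 + 2))⁻¹ * Q := by
            have e2 : (δ⁻¹) ^ A1 ≤ (K * ((j : ℝ) + 1)) ^ A1 :=
              pow_le_pow_left₀ (by positivity) hδinv _
            refine mul_le_mul_of_nonneg_right ?_ hQpos.le
            refine mul_le_mul_of_nonneg_right ?_ (by positivity)
            exact mul_le_mul_of_nonneg_left e2 (by positivity)
      _ = (c1⁻¹) ^ 4 * C0 * K ^ A1 * (((j : ℝ) + 1) ^ A1 * ((j : ℝ) ^ (A1 + 2))⁻¹) * Q := by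
            rw [mul_pow]
            ring
      _ ≤ (c1⁻¹) ^ 4 * C0 * K ^ A1 * (2 ^ A1 * (1 / (j : ℝ) ^ 2)) * Q := by
            refine mul_le_mul_of_nonneg_right ?_ hQpos.le
            exact mul_le_mul_of_nonneg_left hJ (by positivity)
      _ = B * (1 / (j : ℝ) ^ 2) * Q := by
            rw [hB]
            ring
  have hfib : ∑ i, a i = ∑ j ∈ Finset.univ.image jf,
      ∑ i ∈ Finset.univ.filter (fun i => jf i = j), a i :=
    (Finset.sum_fiberwise_of_maps_to (fun i _ => Finset.mem_image_of_mem jf (Finset.mem_univ i))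
      a).symm
  calc ∑ i, a i = ∑ j ∈ Finset.univ.image jf,
      ∑ i ∈ Finset.univ.filter (fun i => jf i = j), a i := hfib
    _ ≤ ∑ j ∈ Finset.univ.image jf, B * (1 / (j : ℝ) ^ 2) * Q := by
        refine Finset.sum_le_sum (fun j hj => key j ?_)
        obtain ⟨i, _, rfl⟩ := Finset.mem_image.1 hj
        exact hjf1 i
    _ = B * (∑ j ∈ Finset.univ.image jf, 1 / (j : ℝ) ^ 2) * Q := by
        rw [Finset.mul_sum, Finset.sum_mul]
    _ ≤ B * S2 * Q := by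
        refine mul_le_mul_of_nonneg_right ?_ hQpos.le
        refine mul_le_mul_of_nonneg_left ?_ hBpos.le
        exact hsum.sum_le_tsum _ (fun j _ => by positivity)
    _ ≤ (B * S2 + 1) * Q := by
        refine mul_le_mul_of_nonneg_right (by linarith) hQpos.le

end Pool.Agent.H34.GM
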