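import Pool.Agent.H34.GM.Targets

/-!
Row PK of gmf_modules (MP_52e316_nt): packing bound for the sum over a discrete group with minimum
`l` of a normed space of dimension at most `D`.
-/

set_option autoImplicit false

namespace Pool.Agent.H34.GM

open MeasureTheory Metric

/-- a set of `l`-separated points of norm at most `R` has at most `(1 + 2R/l)^dim` points -/
theorem pk_card {E : Type} [NormedAddCommGroup E] [NormedSpace ℝ E] [FiniteDimensional ℝ E]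
    (s : Finset E) (R l : ℝ) (hl : 0 < l) (hR : 0 ≤ R) (hs : ∀ c ∈ s, ‖c‖ ≤ R)
    (h : ∀ c ∈ s, ∀ d ∈ s, c ≠ d → l ≤ ‖c - d‖) :
    (s.card : ℝ) ≤ (1 + 2 * R / l) ^ Module.finrank ℝ E := by
  borelize E
  let μ : Measure E := Measure.addHaar
  set δ : ℝ := l / 2 with hδ
  set ρ : ℝ := R + l / 2 with hρ
  have δpos : 0 < δ := by rw [hδ]; linarith
  have ρpos : 0 < ρ := by rw [hρ]; linarith
  set A := ⋃ c ∈ s, ball (c : E) δ with hA
  have D : Set.Pairwise (s : Set E) (Function.onFun Disjoint fun c => ball (c : E) δ) := by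
    rintro c hc d hd hcd
    apply ball_disjoint_ball
    rw [dist_eq_norm]
    have := h c hc d hd hcd
    rw [hδ]; linarith
  have A_subset : A ⊆ ball (0 : E) ρ := by
    refine Set.iUnion₂_subset fun x hx => ?_
    apply ball_subset_ball'
    rw [dist_zero_right, hδ, hρ]
    have := hs x hx
    linarith
  have I : (s.card : ENNReal) * ENNReal.ofReal (δ ^ Module.finrank ℝ E) * μ (ball 0 1) ≤
      ENNReal.ofReal (ρ ^ Module.finrank ℝ E) * μ (ball 0 1) :=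
    calc
      (s.card : ENNReal) * ENNReal.ofReal (δ ^ Module.finrank ℝ E) * μ (ball 0 1) = μ A := by
        rw [hA, measure_biUnion_finset D fun c _ => measurableSet_ball]
        simp only [μ.addHaar_ball_of_pos _ δpos, Finset.sum_const, nsmul_eq_mul, mul_assoc]
      _ ≤ μ (ball (0 : E) ρ) := measure_mono A_subset
      _ = ENNReal.ofReal (ρ ^ Module.finrank ℝ E) * μ (ball 0 1) := by
        simp only [μ.addHaar_ball_of_pos _ ρpos]
  have J : (s.card : ENNReal) * ENNReal.ofReal (δ ^ Module.finrank ℝ E) ≤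
      ENNReal.ofReal (ρ ^ Module.finrank ℝ E) :=
    (ENNReal.mul_le_mul_iff_left (measure_ball_pos _ _ zero_lt_one).ne'
      measure_ball_lt_top.ne).1 I
  have K : (s.card : ℝ) * δ ^ Module.finrank ℝ E ≤ ρ ^ Module.finrank ℝ E := by
    have := ENNReal.toReal_le_of_le_ofReal (pow_nonneg ρpos.le _) J
    rw [ENNReal.toReal_mul, ENNReal.toReal_ofReal (pow_nonneg δpos.le _)] at this
    simpa using this
  have e : (1 + 2 * R / l) = ρ / δ := by
    rw [hρ, hδ]; field_simp; ring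
  rw [e, div_pow, le_div_iff₀ (pow_pos δpos _)]
  exact K

/-- the shells -/
theorem pk_shell {E : Type} [NormedAddCommGroup E] [NormedSpace ℝ E] (W : Submodule ℝ E)
    [FiniteDimensional ℝ W] (D : ℕ) (hD : Module.finrank ℝ W ≤ D) (Λ : AddSubgroup E) (l : ℝ)
    (hl : 0 < l) (hW : ∀ v ∈ Λ, v ∈ W) (hm : ∀ v ∈ Λ, v ≠ 0 → l ≤ ‖v‖) (k : ℕ)
    (S : Finset Λ) (hS : ∀ v ∈ S, ‖(v : E)‖ ≤ 2 ^ (k + 1) * l) :
    (S.card : ℝ) ≤ 8 ^ D * (2 ^ D) ^ k := by
  classical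
  let f : Λ → W := fun v => ⟨v, hW v v.2⟩
  have hf : Function.Injective f := by
    intro v w h
    have := congrArg (fun x : W => (x : E)) h
    exact Subtype.ext this
  have h1 := pk_card (S.image f) (2 ^ (k + 1) * l) l hl (by positivity) (by
    intro c hc
    obtain ⟨v, hv, rfl⟩ := Finset.mem_image.1 hc
    exact hS v hv) (by
    intro c hc d hd hcd
    obtain ⟨v, hv, rfl⟩ := Finset.mem_image.1 hc
    obtain ⟨w, hw, rfl⟩ := Finset.mem_image.1 hd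
    have h2 : (v : E) - w ≠ 0 := by
      intro h0
      exact hcd (congrArg f (Subtype.ext (sub_eq_zero.1 h0)))
    exact hm _ (Λ.sub_mem v.2 w.2) h2)
  rw [Finset.card_image_of_injective _ hf] at h1
  have e1 : 1 + 2 * (2 ^ (k + 1) * l) / l = 1 + (2 : ℝ) ^ (k + 2) := by
    field_simp
    ring
  rw [e1] at h1
  have h3 : (1 : ℝ) ≤ 1 + (2 : ℝ) ^ (k + 2) := by
    have : (0 : ℝ) ≤ 2 ^ (k + 2) := by positivity
    linarith
  have h4 : (1 : ℝ) + (2 : ℝ) ^ (k + 2) ≤ 8 * 2 ^ k := by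
    have : (1 : ℝ) ≤ 2 ^ k := one_le_pow₀ (by norm_num)
    have e : (2 : ℝ) ^ (k + 2) = 4 * 2 ^ k := by ring
    rw [e]; linarith
  calc (S.card : ℝ) ≤ (1 + (2 : ℝ) ^ (k + 2)) ^ Module.finrank ℝ W := h1
    _ ≤ (1 + (2 : ℝ) ^ (k + 2)) ^ D := pow_le_pow_right₀ h3 hD
    _ ≤ (8 * 2 ^ k) ^ D := pow_le_pow_left₀ (by linarith) h4 D
    _ = 8 ^ D * (2 ^ D) ^ k := by
      rw [mul_pow, ← pow_mul, ← pow_mul, mul_comm k D]

/-- every norm at least `l` lies in a shell -/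
theorem pk_level (x l : ℝ) (hl : 0 < l) (hx : l ≤ x) :
    ∃ k : ℕ, 2 ^ k * l ≤ x ∧ x ≤ 2 ^ (k + 1) * l := by
  have h1 : 1 ≤ x / l := by rwa [le_div_iff₀ hl, one_mul]
  obtain ⟨k, hk1, hk2⟩ := exists_nat_pow_near h1 (by norm_num : (1 : ℝ) < 2)
  refine ⟨k, ?_, ?_⟩
  · rwa [le_div_iff₀ hl] at hk1
  · rw [div_lt_iff₀ hl] at hk2
    exact hk2.le

theorem pf_PK : T_PK := by
  intro D s hs
  have hs0 : 0 < s := lt_of_le_of_lt (Nat.cast_nonneg D) hs
  set r : ℝ := 2 ^ ((D : ℝ) - s) with hr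
  have hr0 : 0 < r := Real.rpow_pos_of_pos (by norm_num) _
  have hr1 : r < 1 := Real.rpow_lt_one_of_one_lt_of_neg (by norm_num) (by linarith)
  refine ⟨8 ^ D * (1 - r)⁻¹, by
    have : 0 < 1 - r := by linarith
    positivity, ?_⟩
  intro E _ _ W _ hD Λ l hl hW hm
  classical
  have hex : ∀ v : Λ, (v : E) ≠ 0 → ∃ k : ℕ, 2 ^ k * l ≤ ‖(v : E)‖ ∧ ‖(v : E)‖ ≤ 2 ^ (k + 1) * l :=
    fun v hv => pk_level _ _ hl (hm v v.2 hv)
  -- pointwise bound
  have hpt : ∀ v : Λ, ENNReal.ofReal (‖(v : E)‖ ^ (-s)) ≤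
      ∑' k : ℕ, (if ‖(v : E)‖ ≤ 2 ^ (k + 1) * l ∧ 2 ^ k * l ≤ ‖(v : E)‖ then
        ENNReal.ofReal ((2 ^ k * l) ^ (-s)) else 0) := by
    intro v
    by_cases hv : (v : E) = 0
    · rw [hv, norm_zero, Real.zero_rpow (by linarith : -s ≠ 0), ENNReal.ofReal_zero]
      exact zero_le
    · obtain ⟨k, hk1, hk2⟩ := hex v hv
      refine le_trans ?_ (ENNReal.le_tsum k)
      rw [if_pos ⟨hk2, hk1⟩]
      apply ENNReal.ofReal_le_ofReal
      exact Real.rpow_le_rpow_of_nonpos (by positivity) hk1 (by linarith)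
  have hsh : ∀ k : ℕ, ∑' v : Λ, (if ‖(v : E)‖ ≤ 2 ^ (k + 1) * l ∧ 2 ^ k * l ≤ ‖(v : E)‖ then
        ENNReal.ofReal ((2 ^ k * l) ^ (-s)) else 0) ≤
        ENNReal.ofReal (8 ^ D * l ^ (-s) * r ^ k) := by
    intro k
    rw [ENNReal.tsum_eq_iSup_sum]
    refine iSup_le fun S => ?_
    rw [← Finset.sum_filter, Finset.sum_const, nsmul_eq_mul]
    generalize hT : S.filter (fun v : Λ => ‖(v : E)‖ ≤ 2 ^ (k + 1) * l ∧ 2 ^ k * l ≤ ‖(v : E)‖) = T
    have h1 := pk_shell W D hD Λ l hl hW hm k T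
      (fun v hv => by rw [← hT] at hv; exact (Finset.mem_filter.1 hv).2.1)
    have h2 : (T.card : ENNReal) = ENNReal.ofReal (T.card : ℝ) :=
      (ENNReal.ofReal_natCast T.card).symm
    rw [h2, ← ENNReal.ofReal_mul (Nat.cast_nonneg T.card)]
    apply ENNReal.ofReal_le_ofReal
    have h3 : (0 : ℝ) ≤ (2 ^ k * l) ^ (-s) := by positivity
    refine (mul_le_mul_of_nonneg_right h1 h3).trans (le_of_eq ?_)
    have h4 : ((2 : ℝ) ^ k * l) ^ (-s) = ((2 : ℝ) ^ (-s)) ^ k * l ^ (-s) := by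
      rw [Real.mul_rpow (by positivity) hl.le]
      congr 1
      rw [← Real.rpow_natCast 2 k, ← Real.rpow_mul (by norm_num), ← Real.rpow_natCast _ k,
        ← Real.rpow_mul (by norm_num), mul_comm]
    have h5 : r = 2 ^ D * (2 : ℝ) ^ (-s) := by
      rw [hr, sub_eq_add_neg, Real.rpow_add (by norm_num), Real.rpow_natCast]
    rw [h4, h5, mul_pow]
    ring
  calc ∑' v : Λ, ENNReal.ofReal (‖(v : E)‖ ^ (-s))
      ≤ ∑' v : Λ, ∑' k : ℕ, (if ‖(v : E)‖ ≤ 2 ^ (k + 1) * l ∧ 2 ^ k * l ≤ ‖(v : E)‖ then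
        ENNReal.ofReal ((2 ^ k * l) ^ (-s)) else 0) := ENNReal.tsum_le_tsum hpt
    _ = ∑' k : ℕ, ∑' v : Λ, (if ‖(v : E)‖ ≤ 2 ^ (k + 1) * l ∧ 2 ^ k * l ≤ ‖(v : E)‖ then
        ENNReal.ofReal ((2 ^ k * l) ^ (-s)) else 0) := ENNReal.tsum_comm
    _ ≤ ∑' k : ℕ, ENNReal.ofReal (8 ^ D * l ^ (-s) * r ^ k) := ENNReal.tsum_le_tsum hsh
    _ = ENNReal.ofReal (∑' k : ℕ, 8 ^ D * l ^ (-s) * r ^ k) := by
      rw [ENNReal.ofReal_tsum_of_nonneg]
      · intro k; positivity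
      · exact (summable_geometric_of_lt_one hr0.le hr1).mul_left _
    _ = ENNReal.ofReal (8 ^ D * (1 - r)⁻¹ * l ^ (-s)) := by
      rw [tsum_mul_left, tsum_geometric_of_lt_one hr0.le hr1]
      congr 1
      ring

end Pool.Agent.H34.GM
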