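import Pool.Agent.H34.GM.Targets2

/-!
Row PLC: polar coordinates for integrable functions, and shells against smooth cut-offs.
-/

set_option autoImplicit false

namespace Pool.Agent.H34.GM

open MeasureTheory

namespace PLC

/-- the map of polar coordinates -/
noncomputable def pl {m : ℕ} (p : ℝ × V m) : V m := (p.1 * (aN (mt p.2))⁻¹) • p.2

/-- the radial measure -/
noncomputable def nu : Measure ℝ :=
  (volume.restrict (Set.Ioi (0 : ℝ))).withDensity fun r => ENNReal.ofReal r⁻¹

theorem meas_inv : Measurable fun r : ℝ => ENNReal.ofReal r⁻¹ := measurable_inv.ennreal_ofReal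

theorem aN_smul {m : ℕ} (hm1 : 1 ≤ m) {c : ℝ} (hc : 0 < c) (z : V m) :
    aN (mt (c • z)) = c * aN (mt z) := by
  have h1 : (mt (c • z)) = c • mt z := by ext i j; simp
  rw [h1]
  unfold aN
  have hm0 : (m : ℝ) ≠ 0 := by
    have : m ≠ 0 := by omega
    exact_mod_cast this
  rw [Matrix.det_smul, Fintype.card_fin, abs_mul, abs_pow, abs_of_pos hc,
    Real.mul_rpow (by positivity) (abs_nonneg _), ← Real.rpow_natCast, ← Real.rpow_mul hc.le,
    mul_one_div_cancel hm0, Real.rpow_one]

theorem pl_meas {m : ℕ} (hMSR : T_MSR) : Measurable (pl (m := m)) := by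
  obtain ⟨-, -, h3, -⟩ := hMSR.1 m
  have h4 : Measurable fun p : ℝ × V m => aN (mt p.2) := h3.comp measurable_snd
  exact (measurable_fst.mul h4.inv).smul measurable_snd

theorem map_eq {m : ℕ} (hm1 : 1 ≤ m) (hMSR : T_MSR) (hPLR : T_PLR) :
    Measure.map (pl (m := m)) (nu.prod ((hm m).restrict (Shell m))) = hm m := by
  obtain ⟨-, -, -, -, h5, -⟩ := hMSR.1 m
  have : SigmaFinite (hm m) := h5
  refine Measure.ext fun A hA => ?_
  have hpm := pl_meas (m := m) hMSR
  rw [Measure.map_apply hpm hA, ← lintegral_indicator_one (hpm hA)]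
  have hmi : Measurable ((pl (m := m) ⁻¹' A).indicator (1 : ℝ × V m → ENNReal)) :=
    measurable_one.indicator (hpm hA)
  have hsf : SFinite nu := by unfold nu; infer_instance
  rw [lintegral_prod _ hmi.aemeasurable]
  have hmi2 : Measurable fun r : ℝ => ∫⁻ z in Shell m,
      (pl (m := m) ⁻¹' A).indicator (1 : ℝ × V m → ENNReal) (r, z) ∂(hm m) :=
    hmi.lintegral_prod_right'
  unfold nu
  rw [lintegral_withDensity_eq_lintegral_mul _ meas_inv hmi2]
  have h6 := hPLR m hm1 (A.indicator 1) (measurable_one.indicator hA)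
  rw [lintegral_indicator_one hA] at h6
  rw [h6]
  refine lintegral_congr fun r => ?_
  rw [Pi.mul_apply, mul_comm]
  rfl

theorem nu_ae {P : ℝ → Prop} (h : ∀ᵐ r ∂nu, P r) :
    ∀ᵐ r ∂(volume.restrict (Set.Ioi (0 : ℝ))), P r := by
  unfold nu at h
  rw [ae_withDensity_iff meas_inv] at h
  filter_upwards [h, ae_restrict_mem measurableSet_Ioi] with r hr hr0
  exact hr (by
    rw [Ne, ENNReal.ofReal_eq_zero, not_le]
    exact inv_pos.mpr hr0)

theorem nu_integrable {G : ℝ → ℂ} : Integrable G nu ↔
    IntegrableOn (fun r : ℝ => G r * (r : ℂ)⁻¹) (Set.Ioi (0 : ℝ)) := by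
  unfold nu IntegrableOn
  rw [integrable_withDensity_iff_integrable_smul' meas_inv
    (Filter.Eventually.of_forall fun r => ENNReal.ofReal_lt_top)]
  refine integrable_congr ?_
  filter_upwards [ae_restrict_mem measurableSet_Ioi] with r hr
  have hr0 : (0 : ℝ) < r := hr
  rw [ENNReal.toReal_ofReal (inv_nonneg.mpr hr0.le), Complex.real_smul, mul_comm]
  push_cast
  rfl

theorem nu_integral (G : ℝ → ℂ) :
    ∫ r, G r ∂nu = ∫ r in Set.Ioi (0 : ℝ), G r * (r : ℂ)⁻¹ := by
  unfold nu
  rw [integral_withDensity_eq_integral_toReal_smul meas_inv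
    (Filter.Eventually.of_forall fun r => ENNReal.ofReal_lt_top)]
  refine integral_congr_ae ?_
  filter_upwards [ae_restrict_mem measurableSet_Ioi] with r hr
  have hr0 : (0 : ℝ) < r := hr
  rw [ENNReal.toReal_ofReal (inv_nonneg.mpr hr0.le), Complex.real_smul, mul_comm]
  push_cast
  rfl

/-- dilations preserve the measure -/
theorem scale_mp {m : ℕ} (hm1 : 1 ≤ m) (hHAR : T_HAR) {c : ℝ} (hc : 0 < c) :
    MeasurePreserving (fun z : V m => c • z) (hm m) (hm m) := by
  have hms : Measurable fun z : V m => c • z := measurable_const_smul c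
  refine ⟨hms, Measure.ext fun A hA => ?_⟩
  rw [Measure.map_apply hms hA, ← lintegral_indicator_one (hms hA), ← lintegral_indicator_one hA]
  have hdet : (c • (1 : Mat m)).det ≠ 0 := by
    rw [Matrix.det_smul, Matrix.det_one, mul_one]
    exact pow_ne_zero _ hc.ne'
  have h1 := ((hHAR m hm1).1 (c • (1 : Mat m)) hdet (A.indicator 1)
    (measurable_one.indicator hA)).1
  rw [← h1]
  refine lintegral_congr fun z => ?_
  have h2 : (fun i j => ((c • (1 : Mat m)) * mt z) i j) = c • z := by
    funext i j
    rw [Matrix.smul_mul, Matrix.one_mul]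
    simp
  rw [h2]
  rfl

end PLC

open PLC in
theorem pf_PLC : T_MSR → T_HAR → T_PLR → T_PLC := by
  intro hMSR hHAR hPLR m hm1
  obtain ⟨-, -, h3, -, h5, h6, -⟩ := hMSR.1 m
  have hsig : SigmaFinite (hm m) := h5
  have hsf : SFinite nu := by unfold nu; infer_instance
  have hpm := pl_meas (m := m) hMSR
  have hmap := map_eq hm1 hMSR hPLR
  constructor
  · intro f hf
    have hf1 : Integrable f (Measure.map (pl (m := m))
        (nu.prod ((hm m).restrict (Shell m)))) := by rw [hmap]; exact hf
    have hf2 : Integrable (f ∘ pl) (nu.prod ((hm m).restrict (Shell m))) :=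
      (integrable_map_measure hf1.1 hpm.aemeasurable).mp hf1
    refine ⟨nu_ae hf2.prod_right_ae, nu_integrable.mp hf2.integral_prod_left, ?_⟩
    have h7 : ∫ z, f z ∂(hm m) = ∫ p, f (pl p) ∂(nu.prod ((hm m).restrict (Shell m))) := by
      rw [← integral_map hpm.aemeasurable hf1.1, hmap]
    have h8 : ∫ p, f (pl p) ∂(nu.prod ((hm m).restrict (Shell m))) =
        ∫ r, (∫ z in Shell m, f ((r * (aN (mt z))⁻¹) • z) ∂(hm m)) ∂nu :=
      integral_prod _ hf2
    rw [h7, h8, nu_integral]
  · intro f η hη hηs hη1 hf hfs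
    obtain ⟨c, hc1, hc⟩ := hηs
    have hc0 : 0 < c := by linarith
    -- measurability of `f`
    have hfm : AEStronglyMeasurable f (hm m) := by
      obtain ⟨f', hf'm, hf'e⟩ := hf.1
      have h8 : ∀ᵐ z ∂(hm m), z ∈ Shell m → f z = f' z := (ae_restrict_iff' h6).mp hf'e
      have h9 : ∀ᵐ z ∂(hm m), ∀ k : ℤ, Real.exp k • z ∈ Shell m →
          f (Real.exp k • z) = f' (Real.exp k • z) := by
        rw [ae_all_iff]
        intro k
        exact (scale_mp hm1 hHAR (Real.exp_pos k)).quasiMeasurePreserving.ae h8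
      have h10 : ∀ᵐ z ∂(hm m), (mt z).det ≠ 0 := by
        rw [ae_iff]
        simpa using (hHAR m hm1).2.2.1
      have hlog : Measurable fun z : V m => Real.log (aN (mt z)) := h3.log
      have hfl : Measurable fun z : V m => Real.exp ((-⌊Real.log (aN (mt z))⌋ : ℤ) : ℝ) := by
        refine Real.measurable_exp.comp ?_
        have : Measurable fun z : V m => (⌊Real.log (aN (mt z))⌋ : ℤ) :=
          Int.measurable_floor.comp hlog
        exact measurable_from_top.comp this.neg
      refine ⟨fun z => f' (Real.exp ((-⌊Real.log (aN (mt z))⌋ : ℤ) : ℝ) • z), ?_, ?_⟩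
      · exact hf'm.comp_measurable (hfl.smul measurable_id)
      · filter_upwards [h9, h10] with z hz hdet
        set k : ℤ := -⌊Real.log (aN (mt z))⌋ with hk
        have hapos : 0 < aN (mt z) := by
          unfold aN
          exact Real.rpow_pos_of_pos (abs_pos.mpr hdet) _
        have hS : Real.exp k • z ∈ Shell m := by
          have h11 : aN (mt (Real.exp k • z)) = Real.exp (k + Real.log (aN (mt z))) := by
            rw [aN_smul hm1 (Real.exp_pos _), Real.exp_add, Real.exp_log hapos]
          have h12 : ((k : ℤ) : ℝ) = -(⌊Real.log (aN (mt z))⌋ : ℝ) := by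
            rw [hk]; push_cast; rfl
          constructor
          · rw [h11, h12]
            have := Int.floor_le (Real.log (aN (mt z)))
            exact Real.one_le_exp (by linarith)
          · rw [h11, h12]
            have := Int.lt_floor_add_one (Real.log (aN (mt z)))
            exact Real.exp_lt_exp.mpr (by linarith)
        rw [← hz k hS]
        exact (hfs _ (Real.exp_pos _) z).symm
    have hgm : AEStronglyMeasurable (fun z => f z * (η (aN (mt z)) : ℂ)) (hm m) := by
      refine hfm.mul ?_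
      exact (Complex.measurable_ofReal.comp
        (hη.measurable.comp h3)).aestronglyMeasurable
    -- the cut-off is integrable
    have hηi : Integrable (fun r : ℝ => (η r : ℂ)) nu := by
      rw [nu_integrable]
      have h11 : (fun r : ℝ => (η r : ℂ) * (r : ℂ)⁻¹) = fun r : ℝ => ((η r * r⁻¹ : ℝ) : ℂ) := by
        funext r; push_cast; rfl
      rw [h11]
      have h12 : IntegrableOn (fun r : ℝ => η r * r⁻¹) (Set.Icc c⁻¹ c) := by
        refine ContinuousOn.integrableOn_Icc ?_
        refine hη.continuousOn.mul (continuousOn_id.inv₀ fun r hr => ?_)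
        exact (lt_of_lt_of_le (inv_pos.mpr hc0) hr.1).ne'
      have h13 : Integrable (fun r : ℝ => η r * r⁻¹) := by
        refine (integrableOn_iff_integrable_of_support_subset ?_).mp h12
        intro r hr
        have : η r ≠ 0 := fun h => hr (by simp [h])
        exact hc r this
      exact h13.ofReal.integrableOn
    have hprod : Integrable (fun p : ℝ × V m => (η p.1 : ℂ) * f p.2)
        (nu.prod ((hm m).restrict (Shell m))) := hηi.mul_prod hf
    have hmemS : ∀ᵐ p ∂(nu.prod ((hm m).restrict (Shell m))), 0 < p.1 ∧ p.2 ∈ Shell m := by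
      have h14 : ∀ᵐ r ∂nu, 0 < r := by
        unfold nu
        rw [ae_withDensity_iff meas_inv]
        filter_upwards [ae_restrict_mem measurableSet_Ioi] with r hr _
        exact hr
      have h15 : ∀ᵐ z ∂((hm m).restrict (Shell m)), z ∈ Shell m := ae_restrict_mem h6
      have h16 : ∀ᵐ p ∂(nu.prod ((hm m).restrict (Shell m))), 0 < p.1 :=
        Measure.quasiMeasurePreserving_fst.ae h14
      have h17 : ∀ᵐ p ∂(nu.prod ((hm m).restrict (Shell m))), p.2 ∈ Shell m :=
        Measure.quasiMeasurePreserving_snd.ae h15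
      filter_upwards [h16, h17] with p h1 h2
      exact ⟨h1, h2⟩
    have hcongr : (fun p : ℝ × V m => (η p.1 : ℂ) * f p.2) =ᵐ[nu.prod ((hm m).restrict (Shell m))]
        (fun z => f z * (η (aN (mt z)) : ℂ)) ∘ pl := by
      filter_upwards [hmemS] with p hp
      obtain ⟨h1, h2⟩ := hp
      have ha : 0 < aN (mt p.2) := by
        have : (1 : ℝ) ≤ aN (mt p.2) := h2.1
        linarith
      have hc' : 0 < p.1 * (aN (mt p.2))⁻¹ := mul_pos h1 (inv_pos.mpr ha)
      simp only [Function.comp_apply, pl]
      rw [hfs _ hc', aN_smul hm1 hc', inv_mul_cancel_right₀ ha.ne', mul_comm]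
    have hgm' : AEStronglyMeasurable (fun z => f z * (η (aN (mt z)) : ℂ))
        (Measure.map (pl (m := m)) (nu.prod ((hm m).restrict (Shell m)))) := by
      rw [hmap]; exact hgm
    have hgi : Integrable (fun z => f z * (η (aN (mt z)) : ℂ)) (hm m) := by
      rw [← hmap]
      exact (integrable_map_measure hgm' hpm.aemeasurable).mpr (hprod.congr hcongr)
    refine ⟨hgi, ?_⟩
    have h18 : ∫ z, f z * (η (aN (mt z)) : ℂ) ∂(hm m) =
        ∫ p, (η p.1 : ℂ) * f p.2 ∂(nu.prod ((hm m).restrict (Shell m))) := by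
      rw [integral_congr_ae hcongr]
      have := integral_map hpm.aemeasurable hgm'
      rw [hmap] at this
      exact this
    rw [h18, integral_prod_mul (fun r : ℝ => (η r : ℂ)) f, nu_integral]
    have h19 : ∫ r in Set.Ioi (0 : ℝ), (η r : ℂ) * (r : ℂ)⁻¹ = 1 := by
      have h20 : (fun r : ℝ => (η r : ℂ) * (r : ℂ)⁻¹) = fun r : ℝ => ((η r / r : ℝ) : ℂ) := by
        funext r; push_cast; rw [div_eq_mul_inv]
      rw [h20]
      have h21 := integral_ofReal (𝕜 := ℂ) (f := fun r : ℝ => η r / r)
        (μ := volume.restrict (Set.Ioi (0 : ℝ)))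
      rw [hη1] at h21
      simpa using h21
    rw [h19, one_mul]

end Pool.Agent.H34.GM
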