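import Pool.Agent.H34.GM.Targets2

/-!
Row PRF of the board gm4: a smooth profile.
-/

set_option autoImplicit false

namespace Pool.Agent.H34.GM

theorem pf_PRF : T_PRF := by
  let f : ContDiffBump (0 : ℝ) := ⟨1 / 4, 1, by norm_num, by norm_num⟩
  refine ⟨f, ?_, fun x => f.nonneg, fun x => f.le_one, fun x hx => ?_, fun x hx => ?_⟩
  · exact f.contDiff
  · apply f.one_of_mem_closedBall
    rw [mem_closedBall_zero_iff, Real.norm_eq_abs]
    exact hx
  · apply f.zero_of_le_dist
    rw [Real.dist_eq, sub_zero]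
    exact hx

end Pool.Agent.H34.GM
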