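import Pool.Agent.H34.GM.Targets2

/-!
Size of the eigenvalues for one form.
-/

namespace Pool.Agent.H34.GM

open MeasureTheory

theorem sma_covol {m : ℕ} (b : Module.Basis (Fin m × Fin m) ℝ (Mat m)) : 0 < covol b := by
  classical
  rw [covol, abs_pos]
  have h1 : (Matrix.of fun (i j : Fin m × Fin m) => (b i) j.1 j.2) =
      ((Matrix.stdBasis ℝ (Fin m) (Fin m)).toMatrix b).transpose := by
    ext i j
    obtain ⟨j1, j2⟩ := j
    rw [Matrix.transpose_apply, Module.Basis.toMatrix_apply, Matrix.of_apply]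
    rfl
  rw [h1, Matrix.det_transpose]
  have h2 := (Matrix.stdBasis ℝ (Fin m) (Fin m)).isUnit_det b
  rw [Module.Basis.det_apply] at h2
  exact h2.ne_zero

theorem sma_aN {m : ℕ} (hm : 1 ≤ m) {g : Mat m} (h : 1 ≤ aN g) : g.det ≠ 0 := by
  intro h0
  rw [aN, h0, abs_zero, Real.zero_rpow (by positivity)] at h
  linarith

theorem sma_ee (x : ℝ) : ‖ee x‖ = 1 := by
  rw [ee, Complex.norm_exp]
  simp

theorem sma_opW {m q : ℕ} {R : Type} [Ring R] [Fintype R] (σ : R → Mat m) (f : R → ℂ) (x : R)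
    (B : ℝ) (hB : ∀ y, ‖f y‖ ≤ B) :
    ‖opW (m := m) q σ f x‖ ≤ (q : ℝ) ^ (-((m : ℝ) ^ 2) / 2) * (Fintype.card R * B) := by
  have hB0 : 0 ≤ B := (norm_nonneg _).trans (hB 0)
  have hq : (0 : ℝ) ≤ (q : ℝ) ^ (-((m : ℝ) ^ 2) / 2) := Real.rpow_nonneg (Nat.cast_nonneg _) _
  unfold opW
  split_ifs with hx
  · rw [norm_mul, Complex.norm_real, Real.norm_of_nonneg hq]
    apply mul_le_mul_of_nonneg_left _ hq
    refine (norm_sum_le _ _).trans ?_
    have : ∀ y ∈ (Finset.univ : Finset R), ‖psi q σ (y * Ring.inverse x) * f y‖ ≤ B := by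
      intro y _
      rw [norm_mul, psi, sma_ee, one_mul]
      exact hB y
    refine (Finset.sum_le_sum this).trans ?_
    rw [Finset.sum_const, nsmul_eq_mul, Finset.card_univ]
  · rw [norm_zero]
    positivity

theorem pf_SMA : T_FTD → T_BDD → T_BBD → T_DID → T_SMA := by
  intro hFTD hBDD hBBD hDID m q O b d R _ _ π σ T D hS F lam mu hF hNZ χ δ hχ hδ hδ2 N
  have hm1 := hS.ord.one_le
  have hq2 := hS.lev.two_le
  have hq : (0 : ℝ) < q := by
    have : 0 < q := by omega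
    exact_mod_cast this
  obtain ⟨g0, x0, hg0, hF0⟩ := hNZ
  obtain ⟨M1, hM10, hM1⟩ := hBDD m q O b d R π σ T D hS F lam mu hF
  obtain ⟨s, hs1, hs2⟩ : ∃ s : ℕ, N + m ^ 2 ≤ s ∧ m ^ 2 + 1 ≤ s :=
    ⟨max (N + m ^ 2) (m ^ 2 + 1), le_max_left _ _, le_max_right _ _⟩
  obtain ⟨C1, A, hC1, hft⟩ := hFTD m χ hm1 hχ s
  obtain ⟨hftc, hftb⟩ := hft δ hδ hδ2
  have hsm : (m : ℝ) ^ 2 < (s : ℝ) := by
    have : m ^ 2 < s := by omega
    exact_mod_cast this
  obtain ⟨C2, hC2⟩ := hBBD m q O b d R π σ T D hS (ft (bump m χ δ)) (C1 * δ⁻¹ ^ A) s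
    (by positivity) hsm hftc hftb
  have hdD : ∀ z ∈ D, (mt z).det ≠ 0 := fun z hz => sma_aN hm1 (hS.dom.shell z hz).1
  have hmeas : ∀ x, AEStronglyMeasurable (fun z : V m => F (mt z) x) ((hm m).restrict D) := by
    intro x
    apply ContinuousOn.aestronglyMeasurable _ hS.dom.meas
    apply (hF.cont x).comp (t := {g : Mat m | g.det ≠ 0})
    · exact (continuous_id : Continuous fun z : V m => (mt z)).continuousOn
    · intro z hz
      exact hdD z hz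
  have hB := hC2 F M1 hM10 (fun z hz x => hM1 _ x (hdD z hz)) hmeas
    (fun x hx z _ => hF.supp _ x hx)
  have hFn : 0 < ‖F g0 x0‖ := norm_pos_iff.2 hF0
  set C3 : ℝ := (q : ℝ) ^ (-((m : ℝ) ^ 2) / 2) * (Fintype.card R * (C2 * M1)) / ‖F g0 x0‖
    with hC3
  have key : ∀ r : ℝ, 0 < r → ‖thD b q (bump m χ δ) mu lam r‖ ≤ C3 * r ^ s := by
    intro r hr
    have h1 := hDID m q O b d R π σ T D hS F lam mu hF χ δ hχ hδ hδ2 g0 r x0 hg0 hr
    have h2 := sma_opW (m := m) (q := q) σ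
      (fun y => opB O d π (ft (bump m χ δ)) r D F g0 y) x0 (C2 * M1 * r ^ (s : ℝ))
      (fun y => (hB r hr).1 g0 y hg0)
    rw [h1, norm_mul, Real.rpow_natCast] at h2
    rw [hC3, div_mul_eq_mul_div, le_div_iff₀ hFn]
    refine h2.trans (le_of_eq ?_)
    ring
  have hC30 : 0 ≤ C3 := by
    have := (norm_nonneg _).trans (key 1 one_pos)
    simpa using this
  have hcv := sma_covol b
  have hqm : (0 : ℝ) < (q : ℝ) ^ ((m : ℝ) ^ 2 / 2) := Real.rpow_pos_of_pos hq _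
  set C4 : ℝ := C3 * (q : ℝ) ^ s / (covol b * (q : ℝ) ^ ((m : ℝ) ^ 2 / 2)) with hC4
  refine ⟨max C3 C4, ?_, ?_⟩
  · intro r hr hr1
    calc ‖thD b q (bump m χ δ) mu lam r‖ ≤ C3 * r ^ s := key r hr
      _ ≤ C3 * r ^ N := by
          apply mul_le_mul_of_nonneg_left _ hC30
          exact pow_le_pow_of_le_one hr.le hr1 (by omega)
      _ ≤ max C3 C4 * r ^ N := mul_le_mul_of_nonneg_right (le_max_left _ _) (pow_nonneg hr.le _)
  · intro r hr
    have hr0 : 0 < r := by linarith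
    have hqr : (q : ℝ) / ((q : ℝ) / r) = r := by field_simp
    have h1 := key ((q : ℝ) / r) (by positivity)
    rw [thD, hqr, norm_mul, Complex.norm_real] at h1
    have h2 : (0 : ℝ) < covol b * (q : ℝ) ^ ((m : ℝ) ^ 2 / 2) * r ^ (-((m : ℝ) ^ 2)) := by
      have := Real.rpow_pos_of_pos hr0 (-((m : ℝ) ^ 2))
      positivity
    rw [Real.norm_of_nonneg h2.le] at h1
    have h3 : r ^ (-((m : ℝ) ^ 2)) = (r ^ (m ^ 2))⁻¹ := by
      rw [Real.rpow_neg hr0.le, ← Nat.cast_pow, Real.rpow_natCast]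
    have h4 : r ^ (-(N : ℝ)) = (r ^ N)⁻¹ := by
      rw [Real.rpow_neg hr0.le, Real.rpow_natCast]
    rw [h3] at h1 h2
    have h5 : ‖thF q (bump m χ δ) mu lam r‖ ≤ C3 * ((q : ℝ) / r) ^ s /
        (covol b * (q : ℝ) ^ ((m : ℝ) ^ 2 / 2) * (r ^ (m ^ 2))⁻¹) := by
      rw [le_div_iff₀ h2]
      linarith
    have h6 : C3 * ((q : ℝ) / r) ^ s /
        (covol b * (q : ℝ) ^ ((m : ℝ) ^ 2 / 2) * (r ^ (m ^ 2))⁻¹) =
        C4 * (r ^ (m ^ 2) / r ^ s) := by
      rw [hC4, div_pow]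
      field_simp
    have h7 : r ^ (m ^ 2) / r ^ s ≤ (r ^ N)⁻¹ := by
      rw [div_le_iff₀ (by positivity), inv_mul_eq_div, le_div_iff₀ (by positivity), ← pow_add]
      exact pow_le_pow_right₀ hr (by omega)
    have hC40 : 0 ≤ C4 := by
      rw [hC4]
      positivity
    rw [h4]
    calc _ ≤ _ := h5
      _ = C4 * (r ^ (m ^ 2) / r ^ s) := h6
      _ ≤ C4 * (r ^ N)⁻¹ := mul_le_mul_of_nonneg_left h7 hC40
      _ ≤ max C3 C4 * (r ^ N)⁻¹ :=
          mul_le_mul_of_nonneg_right (le_max_right _ _) (by positivity)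

end Pool.Agent.H34.GM
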