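import Pool.Agent.H34.GM.Targets2

/-!
Fourth moment of the eigenvalues of the operator `A_r` (page H34_GM.md).
-/

namespace Pool.Agent.H34.GM

open MeasureTheory

theorem ta4_det {m q : ℕ} {O : Subring (Mat m)} {b : Module.Basis (Fin m × Fin m) ℝ (Mat m)}
    {d : ℤ} {R : Type} [Ring R] [Fintype R] {π : Mat m → R} {σ : R → Mat m}
    {T : ℕ → Finset (Mat m)} {D : Set (V m)} (hS : Sys m q O b d π σ T D) :
    ∀ z ∈ D, (mt z).det ≠ 0 := by
  intro z hz h0
  have h1 := (hS.dom.shell z hz).1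
  have hm : (1 : ℝ) / (m : ℝ) ≠ 0 := by
    have := hS.ord.one_le
    positivity
  rw [aN, h0, abs_zero, Real.zero_rpow hm] at h1
  linarith

theorem pf_TA4 : T_BMP → T_EIG → T_HSA → T_TA4 := by
  intro hBMP hEIG hHSA m O b d hO χ hχ s hs
  have hm1 : 1 ≤ m := hO.one_le
  obtain ⟨hB1, hB2⟩ := hBMP m χ hm1 hχ
  have hs0 : (0 : ℝ) ≤ 2 * s := by nlinarith [sq_nonneg (m : ℝ)]
  obtain ⟨M, hM, hB⟩ := hB2 (2 * s) hs0
  obtain ⟨C, hC, hH⟩ := hHSA m O b d hO s hs
  refine ⟨M ^ 4 * C, by positivity, ?_⟩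
  intro q R _ _ π σ T D hS ι _ _ F lam mu hF hOrt δ hδ hδ2 r hr hrq
  obtain ⟨hT, -, -, -, -⟩ := hB1 δ hδ hδ2
  set Φ := bump m χ δ with hΦ
  have hdet := ta4_det hS
  have hmeas : MeasurableSet D := hS.dom.meas
  -- the eigenvalue equation, twice
  have h1 : ∀ i, ∀ z ∈ D, ∀ x, opA O π Φ r D (F i) (mt z) x =
      thF q Φ (mu i) (lam i) r * F i (mt z) x := fun i z hz x =>
    hEIG m q O b d R π σ T D hS (F i) (lam i) (mu i) (hF i) Φ hT (mt z) r x (hdet z hz) hr
  have h2 : ∀ i, ∀ z ∈ D, ∀ x, opA O π Φ r D (opA O π Φ r D (F i)) (mt z) x =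
      thF q Φ (mu i) (lam i) r ^ 2 * F i (mt z) x := by
    intro i z hz x
    have h3 : opA O π Φ r D (opA O π Φ r D (F i)) (mt z) x =
        thF q Φ (mu i) (lam i) r * opA O π Φ r D (F i) (mt z) x := by
      rw [opA, opA, ← integral_const_mul]
      refine setIntegral_congr_fun hmeas fun w hw => ?_
      rw [← tsum_mul_left]
      refine tsum_congr fun α => ?_
      rw [h1 i w hw]
      ring
    rw [h3, h1 i z hz x]
    ring
  have h4 := hH q R π σ T D hS ι F lam mu hF hOrt Φ M hM.le hT.cont (hB δ hδ hδ2) r hr hrq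
  -- the norm of one form
  have h5 : ∀ i, ∑ x : R, ∫⁻ z in D, ENNReal.ofReal (‖F i (mt z) x‖ ^ 2) ∂(hm m) = 1 := by
    intro i
    have hfc : ∀ x : R, (fun z : V m => F i (mt z) x * (starRingEnd ℂ) (F i (mt z) x)) =
        fun z => ((‖F i (mt z) x‖ ^ 2 : ℝ) : ℂ) := by
      intro x
      funext z
      rw [Complex.mul_conj, Complex.normSq_eq_norm_sq]
    have hint : ∀ x : R, IntegrableOn (fun z : V m => ‖F i (mt z) x‖ ^ 2) D (hm m) := by
      intro x
      have h := hOrt.1 i i x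
      rw [hfc x] at h
      have h' := h.re
      refine h'.congr ?_
      refine Filter.Eventually.of_forall fun z => ?_
      simp only [RCLike.re_to_complex, Complex.ofReal_re]
    have hone := hOrt.2 i i
    rw [if_pos rfl] at hone
    have hr1 : ∑ x : R, ∫ z in D, ‖F i (mt z) x‖ ^ 2 ∂(hm m) = 1 := by
      have : ((∑ x : R, ∫ z in D, ‖F i (mt z) x‖ ^ 2 ∂(hm m) : ℝ) : ℂ) = 1 := by
        rw [← hone, Complex.ofReal_sum]
        refine Finset.sum_congr rfl fun x _ => ?_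
        rw [hfc x]
        exact (integral_complex_ofReal).symm
      exact_mod_cast this
    have hx : ∀ x : R, ∫⁻ z in D, ENNReal.ofReal (‖F i (mt z) x‖ ^ 2) ∂(hm m) =
        ENNReal.ofReal (∫ z in D, ‖F i (mt z) x‖ ^ 2 ∂(hm m)) := by
      intro x
      rw [ofReal_integral_eq_lintegral_ofReal (hint x)
        (Filter.Eventually.of_forall fun z => by positivity)]
    simp only [hx]
    rw [← ENNReal.ofReal_sum_of_nonneg fun x _ => integral_nonneg fun z => by positivity, hr1,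
      ENNReal.ofReal_one]
  -- the left side of HSA
  have h6 : ∑ i, ∑ x, ∫⁻ z in D, ENNReal.ofReal
      (‖opA O π Φ r D (opA O π Φ r D (F i)) (mt z) x‖ ^ 2) ∂(hm m) =
        ENNReal.ofReal (∑ i, ‖thF q Φ (mu i) (lam i) r‖ ^ 4) := by
    rw [ENNReal.ofReal_sum_of_nonneg fun i _ => by positivity]
    refine Finset.sum_congr rfl fun i _ => ?_
    have h7 : ∀ x : R, ∫⁻ z in D, ENNReal.ofReal
        (‖opA O π Φ r D (opA O π Φ r D (F i)) (mt z) x‖ ^ 2) ∂(hm m) =
          ENNReal.ofReal (‖thF q Φ (mu i) (lam i) r‖ ^ 4) *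
            ∫⁻ z in D, ENNReal.ofReal (‖F i (mt z) x‖ ^ 2) ∂(hm m) := by
      intro x
      rw [← lintegral_const_mul' _ _ ENNReal.ofReal_ne_top]
      refine setLIntegral_congr_fun hmeas fun z hz => ?_
      rw [h2 i z hz x, ← ENNReal.ofReal_mul (by positivity)]
      congr 1
      rw [norm_mul, norm_pow]
      ring
    simp only [h7]
    rw [← Finset.mul_sum, h5 i, mul_one]
  rw [h6] at h4
  have h8 := (ENNReal.ofReal_le_ofReal_iff (by positivity)).mp h4
  exact h8

end Pool.Agent.H34.GM
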