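import Pool.Agent.H34.GM.Targets2

/-!
Row TD4: the fourth moment of the eigenvalues of `W A'_r`.
-/

namespace Pool.Agent.H34.GM

open MeasureTheory

lemma td4_det {m : ℕ} (hm1 : 1 ≤ m) {z : Mat m} (h : 1 ≤ aN z) : z.det ≠ 0 := by
  intro h0
  unfold aN at h
  rw [h0, abs_zero, Real.zero_rpow] at h
  · linarith
  · have : (m : ℝ) ≠ 0 := by
      have : (0 : ℝ) < m := by exact_mod_cast hm1
      exact this.ne'
    exact div_ne_zero one_ne_zero this

/-- `opB` is linear for scalars and depends on the points of the domain only -/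
lemma td4_opB_congr {m : ℕ} (O : Subring (Mat m)) (d : ℤ) {R : Type} [Ring R] (π : Mat m → R)
    (Φ : Mat m → ℂ) (r : ℝ) (D : Set (V m)) (hD : MeasurableSet D) (F G : Mat m → R → ℂ)
    (c : ℂ) (h : ∀ z ∈ D, ∀ x, G (mt z) x = c * F (mt z) x) (g : Mat m) (x : R) :
    opB O d π Φ r D G g x = c * opB O d π Φ r D F g x := by
  unfold opB
  rw [← integral_const_mul]
  refine setIntegral_congr_fun hD (fun z hz => ?_)
  rw [← tsum_mul_left]
  refine tsum_congr (fun β => ?_)
  by_cases hu : IsUnit (bt d π (β : Mat m))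
  · rw [if_pos hu, if_pos hu, h z hz]
    ring
  · rw [if_neg hu, if_neg hu, mul_zero]

lemma td4_opW_mul {m : ℕ} (q : ℕ) {R : Type} [Ring R] [Fintype R] (σ : R → Mat m)
    (f g : R → ℂ) (c : ℂ) (h : ∀ y, g y = c * f y) (x : R) :
    opW (m := m) q σ g x = c * opW (m := m) q σ f x := by
  unfold opW
  by_cases hx : IsUnit x
  · rw [if_pos hx, if_pos hx]
    rw [show (∑ y, psi q σ (y * Ring.inverse x) * g y) =
      c * ∑ y, psi q σ (y * Ring.inverse x) * f y from by
        rw [Finset.mul_sum]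
        refine Finset.sum_congr rfl (fun y _ => ?_)
        rw [h y]; ring]
    ring
  · rw [if_neg hx, if_neg hx, mul_zero]

theorem pf_TD4 : T_FTD → T_BDD → T_DID → T_WCT → T_BBD → T_WCM → T_HSB → T_TD4 := by
  intro hFTD hBDD hDID hWCT hBBD hWCM hHSB m O b d hOrd χ hχ s hs
  have hm1 : 1 ≤ m := hOrd.one_le
  have hs0 : 0 < s := lt_of_le_of_lt (by positivity) hs
  obtain ⟨N, hN⟩ := exists_nat_ge (2 * s)
  obtain ⟨C1, A1, hC1, hft⟩ := hFTD m χ hm1 hχ N
  obtain ⟨C2, hC2, hsb⟩ := hHSB m O b d hOrd s hs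
  refine ⟨C1 ^ 4 * C2, A1 * 4, by positivity, ?_⟩
  intro q R _ _ π σ T D hS ι _ _ F lam mu hF hon δ hδ hδ2 r hr hrq
  set Φ : Mat m → ℂ := ft (bump m χ δ) with hΦ
  set M : ℝ := C1 * δ⁻¹ ^ A1 with hMdef
  have hM0 : 0 ≤ M := by positivity
  obtain ⟨hΦc, hΦb⟩ := hft δ hδ hδ2
  have hszn : ∀ w : Mat m, 0 ≤ sz w := fun w => norm_nonneg _
  have hΦb2 : ∀ w, ‖Φ w‖ ≤ M * (1 + sz w) ^ (-(2 * s)) := by
    intro w
    refine (hΦb w).trans ?_
    refine mul_le_mul_of_nonneg_left ?_ hM0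
    exact Real.rpow_le_rpow_of_exponent_le (by linarith [hszn w]) (by linarith)
  have h2s : (m : ℝ) ^ 2 < 2 * s := by linarith
  have hfin := hsb q R π σ T D hS ι F lam mu hF hon Φ M hM0 hΦc hΦb2 r hr hrq
  obtain ⟨C3, hbb⟩ := hBBD m q O b d R π σ T D hS Φ M (2 * s) hM0 h2s hΦc hΦb2
  have hdet : ∀ z ∈ D, (mt z).det ≠ 0 := fun z hz => td4_det hm1 (hS.dom.shell z hz).1
  have hopen : IsOpen {g : Mat m | g.det ≠ 0} := by
    have : Continuous (fun g : Mat m => g.det) := continuous_id.matrix_det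
    exact isOpen_ne.preimage this
  -- the claim for one form
  have key : ∀ i, ENNReal.ofReal (‖thD b q (bump m χ δ) (mu i) (lam i) r‖ ^ 4) ≤
      ∑ x, ∫⁻ z in D, ENNReal.ofReal
        (‖opB O d π Φ r D (opB O d π Φ r D (F i)) (mt z) x‖ ^ 2) ∂(hm m) := by
    intro i
    obtain ⟨M1, hM1, hFb⟩ := hBDD m q O b d R π σ T D hS (F i) (lam i) (mu i) (hF i)
    have hFm : ∀ x, AEStronglyMeasurable (fun z : V m => F i (mt z) x) ((hm m).restrict D) := by
      intro x
      refine ContinuousOn.aestronglyMeasurable ?_ hS.dom.meas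
      exact ((hF i).cont x).comp (continuous_id.continuousOn) (fun z hz => hdet z hz)
    obtain ⟨hG1, hG2, hG3⟩ := hbb (F i) M1 hM1 (fun z hz x => hFb _ x (hdet z hz)) hFm
      (fun x hx z _ => (hF i).supp _ x hx) r hr
    set G : Mat m → R → ℂ := opB O d π Φ r D (F i) with hGdef
    set M2 : ℝ := |C3 * M1 * r ^ (2 * s)| with hM2
    have hGb : ∀ z ∈ D, ∀ x, ‖G (mt z) x‖ ≤ M2 := fun z hz x =>
      (hG1 _ x (hdet z hz)).trans (le_abs_self _)
    obtain ⟨hB1, hB2, hB3⟩ := hbb G M2 (abs_nonneg _) hGb hG2 (fun x hx z _ => hG3 _ x hx) r hr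
    set BG : Mat m → R → ℂ := opB O d π Φ r D G with hBGdef
    set t : ℂ := thD b q (bump m χ δ) (mu i) (lam i) r with ht
    have hW1 : ∀ g x, g.det ≠ 0 → opW (m := m) q σ (fun y => G g y) x = t * F i g x := by
      intro g x hg
      exact hDID m q O b d R π σ T D hS (F i) (lam i) (mu i) (hF i) χ δ hχ hδ hδ2 g r x hg hr
    have hW2 : ∀ g x, g.det ≠ 0 → t * G g x = opW (m := m) q σ (fun y => BG g y) x := by
      intro g x hg
      have h1 := hWCM m q O b d R π σ T D hS Φ M (2 * s) hM0 h2s hΦc hΦb2 G M2 (abs_nonneg _)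
        hGb hG2 (fun x hx z _ => hG3 _ x hx) r hr g x hg
      rw [← h1]
      refine (td4_opB_congr O d π Φ r D hS.dom.meas (F i) _ t (fun z hz y => ?_) g x).symm
      exact hW1 _ y (hdet z hz)
    have hW3 : ∀ g x, g.det ≠ 0 → t * (t * F i g x) =
        opW (m := m) q σ (fun y => opW (m := m) q σ (fun y' => BG g y') y) x := by
      intro g x hg
      rw [← hW1 g x hg]
      refine (td4_opW_mul q σ (fun y => G g y) _ t (fun y => ?_) x).symm
      exact (hW2 g y hg).symm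
    have hW4 : ∀ g, g.det ≠ 0 → ∑ x, ‖t * (t * F i g x)‖ ^ 2 ≤ ∑ x, ‖BG g x‖ ^ 2 := by
      intro g hg
      obtain ⟨a1, -, a3⟩ := hWCT m q O b d R π σ hS.ord hS.lev (fun y => BG g y)
        (fun x hx => hB3 g x hx)
      obtain ⟨-, -, b3⟩ := hWCT m q O b d R π σ hS.ord hS.lev
        (fun y => opW (m := m) q σ (fun y' => BG g y') y) (fun x hx => a1 x hx)
      calc ∑ x, ‖t * (t * F i g x)‖ ^ 2
          = ∑ x, ‖opW (m := m) q σ (fun y => opW (m := m) q σ (fun y' => BG g y') y) x‖ ^ 2 :=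
            Finset.sum_congr rfl (fun x _ => by rw [hW3 g x hg])
        _ ≤ ∑ x, ‖opW (m := m) q σ (fun y' => BG g y') x‖ ^ 2 := b3
        _ ≤ ∑ x, ‖BG g x‖ ^ 2 := a3
    -- the norm of `F i`
    have hone : ∑ x, ∫⁻ z in D, ENNReal.ofReal (‖F i (mt z) x‖ ^ 2) ∂(hm m) = 1 := by
      obtain ⟨hI, hE⟩ := hon
      have hE1 := hE i i
      rw [if_pos rfl] at hE1
      have hc : ∀ (z : V m) (x : R), F i (mt z) x * (starRingEnd ℂ) (F i (mt z) x) =
          ((‖F i (mt z) x‖ ^ 2 : ℝ) : ℂ) := by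
        intro z x
        rw [Complex.mul_conj']
        push_cast
        rfl
      have hint : ∀ x, Integrable (fun z : V m => ‖F i (mt z) x‖ ^ 2) ((hm m).restrict D) := by
        intro x
        have h1 := (hI i i x).norm
        refine h1.congr (Filter.Eventually.of_forall (fun z => ?_))
        simp only
        rw [hc z x, Complex.norm_real, Real.norm_of_nonneg (by positivity)]
      have hx : ∀ x, ∫ z in D, F i (mt z) x * (starRingEnd ℂ) (F i (mt z) x) ∂(hm m) =
          ((∫ z in D, ‖F i (mt z) x‖ ^ 2 ∂(hm m) : ℝ) : ℂ) := by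
        intro x
        rw [← integral_complex_ofReal]
        refine integral_congr_ae (Filter.Eventually.of_forall (fun z => ?_))
        exact hc z x
      have hsum : ∑ x, ∫ z in D, ‖F i (mt z) x‖ ^ 2 ∂(hm m) = 1 := by
        rw [Finset.sum_congr rfl (fun x _ => hx x)] at hE1
        exact_mod_cast hE1
      calc ∑ x, ∫⁻ z in D, ENNReal.ofReal (‖F i (mt z) x‖ ^ 2) ∂(hm m)
          = ∑ x, ENNReal.ofReal (∫ z in D, ‖F i (mt z) x‖ ^ 2 ∂(hm m)) := by
            refine Finset.sum_congr rfl (fun x _ => ?_)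
            rw [ofReal_integral_eq_lintegral_ofReal (hint x)
              (Filter.Eventually.of_forall (fun z => by positivity))]
        _ = ENNReal.ofReal (∑ x, ∫ z in D, ‖F i (mt z) x‖ ^ 2 ∂(hm m)) := by
            rw [ENNReal.ofReal_sum_of_nonneg]
            intro x _
            exact integral_nonneg (fun z => by positivity)
        _ = 1 := by rw [hsum, ENNReal.ofReal_one]
    have hmeas1 : ∀ x ∈ Finset.univ, AEMeasurable (fun z : V m =>
        ENNReal.ofReal (‖t * (t * F i (mt z) x)‖ ^ 2)) ((hm m).restrict D) := by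
      intro x _
      exact ((((hFm x).const_mul t).const_mul t).norm.aemeasurable.pow_const 2).ennreal_ofReal
    have hmeas2 : ∀ x ∈ Finset.univ, AEMeasurable (fun z : V m =>
        ENNReal.ofReal (‖BG (mt z) x‖ ^ 2)) ((hm m).restrict D) := by
      intro x _
      exact ((hB2 x).norm.aemeasurable.pow_const 2).ennreal_ofReal
    calc ENNReal.ofReal (‖t‖ ^ 4)
        = ENNReal.ofReal (‖t‖ ^ 4) *
          ∑ x, ∫⁻ z in D, ENNReal.ofReal (‖F i (mt z) x‖ ^ 2) ∂(hm m) := by
          rw [hone, mul_one]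
      _ = ∑ x, ∫⁻ z in D, ENNReal.ofReal (‖t * (t * F i (mt z) x)‖ ^ 2) ∂(hm m) := by
          rw [Finset.mul_sum]
          refine Finset.sum_congr rfl (fun x _ => ?_)
          rw [← lintegral_const_mul' _ _ ENNReal.ofReal_ne_top]
          refine lintegral_congr (fun z => ?_)
          rw [← ENNReal.ofReal_mul (by positivity), norm_mul, norm_mul]
          congr 1
          ring
      _ = ∫⁻ z in D, ∑ x, ENNReal.ofReal (‖t * (t * F i (mt z) x)‖ ^ 2) ∂(hm m) := by
          rw [lintegral_finsetSum' _ hmeas1]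
      _ ≤ ∫⁻ z in D, ∑ x, ENNReal.ofReal (‖BG (mt z) x‖ ^ 2) ∂(hm m) := by
          refine setLIntegral_mono_ae' hS.dom.meas (Filter.Eventually.of_forall (fun z hz => ?_))
          rw [← ENNReal.ofReal_sum_of_nonneg (fun x _ => by positivity),
            ← ENNReal.ofReal_sum_of_nonneg (fun x _ => by positivity)]
          exact ENNReal.ofReal_le_ofReal (hW4 _ (hdet z hz))
      _ = ∑ x, ∫⁻ z in D, ENNReal.ofReal (‖BG (mt z) x‖ ^ 2) ∂(hm m) := by
          rw [lintegral_finsetSum' _ hmeas2]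
  have htot : ENNReal.ofReal (∑ i, ‖thD b q (bump m χ δ) (mu i) (lam i) r‖ ^ 4) ≤
      ENNReal.ofReal (M ^ 4 * C2 * (q : ℝ) ^ (m ^ 2) * r ^ (2 * s)) := by
    rw [ENNReal.ofReal_sum_of_nonneg (fun i _ => by positivity)]
    exact (Finset.sum_le_sum (fun i _ => key i)).trans hfin
  have hnn : 0 ≤ M ^ 4 * C2 * (q : ℝ) ^ (m ^ 2) * r ^ (2 * s) := by positivity
  have hle := (ENNReal.ofReal_le_ofReal_iff hnn).1 htot
  refine hle.trans (le_of_eq ?_)
  rw [hMdef, mul_pow, ← pow_mul]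
  ring

end Pool.Agent.H34.GM
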