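import Pool.Agent.H34.GM.Targets

/-!
Row TNB of the board `gmf_modules`: the number of classes of given determinant.
-/

set_option autoImplicit false

namespace Pool.Agent.H34.GM

open MeasureTheory

theorem tnb_coord {m : ℕ} (b : Module.Basis (Fin m × Fin m) ℝ (Mat m)) :
    ∃ K : ℝ, 0 < K ∧ ∀ (x : Mat m) (i : Fin m × Fin m), |b.repr x i| ≤ K * sz x := by
  have h : ∀ i : Fin m × Fin m, ∃ K : ℝ, 0 ≤ K ∧ ∀ x : Mat m, |b.repr x i| ≤ K * sz x := by
    intro i
    obtain ⟨f, hf⟩ : ∃ f : V m →ₗ[ℝ] ℝ, f =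
      (b.coord i).comp (Matrix.ofLinearEquiv ℝ : V m ≃ₗ[ℝ] Mat m).toLinearMap := ⟨_, rfl⟩
    refine ⟨‖LinearMap.toContinuousLinearMap f‖, norm_nonneg _, fun x => ?_⟩
    have h1 := (LinearMap.toContinuousLinearMap f).le_opNorm ((fun i j => x i j) : V m)
    have h2 : (LinearMap.toContinuousLinearMap f) ((fun i j => x i j) : V m) = b.repr x i := by
      rw [hf]
      rfl
    rw [h2, Real.norm_eq_abs] at h1
    exact h1
  choose K hK0 hK using h
  refine ⟨1 + ∑ i, K i, by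
    have := Finset.sum_nonneg (s := Finset.univ) fun i _ => hK0 i
    linarith, fun x i => (hK i x).trans ?_⟩
  have h1 : K i ≤ ∑ i, K i := Finset.single_le_sum (fun i _ => hK0 i) (Finset.mem_univ i)
  have h2 : 0 ≤ sz x := norm_nonneg _
  nlinarith

theorem pf_TNB : T_NRD → T_CMP → T_TNB := by
  classical
  intro hNRD hCMP m O b hm hO
  obtain ⟨K, hK0, hK⟩ := tnb_coord b
  obtain ⟨C, hC0, hC⟩ := hCMP m O b hm hO
  obtain ⟨-, -, -, hdet⟩ := hNRD m O b hm hO
  refine ⟨(2 * (K * C) + 1) ^ (m ^ 2), fun T hT n hn => ?_⟩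
  have hm0 : (m : ℝ) ≠ 0 := by
    have : m ≠ 0 := by omega
    exact_mod_cast this
  have hn1 : (1 : ℝ) ≤ n := by exact_mod_cast hn
  obtain ⟨ρ, hρ⟩ : ∃ ρ : ℝ, ρ = (n : ℝ) ^ (1 / (m : ℝ)) := ⟨_, rfl⟩
  have hρ1 : 1 ≤ ρ := by
    rw [hρ]
    exact Real.one_le_rpow hn1 (by positivity)
  have hρm : ρ ^ m = n := by
    rw [hρ, ← Real.rpow_natCast, ← Real.rpow_mul (by linarith), one_div_mul_cancel hm0,
      Real.rpow_one]
  have hex : ∀ α ∈ T n, ∃ (γ : Mat m) (k : Fin m × Fin m → ℤ), γ ∈ UnitsOf O ∧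
      (∀ i, b.repr (γ * α) i = k i) ∧ ∀ i, |(k i : ℝ)| ≤ K * (C * ρ) := by
    intro α hα
    obtain ⟨hαO, hαd⟩ := hT.mem n hn α hα
    have hα0 : α.det ≠ 0 := by
      intro h
      rw [h, abs_zero] at hαd
      linarith
    obtain ⟨γ, hγ, hsz, -⟩ := hC α hα0
    have hβ : γ * α ∈ O := O.mul_mem hγ.1 hαO
    choose k hk using (hO.lat (γ * α)).1 hβ
    refine ⟨γ, k, hγ, hk, fun i => ?_⟩
    rw [← hk i]
    refine (hK _ i).trans (mul_le_mul_of_nonneg_left ?_ hK0.le)
    have h1 : aN α = ρ := by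
      unfold aN
      rw [hαd, hρ]
    rw [h1] at hsz
    exact hsz
  choose! γ k hγ hk hkb using hex
  obtain ⟨M, hM⟩ : ∃ M : ℤ, M = ⌊K * (C * ρ)⌋ := ⟨_, rfl⟩
  have hM0 : 0 ≤ M := by
    rw [hM]
    exact Int.floor_nonneg.2 (by positivity)
  have hcard : (T n).card ≤
      (Fintype.piFinset fun _ : Fin m × Fin m => Finset.Icc (-M) M).card := by
    apply Finset.card_le_card_of_injOn k
    · intro α hα
      rw [Finset.mem_coe, Fintype.mem_piFinset]
      intro i
      have h1 := hkb α hα i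
      have h2 : |k α i| ≤ M := by
        rw [hM, Int.le_floor]
        push_cast
        exact h1
      rw [Finset.mem_Icc]
      exact abs_le.1 h2
    · intro α hα α' hα' h
      have hβ : γ α * α = γ α' * α' := by
        apply b.repr.injective
        ext i
        rw [hk α hα i, hk α' hα' i, h]
      obtain ⟨hαO, hαd⟩ := hT.mem n hn α hα
      have hβO : γ α * α ∈ O := O.mul_mem (hγ α hα).1 hαO
      have hβd : |(γ α * α).det| = n := by
        rw [Matrix.det_mul, abs_mul, hdet _ (hγ α hα), one_mul, hαd]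
      obtain ⟨α₀, -, huq⟩ := hT.uniq n hn _ hβO hβd
      have e1 := huq α ⟨hα, γ α, hγ α hα, rfl⟩
      have e2 := huq α' ⟨hα', γ α', hγ α' hα', hβ⟩
      rw [e1, e2]
  have hbox : ((Fintype.piFinset fun _ : Fin m × Fin m => Finset.Icc (-M) M).card : ℝ) =
      (2 * (M : ℝ) + 1) ^ (m ^ 2) := by
    rw [Fintype.card_piFinset]
    simp only [Finset.prod_const, Finset.card_univ, Fintype.card_prod, Fintype.card_fin,
      Int.card_Icc]
    have h1 : (((M + 1 - -M).toNat : ℕ) : ℝ) = 2 * (M : ℝ) + 1 := by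
      have h2 : (((M + 1 - -M).toNat : ℕ) : ℤ) = 2 * M + 1 := by
        rw [Int.toNat_of_nonneg (by omega)]
        ring
      exact_mod_cast h2
    push_cast
    rw [h1, pow_two]
  calc ((T n).card : ℝ) ≤
      ((Fintype.piFinset fun _ : Fin m × Fin m => Finset.Icc (-M) M).card : ℝ) := by
        exact_mod_cast hcard
    _ = (2 * (M : ℝ) + 1) ^ (m ^ 2) := hbox
    _ ≤ ((2 * (K * C) + 1) * ρ) ^ (m ^ 2) := by
        have h1 : (0 : ℝ) ≤ M := by exact_mod_cast hM0
        apply pow_le_pow_left₀ (by positivity)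
        have h2 : (M : ℝ) ≤ K * (C * ρ) := by
          rw [hM]
          exact Int.floor_le _
        nlinarith
    _ = (2 * (K * C) + 1) ^ (m ^ 2) * (n : ℝ) ^ m := by
        rw [mul_pow, pow_two, pow_mul ρ, hρm]

end Pool.Agent.H34.GM
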