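import Pool.Agent.H34.GM.Targets2
import Pool.Agent.H34.GM.HAC

/-!
Row UNF of gmf_modules (MP_52e316_nt): unfolding over a fundamental domain.
-/

set_option autoImplicit false

namespace Pool.Agent.H34.GM

open MeasureTheory

private lemma unf_mt {m : ℕ} (a : Mat m) (z : V m) : mt (hac_lm a z) = a * mt z := by
  ext i j
  rfl

private lemma unf_comp {m : ℕ} (a c : Mat m) (z : V m) :
    hac_lm a (hac_lm c z) = hac_lm (a * c) z := by
  funext i j
  show (a * mt (hac_lm c z)) i j = (a * c * mt z) i j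
  rw [unf_mt, Matrix.mul_assoc]

private lemma unf_one {m : ℕ} (z : V m) : hac_lm (1 : Mat m) z = z := by
  funext i j
  show ((1 : Mat m) * mt z) i j = z i j
  rw [Matrix.one_mul]
  rfl

private lemma unf_aN {m : ℕ} (a : Mat m) (ha : |a.det| = 1) (z : V m) :
    aN (mt (hac_lm a z)) = aN (mt z) := by
  unfold aN
  rw [unf_mt, Matrix.det_mul, abs_mul, ha, one_mul]

private lemma unf_inv_mem {m : ℕ} {O : Subring (Mat m)} {γ : Mat m} (h : γ ∈ UnitsOf O) :
    γ⁻¹ ∈ UnitsOf O ∧ γ * γ⁻¹ = 1 ∧ γ⁻¹ * γ = 1 := by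
  obtain ⟨hγ, δ, hδ, h1, h2⟩ := h
  have e : γ⁻¹ = δ := Matrix.inv_eq_right_inv h1
  rw [e]
  exact ⟨⟨hδ, γ, hγ, h2, h1⟩, h1, h2⟩

/-- inversion of the units -/
private noncomputable def unf_eq {m : ℕ} (O : Subring (Mat m)) : UnitsOf O ≃ UnitsOf O where
  toFun γ := ⟨(γ : Mat m)⁻¹, (unf_inv_mem γ.2).1⟩
  invFun γ := ⟨(γ : Mat m)⁻¹, (unf_inv_mem γ.2).1⟩
  left_inv := by
    rintro ⟨γ, hγ⟩
    have hd : IsUnit γ.det := by
      have h := congrArg Matrix.det (unf_inv_mem hγ).2.1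
      rw [Matrix.det_mul, Matrix.det_one] at h
      exact IsUnit.of_mul_eq_one _ h
    exact Subtype.ext (Matrix.nonsing_inv_nonsing_inv _ hd)
  right_inv := by
    rintro ⟨γ, hγ⟩
    have hd : IsUnit γ.det := by
      have h := congrArg Matrix.det (unf_inv_mem hγ).2.1
      rw [Matrix.det_mul, Matrix.det_one] at h
      exact IsUnit.of_mul_eq_one _ h
    exact Subtype.ext (Matrix.nonsing_inv_nonsing_inv _ hd)

theorem pf_UNF : T_NRD → T_MSR → T_HAR → T_UNF := by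
  intro hNRD hMSR hHAR m O b hm1 hO D hD
  have hcnt : Countable (UnitsOf O) := (hMSR.2.1 m O b hO).2
  have hdet1 : ∀ γ ∈ UnitsOf O, |γ.det| = 1 := (hNRD m O b hm1 hO).2.2.2
  have hdet0 : ∀ γ : UnitsOf O, (γ : Mat m).det ≠ 0 := fun γ h => by
    have := hdet1 γ γ.2
    rw [h, abs_zero] at this
    exact zero_ne_one this
  -- the pieces `γ D`
  set E : UnitsOf O → Set (V m) := fun γ => hac_lm ((γ : Mat m)⁻¹) ⁻¹' D with hE
  have hEm : ∀ γ, MeasurableSet (E γ) := fun γ => hac_meas_lm _ hD.meas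
  have hcover : Shell m = ⋃ γ, E γ := by
    ext z
    rw [Set.mem_iUnion]
    constructor
    · intro hz
      obtain ⟨γ, ⟨hγ, hγD⟩, -⟩ := hD.fund z hz.1 hz.2
      refine ⟨unf_eq O ⟨γ, hγ⟩, ?_⟩
      have h1 : (((unf_eq O ⟨γ, hγ⟩ : UnitsOf O) : Mat m))⁻¹ = γ :=
        congrArg Subtype.val ((unf_eq O).left_inv ⟨γ, hγ⟩)
      show hac_lm (((unf_eq O ⟨γ, hγ⟩ : UnitsOf O) : Mat m))⁻¹ z ∈ D
      rw [h1]
      exact hγD
    · rintro ⟨γ, hγ⟩
      have h2 := hD.shell _ hγ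
      have h3 := unf_aN ((γ : Mat m)⁻¹) (hdet1 _ (unf_inv_mem γ.2).1) z
      rw [h3] at h2
      exact h2
  have hdisj : Pairwise (fun γ γ' => Disjoint (E γ) (E γ')) := by
    intro γ γ' hne
    rw [Set.disjoint_left]
    intro w hw hw'
    apply hne
    have hsh : w ∈ Shell m := by
      rw [hcover]
      exact Set.mem_iUnion.2 ⟨γ, hw⟩
    obtain ⟨g0, -, huniq⟩ := hD.fund w hsh.1 hsh.2
    have e1 : ((γ : Mat m))⁻¹ = g0 := huniq _ ⟨(unf_inv_mem γ.2).1, hw⟩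
    have e2 : ((γ' : Mat m))⁻¹ = g0 := huniq _ ⟨(unf_inv_mem γ'.2).1, hw'⟩
    exact (unf_eq O).injective (Subtype.ext (e1.trans e2.symm))
  have hmp : ∀ γ : UnitsOf O,
      MeasurePreserving (hac_le (γ : Mat m) (hdet0 γ)) (hm m) (hm m) := fun γ =>
    hac_mp_of _ fun g hg => ((hHAR m hm1).1 (γ : Mat m) (hdet0 γ) g hg).1
  have hpre : ∀ γ : UnitsOf O, (hac_le (γ : Mat m) (hdet0 γ)) ⁻¹' (E γ) = D := by
    intro γ
    ext z
    have h1 : hac_lm ((γ : Mat m)⁻¹) (hac_lm (γ : Mat m) z) = z := by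
      rw [unf_comp, (unf_inv_mem γ.2).2.2, unf_one]
    show hac_lm ((γ : Mat m)⁻¹) (hac_lm (γ : Mat m) z) ∈ D ↔ z ∈ D
    rw [h1]
  -- non negative functions
  have part1 : ∀ f : V m → ENNReal, Measurable f →
      ∫⁻ z in Shell m, f z ∂(hm m) =
        ∫⁻ z in D, ∑' γ : UnitsOf O, f (fun i j => ((γ : Mat m) * mt z) i j) ∂(hm m) := by
    intro f hf
    have hg : ∀ γ : UnitsOf O, Measurable fun z => f (hac_lm (γ : Mat m) z) := fun γ =>
      hf.comp (hac_meas_lm _)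
    have h2 : ∫⁻ z in D, ∑' γ : UnitsOf O, f (hac_lm (γ : Mat m) z) ∂(hm m) =
        ∑' γ : UnitsOf O, ∫⁻ z in D, f (hac_lm (γ : Mat m) z) ∂(hm m) :=
      lintegral_tsum fun γ => (hg γ).aemeasurable
    have h3 : ∀ γ : UnitsOf O, ∫⁻ z in D, f (hac_lm (γ : Mat m) z) ∂(hm m) =
        ∫⁻ z in E γ, f z ∂(hm m) := by
      intro γ
      have h4 := (hmp γ).setLIntegral_comp_preimage (hEm γ) hf
      rw [hpre γ] at h4
      exact h4
    show ∫⁻ z in Shell m, f z ∂(hm m) =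
      ∫⁻ z in D, ∑' γ : UnitsOf O, f (hac_lm (γ : Mat m) z) ∂(hm m)
    rw [h2, tsum_congr h3, hcover, lintegral_iUnion hEm hdisj]
  refine ⟨part1, ?_⟩
  intro f hf
  show IntegrableOn (fun z => ∑' γ : UnitsOf O, f (hac_lm (γ : Mat m) z)) D (hm m) ∧
    (∀ᵐ z ∂((hm m).restrict D), Summable fun γ : UnitsOf O => f (hac_lm (γ : Mat m) z)) ∧
    ∫ z in Shell m, f z ∂(hm m) =
      ∫ z in D, ∑' γ : UnitsOf O, f (hac_lm (γ : Mat m) z) ∂(hm m)
  -- a measurable representative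
  set g : V m → ℂ := hf.1.mk f with hgd
  have hgm : Measurable g := hf.1.stronglyMeasurable_mk.measurable
  have hfg : f =ᵐ[(hm m).restrict (Shell m)] g := hf.1.ae_eq_mk
  have hfgD : ∀ᵐ z ∂((hm m).restrict D), ∀ γ : UnitsOf O,
      f (hac_lm (γ : Mat m) z) = g (hac_lm (γ : Mat m) z) := by
    rw [ae_all_iff]
    intro γ
    have h1 : MeasurePreserving (hac_le (γ : Mat m) (hdet0 γ)) ((hm m).restrict D)
        ((hm m).restrict (E γ)) := by
      have := (hmp γ).restrict_preimage (hEm γ)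
      rwa [hpre γ] at this
    have h2 : f =ᵐ[(hm m).restrict (E γ)] g := by
      refine ae_restrict_of_ae_restrict_of_subset ?_ hfg
      rw [hcover]
      exact Set.subset_iUnion E γ
    exact h1.quasiMeasurePreserving.ae h2
  have hgi : IntegrableOn g (Shell m) (hm m) := hf.congr hfg
  have hgme : ∀ γ : UnitsOf O, Measurable fun z => g (hac_lm (γ : Mat m) z) := fun γ =>
    hgm.comp (hac_meas_lm _)
  have hL : ∫⁻ z in D, ∑' γ : UnitsOf O, ‖g (hac_lm (γ : Mat m) z)‖ₑ ∂(hm m) < ⊤ := by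
    have h1 := part1 (fun z => ‖g z‖ₑ) hgm.enorm
    have h2 : ∫⁻ z in D, ∑' γ : UnitsOf O, ‖g (hac_lm (γ : Mat m) z)‖ₑ ∂(hm m) =
        ∫⁻ z in Shell m, ‖g z‖ₑ ∂(hm m) := h1.symm
    rw [h2]
    exact hgi.2
  have hsumE : ∀ᵐ z ∂((hm m).restrict D),
      ∑' γ : UnitsOf O, ‖g (hac_lm (γ : Mat m) z)‖ₑ < ⊤ :=
    ae_lt_top (Measurable.tsum fun γ => (hgme γ).enorm) hL.ne
  have hsumN : ∀ᵐ z ∂((hm m).restrict D),
      Summable fun γ : UnitsOf O => ‖g (hac_lm (γ : Mat m) z)‖ := by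
    filter_upwards [hsumE] with z hz
    exact tsum_enorm_ne_top_iff_summable_norm.1 hz.ne
  have hS : Measurable fun z => ∑' γ : UnitsOf O, g (hac_lm (γ : Mat m) z) :=
    Measurable.tsum hgme
  have hSi : IntegrableOn (fun z => ∑' γ : UnitsOf O, g (hac_lm (γ : Mat m) z)) D (hm m) := by
    refine ⟨hS.aestronglyMeasurable, ?_⟩
    refine lt_of_le_of_lt (lintegral_mono_ae ?_) hL
    filter_upwards [hsumN] with z hz
    exact enorm_tsum_le_tsum_enorm
  have hcong : (fun z => ∑' γ : UnitsOf O, f (hac_lm (γ : Mat m) z)) =ᵐ[(hm m).restrict D]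
      fun z => ∑' γ : UnitsOf O, g (hac_lm (γ : Mat m) z) := by
    filter_upwards [hfgD] with z hz
    exact tsum_congr hz
  refine ⟨hSi.congr hcong.symm, ?_, ?_⟩
  · filter_upwards [hfgD, hsumN] with z hz hz'
    exact (hz'.of_norm).congr fun γ => (hz γ).symm
  · rw [integral_congr_ae hfg, integral_congr_ae hcong, integral_tsum
      (fun γ => (hgme γ).aestronglyMeasurable)]
    · have h3 : ∀ γ : UnitsOf O, ∫ z in D, g (hac_lm (γ : Mat m) z) ∂(hm m) =
          ∫ z in E γ, g z ∂(hm m) := by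
        intro γ
        have h4 := (hmp γ).setIntegral_preimage_emb
          (hac_le (γ : Mat m) (hdet0 γ)).measurableEmbedding g (E γ)
        rw [hpre γ] at h4
        exact h4
      rw [tsum_congr h3, hcover]
      refine integral_iUnion hEm hdisj ?_
      rw [← hcover]
      exact hgi
    · rw [← lintegral_tsum fun γ => (hgme γ).enorm.aemeasurable]
      exact hL.ne

end Pool.Agent.H34.GM
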