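import Pool.Agent.H34.GM.Targets2

/-!
Row WCT of the board gmf_modules: properties of the Gauss sum operator.
-/

namespace Pool.Agent.H34.GM

open MeasureTheory Finset

namespace WCTaux

variable {R : Type} [Ring R] [Fintype R]

omit [Fintype R] in
/-- conjugate of a character value -/
theorem conj_ps {ps : R → ℂ} (h0 : ps 0 = 1) (hadd : ∀ x y, ps (x + y) = ps x * ps y)
    (hn : ∀ x, ‖ps x‖ = 1) (x : R) : (starRingEnd ℂ) (ps x) = ps (-x) := by
  have h1 : ps x * ps (-x) = 1 := by rw [← hadd, add_neg_cancel, h0]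
  have h2 : ps x * (starRingEnd ℂ) (ps x) = 1 := by
    rw [Complex.mul_conj, Complex.normSq_eq_norm_sq, hn]; simp
  have hne : ps x ≠ 0 := by
    intro h
    have := hn x
    rw [h, norm_zero] at this
    exact zero_ne_one this
  exact mul_left_cancel₀ hne (h2.trans h1.symm)

/-- orthogonality -/
theorem orth_ps {ps : R → ℂ} (h0 : ps 0 = 1) (hadd : ∀ x y, ps (x + y) = ps x * ps y)
    (hnd : ∀ x, (∀ y, ps (x * y) = 1) → x = 0) [DecidableEq R] (w : R) :
    ∑ a : R, ps (w * a) = if w = 0 then (Fintype.card R : ℂ) else 0 := by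
  split_ifs with hw
  · subst hw
    simp [h0]
  · have : ∃ y, ps (w * y) ≠ 1 := by
      by_contra hcon
      push Not at hcon
      exact hw (hnd w hcon)
    obtain ⟨y, hy⟩ := this
    have h1 : ∑ a : R, ps (w * a) = ps (w * y) * ∑ a : R, ps (w * a) := by
      rw [Finset.mul_sum]
      rw [← Equiv.sum_comp (Equiv.addRight y) (fun a => ps (w * a))]
      refine Finset.sum_congr rfl fun a _ => ?_
      simp only [Equiv.coe_addRight]
      rw [mul_add, hadd, mul_comm]
    have h2 : (1 - ps (w * y)) * ∑ a : R, ps (w * a) = 0 := by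
      rw [sub_mul, one_mul, ← h1, sub_self]
    rcases mul_eq_zero.mp h2 with h3 | h3
    · exact absurd (sub_eq_zero.mp h3).symm hy
    · exact h3

/-- Plancherel -/
theorem planch {ps : R → ℂ} (h0 : ps 0 = 1) (hadd : ∀ x y, ps (x + y) = ps x * ps y)
    (hn : ∀ x, ‖ps x‖ = 1)
    (hnd : ∀ x, (∀ y, ps (x * y) = 1) → x = 0) (f : R → ℂ) :
    ∑ a : R, ‖∑ y, ps (y * a) * f y‖ ^ 2 = (Fintype.card R : ℝ) * ∑ y, ‖f y‖ ^ 2 := by
  classical
  have key : ((∑ a : R, ‖∑ y, ps (y * a) * f y‖ ^ 2 : ℝ) : ℂ) =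
      (((Fintype.card R : ℝ) * ∑ y, ‖f y‖ ^ 2 : ℝ) : ℂ) := by
    push_cast
    have e1 : ∀ a : R, ((‖∑ y, ps (y * a) * f y‖ : ℝ) : ℂ) ^ 2 =
        ∑ y, ∑ z, f y * (starRingEnd ℂ) (f z) * ps ((y - z) * a) := by
      intro a
      have : ((‖∑ y, ps (y * a) * f y‖ : ℝ) : ℂ) ^ 2 =
          (∑ y, ps (y * a) * f y) * (starRingEnd ℂ) (∑ y, ps (y * a) * f y) := by
        rw [Complex.mul_conj, Complex.normSq_eq_norm_sq]
        push_cast
        rfl
      rw [this, map_sum, Finset.sum_mul_sum]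
      refine Finset.sum_congr rfl fun y _ => Finset.sum_congr rfl fun z _ => ?_
      rw [map_mul, conj_ps h0 hadd hn, sub_mul, sub_eq_add_neg, hadd]
      ring
    simp_rw [e1]
    rw [Finset.sum_comm]
    have e2 : ∀ y : R, ∑ a : R, ∑ z, f y * (starRingEnd ℂ) (f z) * ps ((y - z) * a) =
        (Fintype.card R : ℂ) * ((‖f y‖ : ℝ) : ℂ) ^ 2 := by
      intro y
      rw [Finset.sum_comm]
      have e3 : ∀ z : R, ∑ a : R, f y * (starRingEnd ℂ) (f z) * ps ((y - z) * a) =
          if z = y then (Fintype.card R : ℂ) * ((‖f y‖ : ℝ) : ℂ) ^ 2 else 0 := by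
        intro z
        rw [← Finset.mul_sum, orth_ps h0 hadd hnd]
        by_cases hz : z = y
        · subst hz
          rw [if_pos (sub_self _), if_pos rfl, Complex.mul_conj, Complex.normSq_eq_norm_sq]
          push_cast
          ring
        · rw [if_neg hz, if_neg, mul_zero]
          intro h
          exact hz (sub_eq_zero.mp h).symm
      rw [Finset.sum_congr rfl fun z _ => e3 z, Finset.sum_ite_eq']
      simp
    rw [Finset.sum_congr rfl fun y _ => e2 y, Finset.mul_sum]
  exact_mod_cast key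

end WCTaux

open WCTaux in
theorem pf_WCT : T_UNQ → T_PSI → T_WCT := by
  classical
  intro hUNQ hPSI m q O b d R _ _ π σ hO hL f hf
  obtain ⟨-, p0, padd, pn, pcomm, pnd⟩ := hPSI m O b d q R π σ hO hL
  obtain ⟨hcard, -⟩ := hUNQ m O b q R π σ hO.one_le hO.ord hL.two_le hL.red
  refine ⟨fun x hx => by simp [opW, hx], fun v x => ?_, ?_⟩
  · by_cases hx : IsUnit x
    · have hvx : IsUnit ((v : R) * x) := v.isUnit.mul hx
      simp only [opW, if_pos hx, if_pos hvx]
      congr 1
      obtain ⟨u, rfl⟩ := hx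
      have hinv : Ring.inverse ((v : R) * (u : R)) = ((u⁻¹ : Rˣ) : R) * ((v⁻¹ : Rˣ) : R) := by
        rw [← Units.val_mul, Ring.inverse_unit, mul_inv_rev, Units.val_mul]
      rw [hinv, Ring.inverse_unit]
      rw [← Equiv.sum_comp (Units.mulLeft v) (fun y => psi q σ (y * (((u⁻¹ : Rˣ) : R) *
        ((v⁻¹ : Rˣ) : R))) * f y)]
      refine Finset.sum_congr rfl fun y _ => ?_
      simp only [Units.mulLeft_apply]
      congr 1
      rw [← mul_assoc, pcomm _ ((v⁻¹ : Rˣ) : R), mul_assoc, ← mul_assoc ((v⁻¹ : Rˣ) : R),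
        Units.inv_mul, one_mul]
    · have hvx : ¬ IsUnit ((v : R) * x) := by
        rw [Units.isUnit_units_mul]
        exact hx
      simp only [opW, if_neg hx, if_neg hvx]
  · have hq : (0 : ℝ) < q := by
      have := hL.two_le
      exact_mod_cast (by omega : 0 < q)
    set c : ℝ := (q : ℝ) ^ (-((m : ℝ) ^ 2) / 2) with hc
    have hc0 : 0 ≤ c := (Real.rpow_pos_of_pos hq _).le
    have hc2 : c ^ 2 * (Fintype.card R : ℝ) = 1 := by
      rw [hcard, hc, ← Real.rpow_natCast, ← Real.rpow_mul hq.le]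
      push_cast
      rw [← Real.rpow_natCast (q : ℝ) (m ^ 2), ← Real.rpow_add hq]
      push_cast
      have : -((m : ℝ) ^ 2) / 2 * 2 + (m : ℝ) ^ 2 = 0 := by ring
      rw [this, Real.rpow_zero]
    have hterm : ∀ x : R, ‖opW (m := m) q σ f x‖ ^ 2 =
        if IsUnit x then c ^ 2 * ‖∑ y, psi q σ (y * Ring.inverse x) * f y‖ ^ 2 else 0 := by
      intro x
      by_cases hx : IsUnit x
      · simp only [opW, if_pos hx]
        rw [norm_mul, mul_pow, ← hc, Complex.norm_real, Real.norm_of_nonneg hc0]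
      · simp [opW, hx]
    rw [Finset.sum_congr rfl fun x _ => hterm x, ← Finset.sum_filter]
    have hinj : Set.InjOn (Ring.inverse : R → R)
        ((Finset.univ.filter fun x : R => IsUnit x : Finset R) : Set R) := by
      intro x hx y hy hxy
      have hx' : IsUnit x := by simpa using hx
      have hy' : IsUnit y := by simpa using hy
      obtain ⟨u, rfl⟩ := hx'
      obtain ⟨v, rfl⟩ := hy'
      rw [Ring.inverse_unit, Ring.inverse_unit] at hxy
      have h1 : u⁻¹ = v⁻¹ := Units.ext hxy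
      rw [inv_inj.mp h1]
    calc ∑ x ∈ Finset.univ.filter (fun x : R => IsUnit x),
          c ^ 2 * ‖∑ y, psi q σ (y * Ring.inverse x) * f y‖ ^ 2
        = ∑ a ∈ (Finset.univ.filter (fun x : R => IsUnit x)).image Ring.inverse,
          c ^ 2 * ‖∑ y, psi q σ (y * a) * f y‖ ^ 2 := by
          rw [Finset.sum_image hinj]
      _ ≤ ∑ a : R, c ^ 2 * ‖∑ y, psi q σ (y * a) * f y‖ ^ 2 :=
          Finset.sum_le_sum_of_subset_of_nonneg (Finset.subset_univ _)
            fun _ _ _ => by positivity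
      _ = ∑ x, ‖f x‖ ^ 2 := by
          rw [← Finset.mul_sum, planch p0 padd pn pnd, ← mul_assoc, hc2, one_mul]

end Pool.Agent.H34.GM
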