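import Pool.Agent.H17.GM.FNT
import Pool.Agent.H17.GM.HS
import Pool.Agent.H17.GM.MNK
import Pool.Agent.H34.GM.BBD
import Pool.Agent.H34.GM.BDD
import Pool.Agent.H34.GM.BES
import Pool.Agent.H34.GM.CONv
import Pool.Agent.H34.GM.COV
import Pool.Agent.H34.GM.DID
import Pool.Agent.H34.GM.DUA
import Pool.Agent.H34.GM.EG1
import Pool.Agent.H34.GM.EIG
import Pool.Agent.H34.GM.EN
import Pool.Agent.H34.GM.EXD
import Pool.Agent.H34.GM.EXR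
import Pool.Agent.H34.GM.EXT
import Pool.Agent.H34.GM.FIC
import Pool.Agent.H34.GM.FTD
import Pool.Agent.H34.GM.GC
import Pool.Agent.H34.GM.GLU
import Pool.Agent.H34.GM.HAC
import Pool.Agent.H34.GM.HOL
import Pool.Agent.H34.GM.HSA
import Pool.Agent.H34.GM.HSB
import Pool.Agent.H34.GM.HSL
import Pool.Agent.H34.GM.LMB
import Pool.Agent.H34.GM.LVL
import Pool.Agent.H34.GM.MEL
import Pool.Agent.H34.GM.MOM
import Pool.Agent.H34.GM.MSR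
import Pool.Agent.H34.GM.PK
import Pool.Agent.H34.GM.PLC
import Pool.Agent.H34.GM.POI
import Pool.Agent.H34.GM.PRF
import Pool.Agent.H34.GM.PSI
import Pool.Agent.H34.GM.PWC
import Pool.Agent.H34.GM.PWN
import Pool.Agent.H34.GM.SMA
import Pool.Agent.H34.GM.TA4
import Pool.Agent.H34.GM.TD4
import Pool.Agent.H34.GM.TH1
import Pool.Agent.H34.GM.THC
import Pool.Agent.H34.GM.TNB
import Pool.Agent.H34.GM.UNF
import Pool.Agent.H34.GM.UNQ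
import Pool.Agent.H34.GM.WCM
import Pool.Agent.H34.GM.WCT
import Pool.Agent.H34.GM.ZLB
import Pool.Agent.H34.GM.ZMT
import Pool.Agent.H38.GM.NRD
import Pool.Agent.H38.GM.PLR
import Pool.Agent.H44.GMF.HAR
import Pool.Agent.H72.GM.CHP
import Pool.Agent.H76.GM.CMP
import Pool.Agent.H86.GMF.BMP
import Pool.Agent.H86.GMF.SPL

/-!
All rows of the board gmf: the fourth moment on GL(m) over the forms of principal level of a
division algebra (MP_52e316_nt).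
-/

namespace Pool.Agent.H34.GM

theorem a_MSR : T_MSR := Pool.Agent.H34.GM.pf_MSR 
theorem a_CHP : T_CHP := Pool.Agent.H34.GM.pf_CHP 
theorem a_NRD : T_NRD := Pool.Agent.H34.GM.pf_NRD a_CHP
theorem a_PK : T_PK := Pool.Agent.H34.GM.pf_PK 
theorem a_FIC : T_FIC := Pool.Agent.H34.GM.pf_FIC a_CHP a_NRD
theorem a_MNK : T_MNK := Pool.Agent.H17.GM.pf_MNK 
theorem a_CMP : T_CMP := Pool.Agent.H76.GM.pf_CMP a_NRD a_FIC a_MNK
theorem a_HAR : T_HAR := Pool.Agent.H44.GMF.pf_HAR 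
theorem a_COV : T_COV := Pool.Agent.H34.GM.pf_COV a_MSR a_HAR
theorem a_FNT : T_FNT := Pool.Agent.H17.GM.pf_FNT a_NRD a_PK a_CMP a_MSR a_HAR a_COV
theorem a_BBD : T_BBD := Pool.Agent.H34.GM.pf_BBD a_MSR a_FNT
theorem a_BDD : T_BDD := Pool.Agent.H34.GM.pf_BDD a_NRD a_CMP
theorem a_BES : T_BES := Pool.Agent.H34.GM.pf_BES 
theorem a_BMP : T_BMP := Pool.Agent.H86.GMF.pf_BMP 
theorem a_CON : T_CON := Pool.Agent.H34.GM.pf_CON 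
theorem a_UNQ : T_UNQ := Pool.Agent.H34.GM.pf_UNQ a_CHP a_NRD
theorem a_PSI : T_PSI := Pool.Agent.H34.GM.pf_PSI a_NRD
theorem a_DUA : T_DUA := Pool.Agent.H34.GM.pf_DUA a_NRD a_PSI
theorem a_FTD : T_FTD := Pool.Agent.H34.GM.pf_FTD 
theorem a_UNF : T_UNF := Pool.Agent.H34.GM.pf_UNF a_NRD a_MSR a_HAR
theorem a_PWC : T_PWC := Pool.Agent.H34.GM.pf_PWC 
theorem a_TH1 : T_TH1 := Pool.Agent.H34.GM.pf_TH1 a_MSR a_HAR a_PWC
theorem a_HAC : T_HAC := Pool.Agent.H34.GM.pf_HAC a_HAR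
theorem a_PLR : T_PLR := Pool.Agent.H34.GM.pf_PLR a_MSR a_HAR
theorem a_PLC : T_PLC := Pool.Agent.H34.GM.pf_PLC a_MSR a_HAR a_PLR
theorem a_EG1 : T_EG1 := Pool.Agent.H34.GM.pf_EG1 a_MSR a_HAR a_HAC a_PLC a_PWC
theorem a_EIG : T_EIG := Pool.Agent.H34.GM.pf_EIG a_NRD a_UNQ a_UNF a_TH1 a_EG1
theorem a_POI : T_POI := Pool.Agent.H34.GM.pf_POI a_DUA
theorem a_DID : T_DID := Pool.Agent.H34.GM.pf_DID a_UNQ a_PSI a_DUA a_MSR a_FNT a_BDD a_BMP a_FTD a_EIG a_POI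
theorem a_EN : T_EN := Pool.Agent.H34.GM.pf_EN a_PK
theorem a_EXD : T_EXD := Pool.Agent.H34.GM.pf_EXD a_MSR a_NRD
theorem a_EXR : T_EXR := Pool.Agent.H34.GM.pf_EXR 
theorem a_EXT : T_EXT := Pool.Agent.H34.GM.pf_EXT a_CMP a_NRD
theorem a_GC : T_GC := Pool.Agent.H34.GM.pf_GC a_PK
theorem a_PWN : T_PWN := Pool.Agent.H34.GM.pf_PWN 
theorem a_ZLB : T_ZLB := Pool.Agent.H34.GM.pf_ZLB a_HAR a_PWN a_BMP
theorem a_ZMT : T_ZMT := Pool.Agent.H34.GM.pf_ZMT a_MSR a_HAR a_PLC a_PWC a_TH1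
theorem a_THC : T_THC := Pool.Agent.H34.GM.pf_THC a_TH1
theorem a_TNB : T_TNB := Pool.Agent.H34.GM.pf_TNB a_NRD a_CMP
theorem a_LMB : T_LMB := Pool.Agent.H34.GM.pf_LMB a_BDD a_TNB
theorem a_SMA : T_SMA := Pool.Agent.H34.GM.pf_SMA a_FTD a_BDD a_BBD a_DID
theorem a_MEL : T_MEL := Pool.Agent.H34.GM.pf_MEL a_TH1 a_ZMT
theorem a_GLU : T_GLU := Pool.Agent.H34.GM.pf_GLU a_BMP a_ZLB a_ZMT a_THC a_LMB a_SMA a_CON a_MEL
theorem a_HOL : T_HOL := Pool.Agent.H34.GM.pf_HOL 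
theorem a_HSL : T_HSL := Pool.Agent.H34.GM.pf_HSL a_UNQ a_EN a_GC
theorem a_HS : T_HS := Pool.Agent.H17.GM.pf_HS a_NRD a_CMP a_MSR a_HAR a_COV a_HSL
theorem a_HSA : T_HSA := Pool.Agent.H34.GM.pf_HSA a_MSR a_BDD a_FNT a_HS a_BES
theorem a_HSB : T_HSB := Pool.Agent.H34.GM.pf_HSB a_UNQ a_DUA a_MSR a_FNT a_HS a_BES a_BDD a_BBD
theorem a_SPL : T_SPL := Pool.Agent.H86.GMF.pf_SPL a_BMP a_THC a_SMA a_CON
theorem a_TA4 : T_TA4 := Pool.Agent.H34.GM.pf_TA4 a_BMP a_EIG a_HSA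
theorem a_WCT : T_WCT := Pool.Agent.H34.GM.pf_WCT a_UNQ a_PSI
theorem a_WCM : T_WCM := Pool.Agent.H34.GM.pf_WCM a_PSI a_DUA a_UNQ a_MSR a_FNT
theorem a_TD4 : T_TD4 := Pool.Agent.H34.GM.pf_TD4 a_FTD a_BDD a_DID a_WCT a_BBD a_WCM a_HSB
theorem a_LVL : T_LVL := Pool.Agent.H34.GM.pf_LVL a_BMP a_THC a_SPL a_HOL a_TA4 a_TD4
theorem a_PRF : T_PRF := Pool.Agent.H34.GM.pf_PRF 
theorem a_MOM : T_MOM := Pool.Agent.H34.GM.pf_MOM a_PRF a_ZLB a_GLU a_LVL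

end Pool.Agent.H34.GM
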