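import Mathlib

/-!
Definitions for the fourth moment on GL(m) over the forms of principal level q of a division algebra.
See the page H34_GM.md.
-/

namespace Pool.Agent.H34.GM

open MeasureTheory

/-- real m x m matrices -/
abbrev Mat (m : ℕ) := Matrix (Fin m) (Fin m) ℝ

/-- the same space with its measure and norm -/
abbrev V (m : ℕ) := Fin m → Fin m → ℝ

/-- the matrix of a point of V -/
abbrev mt {m : ℕ} (z : V m) : Mat m := Matrix.of z

/-- size of a matrix: the maximum of the absolute values of the entries -/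
noncomputable def sz {m : ℕ} (z : Mat m) : ℝ := ‖((fun i j => z i j) : V m)‖

/-- `O` is an order of a central division algebra of degree `m` over the rationals, split at
infinity, with the integral basis `b` -/
structure DivOrder (m : ℕ) (O : Subring (Mat m))
    (b : Module.Basis (Fin m × Fin m) ℝ (Mat m)) : Prop where
  lat : ∀ x : Mat m, x ∈ O ↔ ∀ i, ∃ n : ℤ, b.repr x i = n
  dvn : ∀ x ∈ O, x ≠ 0 → x.det ≠ 0

/-- the units of `O` -/
def UnitsOf {m : ℕ} (O : Subring (Mat m)) : Set (Mat m) :=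
  {γ | γ ∈ O ∧ ∃ δ ∈ O, γ * δ = 1 ∧ δ * γ = 1}

/-- normalised determinant `|det z|^(1/m)` -/
noncomputable def aN {m : ℕ} (z : Mat m) : ℝ := |z.det| ^ (1 / (m : ℝ))

/-- Haar measure of `GL_m(R)`: `|det z|^(-m) dz` -/
noncomputable def hm (m : ℕ) : Measure (V m) :=
  (volume : Measure (V m)).withDensity (fun z => ENNReal.ofReal ((|(mt z).det| ^ m)⁻¹))

/-- leading principal minors of `zᵀ z` -/
noncomputable def mnr {m : ℕ} (z : Mat m) (j : ℕ) : ℝ :=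
  if h : j ≤ m then ((z.transpose * z).submatrix (Fin.castLE h) (Fin.castLE h)).det else 0

/-- the power function: `∏ a_j ^ (-mu_j + (2j-m-1)/2)` for `z = k a`, `k` orthogonal, `a` upper
triangular with positive diagonal `a_1, …, a_m` (and `j = 1, …, m`) -/
noncomputable def pw {m : ℕ} (mu : Fin m → ℂ) (z : Mat m) : ℂ :=
  ∏ j : Fin m, ((mnr z ((j : ℕ) + 1) / mnr z (j : ℕ) : ℝ) : ℂ) ^
    ((-(mu j) + (2 * ((j : ℕ) + 1 : ℂ) - m - 1) / 2) / 2)

/-- `e(x) = exp (2 pi i x)` -/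
noncomputable def ee (x : ℝ) : ℂ := Complex.exp (2 * Real.pi * Complex.I * x)

/-- `R` is `O / q O`, with the reduction `π` and a section `σ` -/
structure Red (m q : ℕ) (O : Subring (Mat m)) {R : Type} [Ring R] (π : Mat m → R)
    (σ : R → Mat m) : Prop where
  one : π 1 = 1
  add : ∀ α ∈ O, ∀ β ∈ O, π (α + β) = π α + π β
  mul : ∀ α ∈ O, ∀ β ∈ O, π (α * β) = π α * π β
  ker : ∀ α ∈ O, (π α = 0 ↔ ∃ w ∈ O, α = (q : ℝ) • w)
  sec : ∀ y, σ y ∈ O ∧ π (σ y) = y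

/-- `T n` is a set of representatives of the left classes `γ α`, `γ` a unit, of the elements of
`O` with `|det| = n` -/
structure Reps (m : ℕ) (O : Subring (Mat m)) (T : ℕ → Finset (Mat m)) : Prop where
  mem : ∀ n : ℕ, 1 ≤ n → ∀ α ∈ T n, α ∈ O ∧ |α.det| = n
  uniq : ∀ n : ℕ, 1 ≤ n → ∀ β ∈ O, |β.det| = n → ∃! α, α ∈ T n ∧ ∃ γ ∈ UnitsOf O, β = γ * α

/-- bi-invariant test functions with compact support in `GL_m(R)` -/
structure Tst (m : ℕ) (k : Mat m → ℂ) : Prop where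
  cont : Continuous k
  supp : ∃ c : ℝ, 0 < c ∧ ∀ z, k z ≠ 0 → sz z ≤ c ∧ c⁻¹ ≤ |z.det|
  left : ∀ u : Mat m, u * u.transpose = 1 → ∀ z, k (u * z) = k z
  right : ∀ u : Mat m, u * u.transpose = 1 → ∀ z, k (z * u) = k z

/-- the additive character of `R = O/qO` given by the trace -/
noncomputable def psi {m : ℕ} (q : ℕ) {R : Type} (σ : R → Mat m) (a : R) : ℂ :=
  ee ((σ a).trace / q)

/-- Hecke eigenforms on `O^× \ (GL_m(R) × (O/qO)^×)`, spherical at infinity with parameter `mu`,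
primitive at `q` -/
structure Form (m q : ℕ) (O : Subring (Mat m)) {R : Type} [Ring R] [Fintype R] (π : Mat m → R)
    (σ : R → Mat m) (T : ℕ → Finset (Mat m)) (F : Mat m → R → ℂ) (lam : ℕ → ℂ)
    (mu : Fin m → ℂ) : Prop where
  cont : ∀ x, ContinuousOn (fun g => F g x) {g | g.det ≠ 0}
  supp : ∀ g x, ¬ IsUnit x → F g x = 0
  auto : ∀ γ ∈ UnitsOf O, ∀ g x, g.det ≠ 0 → F (γ * g) (π γ * x) = F g x
  scal : ∀ r : ℝ, 0 < r → ∀ g x, g.det ≠ 0 → F (r • g) x = F g x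
  orth : ∀ k : Mat m, k * k.transpose = 1 → ∀ g x, g.det ≠ 0 → F (g * k) x = F g x
  hecke : ∀ n : ℕ, 1 ≤ n → n.Coprime q → ∀ g x, g.det ≠ 0 →
    ∑ α ∈ T n, F (α * g) (π α * x) = (n : ℂ) ^ (((m : ℂ) - 1) / 2) * lam n * F g x
  tr0 : ∑ j, mu j = 0
  arch : ∀ k : Mat m → ℂ, Tst m k → ∀ g x, g.det ≠ 0 →
    ∫ z, k (mt z) * F (g * (mt z)⁻¹) x ∂(hm m) = F g x * ∫ z, k (mt z) * pw mu (mt z) ∂(hm m)
  prim : ∀ a : R, ¬ IsUnit a → ∀ g, g.det ≠ 0 → ∑ y, psi q σ (a * y) * F g y = 0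

/-- `D` is a strict fundamental domain of the units of `O` on the shell `1 ≤ |det z|^(1/m) < e` -/
structure Dom (m : ℕ) (O : Subring (Mat m)) (D : Set (V m)) : Prop where
  meas : MeasurableSet D
  shell : ∀ z ∈ D, 1 ≤ aN (mt z) ∧ aN (mt z) < Real.exp 1
  fund : ∀ z : V m, 1 ≤ aN (mt z) → aN (mt z) < Real.exp 1 →
    ∃! γ, γ ∈ UnitsOf O ∧ ((fun i j => (γ * mt z) i j) : V m) ∈ D

/-- orthonormality in `L²(D × R)` -/
def Orthn {m : ℕ} {R : Type} [Fintype R] {ι : Type} [DecidableEq ι] (D : Set (V m))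
    (F : ι → Mat m → R → ℂ) : Prop :=
  (∀ i j x, IntegrableOn (fun z => F i (mt z) x * (starRingEnd ℂ) (F j (mt z) x)) D (hm m)) ∧
  ∀ i j, ∑ x : R, ∫ z in D, F i (mt z) x * (starRingEnd ℂ) (F j (mt z) x) ∂(hm m) =
    if i = j then 1 else 0

/-- `L` is the L-function of the Hecke eigenvalues `lam` -/
def IsL (m q : ℕ) (lam : ℕ → ℂ) (L : ℂ → ℂ) : Prop :=
  Differentiable ℂ L ∧ ∀ s : ℂ, (m : ℝ) + 2 < s.re →
    HasSum (fun n : ℕ => if 1 ≤ n ∧ n.Coprime q then lam n * (n : ℂ) ^ (-s) else 0) (L s)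

/-- the argument of the kernel: `r⁻¹ h₁⁻¹ α g₁` with the normalised `h₁`, `g₁` -/
noncomputable def kk {m : ℕ} (r : ℝ) (h α g : Mat m) : Mat m :=
  (r⁻¹ * aN h / aN g) • (h⁻¹ * α * g)

/-- the dual lattice of `O` for the trace form -/
def Dual {m : ℕ} (O : Subring (Mat m)) : Set (Mat m) :=
  {β | ∀ y ∈ O, ∃ k : ℤ, (β * y).trace = k}

/-- Fourier transform on the matrices -/
noncomputable def ft {m : ℕ} (Φ : Mat m → ℂ) (w : Mat m) : ℂ :=
  ∫ z : V m, Φ (mt z) * ee (-(w * mt z).trace)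

/-- the bump functions near the orthogonal group -/
noncomputable def bump (m : ℕ) (χ : ℝ → ℝ) (δ : ℝ) (z : Mat m) : ℂ :=
  (χ ((∑ i, ∑ j, ((z.transpose * z - 1) i j) ^ 2) / δ ^ 2) : ℝ)

/-- the profile of the bump functions -/
structure Prof (χ : ℝ → ℝ) : Prop where
  smooth : ContDiff ℝ ((⊤ : ℕ∞) : WithTop ℕ∞) χ
  lo : ∀ x, 0 ≤ χ x
  hi : ∀ x, χ x ≤ 1
  one : ∀ x, |x| ≤ 1 / 4 → χ x = 1
  supp : ∀ x, 1 ≤ |x| → χ x = 0

/-- the size of the parameters -/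
noncomputable def psz {m : ℕ} (t : ℝ) (mu : Fin m → ℂ) : ℝ := 1 + |t| + ∑ j, ‖mu j‖

/-- an order together with its discriminant for the trace form -/
structure Ord (m : ℕ) (O : Subring (Mat m)) (b : Module.Basis (Fin m × Fin m) ℝ (Mat m))
    (d : ℤ) : Prop where
  one_le : 1 ≤ m
  ord : DivOrder m O b
  disc : (Matrix.of fun i j => (b i * b j).trace).det = (d : ℝ)

/-- a level `q` prime to the discriminant -/
structure Lev (m q : ℕ) (O : Subring (Mat m)) (d : ℤ) {R : Type} [Ring R] (π : Mat m → R)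
    (σ : R → Mat m) : Prop where
  two_le : 2 ≤ q
  cop : IsCoprime d (q : ℤ)
  red : Red m q O π σ

/-- the class of a dual element in `R` -/
noncomputable def bt {m : ℕ} (d : ℤ) {R : Type} [Ring R] (π : Mat m → R) (β : Mat m) : R :=
  Ring.inverse (d : R) * π ((d : ℝ) • β)

/-- covolume of the lattice with basis `b` -/
noncomputable def covol {m : ℕ} (b : Module.Basis (Fin m × Fin m) ℝ (Mat m)) : ℝ :=
  |(Matrix.of fun (i j : Fin m × Fin m) => (b i) j.1 j.2).det|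

open Classical in
/-- the majorant kernel -/
noncomputable def Kp {m : ℕ} (O : Subring (Mat m)) {R : Type} [Ring R] (π : Mat m → R) (u : Rˣ)
    (N r : ℝ) (g : Mat m) (x : Rˣ) (h : Mat m) (y : Rˣ) : ENNReal :=
  ∑' α : O, if π (α : Mat m) * (x : R) = (u : R) * (y : R) then
    ENNReal.ofReal ((1 + sz (kk r h (α : Mat m) g)) ^ (-N)) else 0

/-- the operator `A_r` -/
noncomputable def opA {m : ℕ} (O : Subring (Mat m)) {R : Type} [Ring R] (π : Mat m → R)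
    (Φ : Mat m → ℂ) (r : ℝ) (D : Set (V m)) (F : Mat m → R → ℂ) (g : Mat m) (x : R) : ℂ :=
  ∫ z in D, ∑' α : O, Φ (kk r (mt z) (α : Mat m) g) * F (mt z) (π (α : Mat m) * x) ∂(hm m)

open Classical in
/-- the operator `A'_r` -/
noncomputable def opB {m : ℕ} (O : Subring (Mat m)) (d : ℤ) {R : Type} [Ring R] (π : Mat m → R)
    (Φ : Mat m → ℂ) (r : ℝ) (D : Set (V m)) (F : Mat m → R → ℂ) (g : Mat m) (x : R) : ℂ :=
  ∫ z in D, ∑' β : Dual O, (if IsUnit (bt d π (β : Mat m)) then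
    Φ (kk r g (β : Mat m) (mt z)) * F (mt z) (Ring.inverse (bt d π (β : Mat m)) * x) else 0)
    ∂(hm m)

open Classical in
/-- the Gauss sum operator -/
noncomputable def opW {m : ℕ} (q : ℕ) {R : Type} [Ring R] [Fintype R] (σ : R → Mat m)
    (f : R → ℂ) (x : R) : ℂ :=
  if IsUnit x then
    (((q : ℝ) ^ (-((m : ℝ) ^ 2) / 2) : ℝ) : ℂ) * ∑ y, psi q σ (y * Ring.inverse x) * f y
  else 0

/-- the shell -/
def Shell (m : ℕ) : Set (V m) := {z | 1 ≤ aN (mt z) ∧ aN (mt z) < Real.exp 1}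

/-- the local transform at infinity -/
noncomputable def th1 {m : ℕ} (Φ : Mat m → ℂ) (mu : Fin m → ℂ) (r : ℝ) : ℂ :=
  ∫ z in Shell m, Φ ((r⁻¹ * (aN (mt z))⁻¹) • mt z) * pw mu (mt z) ∂(hm m)

/-- the eigenvalue of `A_r` -/
noncomputable def thF {m : ℕ} (q : ℕ) (Φ : Mat m → ℂ) (mu : Fin m → ℂ) (lam : ℕ → ℂ) (r : ℝ) :
    ℂ :=
  ∑' n : ℕ, if 1 ≤ n ∧ n.Coprime q then
    (n : ℂ) ^ (((m : ℂ) - 1) / 2) * lam n * th1 Φ mu (r * (n : ℝ) ^ (-(1 / (m : ℝ)))) else 0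

/-- the dual eigenvalue -/
noncomputable def thD {m : ℕ} (b : Module.Basis (Fin m × Fin m) ℝ (Mat m)) (q : ℕ)
    (Φ : Mat m → ℂ) (mu : Fin m → ℂ) (lam : ℕ → ℂ) (r : ℝ) : ℂ :=
  ((covol b * (q : ℝ) ^ ((m : ℝ) ^ 2 / 2) * ((q : ℝ) / r) ^ (-((m : ℝ) ^ 2)) : ℝ) : ℂ) *
    thF q Φ mu lam ((q : ℝ) / r)

/-- the local zeta integral at infinity -/
noncomputable def Zf {m : ℕ} (Φ : Mat m → ℂ) (mu : Fin m → ℂ) (s : ℂ) : ℂ :=
  ∫ z, Φ (mt z) * ((|(mt z).det| : ℝ) : ℂ) ^ (s + ((m : ℂ) - 1) / 2) * pw mu (mt z) ∂(hm m)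

/-- the completed function -/
noncomputable def Lm {m : ℕ} (q : ℕ) (Φ : Mat m → ℂ) (mu : Fin m → ℂ) (lam : ℕ → ℂ) (s : ℂ) : ℂ :=
  ∫ r in Set.Ioi (0 : ℝ), thF q Φ mu lam r *
    ((r : ℝ) : ℂ) ^ (-((m : ℂ) * (s + ((m : ℂ) - 1) / 2)) - 1)

end Pool.Agent.H34.GM
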