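import Pool.Agent.H34.GM.Targets3

/-!
Row EXR of gmf_modules (MP_52e316_nt): the residue ring of an order exists.
-/

set_option autoImplicit false

namespace Pool.Agent.H34.GM

/-- the ideal generated by `q` -/
def exr_I {m : ℕ} (q : ℕ) (O : Subring (Mat m)) : Ideal O := Ideal.span {(q : O)}

theorem exr_mem {m : ℕ} {q : ℕ} {O : Subring (Mat m)} (x : O) :
    x ∈ exr_I q O ↔ ∃ w : O, w * (q : O) = x := by
  unfold exr_I
  exact Ideal.mem_span_singleton'

instance exr_two {m : ℕ} (q : ℕ) (O : Subring (Mat m)) : (exr_I q O).IsTwoSided where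
  mul_mem_of_left := by
    intro a b ha
    obtain ⟨w, hw⟩ := (exr_mem a).1 ha
    refine (exr_mem _).2 ⟨w * b, ?_⟩
    rw [← hw, mul_assoc, mul_assoc, Nat.cast_comm]

theorem exr_finite {m q : ℕ} {O : Subring (Mat m)} {b : Module.Basis (Fin m × Fin m) ℝ (Mat m)}
    (hO : DivOrder m O b) (hq : 1 ≤ q) : Finite (O ⧸ exr_I q O) := by
  have hin : ∀ c : Fin m × Fin m → ℤ, (∑ i, (c i : ℝ) • b i) ∈ O := by
    intro c
    refine (hO.lat _).2 fun i => ⟨c i, ?_⟩
    simp [Finsupp.single_apply]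
  let g : (Fin m × Fin m → Fin q) → O ⧸ exr_I q O := fun c =>
    Ideal.Quotient.mk (exr_I q O) ⟨∑ i, (((c i : ℕ) : ℤ) : ℝ) • b i, hin fun i => ((c i : ℕ) : ℤ)⟩
  refine Finite.of_surjective g fun y => ?_
  obtain ⟨x, rfl⟩ := Ideal.Quotient.mk_surjective y
  choose n hn using (hO.lat x.1).1 x.2
  have hq0 : (0 : ℤ) < q := by exact_mod_cast hq
  have hlt : ∀ i, (n i % q).toNat < q := by
    intro i
    have h1 := Int.emod_nonneg (n i) hq0.ne'
    have h2 := Int.emod_lt_of_pos (n i) hq0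
    omega
  refine ⟨fun i => ⟨(n i % q).toNat, hlt i⟩, ?_⟩
  show Ideal.Quotient.mk (exr_I q O) _ = Ideal.Quotient.mk (exr_I q O) x
  refine (Ideal.Quotient.eq).2 ((exr_mem _).2 ⟨⟨∑ i, ((-(n i / q) : ℤ) : ℝ) • b i,
    hin fun i => -(n i / q)⟩, ?_⟩)
  refine Subtype.ext ?_
  have hx : (x : Mat m) = ∑ i, (n i : ℝ) • b i := by
    conv_lhs => rw [← b.sum_repr (x : Mat m)]
    exact Finset.sum_congr rfl fun i _ => by rw [hn i]
  have hcast : ((q : O) : Mat m) = (q : ℝ) • (1 : Mat m) := by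
    have : ((q : O) : Mat m) = ((q : ℕ) : Mat m) := by simp
    rw [this]
    ext i j
    simp [Matrix.natCast_apply, Matrix.one_apply]
  show (∑ i, ((-(n i / q) : ℤ) : ℝ) • b i) * ((q : O) : Mat m) =
    (∑ i, (((n i % q).toNat : ℤ) : ℝ) • b i) - (x : Mat m)
  rw [hx, hcast, Matrix.mul_smul, Matrix.mul_one, Finset.smul_sum, ← Finset.sum_sub_distrib]
  refine Finset.sum_congr rfl fun i _ => ?_
  rw [smul_smul, ← sub_smul]
  congr 1
  have h1 := Int.emod_nonneg (n i) hq0.ne'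
  rw [Int.toNat_of_nonneg h1]
  have h2 := Int.mul_ediv_add_emod (n i) q
  have h3 : ((n i : ℤ) : ℝ) = (q : ℝ) * ((n i / q : ℤ) : ℝ) + ((n i % q : ℤ) : ℝ) := by
    exact_mod_cast h2.symm
  rw [h3]
  push_cast
  ring

theorem pf_EXR : T_EXR := by
  classical
  intro m q O b _ hO hq
  have := exr_finite hO hq
  refine ⟨O ⧸ exr_I q O, inferInstance, Fintype.ofFinite _,
    fun x => if h : x ∈ O then Ideal.Quotient.mk (exr_I q O) ⟨x, h⟩ else 0,
    fun y => ((Classical.choose (Ideal.Quotient.mk_surjective y) : O) : Mat m), ?_⟩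
  refine ⟨?_, ?_, ?_, ?_, ?_⟩
  · rw [dif_pos O.one_mem]
    exact map_one _
  · intro α hα β hβ
    rw [dif_pos hα, dif_pos hβ, dif_pos (O.add_mem hα hβ), ← map_add]
    rfl
  · intro α hα β hβ
    rw [dif_pos hα, dif_pos hβ, dif_pos (O.mul_mem hα hβ), ← map_mul]
    rfl
  · intro α hα
    rw [dif_pos hα, Ideal.Quotient.eq_zero_iff_mem, exr_mem]
    have hcast : ((q : O) : Mat m) = (q : ℝ) • (1 : Mat m) := by
      have : ((q : O) : Mat m) = ((q : ℕ) : Mat m) := by simp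
      rw [this]
      ext i j
      simp [Matrix.natCast_apply, Matrix.one_apply]
    constructor
    · rintro ⟨w, hw⟩
      refine ⟨w, w.2, ?_⟩
      have h := congrArg (Subtype.val) hw
      change (w : Mat m) * ((q : O) : Mat m) = α at h
      rw [← h, hcast, Matrix.mul_smul, Matrix.mul_one]
    · rintro ⟨w, hw, h⟩
      refine ⟨⟨w, hw⟩, Subtype.ext ?_⟩
      show w * ((q : O) : Mat m) = α
      rw [h, hcast, Matrix.mul_smul, Matrix.mul_one]
  · intro y
    refine ⟨Subtype.property _, ?_⟩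
    rw [dif_pos (Subtype.property _)]
    exact Classical.choose_spec (Ideal.Quotient.mk_surjective y)

end Pool.Agent.H34.GM
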