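import Pool.Agent.H53.GM.Targets

/-!
# The Ramsey theorem for good systems
-/

set_option autoImplicit false
set_option linter.unusedVariables false

namespace Pool.Agent.H34.GM

open Pool.Agent.H53.GM
open Classical

theorem lg_zero {Q 𝒦 W₀ W : Type} {K : Cls Q 𝒦} {N : ℕ} {G : (W : Type) → Sy Q 𝒦 W → Prop}
    (hG : Axs K N G) [Nonempty W₀] (C₀ : Sy Q 𝒦 W₀) (E : Sy Q 𝒦 W) (h0 : G W₀ C₀)
    (hf : ∀ G κ, E.gd G κ → ∃ g, C₀.gd g κ ∧ g.image C₀.pt = G.image E.pt) : LG G 0 E := by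
  intro U hU
  have hU0 : U = ∅ := Finset.card_eq_zero.1 (Nat.le_zero.1 hU)
  subst hU0
  obtain ⟨w₀⟩ := ‹Nonempty W₀›
  refine hG.g1 W W₀ _ C₀ (fun _ => w₀) ?_ h0
  intro g κ hg
  have hg0 : g = ∅ := by
    apply Finset.eq_empty_of_forall_notMem
    intro x hx
    have := hg.2 x hx
    simp at this
  subst hg0
  obtain ⟨g', h1, h2⟩ := hf ∅ κ hg.1
  have hg' : g' = ∅ := by
    rw [Finset.image_empty, Finset.image_eq_empty] at h2
    exact h2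
  subst hg'
  refine ⟨?_, fun x hx => absurd hx (Finset.notMem_empty x)⟩
  rw [Finset.image_empty]
  exact h1

theorem pf_RAM (hRM0 : Pool.Agent.H53.GM.T_RM0) (hSTP : Pool.Agent.H53.GM.T_STP) :
    Pool.Agent.H53.GM.T_RAM := by
  intro Q 𝒦 _ _ K N G hG W₀ Y _ _ _ C₀ κ₀ hS hGd h0
  obtain ⟨W, hW, E₀, hE, hfac, hRam⟩ := hRM0 Q 𝒦 K W₀ Y C₀ hS
  have key : ∀ m : ℕ, ∃ (W : Type) (_ : Finite W) (E : Sy Q 𝒦 W),
      IsSys K E ∧ LG G m E ∧ Ram C₀ Y E := by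
    intro m
    induction m with
    | zero => exact ⟨W, hW, E₀, hE, lg_zero hG C₀ E₀ hGd hfac, hRam⟩
    | succ m ih =>
      obtain ⟨W', hW', E', h1, h2, h3⟩ := ih
      exact hSTP Q 𝒦 K N G hG W₀ Y W' C₀ κ₀ E' m hS hGd h0 h1 h2 h3
  obtain ⟨W', hW', E', h1, h2, h3⟩ := key N
  exact ⟨W', hW', E', h1, hG.g2 W' E' h1 h2, h3⟩

end Pool.Agent.H34.GM
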