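import Pool.Agent.H34.GM.Targets2

/-!
Targets of the board gmf, third part: the objects exist.
-/

namespace Pool.Agent.H34.GM

open MeasureTheory

/-- the residue ring exists -/
def T_EXR : Prop := ∀ (m q : ℕ) (O : Subring (Mat m)) (b : Module.Basis (Fin m × Fin m) ℝ (Mat m)),
  1 ≤ m → DivOrder m O b → 1 ≤ q →
    ∃ (R : Type) (_ : Ring R) (_ : Fintype R) (π : Mat m → R) (σ : R → Mat m), Red m q O π σ

/-- representatives exist -/
def T_EXT : Prop := ∀ (m : ℕ) (O : Subring (Mat m)) (b : Module.Basis (Fin m × Fin m) ℝ (Mat m)),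
  1 ≤ m → DivOrder m O b → ∃ T : ℕ → Finset (Mat m), Reps m O T

/-- strict measurable fundamental domains exist -/
def T_EXD : Prop := ∀ (m : ℕ) (O : Subring (Mat m)) (b : Module.Basis (Fin m × Fin m) ℝ (Mat m)),
  1 ≤ m → DivOrder m O b → ∃ D : Set (V m), Dom m O D

end Pool.Agent.H34.GM
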