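import Pool.Agent.H34.GM.Targets

/-!
Row UNQ: the number of elements of the residue ring, and its units.
-/

set_option autoImplicit false

namespace Pool.Agent.H34.GM

namespace UNQ

variable {m : ℕ} {O : Subring (Mat m)} {b : Module.Basis (Fin m × Fin m) ℝ (Mat m)} {q : ℕ}
  {R : Type} [Ring R] {π : Mat m → R} {σ : R → Mat m}

theorem aeval_mem {α : Mat m} (hα : α ∈ O) (p : Polynomial ℤ) :
    Polynomial.aeval α p ∈ O := by
  rw [Polynomial.aeval_eq_sum_range]
  refine O.sum_mem fun i _ => ?_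
  exact O.zsmul_mem (O.pow_mem hα i) _

/-- an integral quasi-inverse -/
theorem two_inv (CHP : T_CHP) (hm : 1 ≤ m) (hO : DivOrder m O b) {α : Mat m}
    (hα : α ∈ O) {n : ℕ} (hn : |α.det| = n) : ∃ β ∈ O, ∃ k : ℤ, |k| = n ∧
      α * β = ((k : ℤ) : Mat m) ∧ β * α = ((k : ℤ) : Mat m) := by
  obtain ⟨p, hp⟩ := CHP m O b hm hO α hα
  have h1 : Polynomial.aeval α p = 0 := by
    have h2 := Matrix.aeval_self_charpoly α
    rw [← hp, ← algebraMap_int_eq, Polynomial.aeval_map_algebraMap] at h2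
    exact h2
  have h3 : Polynomial.aeval α p.divX * α + ((p.coeff 0 : ℤ) : Mat m) = 0 := by
    rw [← h1]
    conv_rhs => rw [← Polynomial.divX_mul_X_add p]
    rw [map_add, map_mul, Polynomial.aeval_X, Polynomial.aeval_C]
    simp
  have h3' : α * Polynomial.aeval α p.divX + ((p.coeff 0 : ℤ) : Mat m) = 0 := by
    rw [← h1]
    conv_rhs => rw [← Polynomial.divX_mul_X_add p]
    rw [map_add, ← Polynomial.X_mul, map_mul, Polynomial.aeval_X, Polynomial.aeval_C]
    simp
  have h4 : |((p.coeff 0 : ℤ) : ℝ)| = n := by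
    have h5 := Matrix.det_eq_sign_charpoly_coeff α
    rw [← hp, Polynomial.coeff_map] at h5
    rw [h5, abs_mul, abs_pow, abs_neg, abs_one, one_pow, one_mul] at hn
    simpa using hn
  refine ⟨Polynomial.aeval α p.divX, aeval_mem hα _, -(p.coeff 0), ?_, ?_, ?_⟩
  · rw [abs_neg]
    have : ((|p.coeff 0| : ℤ) : ℝ) = ((n : ℤ) : ℝ) := by push_cast; exact h4
    exact_mod_cast this
  · rw [Int.cast_neg]; exact eq_neg_of_add_eq_zero_left h3'
  · rw [Int.cast_neg]; exact eq_neg_of_add_eq_zero_left h3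

/-- the reduction as a ring homomorphism on `O` -/
noncomputable def red (h : Red m q O π σ) : O →+* R where
  toFun a := π a
  map_one' := h.one
  map_mul' a c := h.mul a a.2 c c.2
  map_zero' := by
    have h1 := h.add 0 O.zero_mem 0 O.zero_mem
    rw [add_zero] at h1
    exact (left_eq_add.mp h1)
  map_add' a c := h.add a a.2 c c.2

theorem red_apply (h : Red m q O π σ) (a : O) : red h a = π a := rfl

theorem red_q (h : Red m q O π σ) : ((q : ℕ) : R) = 0 := by
  have h1 : red h ((q : ℕ) : O) = ((q : ℕ) : R) := map_natCast _ _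
  rw [← h1, red_apply]
  have h2 : (((q : ℕ) : O) : Mat m) = (q : ℝ) • (1 : Mat m) := by
    rw [Subring.coe_natCast, Nat.cast_smul_eq_nsmul, nsmul_one]
  rw [h2]
  exact (h.ker _ (by rw [← h2]; exact (((q : ℕ) : O)).2)).mpr ⟨1, O.one_mem, rfl⟩

/-- `det (1 + q w)` is congruent to one modulo `q` -/
theorem det_one_add (CHP : T_CHP) (hm : 1 ≤ m) (hO : DivOrder m O b) {w : Mat m} (hw : w ∈ O) :
    ∃ k : ℤ, (1 + (q : ℝ) • w).det = 1 + q * k := by
  obtain ⟨p, hp⟩ := CHP m O b hm hO w hw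
  have hpm : p.Monic := by
    have h1 := Matrix.charpoly_monic w
    rw [← hp] at h1
    exact Polynomial.monic_of_injective (RingHom.injective_int _) h1
  have hrev : w.charpolyRev = p.reverse.map (Int.castRingHom ℝ) := by
    rw [← Matrix.reverse_charpoly, ← hp]
    simp only [Polynomial.reverse, Polynomial.natDegree_map_eq_of_injective
      (RingHom.injective_int (Int.castRingHom ℝ))]
    exact (Polynomial.reflect_map _ _ _)
  have h2 : (1 + (q : ℝ) • w).det = Polynomial.eval (-(q : ℝ)) w.charpolyRev := by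
    rw [Matrix.charpolyRev, ← Polynomial.coe_evalRingHom, RingHom.map_det]
    congr 1
    ext i j
    simp [Matrix.one_apply]
    split_ifs <;> simp [mul_comm]
  have h3 : Polynomial.eval (-(q : ℝ)) w.charpolyRev
      = ((Polynomial.eval (-(q : ℤ)) p.reverse : ℤ) : ℝ) := by
    rw [hrev, Polynomial.eval_map]
    have : (-(q : ℝ)) = Int.castRingHom ℝ (-(q : ℤ)) := by simp
    rw [this, Polynomial.eval₂_at_apply]
    rfl
  obtain ⟨k, hk⟩ := Polynomial.sub_dvd_eval_sub (-(q : ℤ)) 0 p.reverse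
  have h4 : Polynomial.eval 0 p.reverse = 1 := by
    rw [← Polynomial.coeff_zero_eq_eval_zero, Polynomial.coeff_zero_reverse]
    exact hpm
  refine ⟨-k, ?_⟩
  rw [h2, h3]
  rw [h4] at hk
  have h5 : Polynomial.eval (-(q : ℤ)) p.reverse = 1 + (-(q : ℤ) - 0) * k := by linarith
  rw [h5]
  push_cast
  ring

theorem card_eq (hO : DivOrder m O b) (hq : 2 ≤ q) [Fintype R] (h : Red m q O π σ) :
    Fintype.card R = q ^ (m ^ 2) := by
  classical
  have : NeZero q := ⟨by omega⟩
  have hsub : ∀ α ∈ O, ∀ β ∈ O, π (α - β) = π α - π β := by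
    intro α hα β hβ
    have := map_sub (red h) ⟨α, hα⟩ ⟨β, hβ⟩
    simpa [red_apply] using this
  -- integral coordinates
  have hfl : ∀ α ∈ O, ∀ i, ((⌊b.repr α i⌋ : ℤ) : ℝ) = b.repr α i := by
    intro α hα i
    obtain ⟨n, hn⟩ := (hO.lat α).mp hα i
    rw [hn, Int.floor_intCast]
  let f : R → (Fin m × Fin m → ZMod q) := fun y i => ((⌊b.repr (σ y) i⌋ : ℤ) : ZMod q)
  have key : ∀ α ∈ O, ∀ β ∈ O, (π α = π β ↔
      ∀ i, ((⌊b.repr α i⌋ : ℤ) : ZMod q) = ((⌊b.repr β i⌋ : ℤ) : ZMod q)) := by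
    intro α hα β hβ
    rw [← sub_eq_zero, ← hsub α hα β hβ, h.ker _ (O.sub_mem hα hβ)]
    constructor
    · rintro ⟨w, hw, hwe⟩ i
      obtain ⟨k, hk⟩ := (hO.lat w).mp hw i
      have h1 : b.repr α i - b.repr β i = q * k := by
        have := congrArg (fun x => b.repr x i) hwe
        simpa [hk] using this
      rw [← hfl α hα i, ← hfl β hβ i] at h1
      have h2 : ⌊b.repr α i⌋ - ⌊b.repr β i⌋ = (q : ℤ) * k := by exact_mod_cast h1
      have h3 : ((⌊b.repr α i⌋ - ⌊b.repr β i⌋ : ℤ) : ZMod q) = 0 := by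
        rw [h2]; simp
      rw [Int.cast_sub, sub_eq_zero] at h3
      exact h3
    · intro hi
      have h1 : ∀ i, ∃ k : ℤ, ⌊b.repr α i⌋ - ⌊b.repr β i⌋ = (q : ℤ) * k := by
        intro i
        have h2 : ((⌊b.repr α i⌋ - ⌊b.repr β i⌋ : ℤ) : ZMod q) = 0 := by
          rw [Int.cast_sub, hi i, sub_self]
        rw [ZMod.intCast_zmod_eq_zero_iff_dvd] at h2
        exact h2
      choose k hk using h1
      have hq0 : (q : ℝ) ≠ 0 := by
        have : q ≠ 0 := by omega
        exact_mod_cast this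
      refine ⟨(q : ℝ)⁻¹ • (α - β), (hO.lat _).mpr fun i => ⟨k i, ?_⟩, ?_⟩
      · have h3 : b.repr α i - b.repr β i = q * k i := by
          rw [← hfl α hα i, ← hfl β hβ i]
          exact_mod_cast hk i
        rw [map_smul, map_sub, Finsupp.smul_apply, Finsupp.sub_apply, h3, smul_eq_mul,
          inv_mul_cancel_left₀ hq0]
      · rw [smul_inv_smul₀ hq0]
  have hinj : Function.Injective f := by
    intro y y' hy
    have h1 := (key (σ y) (h.sec y).1 (σ y') (h.sec y').1).mpr fun i => congrFun hy i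
    rwa [(h.sec y).2, (h.sec y').2] at h1
  have hsurj : Function.Surjective f := by
    intro g
    let α : Mat m := ∑ i, (((g i).val : ℕ) : ℝ) • b i
    have hr : ∀ i, b.repr α i = (((g i).val : ℕ) : ℝ) := by
      intro i
      simp only [α]
      rw [Module.Basis.repr_sum_self]
    have hα : α ∈ O := (hO.lat α).mpr fun i => ⟨((g i).val : ℤ), by rw [hr i]; simp⟩
    refine ⟨π α, ?_⟩
    have h1 := (key (σ (π α)) (h.sec _).1 α hα).mp (h.sec (π α)).2
    funext i
    have h2 := h1 i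
    simp only [f]
    rw [h2, hr i]
    have : ⌊(((g i).val : ℕ) : ℝ)⌋ = ((g i).val : ℤ) := by
      rw [Int.floor_natCast]
    rw [this]
    simp
  rw [Fintype.card_of_bijective ⟨hinj, hsurj⟩, Fintype.card_fun, ZMod.card, Fintype.card_prod,
    Fintype.card_fin, sq]

end UNQ

open UNQ in
theorem pf_UNQ : T_CHP → T_NRD → T_UNQ := by
  intro CHP NRD m O b q R _ _ π σ hm hO hq h
  refine ⟨card_eq hO hq h, ?_⟩
  intro α hα n hn hdet
  constructor
  · intro hu
    obtain ⟨y, hy⟩ := hu.exists_right_inv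
    have hβ := (h.sec y).1
    have h1 : π (α * σ y) = π 1 := by
      rw [h.mul α hα _ hβ, (h.sec y).2, hy, h.one]
    have hαβ := O.mul_mem hα hβ
    have h2 : π (α * σ y - 1) = 0 := by
      have := map_sub (red h) ⟨α * σ y, hαβ⟩ ⟨1, O.one_mem⟩
      simp only [red_apply] at this
      have h3 : π (α * σ y - 1) = π (α * σ y) - π 1 := by simpa using this
      rw [h3, h1, sub_self]
    obtain ⟨w, hw, hwe⟩ := (h.ker _ (O.sub_mem hαβ O.one_mem)).mp h2
    have h4 : α * σ y = 1 + (q : ℝ) • w := by rw [← hwe]; abel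
    obtain ⟨k, hk⟩ := det_one_add (q := q) CHP hm hO hw
    rw [← h4, Matrix.det_mul] at hk
    obtain ⟨a, ha⟩ := (NRD m O b hm hO).2.1 α hα
    obtain ⟨c, hc⟩ := (NRD m O b hm hO).2.1 (σ y) hβ
    rw [ha, hc] at hk
    have h5 : a * c = 1 + q * k := by exact_mod_cast hk
    have h6 : |a| = n := by
      rw [ha] at hdet
      exact_mod_cast hdet
    have h7 : IsCoprime a (q : ℤ) := ⟨c, -k, by linear_combination h5⟩
    have h8 : IsCoprime (|a|) (q : ℤ) := by
      rcases abs_choice a with h9 | h9 <;> rw [h9]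
      · exact h7
      · exact h7.neg_left
    rw [h6] at h8
    exact Nat.isCoprime_iff_coprime.mp h8
  · intro hco
    obtain ⟨β, hβ, k, hk, h1, h2⟩ := two_inv CHP hm hO hα hdet
    have h3 : IsCoprime k (q : ℤ) := by
      have h4 : IsCoprime ((n : ℕ) : ℤ) (q : ℤ) := Nat.isCoprime_iff_coprime.mpr hco
      rw [← hk] at h4
      rcases abs_choice k with h9 | h9 <;> rw [h9] at h4
      · exact h4
      · simpa using h4.neg_left
    obtain ⟨u, v, huv⟩ := h3
    have hkR : ((u : ℤ) : R) * ((k : ℤ) : R) = 1 := by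
      have h5 := congrArg (fun z : ℤ => (z : R)) huv
      simp only [Int.cast_add, Int.cast_mul, Int.cast_one, Int.cast_natCast, red_q h, mul_zero,
        add_zero] at h5
      exact h5
    have ha : π α * π β = ((k : ℤ) : R) := by
      have h5 : red h (⟨α, hα⟩ * ⟨β, hβ⟩) = ((k : ℤ) : R) := by
        rw [← map_intCast (red h) k]
        congr 1
        apply Subtype.ext
        simpa using h1
      rw [map_mul] at h5
      exact h5
    have hb : π β * π α = ((k : ℤ) : R) := by
      have h5 : red h (⟨β, hβ⟩ * ⟨α, hα⟩) = ((k : ℤ) : R) := by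
        rw [← map_intCast (red h) k]
        congr 1
        apply Subtype.ext
        simpa using h2
      rw [map_mul] at h5
      exact h5
    have hcm : ((k : ℤ) : R) * ((u : ℤ) : R) = 1 := by
      rw [← hkR]; exact Int.cast_comm k _
    refine ⟨⟨π α, π β * ((u : ℤ) : R), ?_, ?_⟩, rfl⟩
    · rw [← mul_assoc, ha, hcm]
    · have h6 : ((u : ℤ) : R) * π α = π α * ((u : ℤ) : R) := Int.cast_comm u _
      rw [mul_assoc, h6, ← mul_assoc, hb, hcm]

end Pool.Agent.H34.GM
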